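import Pool.Agent.Lib.MP_5a9905_co.Defs

/-!
# Sausage project (MP_5a9905_co), module ANG: angles between near neighbours
-/

set_option autoImplicit false

open MeasureTheory Finset

namespace Pool.Agent.Saus

noncomputable section

variable {n : ℕ}

namespace ANG

theorem real_ineq {x a b : ℝ} (ha : 2 ≤ a) (hab : a ≤ b) (hx : b ^ 2 / 4 ≤ x) (hx2 : x ≤ 2) :
    (a ^ 2 + b ^ 2 - 4) / 2 ≤ (1 - 1 / (2 * x)) * (a * b) := by
  have hb : 2 ≤ b := ha.trans hab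
  have hx0 : 0 < x := by nlinarith
  have hb3 : b < 3 := by nlinarith
  have h1 : 0 ≤ 4 - (b - a) ^ 2 := by nlinarith
  have h2 : b * (b - a) ≤ 4 := by nlinarith
  have h3 : 0 ≤ b * (b - a) := mul_nonneg (by linarith) (by linarith)
  have h4 : 0 ≤ b * (b - a) * (1 - b * (b - a) / 4) := mul_nonneg h3 (by linarith)
  have h5 : b ^ 2 / 4 * (4 - (b - a) ^ 2) ≤ x * (4 - (b - a) ^ 2) :=
    mul_le_mul_of_nonneg_right hx h1
  have h6 : a * b ≤ x * (4 - (b - a) ^ 2) := by nlinarith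
  have h7 : a * b / (2 * x) ≤ 2 - (b - a) ^ 2 / 2 := by
    rw [div_le_iff₀ (by positivity)]
    nlinarith
  have h8 : (1 - 1 / (2 * x)) * (a * b) = a * b - a * b / (2 * x) := by ring
  rw [h8]
  nlinarith

end ANG

/-- D3 ANG. -/
theorem angle_near {Y : Finset (E (n + 2))} {K : Set (E (n + 2))} (hL : Loc (n + 2) Y K)
    {w w' : E (n + 2)} (hw : w ∈ Y) (hw' : w' ∈ Y) (hne : w ≠ w') {x : ℝ} (hx : x ≤ 2)
    (h : xi w ≤ x) (h' : xi w' ≤ x) :
    inner ℝ w w' ≤ (1 - 1 / (2 * x)) * (‖w‖ * ‖w'‖) := by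
  have h1 := hL.far w hw
  have h2 := hL.far w' hw'
  have h3 := hL.sep w hw w' hw' hne
  have h4 : ‖w - w'‖ ^ 2 = ‖w‖ ^ 2 - 2 * inner ℝ w w' + ‖w'‖ ^ 2 := norm_sub_sq_real w w'
  have h5 : (4 : ℝ) ≤ ‖w - w'‖ ^ 2 := by nlinarith
  have h6 : inner ℝ w w' ≤ (‖w‖ ^ 2 + ‖w'‖ ^ 2 - 4) / 2 := by linarith
  unfold xi at h h'
  rcases le_total ‖w‖ ‖w'‖ with hab | hab
  · exact h6.trans (ANG.real_ineq h1 hab h' hx)
  · have := ANG.real_ineq h2 hab h hx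
    rw [mul_comm ‖w'‖ ‖w‖] at this
    refine h6.trans (le_trans (le_of_eq ?_) this)
    ring

end

end Pool.Agent.Saus
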