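import Pool.Agent.Lib.MP_5a9905_co.Defs

/-! # Blichfeldt's inequality (module BLF) -/

namespace Pool.Agent.Saus

open scoped BigOperators

theorem blichfeldt {d : ℕ} (Y : Finset (E d)) (hsep : ∀ y ∈ Y, ∀ y' ∈ Y, y ≠ y' → 2 ≤ ‖y - y'‖)
    (z : E d) : ∑ y ∈ Y, max 0 (1 - ‖z - y‖ ^ 2 / 2) ≤ 1 := by
  classical
  set T : Finset (E d) := Y.filter (fun y => ‖z - y‖ ^ 2 < 2) with hT
  have hTY : T ⊆ Y := Finset.filter_subset _ _
  have h1 : ∑ y ∈ Y, max 0 (1 - ‖z - y‖ ^ 2 / 2) = ∑ y ∈ T, (1 - ‖z - y‖ ^ 2 / 2) := by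
    rw [hT, Finset.sum_filter]
    refine Finset.sum_congr rfl fun y _ => ?_
    split_ifs with h
    · exact max_eq_right (by linarith)
    · exact max_eq_left (by linarith [not_lt.mp h])
  rw [h1]
  rcases T.eq_empty_or_nonempty with h0 | hne
  · rw [h0]; simp
  have hm : (1 : ℝ) ≤ (T.card : ℝ) := by
    exact_mod_cast Finset.card_pos.mpr hne
  set m : ℝ := (T.card : ℝ) with hmdef
  -- the double sum identity
  have key : ∑ y ∈ T, ∑ y' ∈ T, ‖y - y'‖ ^ 2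
      = 2 * m * ∑ y ∈ T, ‖z - y‖ ^ 2 - 2 * ‖∑ y ∈ T, (z - y)‖ ^ 2 := by
    have e1 : ∀ y ∈ T, ∀ y' ∈ T, ‖y - y'‖ ^ 2
        = ‖z - y‖ ^ 2 + ‖z - y'‖ ^ 2 - 2 * inner ℝ (z - y) (z - y') := by
      intro y _ y' _
      have : y - y' = (z - y') - (z - y) := by abel
      rw [this, norm_sub_sq_real, real_inner_comm]
      ring
    rw [Finset.sum_congr rfl fun y hy => Finset.sum_congr rfl fun y' hy' => e1 y hy y' hy']
    have e2 : ‖∑ y ∈ T, (z - y)‖ ^ 2 = ∑ y ∈ T, ∑ y' ∈ T, inner ℝ (z - y) (z - y') := by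
      rw [← real_inner_self_eq_norm_sq, sum_inner]
      exact Finset.sum_congr rfl fun y _ => inner_sum _ _ _
    rw [e2]
    simp only [Finset.sum_sub_distrib, Finset.sum_add_distrib, Finset.sum_const, nsmul_eq_mul,
      ← Finset.mul_sum]
    rw [← hmdef]
    ring
  have hlow : 4 * (m * m - m) ≤ ∑ y ∈ T, ∑ y' ∈ T, ‖y - y'‖ ^ 2 := by
    have e3 : ∀ y ∈ T, 4 * (m - 1) ≤ ∑ y' ∈ T, ‖y - y'‖ ^ 2 := by
      intro y hy
      rw [← Finset.add_sum_erase T _ hy]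
      have : ∑ y' ∈ T.erase y, (4 : ℝ) ≤ ∑ y' ∈ T.erase y, ‖y - y'‖ ^ 2 := by
        refine Finset.sum_le_sum fun y' hy' => ?_
        have h2 := hsep y (hTY hy) y' (hTY (Finset.mem_of_mem_erase hy'))
          (Finset.ne_of_mem_erase hy').symm
        nlinarith
      rw [Finset.sum_const, nsmul_eq_mul, Finset.card_erase_of_mem hy,
        Nat.cast_sub (Finset.card_pos.mpr hne)] at this
      simp only [sub_self, norm_zero]
      push_cast at this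
      rw [← hmdef] at this
      linarith
    calc 4 * (m * m - m) = ∑ y ∈ T, 4 * (m - 1) := by
          rw [Finset.sum_const, nsmul_eq_mul, ← hmdef]; ring
      _ ≤ _ := Finset.sum_le_sum e3
  have hs : 2 * (m - 1) ≤ ∑ y ∈ T, ‖z - y‖ ^ 2 := by
    have h3 : 0 ≤ ‖∑ y ∈ T, (z - y)‖ ^ 2 := by positivity
    have h4 : 4 * (m * (m - 1)) ≤ 2 * (m * ∑ y ∈ T, ‖z - y‖ ^ 2) := by nlinarith
    have h5 : m * (2 * (m - 1)) ≤ m * ∑ y ∈ T, ‖z - y‖ ^ 2 := by linarith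
    exact le_of_mul_le_mul_left h5 (by linarith)
  rw [Finset.sum_sub_distrib, Finset.sum_const, nsmul_eq_mul, mul_one, ← Finset.sum_div, ← hmdef]
  linarith

end Pool.Agent.Saus
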