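import Mathlib

/-!
# Sausage conjecture project (MP_5a9905_co): definitions

`d = n + 2` throughout.  `kap m` is the volume of the unit ball of `ℝ^m`, `HC u` the half-cylinder
of radius one around the ray of the unit vector `u`, `Bl d R` the ball of radius `√R`,
`Loc` a local configuration: the other centres `y ∈ Y` as seen from a centre put at the origin,
and a convex body `K` containing all unit balls; `Vor Y` is the Voronoi cell of the origin.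
-/

set_option autoImplicit false

open MeasureTheory

namespace Pool.Agent.Saus

noncomputable section

/-- Euclidean space. -/
abbrev E (d : ℕ) := EuclideanSpace ℝ (Fin d)

/-- The volume of the unit ball of `ℝ^m`. -/
def kap (m : ℕ) : ℝ := volume.real (Metric.closedBall (0 : E m) 1)

/-- The ball of radius `√R` about the origin. -/
def Bl (d : ℕ) (R : ℝ) : Set (E d) := {z | ‖z‖ ^ 2 ≤ R}

/-- The half-cylinder of radius `1` around the ray spanned by the unit vector `u`. -/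
def HC {d : ℕ} (u : E d) : Set (E d) :=
  {z | 0 ≤ inner ℝ u z ∧ ‖z‖ ^ 2 ≤ (inner ℝ u z) ^ 2 + 1}

/-- The shell `1 + y₁ ≤ |z|² ≤ 1 + y₂` of the half-cylinder. -/
def HS {d : ℕ} (u : E d) (y₁ y₂ : ℝ) : Set (E d) :=
  {z | z ∈ HC u ∧ 1 + y₁ ≤ ‖z‖ ^ 2 ∧ ‖z‖ ^ 2 ≤ 1 + y₂}

/-- `x`-coordinate of a centre: the squared half distance. -/
def xi {d : ℕ} (w : E d) : ℝ := ‖w‖ ^ 2 / 4

/-- Local configuration at the centre `0`: `Y` are the other centres, `K` a convex body containing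
all the unit balls. -/
structure Loc (d : ℕ) (Y : Finset (E d)) (K : Set (E d)) : Prop where
  convex : Convex ℝ K
  closed : IsClosed K
  bounded : Bornology.IsBounded K
  ball_zero : Metric.closedBall (0 : E d) 1 ⊆ K
  ball : ∀ y ∈ Y, Metric.closedBall y 1 ⊆ K
  far : ∀ y ∈ Y, 2 ≤ ‖y‖
  sep : ∀ y ∈ Y, ∀ y' ∈ Y, y ≠ y' → 2 ≤ ‖y - y'‖

/-- The Voronoi cell of the origin with respect to `Y`. -/
def Vor {d : ℕ} (Y : Finset (E d)) : Set (E d) := {z | ∀ y ∈ Y, inner ℝ y z ≤ ‖y‖ ^ 2 / 2}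

/-- Upper bound (in units `kap (d-1)`) for the volume of the segment `⟪u,z⟫ > √x` of the ball of
radius `√R`. -/
def sg (d : ℕ) (R x : ℝ) : ℝ :=
  if x < R then (R - x) ^ (((d : ℝ) + 1) / 2) / (((d : ℝ) + 1) * √x) else 0

/-- Total cut at squared radius `R`. -/
def SS {d : ℕ} (Y : Finset (E d)) (R : ℝ) : ℝ := ∑ w ∈ Y, sg d R (xi w)

/-- Lower bound (in units `kap (d-1)`) for the Blichfeldt weight of a centre. -/
def gam (d : ℕ) (x : ℝ) : ℝ :=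
  2 * √2 * √x * ((1 - x / 2) ^ (((d : ℝ) + 1) / 2) / ((d : ℝ) * ((d : ℝ) + 1))
    + (1 - x / 2) ^ (((d : ℝ) + 3) / 2) / (((d : ℝ) + 1) * ((d : ℝ) + 3)))

/-- The slope integral `∫_τ^∞ (1 - y u²)₊^{n/2} du / (1 + u²)`. -/
def FF (n : ℕ) (y τ : ℝ) : ℝ :=
  ∫ u in Set.Ioi τ, (max 0 (1 - y * u ^ 2)) ^ ((n : ℝ) / 2) / (1 + u ^ 2)

/-- `q` bounds the overlap ratio at level `y` (and hence at all higher levels). -/
def QB (n : ℕ) (y τ q : ℝ) : Prop := 0 ≤ q ∧ q ≤ 1 ∧ FF n y τ ≤ q * FF n y 0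

/-- First standard basis vector. -/
def e0 (n : ℕ) : E (n + 2) := EuclideanSpace.single 0 1

/-- Volume of the half-cylinder inside the ball of squared radius `R`. -/
def hcv (n : ℕ) (R : ℝ) : ℝ := volume.real (HC (e0 n) ∩ Bl (n + 2) R)

/-- Volume of the segment `⟪u,z⟫ > 1` of the ball of radius `√2`. -/
def seg1 (n : ℕ) : ℝ := volume.real ({z | 1 < inner ℝ (e0 n) z} ∩ Bl (n + 2) 2)

/-- Blichfeldt weight of the direction of `z`. -/
def bw {n : ℕ} (w z : E (n + 2)) : ℝ := max 0 (1 - ‖√2 • (‖z‖⁻¹ • z) - w‖ ^ 2 / 2)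

/-- The second moment lower bound. -/
def tsmSum (n k J : ℕ) (y q : ℕ → ℝ) : ℝ :=
  ∑ j ∈ Finset.range J, (√(y (j + 1) + 2 / (n + 3)) - √(y j + 2 / (n + 3))) *
    ((k : ℝ) / (1 + ((k : ℝ) - 1) * q j))

/-- The real inequalities available when the local claim (N) fails. -/
structure Facts {ι : Type*} (n : ℕ) (I : Finset ι) (x : ι → ℝ) : Prop where
  one_le : ∀ i ∈ I, 1 ≤ x i
  tsm : ∀ (k : ℕ) (X τ : ℝ) (J : ℕ) (y q : ℕ → ℝ), 1 ≤ k → X ≤ 2 → 0 ≤ τ →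
    (4 * X - 1) * τ ^ 2 ≤ 1 → y 0 = 0 → (∀ j < J, y j ≤ y (j + 1)) → y J ≤ 1 →
    (∀ j < J, QB n (y j) τ (q j)) → k ≤ (I.filter (fun i => x i < X)).card →
    kap (n + 2) / kap (n + 1) + tsmSum n k J y q < 2 + ∑ i ∈ I, sg (n + 2) (1 + y J) (x i)
  bli : ∀ R : ℝ, 0 < R → R ≤ 2 →
    R ^ (((n : ℝ) + 2) / 2) * ∑ i ∈ I.filter (fun i => x i < 2), gam (n + 2) (x i)
      < 2 + ∑ i ∈ I, sg (n + 2) R (x i)

/-- Output of the numerical chain for `d = n + 2`: squared radius `R`, bounds `s`, `s₂`. -/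
def ChainOut (n : ℕ) (R s s₂ : ℝ) : Prop :=
  ∀ {ι : Type} (I : Finset ι) (x : ι → ℝ), Facts n I x →
    ∑ i ∈ I, sg (n + 2) R (x i) ≤ s ∧ ∑ i ∈ I, sg (n + 2) 2 (x i) ≤ s₂

/-- Final numerical inequalities for `d = n + 2`. -/
structure NumOut (n : ℕ) (R s s₂ : ℝ) : Prop where
  R1 : 1 ≤ R
  R2 : R ≤ 2
  narrow : (2 + s) * kap (n + 1)
    ≤ kap (n + 2) / 3 + hcv n R + Real.pi / 6 * kap n * (R - 1 + 2 / (n + 2))
  wide1 : (2 + s₂) * kap (n + 1) ≤ hcv n 2 + Real.pi / 4 * kap n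
  wide2 : (2 + s₂) * kap (n + 1) ≤ hcv n 2 + 3 / 4 * kap n
  flat : ∀ e : ℝ, 2 - 2 * √(7 / 8) ≤ e ^ 2 → 0 ≤ e → e ≤ 4 / 5 →
    (2 + s₂) * kap (n + 1) ≤ 2 * hcv n 2 + e * ((1 - 4 / (n + 2)) * kap n - e * kap (n + 1))
  ends : (1 + s₂) * kap (n + 1) + kap (n + 2) / 2
    ≤ 5 / 12 * kap (n + 2) + hcv n 2 + Real.pi / 12 * kap n * (1 + 2 / (n + 2))

/-- Step function sums for the numerical verification of `QB` (even dimension `n = 2 m`). -/
def upS (m K : ℕ) (y τ h : ℝ) : ℝ :=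
  ∑ i ∈ Finset.range K, h * (max 0 (1 - y * (τ + i * h) ^ 2)) ^ m / (1 + (τ + i * h) ^ 2)
def loS (m K : ℕ) (y τ : ℝ) : ℝ :=
  ∑ i ∈ Finset.range K, τ / K * (max 0 (1 - y * (τ * (i + 1) / K) ^ 2)) ^ m /
    (1 + (τ * (i + 1) / K) ^ 2)

end

end Pool.Agent.Saus
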