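import Pool.Agent.Lib.MP_5a9905_co.Defs

set_option autoImplicit false

open MeasureTheory Finset

namespace Pool.Agent.Saus

noncomputable section

variable {n : ℕ}

namespace CylAux

/-- splitting off the first coordinate -/
def spl (m : ℕ) (z : E (m + 1)) : ℝ × E m :=
  (z 0, WithLp.toLp 2 (fun j : Fin m => z j.succ))

theorem spl_preserving (m : ℕ) : MeasurePreserving (spl m)
    (volume : Measure (E (m + 1))) (volume : Measure (ℝ × E m)) := by
  have h1 : MeasurePreserving (@WithLp.ofLp 2 (Fin (m + 1) → ℝ)) :=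
    PiLp.volume_preserving_ofLp (Fin (m + 1))
  have h2 := volume_preserving_piFinSuccAbove (fun _ : Fin (m + 1) => ℝ) 0
  have h3 : MeasurePreserving (@WithLp.toLp 2 (Fin m → ℝ)) :=
    PiLp.volume_preserving_toLp (Fin m)
  have h4 : MeasurePreserving (Prod.map (id : ℝ → ℝ) (@WithLp.toLp 2 (Fin m → ℝ)))
      ((volume : Measure ℝ).prod volume) ((volume : Measure ℝ).prod volume) :=
    (MeasurePreserving.id volume).prod h3
  exact (h4.comp (h2.comp h1))

theorem norm_spl (m : ℕ) (z : E (m + 1)) : ‖z‖ ^ 2 = z 0 ^ 2 + ‖(spl m z).2‖ ^ 2 := by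
  rw [EuclideanSpace.norm_sq_eq, EuclideanSpace.norm_sq_eq, Fin.sum_univ_succ]
  simp [spl]

/-- a linear isometry carrying a unit vector to the first basis vector -/
theorem exists_isom_one {m : ℕ} (u : E (m + 1)) (hu : ‖u‖ = 1) :
    ∃ L : E (m + 1) ≃ₗᵢ[ℝ] E (m + 1), L u = EuclideanSpace.single 0 1 := by
  classical
  set v : Fin (m + 1) → E (m + 1) := fun _ => u with hv
  set s : Set (Fin (m + 1)) := {0} with hs
  have ho : Orthonormal ℝ (s.domRestrict v) := by
    constructor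
    · rintro ⟨i, hi⟩
      exact hu
    · rintro ⟨i, hi⟩ ⟨j, hj⟩ hij
      exact absurd (Subtype.ext (hi.trans hj.symm)) hij
  obtain ⟨b, hb⟩ := ho.exists_orthonormalBasis_extension_of_card_eq
    (by rw [finrank_euclideanSpace])
  refine ⟨b.repr, ?_⟩
  have h0 : b 0 = u := hb 0 (by simp [hs])
  rw [← h0, b.repr_self]

end CylAux

open CylAux in
/-- A3 CYL. -/
theorem cyl_measure {m : ℕ} (u : E (m + 1)) (hu : ‖u‖ = 1) (A : Set (ℝ × ℝ))
    (hA : MeasurableSet A) :
    volume {z : E (m + 1) | (inner ℝ u z, ‖z‖ ^ 2) ∈ A}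
      = (volume : Measure (ℝ × E m)) {q | (q.1, q.1 ^ 2 + ‖q.2‖ ^ 2) ∈ A} := by
  obtain ⟨L, hL⟩ := exists_isom_one u hu
  have hmp : MeasurePreserving (fun z => spl m (L z)) volume volume :=
    (spl_preserving m).comp L.measurePreserving
  have hQ : MeasurableSet {q : ℝ × E m | (q.1, q.1 ^ 2 + ‖q.2‖ ^ 2) ∈ A} := by
    have hf : Measurable (fun q : ℝ × E m => (q.1, q.1 ^ 2 + ‖q.2‖ ^ 2)) := by fun_prop
    exact hf hA
  rw [← hmp.measure_preimage hQ.nullMeasurableSet]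
  congr 1
  ext z
  have h1 : inner ℝ u z = (L z) 0 := by
    rw [← L.inner_map_map u z, hL, EuclideanSpace.inner_single_left]
    simp
  have h2 : ‖z‖ ^ 2 = (L z) 0 ^ 2 + ‖(spl m (L z)).2‖ ^ 2 := by
    rw [← norm_spl, L.norm_map]
  show (inner ℝ u z, ‖z‖ ^ 2) ∈ A ↔ ((spl m (L z)).1, (spl m (L z)).1 ^ 2 +
    ‖(spl m (L z)).2‖ ^ 2) ∈ A
  rw [h1, h2]
  rfl

end

end Pool.Agent.Saus
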