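import Pool.Agent.Lib.MP_5a9905_co.Defs
import Pool.Agent.Lib.MP_5a9905_co.Cyl

set_option autoImplicit false
set_option linter.all false

open MeasureTheory Finset

namespace Pool.Agent.Saus

noncomputable section

variable {n : ℕ}

namespace ConeAux

theorem volume_ball_eq (m : ℕ) {r : ℝ} (hr : 0 ≤ r) :
    volume (Metric.ball (0 : E (m + 1)) r) = ENNReal.ofReal (kap (m + 1) * r ^ (m + 1)) := by
  have h1 := Measure.addHaar_ball (volume : Measure (E (m + 1))) (0 : E (m + 1)) hr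
  rw [h1, kap, finrank_euclideanSpace_fin, ← Measure.addHaar_closedBall_eq_addHaar_ball volume 0 1,
    mul_comm (volume.real _), ENNReal.ofReal_mul (by positivity), Measure.real,
    ENNReal.ofReal_toReal measure_closedBall_lt_top.ne]

theorem int1 (t c : ℝ) (ht : 0 < t) (k : ℕ) :
    ∫ s in Set.Ioo 0 t, (s * c) ^ k = c ^ k * (t ^ (k + 1) / (k + 1)) := by
  rw [← integral_Ioc_eq_integral_Ioo, ← intervalIntegral.integral_of_le ht.le]
  simp only [mul_pow]
  rw [intervalIntegral.integral_mul_const, integral_pow]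
  ring

theorem int2 (t : ℝ) (ht : 0 < t) (ht1 : t < 1) (k : ℕ) :
    ∫ s in Set.Ioo t 1, s * √(1 - s ^ 2) ^ (k + 1) = √(1 - t ^ 2) ^ (k + 3) / (k + 3) := by
  rw [← integral_Ioc_eq_integral_Ioo, ← intervalIntegral.integral_of_le ht1.le]
  have h := intervalIntegral.integral_eq_sub_of_hasDerivAt_of_le (a := t) (b := 1)
    (f := fun s => - (√(1 - s ^ 2) ^ (k + 3) / (k + 3))) (f' := fun s => s * √(1 - s ^ 2) ^ (k + 1))
    ht1.le (by fun_prop) (by
      intro x hx
      have hx1 : 0 < 1 - x ^ 2 := by nlinarith [hx.1, hx.2]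
      have h1 : HasDerivAt (fun s : ℝ => 1 - s ^ 2) (-(2 * x)) x := by
        simpa using ((hasDerivAt_id x).pow 2).const_sub 1
      have h2 := (h1.sqrt hx1.ne').pow (k + 3)
      have h3 := (h2.div_const ((k : ℝ) + 3)).neg
      refine h3.congr_deriv ?_
      have hs : 0 < √(1 - x ^ 2) := Real.sqrt_pos.2 hx1
      have e1 : k + 3 - 1 = k + 2 := rfl
      rw [e1]
      push_cast
      have hk : (k : ℝ) + 3 ≠ 0 := by positivity
      field_simp
      ring) (by
      exact (by fun_prop : Continuous fun s : ℝ => s * √(1 - s ^ 2) ^ (k + 1)).intervalIntegrable _ _)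
  rw [h]
  simp
  
end ConeAux

open ConeAux

/-- B5 CONE. -/
theorem cone_lower (u : E (n + 2)) (hu : ‖u‖ = 1) {t : ℝ} (h₀ : 0 < t) (h₁ : t < 1) :
    kap (n + 1) * (t * (1 - t ^ 2) ^ (((n : ℝ) + 1) / 2) / (n + 2)
        + (1 - t ^ 2) ^ (((n : ℝ) + 3) / 2) / (n + 3))
      ≤ volume.real {z : E (n + 2) | ‖z‖ ≤ 1 ∧ t * ‖z‖ < inner ℝ u z} := by
  have ht2 : 0 < 1 - t ^ 2 := by nlinarith
  set r := √(1 - t ^ 2) with hr
  have hr0 : 0 < r := Real.sqrt_pos.2 ht2
  have hr2 : r ^ 2 = 1 - t ^ 2 := Real.sq_sqrt ht2.le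
  have ep : ∀ k : ℕ, (1 - t ^ 2) ^ (((k : ℝ)) / 2) = r ^ k := by
    intro k
    rw [hr, Real.sqrt_eq_rpow, ← Real.rpow_natCast ((1 - t ^ 2) ^ (1 / 2 : ℝ)) k,
      ← Real.rpow_mul ht2.le]
    congr 1
    ring
  have e1 : (1 - t ^ 2) ^ (((n : ℝ) + 1) / 2) = r ^ (n + 1) := by
    rw [← ep (n + 1)]; push_cast; rfl
  have e3 : (1 - t ^ 2) ^ (((n : ℝ) + 3) / 2) = r ^ (n + 3) := by
    rw [← ep (n + 3)]; push_cast; rfl
  rw [e1, e3]
  set A : Set (ℝ × ℝ) := {p | p.2 ≤ 1 ∧ t * √p.2 < p.1} with hA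
  have hAm : MeasurableSet A := by
    refine MeasurableSet.inter (measurableSet_le measurable_snd measurable_const) ?_
    exact measurableSet_lt (by fun_prop) measurable_fst
  have hS : {z : E (n + 2) | ‖z‖ ≤ 1 ∧ t * ‖z‖ < inner ℝ u z} =
      {z : E (n + 2) | (inner ℝ u z, ‖z‖ ^ 2) ∈ A} := by
    ext z
    simp only [hA, Set.mem_ofPred_eq, Real.sqrt_sq (norm_nonneg z)]
    have : ‖z‖ ^ 2 ≤ 1 ↔ ‖z‖ ≤ 1 := by
      constructor
      · intro h; nlinarith [norm_nonneg z]
      · intro h; nlinarith [norm_nonneg z]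
    rw [this]
  rw [hS]
  have hfin : volume {z : E (n + 2) | (inner ℝ u z, ‖z‖ ^ 2) ∈ A} ≠ ⊤ := by
    have h1 : {z : E (n + 2) | (inner ℝ u z, ‖z‖ ^ 2) ∈ A} ⊆ Metric.closedBall 0 1 := by
      intro z hz
      rw [← hS] at hz
      rw [Metric.mem_closedBall, dist_zero_right]
      exact hz.1
    exact ((measure_mono h1).trans_lt measure_closedBall_lt_top).ne
  have hkap : 0 ≤ kap (n + 1) := ENNReal.toReal_nonneg
  set c : ℝ := r / t with hc
  have hc0 : 0 < c := by positivity
  have key : ENNReal.ofReal (kap (n + 1) * (∫ s in Set.Ioo 0 t, (s * c) ^ (n + 1)) +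
      kap (n + 1) * ∫ s in Set.Ioo t 1, s * √(1 - s ^ 2) ^ (n + 1)) ≤
      volume {z : E (n + 2) | (inner ℝ u z, ‖z‖ ^ 2) ∈ A} := by
    have hms : MeasurableSet {q : ℝ × E (n + 1) | (q.1, q.1 ^ 2 + ‖q.2‖ ^ 2) ∈ A} := by
      have hf : Measurable fun q : ℝ × E (n + 1) => (q.1, q.1 ^ 2 + ‖q.2‖ ^ 2) := by fun_prop
      exact hf hAm
    rw [cyl_measure u hu A hAm, Measure.volume_eq_prod, Measure.prod_apply hms]
    have hdisj : Disjoint (Set.Ioo 0 t) (Set.Ioo t 1) := by
      rw [Set.disjoint_left]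
      rintro s ⟨-, h1⟩ ⟨h2, -⟩
      exact absurd h1 (not_lt.2 h2.le)
    refine le_trans ?_ (setLIntegral_le_lintegral (Set.Ioo 0 t ∪ Set.Ioo t 1) _)
    rw [lintegral_union measurableSet_Ioo hdisj, ENNReal.ofReal_add
      (mul_nonneg hkap (setIntegral_nonneg measurableSet_Ioo fun s hs => by
        have := hs.1; positivity))
      (mul_nonneg hkap (setIntegral_nonneg measurableSet_Ioo fun s hs => by
        have := h₀.trans hs.1; positivity))]
    refine add_le_add ?_ ?_
    · rw [← integral_const_mul, ofReal_integral_eq_lintegral_ofReal]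
      · refine setLIntegral_mono' measurableSet_Ioo fun s hs => ?_
        rw [← volume_ball_eq n (by have := hs.1; positivity : 0 ≤ s * c)]
        refine measure_mono fun v hv => ?_
        rw [Metric.mem_ball, dist_zero_right] at hv
        simp only [hA, Set.mem_ofPred_eq, Set.mem_preimage]
        have hs0 := hs.1
        have hst := hs.2
        have h2 : ‖v‖ ^ 2 < (s * c) ^ 2 := by
          apply pow_lt_pow_left₀ hv (norm_nonneg _) (by norm_num)
        have h3 : t ^ 2 * (s ^ 2 + ‖v‖ ^ 2) < s ^ 2 := by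
          have h4 : t ^ 2 * (s * c) ^ 2 = s ^ 2 * (1 - t ^ 2) := by
            rw [hc, ← hr2]; field_simp
          have h5 : t ^ 2 * ‖v‖ ^ 2 < t ^ 2 * (s * c) ^ 2 :=
            mul_lt_mul_of_pos_left h2 (by positivity)
          nlinarith
        constructor
        · have h6 : t ^ 2 * (s ^ 2 + ‖v‖ ^ 2) ≤ t ^ 2 * 1 := by nlinarith
          exact le_of_mul_le_mul_left h6 (by positivity)
        · have h7 : t * √(s ^ 2 + ‖v‖ ^ 2) = √(t ^ 2 * (s ^ 2 + ‖v‖ ^ 2)) := by
            rw [Real.sqrt_mul (by positivity), Real.sqrt_sq h₀.le]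
          rw [h7]
          exact (Real.sqrt_lt' hs0).2 h3
      · exact ((by fun_prop : Continuous fun s : ℝ => kap (n + 1) * (s * c) ^ (n + 1))
          |>.integrableOn_Icc (a := 0) (b := t)).mono_set Set.Ioo_subset_Icc_self
      · refine (ae_restrict_iff' measurableSet_Ioo).2 (Filter.Eventually.of_forall fun s hs => ?_)
        have := hs.1
        show 0 ≤ kap (n + 1) * (s * c) ^ (n + 1)
        positivity
    · rw [← integral_const_mul, ofReal_integral_eq_lintegral_ofReal]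
      · refine setLIntegral_mono' measurableSet_Ioo fun s hs => ?_
        have hs0 := h₀.trans hs.1
        have hs1 : 0 < 1 - s ^ 2 := by nlinarith [hs.2]
        have h1 : kap (n + 1) * (s * √(1 - s ^ 2) ^ (n + 1)) ≤
            kap (n + 1) * √(1 - s ^ 2) ^ (n + 1) := by
          refine mul_le_mul_of_nonneg_left ?_ hkap
          have : 0 ≤ √(1 - s ^ 2) ^ (n + 1) := by positivity
          nlinarith [hs.2]
        refine (ENNReal.ofReal_le_ofReal h1).trans ?_
        rw [← volume_ball_eq n (Real.sqrt_nonneg _)]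
        refine measure_mono fun v hv => ?_
        rw [Metric.mem_ball, dist_zero_right] at hv
        simp only [hA, Set.mem_ofPred_eq, Set.mem_preimage]
        have h2 : ‖v‖ ^ 2 < 1 - s ^ 2 := by
          have := (Real.lt_sqrt (norm_nonneg v)).1 hv
          exact this
        refine ⟨by linarith, ?_⟩
        have h3 : √(s ^ 2 + ‖v‖ ^ 2) ≤ 1 := by
          exact Real.sqrt_le_iff.2 ⟨by norm_num, by linarith⟩
        nlinarith [hs.1]
      · exact ((by fun_prop : Continuous fun s : ℝ => kap (n + 1) * (s * √(1 - s ^ 2) ^ (n + 1)))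
          |>.integrableOn_Icc (a := t) (b := 1)).mono_set Set.Ioo_subset_Icc_self
      · refine (ae_restrict_iff' measurableSet_Ioo).2 (Filter.Eventually.of_forall fun s hs => ?_)
        have := h₀.trans hs.1
        show 0 ≤ kap (n + 1) * (s * √(1 - s ^ 2) ^ (n + 1))
        positivity
  have h2 := (ENNReal.ofReal_le_iff_le_toReal hfin).1 key
  refine le_trans (le_of_eq ?_) h2
  rw [int1 t c h₀, int2 t h₀ h₁, ← hr, hc]
  push_cast
  have h3 : (n : ℝ) + 1 + 1 = n + 2 := by ring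
  have h4 : (r / t) ^ (n + 1) * t ^ (n + 1 + 1) = r ^ (n + 1) * t := by
    rw [div_pow, pow_succ t (n + 1)]
    field_simp
  rw [h3, ← mul_div_assoc, h4]
  ring
  
end

end Pool.Agent.Saus
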