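import Pool.Agent.Lib.MP_5a9905_co.Defs
import Pool.Agent.Lib.MP_5a9905_co.Cone

/-!
# SAUS module GAM: lower bound for the mean Blichfeldt weight

The Blichfeldt weight of a direction is `2√2 h (s - c)₊` (`h = ‖w‖/2`, `c = h/√2`, `s` the cosine),
which is an integral of indicators of cones; the cones are bounded by `cone_lower`.
-/

set_option autoImplicit false

open MeasureTheory Set

namespace Pool.Agent.Saus

noncomputable section

variable {n : ℕ}

namespace GamAux

/-- The pointwise formula for the weight. -/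
theorem bw_eq (w z : E (n + 2)) (hw : 0 < ‖w‖) (hz : z ≠ 0) :
    bw w z = √2 * ‖w‖ * max 0 (inner ℝ (‖w‖⁻¹ • w) z / ‖z‖ - ‖w‖ / 2 / √2) := by
  have hz' : 0 < ‖z‖ := norm_pos_iff.mpr hz
  have h2 : (0 : ℝ) < √2 := Real.sqrt_pos.mpr (by norm_num)
  have h22 : √2 * √2 = (2 : ℝ) := Real.mul_self_sqrt (by norm_num)
  have hnorm : ‖√2 • (‖z‖⁻¹ • z)‖ = √2 := by
    rw [norm_smul, norm_smul, norm_inv, norm_norm, inv_mul_cancel₀ hz'.ne', mul_one,
      Real.norm_of_nonneg h2.le]
  unfold bw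
  rw [@norm_sub_sq_real, hnorm, real_inner_smul_left, real_inner_smul_left, real_inner_smul_left,
    real_inner_comm]
  rw [mul_max_of_nonneg _ _ (by positivity : 0 ≤ √2 * ‖w‖), mul_zero]
  congr 1
  have h22' : √2 ^ 2 = (2 : ℝ) := Real.sq_sqrt (by norm_num)
  rw [h22']
  have e1 : √2 * ‖w‖ * (‖w‖⁻¹ * inner ℝ w z / ‖z‖ - ‖w‖ / 2 / √2)
      = √2 * (‖z‖⁻¹ * inner ℝ w z) * (‖w‖ * ‖w‖⁻¹) - ‖w‖ ^ 2 / 2 * (√2 * (√2)⁻¹) := by
    simp only [div_eq_mul_inv]
    ring
  rw [e1, mul_inv_cancel₀ hw.ne', mul_inv_cancel₀ h2.ne']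
  ring

/-- Integral of indicators. -/
theorem max_eq (c s : ℝ) (hs : s ≤ 1) :
    max 0 (s - c) = ∫ l in Ioo c 1, (if l < s then (1 : ℝ) else 0) := by
  have h1 : (fun l : ℝ => if l < s then (1 : ℝ) else 0) = (Iio s).indicator (fun _ => (1 : ℝ)) := by
    funext l
    simp [indicator, mem_Iio]
  rw [h1, setIntegral_indicator measurableSet_Iio, setIntegral_const, smul_eq_mul, mul_one]
  have h2 : Ioo c 1 ∩ Iio s = Ioo c s := by
    ext l
    simp only [mem_inter_iff, mem_Ioo, mem_Iio]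
    constructor
    · rintro ⟨⟨a, b⟩, c⟩; exact ⟨a, c⟩
    · rintro ⟨a, b⟩; exact ⟨⟨a, lt_of_lt_of_le b hs⟩, b⟩
  rw [h2, Measure.real, Real.volume_Ioo, ENNReal.toReal_ofReal', max_comm]

/-- Elementary integral. -/
theorem int_pow (c p : ℝ) (hc : c ≤ 1) (hp : 0 ≤ p) :
    ∫ l in Ioo c 1, l * (1 - l ^ 2) ^ p = (1 - c ^ 2) ^ (p + 1) / (2 * (p + 1)) := by
  rw [← integral_Ioc_eq_integral_Ioo, ← intervalIntegral.integral_of_le hc]
  have hd : ∀ l ∈ uIcc c 1, HasDerivAt (fun l : ℝ => -((1 - l ^ 2) ^ (p + 1) / (2 * (p + 1))))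
      (l * (1 - l ^ 2) ^ p) l := by
    intro l _
    have h1 : HasDerivAt (fun l : ℝ => 1 - l ^ 2) (-(2 * l)) l := by
      have := (hasDerivAt_pow 2 l).const_sub 1
      simpa using this
    have h2 := h1.rpow_const (p := p + 1) (Or.inr (by linarith))
    have h3 := (h2.div_const (2 * (p + 1))).neg
    have e : -(-(2 * l) * (p + 1) * (1 - l ^ 2) ^ (p + 1 - 1) / (2 * (p + 1)))
        = l * (1 - l ^ 2) ^ p := by
      have : p + 1 - 1 = p := by ring
      rw [this]
      have hp' : p + 1 ≠ 0 := by linarith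
      field_simp
    rw [e] at h3
    exact h3
  have hcont : ContinuousOn (fun l : ℝ => l * (1 - l ^ 2) ^ p) (uIcc c 1) := by
    apply ContinuousOn.mul continuousOn_id
    apply ContinuousOn.rpow_const (by fun_prop)
    intro x _
    exact Or.inr hp
  rw [intervalIntegral.integral_eq_sub_of_hasDerivAt hd hcont.intervalIntegrable]
  have hz : (1 - (1 : ℝ) ^ 2) ^ (p + 1) = 0 := by
    rw [one_pow, sub_self, Real.zero_rpow (by linarith)]
  rw [hz]
  ring

end GamAux

open GamAux in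
/-- B6 GAM. -/
theorem gam_lower (w : E (n + 2)) (hw : 2 ≤ ‖w‖) (hw2 : xi w < 2) :
    kap (n + 1) * gam (n + 2) (xi w) ≤ ∫ z in Metric.closedBall (0 : E (n + 2)) 1, bw w z := by
  have hw0 : 0 < ‖w‖ := by linarith
  have h2 : (0 : ℝ) < √2 := Real.sqrt_pos.mpr (by norm_num)
  have h22 : √2 * √2 = (2 : ℝ) := Real.mul_self_sqrt (by norm_num)
  have h22' : √2 ^ 2 = (2 : ℝ) := Real.sq_sqrt (by norm_num)
  set c : ℝ := ‖w‖ / 2 / √2 with hc
  have hc0 : 0 < c := by positivity
  have hc2 : c ^ 2 = xi w / 2 := by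
    rw [hc, div_pow, div_pow, h22']
    unfold xi
    ring
  have hc1 : c < 1 := by
    have : c ^ 2 < 1 := by rw [hc2]; linarith
    nlinarith
  set u : E (n + 2) := ‖w‖⁻¹ • w with hu
  have hu1 : ‖u‖ = 1 := by
    rw [hu, norm_smul, norm_inv, norm_norm, inv_mul_cancel₀ hw0.ne']
  set B : Set (E (n + 2)) := Metric.closedBall (0 : E (n + 2)) 1 with hB
  have hBm : MeasurableSet B := Metric.isClosed_closedBall.measurableSet
  have hBf : volume B < ⊤ := (isCompact_closedBall _ _).measure_lt_top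
  have hIf : volume (Ioo c 1) < ⊤ := measure_Ioo_lt_top
  have hBfin : IsFiniteMeasure (volume.restrict B) := ⟨by rw [Measure.restrict_apply_univ]; exact hBf⟩
  have hIfin : IsFiniteMeasure (volume.restrict (Ioo c 1)) :=
    ⟨by rw [Measure.restrict_apply_univ]; exact hIf⟩
  -- the set and its indicator
  let S : Set (E (n + 2) × ℝ) := {q | q.2 * ‖q.1‖ < inner ℝ u q.1}
  have hSm : MeasurableSet S := by
    apply IsOpen.measurableSet
    apply isOpen_lt
    · fun_prop
    · fun_prop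
  let F : E (n + 2) → ℝ → ℝ := fun z l => S.indicator (fun _ => (1 : ℝ)) (z, l)
  have hFint : Integrable (Function.uncurry F)
      ((volume.restrict B).prod (volume.restrict (Ioo c 1))) := by
    have : Function.uncurry F = S.indicator (fun _ => (1 : ℝ)) := by
      funext q
      rfl
    rw [this]
    exact (integrable_const (1 : ℝ)).indicator hSm
  -- pointwise
  have hpt : ∀ z : E (n + 2), z ≠ 0 → bw w z = √2 * ‖w‖ * ∫ l in Ioo c 1, F z l := by
    intro z hz
    have hz' : 0 < ‖z‖ := norm_pos_iff.mpr hz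
    rw [bw_eq w z hw0 hz, ← hu, ← hc, max_eq]
    · congr 2
      funext l
      simp only [F, S, indicator, mem_ofPred_eq]
      congr 1
      rw [lt_div_iff₀ hz']
    · rw [div_le_one hz']
      calc inner ℝ u z ≤ ‖u‖ * ‖z‖ := real_inner_le_norm _ _
        _ = ‖z‖ := by rw [hu1, one_mul]
  have hint : ∫ z in B, bw w z = √2 * ‖w‖ * ∫ z in B, ∫ l in Ioo c 1, F z l := by
    rw [← integral_const_mul]
    apply integral_congr_ae
    have hne : ∀ᵐ z ∂(volume : Measure (E (n + 2))), z ≠ 0 := by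
      rw [ae_iff]
      simp
    filter_upwards [ae_restrict_of_ae hne] with z hz
    exact hpt z hz
  rw [hint, integral_integral_swap hFint]
  -- inner integral is the volume of the cone
  have hcone : ∀ l ∈ Ioo c 1, kap (n + 1) * (l * (1 - l ^ 2) ^ (((n : ℝ) + 1) / 2) / (n + 2)
      + l * (1 - l ^ 2) ^ (((n : ℝ) + 3) / 2) / (n + 3)) ≤ ∫ z in B, F z l := by
    intro l hl
    have hl0 : 0 < l := hc0.trans hl.1
    have h1 := cone_lower u hu1 hl0 hl.2
    have h3 : ∫ z in B, F z l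
        = volume.real {z : E (n + 2) | ‖z‖ ≤ 1 ∧ l * ‖z‖ < inner ℝ u z} := by
      have hm : MeasurableSet {z : E (n + 2) | l * ‖z‖ < inner ℝ u z} := by
        apply IsOpen.measurableSet
        apply isOpen_lt <;> fun_prop
      have : (fun z => F z l)
          = {z : E (n + 2) | l * ‖z‖ < inner ℝ u z}.indicator (fun _ => (1 : ℝ)) := by
        funext z
        simp only [F, S, indicator, mem_ofPred_eq]
      rw [this, setIntegral_indicator hm, setIntegral_const, smul_eq_mul, mul_one]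
      congr 1
      ext z
      simp [hB]
    rw [h3]
    refine le_trans ?_ h1
    apply mul_le_mul_of_nonneg_left _ (by unfold kap; positivity)
    have hp : 0 ≤ (1 - l ^ 2) ^ (((n : ℝ) + 3) / 2) := by
      apply Real.rpow_nonneg
      have := hl.2
      nlinarith
    have : l * (1 - l ^ 2) ^ (((n : ℝ) + 3) / 2) / (n + 3)
        ≤ (1 - l ^ 2) ^ (((n : ℝ) + 3) / 2) / (n + 3) := by
      apply div_le_div_of_nonneg_right _ (by positivity)
      have := hl.2.le
      nlinarith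
    linarith
  -- integrate
  have hI1 : IntegrableOn (fun l : ℝ => l * (1 - l ^ 2) ^ (((n : ℝ) + 1) / 2)) (Ioo c 1) := by
    apply (ContinuousOn.integrableOn_Icc _).mono_set Ioo_subset_Icc_self
    apply ContinuousOn.mul continuousOn_id
    apply ContinuousOn.rpow_const (by fun_prop)
    intro x _
    exact Or.inr (by positivity)
  have hI2 : IntegrableOn (fun l : ℝ => l * (1 - l ^ 2) ^ (((n : ℝ) + 3) / 2)) (Ioo c 1) := by
    apply (ContinuousOn.integrableOn_Icc _).mono_set Ioo_subset_Icc_self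
    apply ContinuousOn.mul continuousOn_id
    apply ContinuousOn.rpow_const (by fun_prop)
    intro x _
    exact Or.inr (by positivity)
  have hlow : ∫ l in Ioo c 1, kap (n + 1) * (l * (1 - l ^ 2) ^ (((n : ℝ) + 1) / 2) / (n + 2)
      + l * (1 - l ^ 2) ^ (((n : ℝ) + 3) / 2) / (n + 3))
      ≤ ∫ l in Ioo c 1, ∫ z in B, F z l := by
    apply setIntegral_mono_on
    · exact ((hI1.div_const _).add (hI2.div_const _)).const_mul _
    · exact hFint.integral_prod_right
    · exact measurableSet_Ioo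
    · exact hcone
  have hval : ∫ l in Ioo c 1, kap (n + 1) * (l * (1 - l ^ 2) ^ (((n : ℝ) + 1) / 2) / (n + 2)
      + l * (1 - l ^ 2) ^ (((n : ℝ) + 3) / 2) / (n + 3))
      = kap (n + 1) * ((1 - c ^ 2) ^ (((n : ℝ) + 3) / 2) / ((n + 2) * (n + 3))
        + (1 - c ^ 2) ^ (((n : ℝ) + 5) / 2) / ((n + 3) * (n + 5))) := by
    rw [integral_const_mul, integral_add (hI1.div_const _) (hI2.div_const _), integral_div,
      integral_div, int_pow c _ hc1.le (by positivity),
      int_pow c _ hc1.le (by positivity)]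
    have e1 : ((n : ℝ) + 1) / 2 + 1 = ((n : ℝ) + 3) / 2 := by ring
    have e2 : ((n : ℝ) + 3) / 2 + 1 = ((n : ℝ) + 5) / 2 := by ring
    rw [e1, e2]
    congr 1
    congr 1
    · rw [div_div]; congr 1; ring
    · rw [div_div]; congr 1; ring
  rw [hval] at hlow
  have hsx : √(xi w) = ‖w‖ / 2 := by
    have : xi w = (‖w‖ / 2) ^ 2 := by unfold xi; ring
    rw [this, Real.sqrt_sq (by positivity)]
  have hgam : kap (n + 1) * gam (n + 2) (xi w)
      = √2 * ‖w‖ * (kap (n + 1) * ((1 - c ^ 2) ^ (((n : ℝ) + 3) / 2) / ((n + 2) * (n + 3))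
        + (1 - c ^ 2) ^ (((n : ℝ) + 5) / 2) / ((n + 3) * (n + 5)))) := by
    unfold gam
    rw [hsx, hc2]
    have e0 : ((n + 2 : ℕ) : ℝ) = (n : ℝ) + 2 := by push_cast; ring
    have e1 : ((n : ℝ) + 2 + 1) / 2 = ((n : ℝ) + 3) / 2 := by ring
    have e2 : ((n : ℝ) + 2 + 3) / 2 = ((n : ℝ) + 5) / 2 := by ring
    have e3 : ((n : ℝ) + 2 + 1) = (n : ℝ) + 3 := by ring
    have e4 : ((n : ℝ) + 2 + 3) = (n : ℝ) + 5 := by ring
    rw [e0, e1, e2, e3, e4]
    ring
  rw [hgam]
  exact mul_le_mul_of_nonneg_left hlow (by positivity)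

end

end Pool.Agent.Saus
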