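import Pool.Agent.Lib.MP_5a9905_co.Defs

set_option autoImplicit false

open MeasureTheory Finset

namespace Pool.Agent.Saus

noncomputable section

variable {n : ℕ}

/-- D1 HCK. -/
theorem hc_subset {Y : Finset (E (n + 2))} {K : Set (E (n + 2))} (hL : Loc (n + 2) Y K)
    {y : E (n + 2)} (hy : y ∈ Y) : HC (‖y‖⁻¹ • y) ∩ Bl (n + 2) 2 ⊆ K := by
  rintro z ⟨⟨h0, h1⟩, h2⟩
  have h2' : ‖z‖ ^ 2 ≤ 2 := h2
  have hy2 : 2 ≤ ‖y‖ := hL.far y hy
  have hypos : 0 < ‖y‖ := by linarith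
  set u : E (n + 2) := ‖y‖⁻¹ • y with hu
  have hun : ‖u‖ = 1 := by
    rw [hu, norm_smul, norm_inv, norm_norm]
    exact inv_mul_cancel₀ hypos.ne'
  set s : ℝ := inner ℝ u z with hs
  have hsz : s ≤ ‖z‖ := by
    have := real_inner_le_norm u z
    rw [hun, one_mul] at this
    exact this
  have hs2 : s ≤ 2 := by nlinarith [norm_nonneg z]
  -- distance from the ray
  have hzp : ‖z - s • u‖ ^ 2 ≤ 1 := by
    have e : ‖z - s • u‖ ^ 2 = ‖z‖ ^ 2 - s ^ 2 := by
      rw [norm_sub_sq_real, inner_smul_right, norm_smul, hun, real_inner_comm, ← hs,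
        Real.norm_eq_abs, mul_one, sq_abs]
      ring
    rw [e]; linarith
  have hzp1 : ‖z - s • u‖ ≤ 1 := by
    nlinarith [norm_nonneg (z - s • u)]
  have hA : z - s • u ∈ K := hL.ball_zero (by simpa using hzp1)
  have hB : y + (z - s • u) ∈ K := hL.ball y hy (by
    rw [Metric.mem_closedBall, dist_eq_norm]
    simpa using hzp1)
  have hl0 : 0 ≤ s / ‖y‖ := div_nonneg h0 hypos.le
  have hl1 : s / ‖y‖ ≤ 1 := by
    rw [div_le_one hypos]; linarith
  have hmem := hL.convex hA hB (a := 1 - s / ‖y‖) (b := s / ‖y‖) (by linarith) hl0 (by ring)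
  have e2 : (1 - s / ‖y‖) • (z - s • u) + (s / ‖y‖) • (y + (z - s • u)) = z := by
    have e3 : (s / ‖y‖) • y = s • u := by
      rw [hu, smul_smul, div_eq_mul_inv]
    rw [smul_add, e3, sub_smul, one_smul]
    abel
  rw [e2] at hmem
  exact hmem

end

end Pool.Agent.Saus
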