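import Mathlib
import Pool.Agent.Lib.MP_5a9905_co.Defs
import Pool.Agent.Lib.MP_5a9905_co.Gam
import Pool.Agent.Lib.MP_5a9905_co.Blich
import Pool.Agent.Lib.MP_5a9905_co.HCK

set_option autoImplicit false

open MeasureTheory Finset

namespace Pool.Agent.Saus

noncomputable section

variable {n : ℕ}

namespace BliAux

theorem Bl_eq (d : ℕ) {R : ℝ} (h₀ : 0 ≤ R) : Bl d R = Metric.closedBall (0 : E d) (√R) := by
  ext z
  rw [Metric.mem_closedBall, dist_zero_right]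
  exact (Real.le_sqrt (norm_nonneg z) h₀).symm

theorem bw_meas (w : E (n + 2)) : Measurable (bw w) := by
  unfold bw
  refine measurable_const.max (measurable_const.sub (Measurable.div_const ?_ _))
  refine Measurable.pow_const (Measurable.norm ?_) 2
  have h1 : Measurable fun z : E (n + 2) => ‖z‖⁻¹ • z := measurable_norm.inv.smul measurable_id
  exact (h1.const_smul (√2)).sub_const w

theorem bw_nonneg (w z : E (n + 2)) : 0 ≤ bw w z := le_max_left _ _

theorem bw_le (w z : E (n + 2)) : bw w z ≤ 1 := by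
  unfold bw
  refine max_le zero_le_one ?_
  have : 0 ≤ ‖√2 • (‖z‖⁻¹ • z) - w‖ ^ 2 := by positivity
  linarith

theorem bw_smul (w z : E (n + 2)) {t : ℝ} (ht : 0 < t) : bw w (t • z) = bw w z := by
  unfold bw
  have : ‖t • z‖⁻¹ • (t • z) = ‖z‖⁻¹ • z := by
    rw [norm_smul, Real.norm_eq_abs, abs_of_pos ht, smul_smul, mul_inv]
    congr 1
    field_simp
  rw [this]

theorem bw_int (w : E (n + 2)) (s : Set (E (n + 2))) (hs : volume s ≠ ⊤) :
    IntegrableOn (bw w) s := by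
  refine Measure.integrableOn_of_bounded (M := 1) hs (bw_meas w).aestronglyMeasurable ?_
  refine Filter.Eventually.of_forall fun z => ?_
  rw [Real.norm_eq_abs, abs_of_nonneg (bw_nonneg w z)]
  exact bw_le w z

theorem bw_scale (w : E (n + 2)) {R : ℝ} (h₀ : 0 < R) :
    ∫ z in Bl (n + 2) R, bw w z =
      R ^ (((n : ℝ) + 2) / 2) * ∫ z in Metric.closedBall (0 : E (n + 2)) 1, bw w z := by
  have hs : 0 < √R := Real.sqrt_pos.mpr h₀
  have h1 := Measure.setIntegral_comp_smul_of_pos (volume : Measure (E (n + 2))) (bw w)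
    (Metric.closedBall (0 : E (n + 2)) 1) hs
  simp only [bw_smul w _ hs] at h1
  rw [smul_closedBall _ _ zero_le_one, smul_zero, Real.norm_eq_abs, abs_of_pos hs, mul_one,
    ← Bl_eq _ h₀.le] at h1
  rw [h1, finrank_euclideanSpace, Fintype.card_fin, smul_eq_mul, ← mul_assoc]
  have h2 : R ^ (((n : ℝ) + 2) / 2) = √R ^ (n + 2) := by
    rw [Real.sqrt_eq_rpow, ← Real.rpow_natCast, ← Real.rpow_mul h₀.le]
    congr 1
    push_cast
    ring
  rw [h2, mul_inv_cancel₀ (by positivity), one_mul]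

theorem mem_K {Y : Finset (E (n + 2))} {K : Set (E (n + 2))} (hL : Loc (n + 2) Y K)
    {w z : E (n + 2)} (hw : w ∈ Y) (hz : ‖z‖ ^ 2 ≤ 2) (h : 0 < bw w z) : z ∈ K := by
  by_cases hz0 : z = 0
  · subst hz0
    exact hL.ball_zero (by simp)
  have hzn : 0 < ‖z‖ := norm_pos_iff.mpr hz0
  have hwn := hL.far w hw
  have hwp : 0 < ‖w‖ := by linarith
  have h1 : 0 < 1 - ‖√2 • (‖z‖⁻¹ • z) - w‖ ^ 2 / 2 := by
    unfold bw at h
    by_contra hcon
    rw [max_eq_left (not_lt.mp hcon)] at h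
    exact lt_irrefl _ h
  rw [norm_sub_sq_real, norm_smul, norm_smul, norm_inv, norm_norm, inv_mul_cancel₀ hzn.ne',
    Real.norm_eq_abs, abs_of_nonneg (Real.sqrt_nonneg 2), mul_one, Real.sq_sqrt (by norm_num),
    real_inner_smul_left, real_inner_smul_left] at h1
  set a : ℝ := inner ℝ z w with ha
  have h2 : ‖w‖ ^ 2 * ‖z‖ < 2 * √2 * a := by
    have h3 : ‖w‖ ^ 2 < 2 * (√2 * (‖z‖⁻¹ * a)) := by linarith
    have h4 := mul_lt_mul_of_pos_right h3 hzn
    calc ‖w‖ ^ 2 * ‖z‖ < 2 * (√2 * (‖z‖⁻¹ * a)) * ‖z‖ := h4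
      _ = 2 * √2 * a * (‖z‖⁻¹ * ‖z‖) := by ring
      _ = _ := by rw [inv_mul_cancel₀ hzn.ne', mul_one]
  have hs2 : √2 ^ 2 = 2 := Real.sq_sqrt (by norm_num)
  have hsp : 0 < √2 := Real.sqrt_pos.mpr (by norm_num)
  have h5 : √2 / 2 * (‖w‖ * ‖z‖) ≤ a := by
    have h6 : 2 * (‖w‖ * ‖z‖) ≤ ‖w‖ ^ 2 * ‖z‖ := by
      have : 0 ≤ ‖w‖ * ‖z‖ := by positivity
      nlinarith
    have h7 : 2 * (‖w‖ * ‖z‖) ≤ 2 * √2 * a := h6.trans h2.le
    have h8 : √2 * (2 * (‖w‖ * ‖z‖)) ≤ √2 * (2 * √2 * a) := mul_le_mul_of_nonneg_left h7 hsp.le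
    have h8' : √2 * (2 * √2 * a) = 4 * a := by
      calc √2 * (2 * √2 * a) = 2 * √2 ^ 2 * a := by ring
        _ = 4 * a := by rw [hs2]; ring
    rw [h8'] at h8
    linarith
  have h9 : √2 / 2 * ‖z‖ ≤ inner ℝ (‖w‖⁻¹ • w) z := by
    rw [real_inner_smul_left, real_inner_comm, ← ha]
    rw [inv_mul_eq_div, le_div_iff₀ hwp]
    linarith
  have h10 : 0 ≤ √2 / 2 * ‖z‖ := by positivity
  refine hc_subset hL hw ⟨⟨h10.trans h9, ?_⟩, hz⟩
  have h11 : (√2 / 2 * ‖z‖) ^ 2 ≤ (inner ℝ (‖w‖⁻¹ • w) z) ^ 2 := by gcongr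
  have h12 : (√2 / 2 * ‖z‖) ^ 2 = ‖z‖ ^ 2 / 2 := by
    rw [mul_pow, div_pow, hs2]; ring
  linarith

end BliAux

open BliAux in
/-- B8 BLI. -/
theorem bli {Y : Finset (E (n + 2))} {K : Set (E (n + 2))} (hL : Loc (n + 2) Y K) {R : ℝ}
    (h₀ : 0 < R) (h₂ : R ≤ 2) :
    R ^ (((n : ℝ) + 2) / 2) * (kap (n + 1) * ∑ w ∈ Y.filter (fun w => xi w < 2),
      gam (n + 2) (xi w)) ≤ volume.real (K ∩ Bl (n + 2) R) := by
  have hBfin : volume (Bl (n + 2) R) ≠ ⊤ := by
    rw [Bl_eq _ h₀.le]; exact measure_closedBall_lt_top.ne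
  have hBm : MeasurableSet (Bl (n + 2) R) := by
    rw [Bl_eq _ h₀.le]; exact measurableSet_closedBall
  have hKm : MeasurableSet K := hL.closed.measurableSet
  -- pointwise bound
  have hpt : ∀ z ∈ Bl (n + 2) R, ∑ w ∈ Y, bw w z ≤ K.indicator (fun _ => (1 : ℝ)) z := by
    intro z hz
    by_cases hzK : z ∈ K
    · rw [Set.indicator_of_mem hzK]
      exact blichfeldt Y hL.sep _
    · rw [Set.indicator_of_notMem hzK]
      refine le_of_eq (Finset.sum_eq_zero fun w hw => ?_)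
      by_contra hne
      exact hzK (mem_K hL hw (le_trans hz h₂) (lt_of_le_of_ne (bw_nonneg w z) (Ne.symm hne)))
  have h1 : ∫ z in Bl (n + 2) R, ∑ w ∈ Y, bw w z ≤ volume.real (K ∩ Bl (n + 2) R) := by
    have h2 : ∫ z in Bl (n + 2) R, K.indicator (fun _ => (1 : ℝ)) z =
        volume.real (K ∩ Bl (n + 2) R) := by
      rw [integral_indicator hKm, setIntegral_const, smul_eq_mul, mul_one,
        measureReal_restrict_apply hKm]
    rw [← h2]
    refine setIntegral_mono_on (integrable_finsetSum _ fun w _ => bw_int w _ hBfin) ?_ hBm hpt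
    exact (integrableOn_const hBfin).indicator hKm
  rw [integral_finsetSum _ fun w _ => bw_int w _ hBfin] at h1
  refine le_trans ?_ h1
  rw [Finset.mul_sum, Finset.mul_sum]
  calc ∑ w ∈ Y.filter (fun w => xi w < 2), R ^ (((n : ℝ) + 2) / 2) *
        (kap (n + 1) * gam (n + 2) (xi w))
      ≤ ∑ w ∈ Y.filter (fun w => xi w < 2), ∫ z in Bl (n + 2) R, bw w z := by
        refine Finset.sum_le_sum fun w hw => ?_
        rw [Finset.mem_filter] at hw
        rw [bw_scale w h₀]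
        exact mul_le_mul_of_nonneg_left (gam_lower w (hL.far w hw.1) hw.2) (by positivity)
    _ ≤ ∑ w ∈ Y, ∫ z in Bl (n + 2) R, bw w z :=
        Finset.sum_le_sum_of_subset_of_nonneg (Finset.filter_subset _ _) fun w _ _ =>
          integral_nonneg fun z => bw_nonneg w z

end

end Pool.Agent.Saus
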