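import Pool.Agent.Lib.MP_5a9905_co.Defs

/-!
# Monotonicity of the overlap bound `QB`
-/

set_option autoImplicit false

open MeasureTheory Set

namespace Pool.Agent.Saus

noncomputable section

variable {n : ℕ}

namespace FMono

/-- the integrand of `FF` -/
def W (p y u : ℝ) : ℝ := (max 0 (1 - y * u ^ 2)) ^ p / (1 + u ^ 2)

lemma W_nonneg (p y u : ℝ) : 0 ≤ W p y u := by
  unfold W
  have : 0 ≤ (max 0 (1 - y * u ^ 2)) ^ p := Real.rpow_nonneg (le_max_left _ _) _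
  positivity

lemma continuous_W {p : ℝ} (hp : 0 ≤ p) (y : ℝ) : Continuous (W p y) := by
  unfold W
  refine Continuous.div ?_ (by fun_prop) fun u => by positivity
  refine Continuous.rpow_const (by fun_prop) fun u => Or.inr hp

lemma W_le {p y : ℝ} (hp : 0 ≤ p) (hy : 0 ≤ y) (u : ℝ) : W p y u ≤ (1 + u ^ 2)⁻¹ := by
  unfold W
  rw [div_eq_mul_inv]
  have h1 : (max 0 (1 - y * u ^ 2)) ^ p ≤ 1 := by
    refine Real.rpow_le_one (le_max_left _ _) (max_le zero_le_one ?_) hp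
    nlinarith [mul_nonneg hy (sq_nonneg u)]
  have h2 : 0 ≤ (1 + u ^ 2)⁻¹ := by positivity
  nlinarith

lemma integrable_W {p y : ℝ} (hp : 0 ≤ p) (hy : 0 ≤ y) : Integrable (W p y) := by
  refine Integrable.mono' integrable_inv_one_add_sq
    (continuous_W hp y).aestronglyMeasurable (Filter.Eventually.of_forall fun u => ?_)
  rw [Real.norm_eq_abs, abs_of_nonneg (W_nonneg p y u)]
  exact W_le hp hy u

/-- comparison of two densities with a monotone ratio -/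
lemma key {w w' : ℝ → ℝ} (hw : Integrable w) (hw' : Integrable w') (h0 : ∀ u, 0 ≤ w u)
    (h0' : ∀ u, 0 ≤ w' u) (hle : ∀ u, w' u ≤ w u)
    (hcross : ∀ u v, 0 ≤ u → u ≤ v → w' v * w u ≤ w' u * w v) {τ q : ℝ} (hτ : 0 ≤ τ)
    (hq0 : 0 ≤ q) (h : ∫ u in Ioi τ, w u ≤ q * ∫ u in Ioi 0, w u) :
    ∫ u in Ioi τ, w' u ≤ q * ∫ u in Ioi 0, w' u := by
  have split : ∀ f : ℝ → ℝ, Integrable f →
      ∫ u in Ioi 0, f u = (∫ u in Ioc 0 τ, f u) + ∫ u in Ioi τ, f u := by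
    intro f hf
    rw [← setIntegral_union (Ioc_disjoint_Ioi le_rfl) measurableSet_Ioi hf.integrableOn
      hf.integrableOn, Ioc_union_Ioi_eq_Ioi hτ]
  rw [split w hw] at h
  rw [split w' hw']
  set A := ∫ u in Ioc 0 τ, w u
  set B := ∫ u in Ioi τ, w u
  set A' := ∫ u in Ioc 0 τ, w' u with hA'
  set B' := ∫ u in Ioi τ, w' u with hB'
  have hB0 : 0 ≤ B := setIntegral_nonneg measurableSet_Ioi fun u _ => h0 u
  have hB0' : 0 ≤ B' := setIntegral_nonneg measurableSet_Ioi fun u _ => h0' u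
  have hA0' : 0 ≤ A' := setIntegral_nonneg measurableSet_Ioc fun u _ => h0' u
  have hBB : B' ≤ B := setIntegral_mono_on hw'.integrableOn hw.integrableOn measurableSet_Ioi
    fun u _ => hle u
  have c1 : ∀ v ∈ Ioi τ, w' v * A ≤ A' * w v := by
    intro v hv
    have := setIntegral_mono_on (μ := volume) (s := Ioc 0 τ) (f := fun u => w' v * w u)
      (g := fun u => w' u * w v) (hw.integrableOn.const_mul _) (hw'.integrableOn.mul_const _)
      measurableSet_Ioc fun u hu => hcross u v hu.1.le (hu.2.trans (le_of_lt hv))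
    rwa [integral_const_mul, integral_mul_const] at this
  have c2 : B' * A ≤ A' * B := by
    have := setIntegral_mono_on (μ := volume) (s := Ioi τ) (f := fun v => w' v * A)
      (g := fun v => A' * w v) (hw'.integrableOn.mul_const _) (hw.integrableOn.const_mul _)
      measurableSet_Ioi c1
    rwa [integral_const_mul, integral_mul_const] at this
  rcases hB0.eq_or_lt with hB | hB
  · have : B' = 0 := le_antisymm (by rw [← hB] at hBB; exact hBB) hB0'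
    rw [this]
    positivity
  · have h1 : (1 - q) * B ≤ q * A := by linarith
    have h2 : B * ((1 - q) * B') ≤ B * (q * A') := by
      calc B * ((1 - q) * B') = ((1 - q) * B) * B' := by ring
        _ ≤ (q * A) * B' := mul_le_mul_of_nonneg_right h1 hB0'
        _ = q * (B' * A) := by ring
        _ ≤ q * (A' * B) := mul_le_mul_of_nonneg_left c2 hq0
        _ = B * (q * A') := by ring
    have h3 := le_of_mul_le_mul_left h2 hB
    linarith

lemma base_cross {y y' u v : ℝ} (h₀ : 0 ≤ y) (hy : y ≤ y') (hu : 0 ≤ u) (huv : u ≤ v) :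
    max 0 (1 - y' * v ^ 2) * max 0 (1 - y * u ^ 2) ≤
      max 0 (1 - y' * u ^ 2) * max 0 (1 - y * v ^ 2) := by
  have huv2 : u ^ 2 ≤ v ^ 2 := pow_le_pow_left₀ hu huv 2
  have hy' : 0 ≤ y' := h₀.trans hy
  rcases le_total (1 - y' * v ^ 2) 0 with h | h
  · rw [max_eq_left h, zero_mul]
    exact mul_nonneg (le_max_left _ _) (le_max_left _ _)
  · have h1 : 0 ≤ 1 - y * v ^ 2 := by nlinarith [mul_nonneg (sub_nonneg.2 hy) (sq_nonneg v)]
    have h2 : 0 ≤ 1 - y' * u ^ 2 := by nlinarith [mul_nonneg hy' (sub_nonneg.2 huv2)]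
    have h3 : 0 ≤ 1 - y * u ^ 2 := by nlinarith [mul_nonneg h₀ (sub_nonneg.2 huv2)]
    rw [max_eq_right h, max_eq_right h1, max_eq_right h2, max_eq_right h3]
    nlinarith [mul_nonneg (sub_nonneg.2 hy) (sub_nonneg.2 huv2)]

lemma W_cross {p y y' u v : ℝ} (hp : 0 ≤ p) (h₀ : 0 ≤ y) (hy : y ≤ y') (hu : 0 ≤ u)
    (huv : u ≤ v) : W p y' v * W p y u ≤ W p y' u * W p y v := by
  unfold W
  rw [div_mul_div_comm, div_mul_div_comm, mul_comm (1 + v ^ 2), 
    ← Real.mul_rpow (le_max_left _ _) (le_max_left _ _),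
    ← Real.mul_rpow (le_max_left _ _) (le_max_left _ _)]
  refine div_le_div_of_nonneg_right ?_ (by positivity)
  exact Real.rpow_le_rpow (mul_nonneg (le_max_left _ _) (le_max_left _ _))
    (base_cross h₀ hy hu huv) hp

lemma W_anti {p y y' : ℝ} (hp : 0 ≤ p) (hy : y ≤ y') (u : ℝ) : W p y' u ≤ W p y u := by
  unfold W
  refine div_le_div_of_nonneg_right ?_ (by positivity)
  refine Real.rpow_le_rpow (le_max_left _ _) (max_le_max le_rfl ?_) hp
  nlinarith [mul_nonneg (sub_nonneg.2 hy) (sq_nonneg u)]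

lemma W_add {p r y : ℝ} (hp : 0 ≤ p) (hr : 0 ≤ r) (u : ℝ) :
    W (p + r) y u = W p y u * (max 0 (1 - y * u ^ 2)) ^ r := by
  unfold W
  rw [Real.rpow_add_of_nonneg (le_max_left _ _) hp hr]
  ring

lemma FF_eq (n : ℕ) (y τ : ℝ) : FF n y τ = ∫ u in Ioi τ, W ((n : ℝ) / 2) y u := rfl

lemma FF_anti {y τ τ' : ℝ} (h₀ : 0 ≤ y) (ht : τ ≤ τ') : FF n y τ' ≤ FF n y τ := by
  rw [FF_eq, FF_eq]
  refine setIntegral_mono_set (integrable_W (by positivity) h₀).integrableOn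
    (Filter.Eventually.of_forall fun u => W_nonneg _ _ _) ?_
  exact (Ioi_subset_Ioi ht).eventuallyLE

end FMono

open FMono

/-- C4 FMON. -/
theorem QB.mono_y {y y' τ q : ℝ} (h : QB n y τ q) (hτ : 0 ≤ τ) (h₀ : 0 ≤ y) (hy : y ≤ y') :
    QB n y' τ q := by
  obtain ⟨h1, h2, h3⟩ := h
  have hp : (0 : ℝ) ≤ (n : ℝ) / 2 := by positivity
  refine ⟨h1, h2, ?_⟩
  rw [FF_eq, FF_eq] at h3 ⊢
  exact key (integrable_W hp h₀) (integrable_W hp (h₀.trans hy)) (W_nonneg _ _) (W_nonneg _ _)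
    (W_anti hp hy) (fun u v hu huv => W_cross hp h₀ hy hu huv) hτ h1 h3

theorem QB.mono_n {n' : ℕ} {y τ q : ℝ} (h : QB n y τ q) (hτ : 0 ≤ τ) (h₀ : 0 ≤ y)
    (hn : n ≤ n') : QB n' y τ q := by
  obtain ⟨h1, h2, h3⟩ := h
  have hp : (0 : ℝ) ≤ (n : ℝ) / 2 := by positivity
  have hr : (0 : ℝ) ≤ ((n' : ℝ) - n) / 2 := by
    have : (n : ℝ) ≤ n' := by exact_mod_cast hn
    linarith
  have hp' : (0 : ℝ) ≤ (n' : ℝ) / 2 := by positivity
  have e : (n' : ℝ) / 2 = (n : ℝ) / 2 + ((n' : ℝ) - n) / 2 := by ring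
  refine ⟨h1, h2, ?_⟩
  rw [FF_eq, FF_eq] at h3 ⊢
  have b1 : ∀ u : ℝ, (max 0 (1 - y * u ^ 2)) ^ (((n' : ℝ) - n) / 2) ≤ 1 := fun u => by
    refine Real.rpow_le_one (le_max_left _ _) (max_le zero_le_one ?_) hr
    nlinarith [mul_nonneg h₀ (sq_nonneg u)]
  refine key (integrable_W hp h₀) (integrable_W hp' h₀) (W_nonneg _ _) (W_nonneg _ _)
    (fun u => ?_) (fun u v hu huv => ?_) hτ h1 h3
  · rw [e, W_add hp hr]
    exact mul_le_of_le_one_right (W_nonneg _ _ _) (b1 u)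
  · rw [e, W_add hp hr, W_add hp hr]
    have b2 : (max 0 (1 - y * v ^ 2)) ^ (((n' : ℝ) - n) / 2) ≤
        (max 0 (1 - y * u ^ 2)) ^ (((n' : ℝ) - n) / 2) := by
      refine Real.rpow_le_rpow (le_max_left _ _) (max_le_max le_rfl ?_) hr
      have huv2 : u ^ 2 ≤ v ^ 2 := pow_le_pow_left₀ hu huv 2
      nlinarith [mul_nonneg h₀ (sub_nonneg.2 huv2)]
    have b3 : 0 ≤ W ((n : ℝ) / 2) y v * W ((n : ℝ) / 2) y u :=
      mul_nonneg (W_nonneg _ _ _) (W_nonneg _ _ _)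
    nlinarith [mul_le_mul_of_nonneg_left b2 b3]

theorem QB.mono_tau {y τ τ' q : ℝ} (h : QB n y τ q) (hτ : 0 ≤ τ) (h₀ : 0 ≤ y) (ht : τ ≤ τ') :
    QB n y τ' q :=
  ⟨h.1, h.2.1, (FF_anti h₀ ht).trans h.2.2⟩

theorem QB.one {y τ : ℝ} (hτ : 0 ≤ τ) (h₀ : 0 ≤ y) : QB n y τ 1 := by
  refine ⟨zero_le_one, le_rfl, ?_⟩
  rw [one_mul]
  exact FF_anti h₀ hτ

end

end Pool.Agent.Saus
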