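import Pool.Agent.Lib.MP_5a9905_co.Defs

set_option autoImplicit false

open MeasureTheory Finset

namespace Pool.Agent.Saus

noncomputable section

namespace KapAux

theorem kap_eq (m : ℕ) : kap m = √Real.pi ^ m / Real.Gamma ((m : ℝ) / 2 + 1) := by
  rcases Nat.eq_zero_or_pos m with rfl | hm
  · rw [kap, Measure.real, volume_euclideanSpace_eq_dirac, Measure.dirac_apply_of_mem]
    · simp
    · simp
  · haveI : Nonempty (Fin m) := ⟨⟨0, hm⟩⟩
    rw [kap, Measure.real, EuclideanSpace.volume_closedBall, Fintype.card_fin, ENNReal.ofReal_one,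
      one_pow, one_mul, ENNReal.toReal_ofReal]
    have := Real.Gamma_pos_of_pos (by positivity : (0 : ℝ) < (m : ℝ) / 2 + 1)
    positivity

theorem gpos (m : ℕ) : 0 < Real.Gamma ((m : ℝ) / 2 + 1) :=
  Real.Gamma_pos_of_pos (by positivity)

end KapAux

open KapAux

/-- A4 BALL. -/
theorem volume_Bl (m : ℕ) {R : ℝ} (hR : 0 ≤ R) :
    volume (Bl m R) = ENNReal.ofReal (R ^ ((m : ℝ) / 2) * kap m) := by
  have e : Bl m R = Metric.closedBall (0 : E m) (√R) := by
    ext z
    rw [mem_closedBall_zero_iff, Real.le_sqrt (norm_nonneg z) hR]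
    rfl
  rw [e, Measure.addHaar_closedBall' _ _ (Real.sqrt_nonneg R), finrank_euclideanSpace_fin,
    ENNReal.ofReal_mul (by positivity)]
  congr 1
  · congr 1
    rw [Real.sqrt_eq_rpow, ← Real.rpow_natCast, ← Real.rpow_mul hR]
    congr 1
    ring
  · rw [kap, Measure.real, ENNReal.ofReal_toReal]
    exact (isCompact_closedBall _ _).measure_lt_top.ne

/-- A5 KAP. -/
theorem kap_pos (m : ℕ) : 0 < kap m := by
  rw [kap_eq]
  have := gpos m
  have := Real.pi_pos
  positivity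

theorem kap_zero : kap 0 = 1 := by
  rw [kap_eq]
  simp

theorem kap_one : kap 1 = 2 := by
  rw [kap_eq]
  have h1 : Real.Gamma (((1 : ℕ) : ℝ) / 2 + 1) = √Real.pi / 2 := by
    rw [Real.Gamma_add_one (by norm_num)]
    have : (((1 : ℕ) : ℝ) / 2) = 1 / 2 := by norm_num
    rw [this, Real.Gamma_one_half_eq]
    ring
  rw [h1, pow_one]
  have h2 : 0 < √Real.pi := Real.sqrt_pos.mpr Real.pi_pos
  field_simp

theorem kap_add_two (m : ℕ) : kap (m + 2) = 2 * Real.pi / (m + 2) * kap m := by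
  rw [kap_eq, kap_eq]
  have h1 : Real.Gamma (((m + 2 : ℕ) : ℝ) / 2 + 1) =
      ((m : ℝ) / 2 + 1) * Real.Gamma ((m : ℝ) / 2 + 1) := by
    have e : (((m + 2 : ℕ) : ℝ) / 2 + 1) = ((m : ℝ) / 2 + 1) + 1 := by push_cast; ring
    rw [e, Real.Gamma_add_one (by positivity)]
  have h2 := gpos m
  rw [h1, pow_add, Real.sq_sqrt Real.pi_pos.le]
  have h3 : (0 : ℝ) < (m : ℝ) / 2 + 1 := by positivity
  have h4 : (0 : ℝ) < (m : ℝ) + 2 := by positivity
  field_simp

/-- log-convexity type monotonicity of the ratios -/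
theorem kap_ratio_anti (m : ℕ) : kap (m + 2) * kap m ≤ kap (m + 1) ^ 2 := by
  rw [kap_eq, kap_eq, kap_eq]
  set s : ℝ := ((m + 2 : ℕ) : ℝ) / 2 + 1 with hs
  set t : ℝ := (m : ℝ) / 2 + 1 with ht
  set w : ℝ := ((m + 1 : ℕ) : ℝ) / 2 + 1 with hw
  have hs0 : 0 < s := by positivity
  have ht0 : 0 < t := by positivity
  have hw0 : 0 < w := by positivity
  have hgs := Real.Gamma_pos_of_pos hs0
  have hgt := Real.Gamma_pos_of_pos ht0
  have hgw := Real.Gamma_pos_of_pos hw0
  have h := Real.Gamma_mul_add_mul_le_rpow_Gamma_mul_rpow_Gamma hs0 ht0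
    (by norm_num : (0 : ℝ) < 1 / 2) (by norm_num : (0 : ℝ) < 1 / 2) (by norm_num)
  have e : 1 / 2 * s + 1 / 2 * t = w := by
    rw [hs, ht, hw]; push_cast; ring
  rw [e, ← Real.sqrt_eq_rpow, ← Real.sqrt_eq_rpow] at h
  have h2 : Real.Gamma w ^ 2 ≤ Real.Gamma s * Real.Gamma t := by
    calc Real.Gamma w ^ 2 ≤ (√(Real.Gamma s) * √(Real.Gamma t)) ^ 2 :=
          pow_le_pow_left₀ hgw.le h 2
      _ = Real.Gamma s * Real.Gamma t := by
          rw [mul_pow, Real.sq_sqrt hgs.le, Real.sq_sqrt hgt.le]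
  rw [div_mul_div_comm, div_pow, ← pow_mul, ← pow_add]
  have e2 : m + 2 + m = (m + 1) * 2 := by ring
  rw [e2]
  exact div_le_div_of_nonneg_left (by positivity) (by positivity) h2

end

end Pool.Agent.Saus
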