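import Pool.Agent.Lib.MP_5a9905_co.Defs

set_option autoImplicit false

open MeasureTheory Finset

namespace Pool.Agent.Saus

noncomputable section

variable {n : ℕ}

/-- G2 SGM. -/
theorem sg_anti (d : ℕ) {R x x' : ℝ} (h1 : 0 < x) (hx : x ≤ x') : sg d R x' ≤ sg d R x := by
  unfold sg
  by_cases h : x' < R
  · have h2 : x < R := hx.trans_lt h
    rw [if_pos h, if_pos h2]
    have hs : 0 < √x := Real.sqrt_pos.2 h1
    have hp : (0 : ℝ) ≤ ((d : ℝ) + 1) / 2 := by positivity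
    have h3 : (R - x') ^ (((d : ℝ) + 1) / 2) ≤ (R - x) ^ (((d : ℝ) + 1) / 2) :=
      Real.rpow_le_rpow (by linarith) (by linarith) hp
    have h4 : √x ≤ √x' := Real.sqrt_le_sqrt hx
    have h5 : 0 ≤ (R - x) ^ (((d : ℝ) + 1) / 2) := Real.rpow_nonneg (by linarith) _
    gcongr
  · rw [if_neg h]
    split_ifs with h2
    · have h5 : 0 ≤ (R - x) ^ (((d : ℝ) + 1) / 2) := Real.rpow_nonneg (by linarith) _
      positivity
    · exact le_rfl

/-- G1 RATIO. -/
theorem sg_gam_ratio (d : ℕ) (hd : 3 ≤ d) {R x x' : ℝ} (hR : R ≤ 2) (h1 : 1 ≤ x) (hx : x ≤ x')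
    (hx' : x' < 2) : sg d R x' * gam d x ≤ sg d R x * gam d x' := by
  have hd0 : (0 : ℝ) < d := by
    have : (3 : ℝ) ≤ d := by exact_mod_cast hd
    linarith
  have hb0 : 0 < 1 - x / 2 := by linarith
  have hb'0 : 0 < 1 - x' / 2 := by linarith
  have hsplit : ∀ b : ℝ, 0 < b → b ^ (((d : ℝ) + 3) / 2) = b ^ (((d : ℝ) + 1) / 2) * b := by
    intro b hb
    have : ((d : ℝ) + 3) / 2 = ((d : ℝ) + 1) / 2 + 1 := by ring
    rw [this, Real.rpow_add_one hb.ne']
  have hs : 0 < √x := Real.sqrt_pos.2 (by linarith)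
  have hs' : 0 < √x' := Real.sqrt_pos.2 (by linarith)
  by_cases h : x' < R
  · have h2 : x < R := hx.trans_lt h
    unfold sg gam
    rw [if_pos h, if_pos h2, hsplit _ hb0, hsplit _ hb'0]
    set p : ℝ := ((d : ℝ) + 1) / 2 with hp
    have hp0 : 0 ≤ p := by positivity
    have hG : x * (1 / d + (1 - x / 2) / (d + 3)) ≤ x' * (1 / d + (1 - x' / 2) / (d + 3)) := by
      have e : x' * (1 / d + (1 - x' / 2) / (d + 3)) - x * (1 / d + (1 - x / 2) / (d + 3)) =
          (x' - x) * ((1 / d - 1 / (d + 3)) + (2 - (x + x') / 2) / (d + 3)) := by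
        field_simp; ring
      have h3 : (0 : ℝ) ≤ 1 / d - 1 / (d + 3) := by
        have : (1 : ℝ) / (d + 3) ≤ 1 / d := by gcongr; linarith
        linarith
      have h4 : 0 ≤ (2 - (x + x') / 2) / ((d : ℝ) + 3) := by
        apply div_nonneg <;> linarith
      have h5 : 0 ≤ (x' - x) * ((1 / d - 1 / (d + 3)) + (2 - (x + x') / 2) / (d + 3)) :=
        mul_nonneg (by linarith) (by linarith)
      linarith
    have hAB : (R - x') ^ p * (1 - x / 2) ^ p ≤ (R - x) ^ p * (1 - x' / 2) ^ p := by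
      rw [← Real.mul_rpow (by linarith) hb0.le, ← Real.mul_rpow (by linarith) hb'0.le]
      refine Real.rpow_le_rpow (mul_nonneg (by linarith) hb0.le) ?_ hp0
      nlinarith [mul_nonneg (sub_nonneg.2 hx) (sub_nonneg.2 hR)]
    have hG0 : 0 ≤ x * (1 / d + (1 - x / 2) / (d + 3)) := by positivity
    have hA0 : 0 ≤ (R - x) ^ p * (1 - x' / 2) ^ p :=
      mul_nonneg (Real.rpow_nonneg (by linarith) _) (Real.rpow_nonneg hb'0.le _)
    have hxs : x = √x * √x := (Real.mul_self_sqrt (by linarith)).symm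
    have hxs' : x' = √x' * √x' := (Real.mul_self_sqrt (by linarith)).symm
    have hfin := mul_le_mul hAB hG hG0 hA0
    have hK : 0 ≤ 2 * √2 / (((d : ℝ) + 1) ^ 2 * (√x * √x')) := by positivity
    have hfin2 := mul_le_mul_of_nonneg_left hfin hK
    have e1 : (R - x') ^ p / (((d : ℝ) + 1) * √x') * (2 * √2 * √x *
        ((1 - x / 2) ^ p / ((d : ℝ) * ((d : ℝ) + 1)) +
          (1 - x / 2) ^ p * (1 - x / 2) / (((d : ℝ) + 1) * ((d : ℝ) + 3)))) =
        2 * √2 / (((d : ℝ) + 1) ^ 2 * (√x * √x')) * ((R - x') ^ p * (1 - x / 2) ^ p *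
          ((√x * √x) * (1 / d + (1 - x / 2) / (d + 3)))) := by
      field_simp
    have e2 : (R - x) ^ p / (((d : ℝ) + 1) * √x) * (2 * √2 * √x' *
        ((1 - x' / 2) ^ p / ((d : ℝ) * ((d : ℝ) + 1)) +
          (1 - x' / 2) ^ p * (1 - x' / 2) / (((d : ℝ) + 1) * ((d : ℝ) + 3)))) =
        2 * √2 / (((d : ℝ) + 1) ^ 2 * (√x * √x')) * ((R - x) ^ p * (1 - x' / 2) ^ p *
          ((√x' * √x') * (1 / d + (1 - x' / 2) / (d + 3)))) := by
      field_simp
    rw [e1, e2, ← hxs, ← hxs']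
    exact hfin2
  · have hz : sg d R x' = 0 := by unfold sg; rw [if_neg h]
    rw [hz, zero_mul]
    refine mul_nonneg ?_ ?_
    · unfold sg
      split_ifs with h2
      · have h5 : 0 ≤ (R - x) ^ (((d : ℝ) + 1) / 2) := Real.rpow_nonneg (by linarith) _
        positivity
      · exact le_rfl
    · unfold gam
      have h5 : 0 ≤ (1 - x' / 2) ^ (((d : ℝ) + 1) / 2) := Real.rpow_nonneg hb'0.le _
      have h6 : 0 ≤ (1 - x' / 2) ^ (((d : ℝ) + 3) / 2) := Real.rpow_nonneg hb'0.le _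
      positivity

end

end Pool.Agent.Saus
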