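import Pool.Agent.Lib.MP_5a9905_co.QCheck
import Pool.Agent.Lib.MP_5a9905_co.FMono
import Pool.Agent.Lib.MP_5a9905_co.Ratio
import Pool.Agent.Lib.MP_5a9905_co.Kap

/-! Certified evaluation (in natural numbers) of the quantities used in the numerical chain. -/

set_option autoImplicit false

open Finset

namespace Pool.Agent.Saus

/-- precision: values in units `1 / uU` -/
def uU : ℕ := 10 ^ 40

def newt : ℕ → ℕ → ℕ → ℕ
  | 0, _, a => a
  | f + 1, N, a => bif Nat.ble a ((a + N / a) / 2) then a else newt f N ((a + N / a) / 2)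

def sqN (N : ℕ) : ℕ := newt 600 N (2 ^ (Nat.log2 N / 2 + 1))

def sqrtLo (N : ℕ) : ℕ := bif Nat.ble (sqN N * sqN N) N then sqN N else 0

def sqrtUp (N : ℕ) : ℕ := bif Nat.ble N ((sqN N + 1) * (sqN N + 1)) then sqN N + 1 else N + 1

/-- upper bound for `sg (n+2) (r/100) (x/100)`, in units `1/uU` -/
def sgU (n r x : ℕ) : ℕ :=
  bif Nat.ble r x then 0 else
    sqrtUp ((r - x) ^ (n + 3) * uU ^ 2 * 100 / ((n + 3) ^ 2 * x * 100 ^ (n + 3)) + 1)

/-- lower bound for `gam (n+2) (x/100)`; for `x < 200` -/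
def gamL (n x : ℕ) : ℕ :=
  sqrtLo (8 * x * (200 - x) ^ (n + 3) * (200 * (n + 5) + (n + 2) * (200 - x)) ^ 2 * uU ^ 2
    / (100 * 200 ^ (n + 3) * (200 * (n + 2) * (n + 3) * (n + 5)) ^ 2))

def powL (n r : ℕ) : ℕ := sqrtLo (r ^ (n + 2) * uU ^ 2 / 100 ^ (n + 2))

/-- lower bound for `√(y'/100 + 2/(n+3)) - √(y/100 + 2/(n+3))` -/
def incL (n y y' : ℕ) : ℕ :=
  sqrtLo ((y' * (n + 3) + 200) * uU ^ 2 / (100 * (n + 3))) -
    sqrtUp ((y * (n + 3) + 200) * uU ^ 2 / (100 * (n + 3)) + 1)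

/-- lower bound for `kap (m+1) / kap m` in units `10^{-10}` -/
def rL : ℕ → ℕ
  | 0 => 2 * 10 ^ 10
  | 1 => 15707960000
  | m + 2 => rL m * (m + 2) / (m + 3)

noncomputable section

theorem sqrtLo_sq (N : ℕ) : sqrtLo N ^ 2 ≤ N := by
  unfold sqrtLo
  cases h : Nat.ble (sqN N * sqN N) N
  · simp
  · simp only [cond_true]
    rw [pow_two]; exact Nat.le_of_ble_eq_true h

theorem le_sqrtUp_sq (N : ℕ) : N ≤ sqrtUp N ^ 2 := by
  unfold sqrtUp
  cases h : Nat.ble N ((sqN N + 1) * (sqN N + 1))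
  · simp only [cond_false]; nlinarith
  · simp only [cond_true]
    rw [pow_two]; exact Nat.le_of_ble_eq_true h

theorem uU_cast : ((uU : ℕ) : ℝ) = 10 ^ 40 := by norm_num [uU]

attribute [irreducible] uU sqN newt

theorem uU_pos : (0 : ℝ) < ((uU : ℕ) : ℝ) := by rw [uU_cast]; norm_num

theorem rpow_half_sq {a : ℝ} (ha : 0 ≤ a) (k : ℕ) (p : ℝ) (hp : p * 2 = k) :
    (a ^ p) ^ 2 = a ^ k := by
  rw [← Real.rpow_natCast (a ^ p) 2, ← Real.rpow_mul ha]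
  have : p * ((2 : ℕ) : ℝ) = ((k : ℕ) : ℝ) := by rw [← hp]; norm_num
  rw [this, Real.rpow_natCast]

theorem sg_nonneg (d : ℕ) (R x : ℝ) : 0 ≤ sg d R x := by
  unfold sg
  split_ifs with h
  · have : 0 ≤ R - x := by linarith
    positivity
  · exact le_rfl

theorem sg_sq {n : ℕ} {R x : ℝ} (hx : 0 < x) (h : x < R) :
    sg (n + 2) R x ^ 2 = (R - x) ^ (n + 3) / (((n : ℝ) + 3) ^ 2 * x) := by
  unfold sg
  rw [if_pos h, div_pow, rpow_half_sq (k := n + 3) (by linarith) _ (by push_cast; ring), mul_pow,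
    Real.sq_sqrt hx.le]
  push_cast
  ring_nf

theorem sg_le_sgU {n r x : ℕ} (hx : 0 < x) :
    sg (n + 2) ((r : ℝ) / 100) ((x : ℝ) / 100) ≤ (sgU n r x : ℝ) / (uU : ℝ) := by
  unfold sgU
  cases h : Nat.ble r x
  · rw [cond_false]
    have hlt : x < r := by
      by_contra hc
      push Not at hc
      rw [Nat.ble_eq_true_of_le hc] at h
      exact absurd h (by decide)
    have hxr : (0 : ℝ) < (x : ℝ) / 100 := by positivity
    have hlt' : (x : ℝ) / 100 < (r : ℝ) / 100 := by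
      have : (x : ℝ) < r := by exact_mod_cast hlt
      linarith
    rw [le_div_iff₀ uU_pos]
    have h00 : 0 ≤ sg (n + 2) ((r : ℝ) / 100) ((x : ℝ) / 100) * (uU : ℝ) :=
      mul_nonneg (sg_nonneg _ _ _) uU_pos.le
    apply (sq_le_sq₀ h00 (Nat.cast_nonneg _)).mp
    rw [mul_pow, sg_sq hxr hlt']
    set N := (r - x) ^ (n + 3) * uU ^ 2 * 100 / ((n + 3) ^ 2 * x * 100 ^ (n + 3)) with hN
    have h1 : ((N + 1 : ℕ) : ℝ) ≤ ((sqrtUp (N + 1) ^ 2 : ℕ) : ℝ) := by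
      exact_mod_cast le_sqrtUp_sq (N + 1)
    have h2 := Nat.lt_floor_add_one ((((r - x) ^ (n + 3) * uU ^ 2 * 100 : ℕ) : ℝ)
      / (((n + 3) ^ 2 * x * 100 ^ (n + 3) : ℕ) : ℝ))
    rw [Nat.floor_div_eq_div, ← hN] at h2
    refine le_trans (le_of_eq ?_) (le_trans h2.le ?_)
    · have h5 : (r : ℝ) / 100 - (x : ℝ) / 100 = ((r : ℝ) - x) / 100 := by ring
      rw [h5, div_pow]
      push_cast [Nat.cast_sub hlt.le]
      generalize ((r : ℝ) - x) ^ (n + 3) = A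
      generalize (uU : ℝ) ^ 2 = B
      have h6 : (0 : ℝ) < 100 ^ (n + 3) := by positivity
      generalize (100 : ℝ) ^ (n + 3) = C at h6
      field_simp
    · exact_mod_cast h1
  · have hle : r ≤ x := Nat.le_of_ble_eq_true h
    have hle' : ¬ ((x : ℝ) / 100 < (r : ℝ) / 100) := by
      have : (r : ℝ) ≤ x := by exact_mod_cast hle
      push Not
      linarith
    unfold sg
    rw [if_neg hle', cond_true, Nat.cast_zero, zero_div]

theorem gam_sq {n : ℕ} {x : ℝ} (hx : 0 ≤ x) (h : x ≤ 2) :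
    gam (n + 2) x ^ 2 = 8 * x * (1 - x / 2) ^ (n + 3)
      * (1 / (((n : ℝ) + 2) * (n + 3)) + (1 - x / 2) / (((n : ℝ) + 3) * (n + 5))) ^ 2 := by
  have h0 : 0 ≤ 1 - x / 2 := by linarith
  have e1 : (1 - x / 2) ^ ((((n + 2 : ℕ) : ℝ) + 3) / 2)
      = (1 - x / 2) ^ ((((n + 2 : ℕ) : ℝ) + 1) / 2) * (1 - x / 2) := by
    have : (((n + 2 : ℕ) : ℝ) + 3) / 2 = (((n + 2 : ℕ) : ℝ) + 1) / 2 + 1 := by ring
    rw [this, Real.rpow_add' h0 (by positivity), Real.rpow_one]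
  have e2 : ((1 - x / 2) ^ ((((n + 2 : ℕ) : ℝ) + 1) / 2)) ^ 2 = (1 - x / 2) ^ (n + 3) :=
    rpow_half_sq h0 _ _ (by push_cast; ring)
  unfold gam
  rw [e1]
  set P := (1 - x / 2) ^ ((((n + 2 : ℕ) : ℝ) + 1) / 2) with hP
  have e3 : 2 * √2 * √x * (P / (((n + 2 : ℕ) : ℝ) * (((n + 2 : ℕ) : ℝ) + 1))
      + P * (1 - x / 2) / ((((n + 2 : ℕ) : ℝ) + 1) * (((n + 2 : ℕ) : ℝ) + 3)))
      = (2 * √2) * √x * P * (1 / (((n : ℝ) + 2) * (n + 3))
        + (1 - x / 2) / (((n : ℝ) + 3) * (n + 5))) := by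
    push_cast
    field_simp
    ring
  rw [e3, mul_pow, mul_pow, mul_pow, mul_pow, Real.sq_sqrt hx, Real.sq_sqrt (by norm_num), e2]
  ring

theorem gam_nonneg {n : ℕ} {x : ℝ} (h : x ≤ 2) : 0 ≤ gam (n + 2) x := by
  unfold gam
  have h0 : 0 ≤ 1 - x / 2 := by linarith
  positivity

theorem gamL_le {n x : ℕ} (hx : x ≤ 200) :
    (gamL n x : ℝ) / (uU : ℝ) ≤ gam (n + 2) ((x : ℝ) / 100) := by
  have hx2 : (x : ℝ) / 100 ≤ 2 := by
    have : (x : ℝ) ≤ 200 := by exact_mod_cast hx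
    linarith
  rw [div_le_iff₀ uU_pos]
  have h00 : 0 ≤ gam (n + 2) ((x : ℝ) / 100) * (uU : ℝ) :=
    mul_nonneg (gam_nonneg hx2) uU_pos.le
  apply (sq_le_sq₀ (by positivity) h00).mp
  rw [mul_pow, gam_sq (by positivity) hx2]
  unfold gamL
  set N := 8 * x * (200 - x) ^ (n + 3) * (200 * (n + 5) + (n + 2) * (200 - x)) ^ 2 * uU ^ 2
    / (100 * 200 ^ (n + 3) * (200 * (n + 2) * (n + 3) * (n + 5)) ^ 2) with hN
  have h1 : ((sqrtLo N ^ 2 : ℕ) : ℝ) ≤ (N : ℝ) := by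
    exact_mod_cast sqrtLo_sq N
  have h2 : (N : ℝ) ≤ _ := Nat.cast_div_le
  rw [Nat.cast_pow] at h1
  refine le_trans h1 (le_trans h2 (le_of_eq ?_))
  have h3 : (1 : ℝ) - (x : ℝ) / 100 / 2 = (200 - (x : ℝ)) / 200 := by ring
  have h4 : 1 / (((n : ℝ) + 2) * (n + 3)) + (200 - (x : ℝ)) / 200 / (((n : ℝ) + 3) * (n + 5))
      = (200 * ((n : ℝ) + 5) + (n + 2) * (200 - x)) / (200 * (n + 2) * (n + 3) * (n + 5)) := by
    field_simp
  rw [h3, h4, div_pow, div_pow]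
  push_cast [Nat.cast_sub hx]
  have h5 : (0 : ℝ) < 200 ^ (n + 3) := by positivity
  field_simp

theorem powL_le {n r : ℕ} :
    (powL n r : ℝ) / (uU : ℝ) ≤ ((r : ℝ) / 100) ^ (((n : ℝ) + 2) / 2) := by
  rw [div_le_iff₀ uU_pos]
  apply (sq_le_sq₀ (by positivity) (by positivity)).mp
  rw [mul_pow, rpow_half_sq (k := n + 2) (by positivity) _ (by push_cast; ring)]
  unfold powL
  set N := r ^ (n + 2) * uU ^ 2 / 100 ^ (n + 2) with hN
  have h1 : ((sqrtLo N ^ 2 : ℕ) : ℝ) ≤ (N : ℝ) := by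
    exact_mod_cast sqrtLo_sq N
  have h2 : (N : ℝ) ≤ _ := Nat.cast_div_le
  rw [Nat.cast_pow] at h1
  refine le_trans h1 (le_trans h2 (le_of_eq ?_))
  rw [div_pow]
  push_cast
  ring

theorem sqrtLo_le_sqrt (a b : ℕ) :
    (sqrtLo (a * uU ^ 2 / b) : ℝ) ≤ (uU : ℝ) * √((a : ℝ) / b) := by
  have h1 : ((sqrtLo (a * uU ^ 2 / b) ^ 2 : ℕ) : ℝ) ≤ ((a * uU ^ 2 / b : ℕ) : ℝ) := by
    exact_mod_cast sqrtLo_sq _
  have h2 : ((a * uU ^ 2 / b : ℕ) : ℝ) ≤ _ := Nat.cast_div_le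
  apply (sq_le_sq₀ (by positivity) (by positivity)).mp
  rw [mul_pow, Real.sq_sqrt (by positivity)]
  rw [Nat.cast_pow] at h1
  refine le_trans h1 (le_trans h2 (le_of_eq ?_))
  push_cast
  ring

theorem sqrt_le_sqrtUp (a b : ℕ) :
    (uU : ℝ) * √((a : ℝ) / b) ≤ (sqrtUp (a * uU ^ 2 / b + 1) : ℝ) := by
  set N := a * uU ^ 2 / b with hN
  have h1 : ((N + 1 : ℕ) : ℝ) ≤ ((sqrtUp (N + 1) ^ 2 : ℕ) : ℝ) := by
    exact_mod_cast le_sqrtUp_sq (N + 1)
  have h2 := Nat.lt_floor_add_one (((a * uU ^ 2 : ℕ) : ℝ) / ((b : ℕ) : ℝ))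
  rw [Nat.floor_div_eq_div, ← hN] at h2
  apply (sq_le_sq₀ (by positivity) (by positivity)).mp
  rw [mul_pow, Real.sq_sqrt (by positivity)]
  rw [← Nat.cast_pow]
  refine le_trans (le_of_eq ?_) (le_trans h2.le ?_)
  · push_cast; ring
  · exact_mod_cast h1

theorem incL_le (n y y' : ℕ) :
    (incL n y y' : ℝ) / (uU : ℝ)
      ≤ max 0 (√((y' : ℝ) / 100 + 2 / (n + 3)) - √((y : ℝ) / 100 + 2 / (n + 3))) := by
  have e1 : (((y' * (n + 3) + 200 : ℕ) : ℝ)) / ((100 * (n + 3) : ℕ) : ℝ)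
      = (y' : ℝ) / 100 + 2 / (n + 3) := by
    push_cast; field_simp; ring
  have e2 : (((y * (n + 3) + 200 : ℕ) : ℝ)) / ((100 * (n + 3) : ℕ) : ℝ)
      = (y : ℝ) / 100 + 2 / (n + 3) := by
    push_cast; field_simp; ring
  have h1 := sqrtLo_le_sqrt (y' * (n + 3) + 200) (100 * (n + 3))
  have h2 := sqrt_le_sqrtUp (y * (n + 3) + 200) (100 * (n + 3))
  rw [e1] at h1
  rw [e2] at h2
  unfold incL
  set a := sqrtLo ((y' * (n + 3) + 200) * uU ^ 2 / (100 * (n + 3)))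
  set b := sqrtUp ((y * (n + 3) + 200) * uU ^ 2 / (100 * (n + 3)) + 1)
  rw [div_le_iff₀ uU_pos]
  rcases le_total b a with hab | hab
  · rw [Nat.cast_sub hab]
    have h3 : √((y' : ℝ) / 100 + 2 / (n + 3)) - √((y : ℝ) / 100 + 2 / (n + 3))
        ≤ max 0 (√((y' : ℝ) / 100 + 2 / (n + 3)) - √((y : ℝ) / 100 + 2 / (n + 3))) :=
      le_max_right _ _
    have h4 := mul_le_mul_of_nonneg_right h3 uU_pos.le
    nlinarith
  · rw [Nat.sub_eq_zero_of_le hab]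
    have := uU_pos
    simp only [Nat.cast_zero]
    positivity

theorem kap_ratio_two (m : ℕ) :
    kap (m + 3) / kap (m + 2) = kap (m + 1) / kap m * (((m : ℝ) + 2) / (m + 3)) := by
  have h0 := kap_pos m
  have h1 := kap_pos (m + 1)
  have e1 := kap_add_two (m + 1)
  have e2 := kap_add_two m
  have e3 : kap (m + 3) = 2 * Real.pi / ((m : ℝ) + 3) * kap (m + 1) := by
    have : kap (m + 3) = kap (m + 1 + 2) := rfl
    rw [this, e1]; push_cast; ring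
  have hpi := Real.pi_pos
  rw [e3, e2]
  field_simp

theorem rL_le : ∀ m : ℕ, (rL m : ℝ) / 10 ^ 10 ≤ kap (m + 1) / kap m
  | 0 => by rw [kap_zero, kap_one]; norm_num [rL]
  | 1 => by
    have h2 : kap 2 = Real.pi := by
      have := kap_add_two 0
      rw [kap_zero] at this
      simpa using this
    show _ ≤ kap 2 / kap 1
    rw [h2, kap_one]
    have := Real.pi_gt_d6
    norm_num [rL]
    linarith
  | m + 2 => by
    have ih := rL_le m
    show _ ≤ kap (m + 3) / kap (m + 2)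
    rw [kap_ratio_two]
    have h : ((rL (m + 2) : ℕ) : ℝ) ≤ (rL m : ℝ) * (m + 2) / (m + 3) := by
      simp only [rL]
      refine le_trans Nat.cast_div_le (le_of_eq ?_)
      push_cast; ring
    calc (rL (m + 2) : ℝ) / 10 ^ 10 ≤ (rL m : ℝ) * (m + 2) / (m + 3) / 10 ^ 10 := by gcongr
      _ = (rL m : ℝ) / 10 ^ 10 * (((m : ℝ) + 2) / (m + 3)) := by ring
      _ ≤ _ := by gcongr

end

end Pool.Agent.Saus
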