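import Pool.Agent.Lib.MP_5a9905_co.Defs
import Pool.Agent.Lib.MP_5a9905_co.Kap

set_option autoImplicit false

open MeasureTheory Finset

namespace Pool.Agent.Saus

noncomputable section

namespace MomAux

theorem ii {f : ℝ → ℝ} (hf : Continuous f) : IntervalIntegrable f volume 0 1 :=
  hf.intervalIntegrable 0 1

theorem radial (k : ℕ) (f : ℝ → ℝ) :
    ∫ v in Metric.closedBall (0 : E (k + 1)) 1, f ‖v‖ =
      ((k : ℝ) + 1) * (kap (k + 1) * ∫ y in (0 : ℝ)..1, y ^ k * f y) := by
  have h1 : ∫ v in Metric.closedBall (0 : E (k + 1)) 1, f ‖v‖ =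
      ∫ v : E (k + 1), (Set.Iic (1 : ℝ)).indicator f ‖v‖ := by
    rw [← integral_indicator measurableSet_closedBall]
    refine integral_congr_ae (Filter.Eventually.of_forall fun v => ?_)
    by_cases h : v ∈ Metric.closedBall (0 : E (k + 1)) 1
    · have h' : ‖v‖ ∈ Set.Iic (1 : ℝ) := mem_closedBall_zero_iff.mp h
      simp only [Set.indicator_of_mem h, Set.indicator_of_mem h']
    · have h' : ‖v‖ ∉ Set.Iic (1 : ℝ) := fun h2 => h (mem_closedBall_zero_iff.mpr h2)
      simp only [Set.indicator_of_notMem h, Set.indicator_of_notMem h']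
  rw [h1, integral_fun_norm_addHaar volume (fun y => (Set.Iic (1 : ℝ)).indicator f y),
    finrank_euclideanSpace_fin, nsmul_eq_mul, smul_eq_mul,
    ← Measure.addHaar_real_closedBall_eq_addHaar_real_ball]
  have h2 : ∫ y in Set.Ioi (0 : ℝ), y ^ (k + 1 - 1) • (Set.Iic (1 : ℝ)).indicator f y =
      ∫ y in (0 : ℝ)..1, y ^ k * f y := by
    rw [intervalIntegral.integral_of_le zero_le_one, ← Set.Ioi_inter_Iic,
      ← setIntegral_indicator measurableSet_Iic]
    refine setIntegral_congr_fun measurableSet_Ioi fun y _ => ?_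
    simp only [smul_eq_mul, Nat.add_sub_cancel]
    by_cases h : y ∈ Set.Iic (1 : ℝ)
    · simp only [Set.indicator_of_mem h]
    · simp only [Set.indicator_of_notMem h, mul_zero]
  rw [h2]
  push_cast
  rfl

end MomAux

open MomAux

/-- A6 MOM. -/
theorem ball_moment_one (m : ℕ) :
    ∫ v in Metric.closedBall (0 : E m) 1, (1 - ‖v‖ ^ 2) = kap m * (2 / ((m : ℝ) + 2)) := by
  rcases Nat.eq_zero_or_pos m with rfl | hm
  · have h : ∀ v : E 0, (1 : ℝ) - ‖v‖ ^ 2 = 1 := fun v => by
      rw [Subsingleton.elim v 0, norm_zero]; norm_num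
    simp only [h]
    rw [setIntegral_const, smul_eq_mul, mul_one]
    change kap 0 = _
    norm_num
  · obtain ⟨k, rfl⟩ : ∃ k, m = k + 1 := ⟨m - 1, by omega⟩
    rw [radial k (fun y => 1 - y ^ 2)]
    have h : ∫ y in (0 : ℝ)..1, y ^ k * (1 - y ^ 2) = 1 / ((k : ℝ) + 1) - 1 / ((k : ℝ) + 3) := by
      have e : ∀ y : ℝ, y ^ k * (1 - y ^ 2) = y ^ k - y ^ (k + 2) := fun y => by ring
      simp only [e]
      rw [intervalIntegral.integral_sub (ii (by fun_prop)) (ii (by fun_prop)), integral_pow, integral_pow]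
      push_cast
      simp
      ring
    rw [h]
    push_cast
    field_simp
    ring

theorem ball_moment_two (m : ℕ) :
    ∫ v in Metric.closedBall (0 : E m) 1, (1 - ‖v‖ ^ 2) ^ 2
      = kap m * (8 / (((m : ℝ) + 2) * ((m : ℝ) + 4))) := by
  rcases Nat.eq_zero_or_pos m with rfl | hm
  · have h : ∀ v : E 0, ((1 : ℝ) - ‖v‖ ^ 2) ^ 2 = 1 := fun v => by
      rw [Subsingleton.elim v 0, norm_zero]; norm_num
    simp only [h]
    rw [setIntegral_const, smul_eq_mul, mul_one]
    change kap 0 = _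
    norm_num
  · obtain ⟨k, rfl⟩ : ∃ k, m = k + 1 := ⟨m - 1, by omega⟩
    rw [radial k (fun y => (1 - y ^ 2) ^ 2)]
    have h : ∫ y in (0 : ℝ)..1, y ^ k * (1 - y ^ 2) ^ 2 =
        1 / ((k : ℝ) + 1) - 2 / ((k : ℝ) + 3) + 1 / ((k : ℝ) + 5) := by
      have e : ∀ y : ℝ, y ^ k * (1 - y ^ 2) ^ 2 = (y ^ k - 2 * y ^ (k + 2)) + y ^ (k + 4) :=
        fun y => by ring
      simp only [e]
      rw [intervalIntegral.integral_add (ii (by fun_prop)) (ii (by fun_prop)),
        intervalIntegral.integral_sub (ii (by fun_prop)) (ii (by fun_prop)),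
        intervalIntegral.integral_const_mul, integral_pow, integral_pow, integral_pow]
      push_cast
      simp
      ring
    rw [h]
    push_cast
    field_simp
    ring

end

end Pool.Agent.Saus
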