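import Pool.Agent.Lib.MP_5a9905_co.Defs
import Pool.Agent.Lib.MP_5a9905_co.Cyl
import Pool.Agent.Lib.MP_5a9905_co.Moment

set_option autoImplicit false
set_option linter.all false

open MeasureTheory Finset

namespace Pool.Agent.Saus

noncomputable section

variable {n : ℕ}

namespace HSLAux

/-- Fubini for sets described by the axial coordinate and the norm. -/
theorem fubini_le {m : ℕ} (u : E (m + 1)) (hu : ‖u‖ = 1) (A : Set (ℝ × ℝ)) (hA : MeasurableSet A)
    (hfin : volume {z : E (m + 1) | (inner ℝ u z, ‖z‖ ^ 2) ∈ A} ≠ ⊤)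
    (g : ℝ → ℝ) (hg : Continuous g) (hg0 : ∀ X, 0 ≤ X → X ≤ 1 → 0 ≤ g X)
    (h : ∀ X, 0 ≤ X → X ≤ 1 → ENNReal.ofReal (g X) ≤ volume {t : ℝ | (t, t ^ 2 + (1 - X)) ∈ A}) :
    ∫ v in Metric.closedBall (0 : E m) 1, g (1 - ‖v‖ ^ 2) ≤
      volume.real {z : E (m + 1) | (inner ℝ u z, ‖z‖ ^ 2) ∈ A} := by
  have hX : ∀ v ∈ Metric.closedBall (0 : E m) 1, 0 ≤ 1 - ‖v‖ ^ 2 ∧ 1 - ‖v‖ ^ 2 ≤ 1 := by
    intro v hv
    rw [Metric.mem_closedBall, dist_zero_right] at hv
    constructor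
    · nlinarith [norm_nonneg v]
    · nlinarith [norm_nonneg v]
  have hms : MeasurableSet {q : ℝ × E m | (q.1, q.1 ^ 2 + ‖q.2‖ ^ 2) ∈ A} := by
    have hf : Measurable fun q : ℝ × E m => (q.1, q.1 ^ 2 + ‖q.2‖ ^ 2) := by fun_prop
    exact hf hA
  have hle : ∫⁻ v in Metric.closedBall (0 : E m) 1, ENNReal.ofReal (g (1 - ‖v‖ ^ 2)) ≤
      volume {z : E (m + 1) | (inner ℝ u z, ‖z‖ ^ 2) ∈ A} := by
    rw [cyl_measure u hu A hA, Measure.volume_eq_prod, Measure.prod_apply_symm hms]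
    refine le_trans ?_ (setLIntegral_le_lintegral (Metric.closedBall (0 : E m) 1) _)
    refine setLIntegral_mono' measurableSet_closedBall fun v hv => ?_
    refine (h _ (hX v hv).1 (hX v hv).2).trans (le_of_eq ?_)
    congr 1
    ext t
    simp only [Set.mem_ofPred_eq, Set.mem_preimage, sub_sub_cancel]
  rw [integral_eq_lintegral_of_nonneg_ae]
  · exact ENNReal.toReal_mono hfin hle
  · refine (ae_restrict_iff' measurableSet_closedBall).2 (Filter.Eventually.of_forall fun v hv => ?_)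
    exact hg0 _ (hX v hv).1 (hX v hv).2
  · exact (by fun_prop : Continuous fun v : E m => g (1 - ‖v‖ ^ 2)).aestronglyMeasurable

/-- The sets in question are bounded. -/
theorem fin_of_le {m : ℕ} (S : Set (E m)) (B : ℝ) (h : ∀ z ∈ S, ‖z‖ ^ 2 ≤ B) : volume S ≠ ⊤ := by
  have h1 : S ⊆ Metric.closedBall (0 : E m) (√B) := by
    intro z hz
    rw [Metric.mem_closedBall, dist_zero_right]
    exact Real.le_sqrt_of_sq_le (h z hz)
  exact ((measure_mono h1).trans_lt measure_closedBall_lt_top).ne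

theorem integral_ball_const (m : ℕ) (a : ℝ) :
    ∫ v in Metric.closedBall (0 : E m) 1, a = kap m * a := by
  rw [setIntegral_const, smul_eq_mul]
  rfl

end HSLAux

open HSLAux

/-- B1 HSL. Shells of half-cylinders (Jensen). -/
theorem hs_lower (u : E (n + 2)) (hu : ‖u‖ = 1) {y₁ y₂ : ℝ} (h₀ : 0 ≤ y₁) (h : y₁ ≤ y₂) :
    kap (n + 1) * (√(y₂ + 2 / (n + 3)) - √(y₁ + 2 / (n + 3))) ≤ volume.real (HS u y₁ y₂) := by
  set θ : ℝ := 2 / ((n : ℝ) + 3) with hθ
  have hθ0 : 0 < θ := by positivity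
  set A : Set (ℝ × ℝ) := {p | 0 ≤ p.1 ∧ p.2 ≤ p.1 ^ 2 + 1 ∧ 1 + y₁ ≤ p.2 ∧ p.2 ≤ 1 + y₂} with hA
  have hAm : MeasurableSet A := by
    refine MeasurableSet.inter (measurableSet_le measurable_const measurable_fst) ?_
    refine MeasurableSet.inter (measurableSet_le measurable_snd (by fun_prop)) ?_
    exact MeasurableSet.inter (measurableSet_le measurable_const measurable_snd)
      (measurableSet_le measurable_snd measurable_const)
  have hS : HS u y₁ y₂ = {z : E (n + 2) | (inner ℝ u z, ‖z‖ ^ 2) ∈ A} := by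
    ext z
    simp only [HS, HC, Set.mem_ofPred_eq, hA]
    tauto
  have hfin : volume {z : E (n + 2) | (inner ℝ u z, ‖z‖ ^ 2) ∈ A} ≠ ⊤ :=
    fin_of_le _ (1 + y₂) fun z hz => hz.2.2.2
  have h1 := fubini_le (m := n + 1) u hu A hAm hfin (fun X => √(y₂ + X) - √(y₁ + X))
    (by fun_prop) (fun X hX _ => sub_nonneg.2 (Real.sqrt_le_sqrt (by linarith))) (by
      intro X hX hX1
      have : {t : ℝ | (t, t ^ 2 + (1 - X)) ∈ A} = Set.Icc (√(y₁ + X)) (√(y₂ + X)) := by
        ext t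
        simp only [hA, Set.mem_ofPred_eq, Set.mem_Icc]
        constructor
        · rintro ⟨ht, -, h3, h4⟩
          exact ⟨Real.sqrt_le_iff.2 ⟨ht, by linarith⟩, Real.le_sqrt_of_sq_le (by linarith)⟩
        · rintro ⟨h3, h4⟩
          have ht : 0 ≤ t := (Real.sqrt_nonneg _).trans h3
          have h5 := (Real.sqrt_le_left ht).1 h3
          have h6 := (Real.le_sqrt ht (by linarith)).1 h4
          exact ⟨ht, by linarith, by linarith, by linarith⟩
      rw [this, Real.volume_Icc])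
  rw [hS]
  refine le_trans ?_ h1
  -- the tangent line
  set a := √(y₂ + θ) with ha
  set b := √(y₁ + θ) with hb
  have ha0 : 0 < a := Real.sqrt_pos.2 (by linarith)
  have hb0 : 0 < b := Real.sqrt_pos.2 (by linarith)
  have hba : b ≤ a := Real.sqrt_le_sqrt (by linarith)
  have tang : ∀ X, 0 ≤ X → (a - b) + (1 / (2 * a) - 1 / (2 * b)) * (X - θ) ≤
      √(y₂ + X) - √(y₁ + X) := by
    intro X hX
    set p := √(y₂ + X) with hp
    set q := √(y₁ + X) with hq
    have hp2 : p ^ 2 = y₂ + X := Real.sq_sqrt (by linarith)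
    have hq2 : q ^ 2 = y₁ + X := Real.sq_sqrt (by linarith)
    have ha2 : a ^ 2 = y₂ + θ := Real.sq_sqrt (by linarith)
    have hb2 : b ^ 2 = y₁ + θ := Real.sq_sqrt (by linarith)
    have hp0 : 0 ≤ p := Real.sqrt_nonneg _
    have hq0 : 0 ≤ q := Real.sqrt_nonneg _
    have hqp : q ≤ p := Real.sqrt_le_sqrt (by linarith)
    -- `X - θ = p ^ 2 - a ^ 2 = q ^ 2 - b ^ 2`
    have e1 : X - θ = p ^ 2 - a ^ 2 := by rw [hp2, ha2]; ring
    have e2 : X - θ = q ^ 2 - b ^ 2 := by rw [hq2, hb2]; ring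
    have f1 : p - a - 1 / (2 * a) * (X - θ) = - (p - a) ^ 2 / (2 * a) := by
      rw [e1]; field_simp; ring
    have f2 : q - b - 1 / (2 * b) * (X - θ) = - (q - b) ^ 2 / (2 * b) := by
      rw [e2]; field_simp; ring
    -- `|p - a| / |q - b| = (q + b) / (p + a) ≤ 1`
    have g1 : (p - a) * (p + a) = (q - b) * (q + b) := by nlinarith
    have g2 : (p - a) ^ 2 / (2 * a) ≤ (q - b) ^ 2 / (2 * b) := by
      have g3 : (p - a) ^ 2 ≤ (q - b) ^ 2 := by
        have hpa : 0 < p + a := by linarith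
        have hqb : 0 < q + b := by linarith
        have g4 : (p - a) ^ 2 * (p + a) ^ 2 = (q - b) ^ 2 * (q + b) ^ 2 := by
          rw [← mul_pow, ← mul_pow, g1]
        have g5 : (q + b) ^ 2 ≤ (p + a) ^ 2 := by
          apply pow_le_pow_left₀ hqb.le; linarith
        have g6 : (p - a) ^ 2 * (p + a) ^ 2 ≤ (q - b) ^ 2 * (p + a) ^ 2 := by
          rw [g4]
          exact mul_le_mul_of_nonneg_left g5 (sq_nonneg _)
        exact le_of_mul_le_mul_right g6 (by positivity)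
      calc (p - a) ^ 2 / (2 * a) ≤ (q - b) ^ 2 / (2 * a) := by gcongr
        _ ≤ (q - b) ^ 2 / (2 * b) := by gcongr
    have f3 : (√(y₂ + X) - √(y₁ + X)) - ((a - b) + (1 / (2 * a) - 1 / (2 * b)) * (X - θ)) =
        (p - a - 1 / (2 * a) * (X - θ)) - (q - b - 1 / (2 * b) * (X - θ)) := by
      ring
    have f4 : 0 ≤ (√(y₂ + X) - √(y₁ + X)) - ((a - b) + (1 / (2 * a) - 1 / (2 * b)) * (X - θ)) := by
      rw [f3, f1, f2, neg_div, neg_div]
      linarith
    linarith
  have hint : ∀ {g : E (n + 1) → ℝ}, Continuous g →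
      IntegrableOn g (Metric.closedBall (0 : E (n + 1)) 1) := fun {g} hg =>
    hg.continuousOn.integrableOn_compact (isCompact_closedBall _ _)
  have h2 : ∫ v in Metric.closedBall (0 : E (n + 1)) 1,
      ((a - b) + (1 / (2 * a) - 1 / (2 * b)) * ((1 - ‖v‖ ^ 2) - θ)) ≤
      ∫ v in Metric.closedBall (0 : E (n + 1)) 1, (√(y₂ + (1 - ‖v‖ ^ 2)) - √(y₁ + (1 - ‖v‖ ^ 2))) := by
    refine setIntegral_mono_on (hint (by fun_prop)) (hint (by fun_prop)) measurableSet_closedBall ?_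
    intro v hv
    rw [Metric.mem_closedBall, dist_zero_right] at hv
    exact tang _ (by nlinarith [norm_nonneg v])
  refine le_trans (le_of_eq ?_) h2
  have h3 : (fun v : E (n + 1) => (a - b) + (1 / (2 * a) - 1 / (2 * b)) * ((1 - ‖v‖ ^ 2) - θ)) =
      fun v => ((a - b) - (1 / (2 * a) - 1 / (2 * b)) * θ) +
        (1 / (2 * a) - 1 / (2 * b)) * (1 - ‖v‖ ^ 2) := by
    funext v; ring
  rw [h3, integral_add (hint continuous_const) (hint (by fun_prop)), integral_const_mul,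
    integral_ball_const, ball_moment_one]
  have h4 : (2 : ℝ) / (((n + 1 : ℕ) : ℝ) + 2) = θ := by
    rw [hθ]; push_cast; ring
  rw [h4]
  ring

end

end Pool.Agent.Saus
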