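import Pool.Agent.Lib.MP_5a9905_co.Defs
import Pool.Agent.Lib.MP_5a9905_co.HSLower

set_option autoImplicit false
set_option linter.all false

open MeasureTheory Finset

namespace Pool.Agent.Saus

noncomputable section

variable {n : ℕ}

open HSLAux

/-- B2 HCV. -/
theorem hcv_lower {y : ℝ} (h₀ : 0 < y) (h₁ : y ≤ 1) :
    kap (n + 1) * (√y + 1 / ((n + 3) * √y) - 1 / ((n + 3) * (n + 5) * (y * √y)))
      ≤ hcv n (1 + y) := by
  have hu : ‖e0 n‖ = 1 := by simp [e0]
  set A : Set (ℝ × ℝ) := {p | 0 ≤ p.1 ∧ p.2 ≤ p.1 ^ 2 + 1 ∧ p.2 ≤ 1 + y} with hA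
  have hAm : MeasurableSet A := by
    refine MeasurableSet.inter (measurableSet_le measurable_const measurable_fst) ?_
    exact MeasurableSet.inter (measurableSet_le measurable_snd (by fun_prop))
      (measurableSet_le measurable_snd measurable_const)
  have hS : HC (e0 n) ∩ Bl (n + 2) (1 + y) =
      {z : E (n + 2) | (inner ℝ (e0 n) z, ‖z‖ ^ 2) ∈ A} := by
    ext z
    simp only [HC, Bl, Set.mem_ofPred_eq, hA, Set.mem_inter_iff]
    tauto
  have hfin : volume {z : E (n + 2) | (inner ℝ (e0 n) z, ‖z‖ ^ 2) ∈ A} ≠ ⊤ :=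
    fin_of_le _ (1 + y) fun z hz => hz.2.2
  have h1 := fubini_le (m := n + 1) (e0 n) hu A hAm hfin (fun X => √(y + X))
    (by fun_prop) (fun X hX _ => Real.sqrt_nonneg _) (by
      intro X hX hX1
      have : {t : ℝ | (t, t ^ 2 + (1 - X)) ∈ A} = Set.Icc 0 (√(y + X)) := by
        ext t
        simp only [hA, Set.mem_ofPred_eq, Set.mem_Icc]
        constructor
        · rintro ⟨ht, -, h4⟩
          exact ⟨ht, Real.le_sqrt_of_sq_le (by linarith)⟩
        · rintro ⟨ht, h4⟩
          have h6 := (Real.le_sqrt ht (by linarith)).1 h4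
          exact ⟨ht, by linarith, by linarith⟩
      rw [this, Real.volume_Icc, sub_zero])
  rw [hcv, hS]
  refine le_trans ?_ h1
  have hint : ∀ {g : E (n + 1) → ℝ}, Continuous g →
      IntegrableOn g (Metric.closedBall (0 : E (n + 1)) 1) := fun {g} hg =>
    hg.continuousOn.integrableOn_compact (isCompact_closedBall _ _)
  set a := √y with ha
  have ha0 : 0 < a := Real.sqrt_pos.2 h₀
  have ha2 : a ^ 2 = y := Real.sq_sqrt h₀.le
  have tang : ∀ X, 0 ≤ X → a + 1 / (2 * a) * X - 1 / (8 * (y * a)) * X ^ 2 ≤ √(y + X) := by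
    intro X hX
    set s := √(y + X) with hs
    have hs2 : s ^ 2 = y + X := Real.sq_sqrt (by linarith)
    have hs0 : 0 ≤ s := Real.sqrt_nonneg _
    have has : a ≤ s := Real.sqrt_le_sqrt (by linarith)
    have e1 : X = s ^ 2 - a ^ 2 := by rw [hs2, ha2]; ring
    have e2 : s - (a + 1 / (2 * a) * X - 1 / (8 * (y * a)) * X ^ 2) =
        (s - a) ^ 3 * (s + 3 * a) / (8 * a ^ 3) := by
      rw [e1, ← ha2]; field_simp; ring
    have e3 : 0 ≤ (s - a) ^ 3 * (s + 3 * a) / (8 * a ^ 3) := by
      have : 0 ≤ s - a := by linarith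
      positivity
    linarith
  have h2 : ∫ v in Metric.closedBall (0 : E (n + 1)) 1,
      (a + 1 / (2 * a) * (1 - ‖v‖ ^ 2) - 1 / (8 * (y * a)) * (1 - ‖v‖ ^ 2) ^ 2) ≤
      ∫ v in Metric.closedBall (0 : E (n + 1)) 1, √(y + (1 - ‖v‖ ^ 2)) := by
    refine setIntegral_mono_on (hint (by fun_prop)) (hint (by fun_prop)) measurableSet_closedBall ?_
    intro v hv
    rw [Metric.mem_closedBall, dist_zero_right] at hv
    exact tang _ (by nlinarith [norm_nonneg v])
  refine le_trans (le_of_eq ?_) h2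
  rw [integral_sub (hint (by fun_prop)) (hint (by fun_prop)),
    integral_add (hint continuous_const) (hint (by fun_prop)), integral_const_mul,
    integral_const_mul, integral_ball_const, ball_moment_one, ball_moment_two]
  have hy0 : y ≠ 0 := h₀.ne'
  push_cast
  field_simp
  ring

end

end Pool.Agent.Saus
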