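import Pool.Agent.Lib.MP_5a9905_co.Cyl

set_option autoImplicit false

open MeasureTheory Finset

namespace Pool.Agent.Saus

noncomputable section

variable {n : ℕ}

/-- B3 HCX. -/
theorem hcv_two : kap (n + 1) + seg1 n ≤ hcv n 2 := by
  have he : ‖e0 n‖ = 1 := by
    unfold e0
    simp
  have hfin : ∀ S : Set (E (n + 2)), volume (S ∩ Bl (n + 2) 2) ≠ ⊤ := by
    intro S
    have hsub : S ∩ Bl (n + 2) 2 ⊆ Metric.closedBall (0 : E (n + 2)) (√2) := by
      rintro z ⟨-, hz⟩
      have hz' : ‖z‖ ^ 2 ≤ 2 := hz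
      rw [mem_closedBall_zero_iff]
      exact Real.le_sqrt_of_sq_le hz'
    exact ne_top_of_le_ne_top measure_closedBall_lt_top.ne (measure_mono hsub)
  -- the solid half cylinder of height one
  set A : Set (ℝ × ℝ) := {p | 0 ≤ p.1 ∧ p.1 ≤ 1 ∧ p.2 ≤ p.1 ^ 2 + 1} with hA
  have hAm : MeasurableSet A := by
    refine ((measurableSet_le measurable_const measurable_fst).inter
      ((measurableSet_le measurable_fst measurable_const).inter
        (measurableSet_le measurable_snd ((measurable_fst.pow_const 2).add_const 1))))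
  set T : Set (E (n + 2)) := {z : E (n + 2) | (inner ℝ (e0 n) z, ‖z‖ ^ 2) ∈ A} with hT
  have hTvol : volume T = ENNReal.ofReal (kap (n + 1)) := by
    rw [hT, cyl_measure (e0 n) he A hAm]
    have hset : {q : ℝ × E (n + 1) | (q.1, q.1 ^ 2 + ‖q.2‖ ^ 2) ∈ A}
        = Set.Icc (0 : ℝ) 1 ×ˢ Metric.closedBall (0 : E (n + 1)) 1 := by
      ext q
      simp only [hA, Set.mem_ofPred_eq, Set.mem_prod, Set.mem_Icc, mem_closedBall_zero_iff]
      constructor
      · rintro ⟨h1, h2, h3⟩
        refine ⟨⟨h1, h2⟩, ?_⟩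
        nlinarith [norm_nonneg q.2]
      · rintro ⟨⟨h1, h2⟩, h3⟩
        refine ⟨h1, h2, ?_⟩
        nlinarith [norm_nonneg q.2]
    rw [hset, Measure.volume_eq_prod, Measure.prod_prod, Real.volume_Icc, kap, measureReal_def,
      ENNReal.ofReal_toReal measure_closedBall_lt_top.ne]
    simp
  have hTreal : volume.real T = kap (n + 1) := by
    rw [measureReal_def, hTvol, ENNReal.toReal_ofReal]
    exact measureReal_nonneg
  have hTm : MeasurableSet T := by
    have : Measurable fun z : E (n + 2) => ((inner ℝ (e0 n) z : ℝ), ‖z‖ ^ 2) := by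
      refine Measurable.prodMk ?_ (measurable_norm.pow_const 2)
      exact (continuous_const.inner continuous_id).measurable
    exact this hAm
  set S : Set (E (n + 2)) := {z | 1 < inner ℝ (e0 n) z} ∩ Bl (n + 2) 2 with hS
  have hdisj : Disjoint T S := by
    rw [Set.disjoint_left]
    rintro z hz1 hz2
    have h1 : inner ℝ (e0 n) z ≤ (1 : ℝ) := hz1.2.1
    have h2 : (1 : ℝ) < inner ℝ (e0 n) z := hz2.1
    linarith
  have hsub : T ∪ S ⊆ HC (e0 n) ∩ Bl (n + 2) 2 := by
    rintro z (hz | hz)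
    · have h0 : (0 : ℝ) ≤ inner ℝ (e0 n) z := hz.1
      have h1 : inner ℝ (e0 n) z ≤ (1 : ℝ) := hz.2.1
      have h2 : ‖z‖ ^ 2 ≤ (inner ℝ (e0 n) z) ^ 2 + 1 := hz.2.2
      refine ⟨⟨h0, h2⟩, ?_⟩
      show ‖z‖ ^ 2 ≤ 2
      nlinarith
    · have h1 : (1 : ℝ) < inner ℝ (e0 n) z := hz.1
      have h2 : ‖z‖ ^ 2 ≤ 2 := hz.2
      refine ⟨⟨by linarith, ?_⟩, hz.2⟩
      nlinarith
  have hTfin : volume T ≠ ⊤ := by rw [hTvol]; exact ENNReal.ofReal_ne_top
  have hSm : MeasurableSet S := by
    refine (measurableSet_lt measurable_const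
      (continuous_const.inner continuous_id).measurable).inter ?_
    exact measurableSet_le (measurable_norm.pow_const 2) measurable_const
  calc kap (n + 1) + seg1 n = volume.real T + volume.real S := by rw [hTreal]; rfl
    _ = volume.real (T ∪ S) := (measureReal_union hdisj hSm hTfin (hfin _)).symm
    _ ≤ hcv n 2 := measureReal_mono hsub (hfin _)

end

end Pool.Agent.Saus
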