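import Pool.Agent.Lib.MP_5a9905_co.Defs
import Pool.Agent.Lib.MP_5a9905_co.Kap
import Pool.Agent.Lib.MP_5a9905_co.HCVLower
import Pool.Agent.Lib.MP_5a9905_co.HCVTwo
import Pool.Agent.Lib.MP_5a9905_co.ChainNum

/-! The final numerical inequalities `NumOut` from rational data. -/

set_option autoImplicit false

open MeasureTheory Finset

namespace Pool.Agent.Saus

noncomputable section

namespace NumOfAux

theorem pi_kap (n : ℕ) : Real.pi * kap n = ((n : ℝ) + 2) / 2 * kap (n + 2) := by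
  rw [kap_add_two]
  have : ((n : ℝ) + 2) ≠ 0 := by positivity
  field_simp

theorem kap_zero_ge (n : ℕ) : ((n : ℝ) + 2) / 6.2832 * kap (n + 2) ≤ kap n := by
  have h := pi_kap n
  have h2 := kap_pos (n + 2)
  have h0 := kap_pos n
  have hpi : Real.pi ≤ 3.1416 := by
    have := Real.pi_lt_d4
    linarith
  have h3 : Real.pi * kap n ≤ 3.1416 * kap n := mul_le_mul_of_nonneg_right hpi h0.le
  rw [h] at h3
  rw [div_mul_eq_mul_div, div_le_iff₀ (by norm_num)]
  linarith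

theorem hcv_ge_kap (n : ℕ) : kap (n + 1) ≤ hcv n 2 := by
  have h := hcv_two (n := n)
  have h2 : 0 ≤ seg1 n := measureReal_nonneg
  linarith

theorem e_ge {e : ℝ} (h : 2 - 2 * √(7 / 8) ≤ e ^ 2) (he : 0 ≤ e) : 0.3594 ≤ e := by
  have h1 : √(7 / 8 : ℝ) ≤ 0.93541435 := by
    apply Real.sqrt_le_iff.2
    constructor <;> norm_num
  have h2 : (0.3594 : ℝ) ^ 2 ≤ e ^ 2 := by
    refine le_trans ?_ h
    have h3 : (0.3594 : ℝ) ^ 2 ≤ 2 - 2 * 0.93541435 := by norm_num
    linarith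
  exact (sq_le_sq₀ (by norm_num) he).1 h2

/-- concavity of `e (c - e)` -/
theorem conc {e c u v A : ℝ} (h1 : u ≤ e) (h2 : e ≤ v) (ha : A ≤ u * (c - u))
    (hb : A ≤ v * (c - v)) : A ≤ e * (c - e) := by
  rcases le_total e (c - e) with h | h
  · -- increasing part: compare with `u`
    nlinarith
  · rcases le_total (u + v) c with h3 | h3
    · nlinarith
    · nlinarith

end NumOfAux

open NumOfAux

theorem numOut_of {n : ℕ} (hn : 6 ≤ n) {R s s₂ ρ a b : ℝ} (hR1 : 1 < R) (hR2 : R ≤ 2)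
    (_hρ0 : 0 ≤ ρ) (hρ : ρ ≤ kap (n + 2) / kap (n + 1)) (ha : 0 < a) (haR : a ^ 2 ≤ R - 1)
    (hb : 0 < b) (hbR : R - 1 ≤ b ^ 2)
    (h1 : 2 + s ≤ ρ / 3 + (a + 1 / ((n + 3) * b) - 1 / ((n + 3) * (n + 5) * ((R - 1) * a)))
      + (n + 2) / 12 * ρ * (R - 1 + 2 / (n + 2)))
    (h2 : 2 + s₂ ≤ (1 + 1 / (n + 3) - 1 / ((n + 3) * (n + 5))) + (n + 2) / 8 * ρ)
    (h3 : 2 + s₂ ≤ (1 + 1 / (n + 3) - 1 / ((n + 3) * (n + 5))) + 3 / 4 * ((n + 2) * ρ / 6.2832))
    (h4 : 2 + s₂ ≤ 2 * (1 + 1 / (n + 3) - 1 / ((n + 3) * (n + 5)))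
      + 0.3594 * ((1 - 4 / (n + 2)) * ((n + 2) * ρ / 6.2832) - 0.3594))
    (h5 : 2 + s₂ ≤ 2 * (1 + 1 / (n + 3) - 1 / ((n + 3) * (n + 5)))
      + 4 / 5 * ((1 - 4 / (n + 2)) * ((n + 2) * ρ / 6.2832) - 4 / 5))
    (h6 : 1 + s₂ ≤ (1 + 1 / (n + 3) - 1 / ((n + 3) * (n + 5))) + (n + 2) / 24 * ρ) :
    NumOut n R s s₂ := by
  have k0 := kap_pos n
  have k1 := kap_pos (n + 1)
  have k2 := kap_pos (n + 2)
  have hk2 : ρ * kap (n + 1) ≤ kap (n + 2) := by
    rwa [le_div_iff₀ k1] at hρ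
  have hpk := pi_kap n
  have hk0 := kap_zero_ge n
  have hn0 : (0 : ℝ) < (n : ℝ) + 2 := by positivity
  have hy0 : 0 < R - 1 := by linarith
  -- lower bounds for `hcv`
  have hH : kap (n + 1) * (a + 1 / ((n + 3) * b) - 1 / ((n + 3) * (n + 5) * ((R - 1) * a)))
      ≤ hcv n R := by
    have h := hcv_lower (n := n) hy0 (by linarith)
    rw [show 1 + (R - 1) = R by ring] at h
    refine le_trans (mul_le_mul_of_nonneg_left ?_ k1.le) h
    have hs : 0 < √(R - 1) := Real.sqrt_pos.2 hy0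
    have has : a ≤ √(R - 1) := Real.le_sqrt_of_sq_le haR
    have hsb : √(R - 1) ≤ b := Real.sqrt_le_iff.2 ⟨hb.le, hbR⟩
    have g1 : 1 / (((n : ℝ) + 3) * b) ≤ 1 / ((n + 3) * √(R - 1)) := by gcongr
    have g2 : 1 / (((n : ℝ) + 3) * (n + 5) * ((R - 1) * √(R - 1)))
        ≤ 1 / ((n + 3) * (n + 5) * ((R - 1) * a)) := by gcongr
    linarith
  have hH2 : kap (n + 1) * (1 + 1 / (n + 3) - 1 / ((n + 3) * (n + 5))) ≤ hcv n 2 := by
    have h := hcv_lower (n := n) (y := 1) one_pos le_rfl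
    norm_num at h
    norm_num
    linarith
  set H : ℝ := a + 1 / ((n + 3) * b) - 1 / ((n + 3) * (n + 5) * ((R - 1) * a)) with hHdef
  set H2 : ℝ := 1 + 1 / ((n : ℝ) + 3) - 1 / ((n + 3) * (n + 5)) with hH2def
  have hT : ((n : ℝ) + 2) * ρ / 6.2832 * kap (n + 1) ≤ kap n := by
    refine le_trans ?_ hk0
    refine le_trans (le_of_eq ?_) (mul_le_mul_of_nonneg_left hk2
      (by positivity : (0 : ℝ) ≤ ((n : ℝ) + 2) / 6.2832))
    ring
  have hc0 : (0 : ℝ) ≤ 1 - 4 / ((n : ℝ) + 2) := by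
    have : (6 : ℝ) ≤ n := by exact_mod_cast hn
    rw [sub_nonneg, div_le_one hn0]
    linarith
  refine ⟨hR1.le, hR2, ?_, ?_, ?_, ?_, ?_⟩
  · -- narrow
    have e1 : Real.pi / 6 * kap n * (R - 1 + 2 / (n + 2))
        = (n + 2) / 12 * kap (n + 2) * (R - 1 + 2 / (n + 2)) := by
      linear_combination (1 / 6 * (R - 1 + 2 / ((n : ℝ) + 2))) * hpk
    rw [e1]
    have hz : 0 ≤ R - 1 + 2 / ((n : ℝ) + 2) := by positivity
    have g1 := mul_le_mul_of_nonneg_right h1 k1.le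
    have g2 : ((n : ℝ) + 2) / 12 * (R - 1 + 2 / (n + 2)) * (ρ * kap (n + 1))
        ≤ (n + 2) / 12 * (R - 1 + 2 / (n + 2)) * kap (n + 2) :=
      mul_le_mul_of_nonneg_left hk2 (by positivity)
    linarith
  · -- wide1
    have e1 : Real.pi / 4 * kap n = (n + 2) / 8 * kap (n + 2) := by
      linear_combination (1 / 4) * hpk
    rw [e1]
    have g1 := mul_le_mul_of_nonneg_right h2 k1.le
    have g2 : ((n : ℝ) + 2) / 8 * (ρ * kap (n + 1)) ≤ (n + 2) / 8 * kap (n + 2) :=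
      mul_le_mul_of_nonneg_left hk2 (by positivity)
    linarith
  · -- wide2
    have g1 := mul_le_mul_of_nonneg_right h3 k1.le
    linarith
  · -- flat
    intro e he he0 he1
    have hee := e_ge he he0
    set C := (1 - 4 / ((n : ℝ) + 2)) * ((n + 2) * ρ / 6.2832) with hC
    have g0 : 2 + s₂ - 2 * H2 ≤ e * (C - e) := by
      apply conc hee he1
      · linarith
      · linarith
    have g1 : C * kap (n + 1) ≤ (1 - 4 / ((n : ℝ) + 2)) * kap n := by
      rw [hC, mul_assoc]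
      exact mul_le_mul_of_nonneg_left hT hc0
    have g2 := mul_le_mul_of_nonneg_right g0 k1.le
    have g3 := mul_le_mul_of_nonneg_left g1 he0
    linarith
  · -- ends
    have e1 : Real.pi / 12 * kap n * (1 + 2 / (n + 2))
        = (n + 2) / 24 * kap (n + 2) + kap (n + 2) / 12 := by
      have : Real.pi / 12 * kap n * (1 + 2 / (n + 2))
          = (n + 2) / 24 * kap (n + 2) * (1 + 2 / (n + 2)) := by
        linear_combination (1 / 12 * (1 + 2 / ((n : ℝ) + 2))) * hpk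
      rw [this]
      field_simp
      ring
    rw [e1]
    have g1 := mul_le_mul_of_nonneg_right h6 k1.le
    have g2 : ((n : ℝ) + 2) / 24 * (ρ * kap (n + 1)) ≤ (n + 2) / 24 * kap (n + 2) :=
      mul_le_mul_of_nonneg_left hk2 (by positivity)
    linarith

namespace NumOfAux

theorem rL_val : rL 51 ≥ 3450000000 := by decide +kernel

theorem ratio_mono {m n : ℕ} (h : m ≤ n) : kap m / kap (m + 1) ≤ kap n / kap (n + 1) := by
  induction n, h using Nat.le_induction with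
  | base => exact le_rfl
  | succ k hk ih =>
    refine le_trans ih ?_
    rw [div_le_div_iff₀ (kap_pos _) (kap_pos _)]
    have := kap_ratio_anti k
    nlinarith

theorem ratio_ge {n : ℕ} (hn : 50 ≤ n) : 2.8 * kap (n + 1) ≤ kap n := by
  have h := ratio_mono hn
  have k51 := kap_pos 51
  have k50 := kap_pos 50
  have k1 := kap_pos (n + 1)
  have h2 := rL_le 51
  have h3 : (3450000000 : ℝ) ≤ (rL 51 : ℝ) := by exact_mod_cast rL_val
  have h4 : (0.345 : ℝ) ≤ kap (51 + 1) / kap 51 := by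
    refine le_trans ?_ h2
    rw [le_div_iff₀ (by norm_num)]
    linarith
  rw [le_div_iff₀ k51] at h4
  have h5 := kap_zero_ge 50
  norm_num at h4 h5 h
  have h6 : (2.8 : ℝ) ≤ kap 50 / kap 51 := by
    rw [le_div_iff₀ k51]
    linarith
  have h7 : (2.8 : ℝ) ≤ kap n / kap (n + 1) := h6.trans h
  rwa [le_div_iff₀ k1] at h7

end NumOfAux

theorem numOut_unif {n : ℕ} (hn : 50 ≤ n) : NumOut n 2 (1 / 4) (1 / 4) := by
  have k0 := kap_pos n
  have k1 := kap_pos (n + 1)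
  have k2 := kap_pos (n + 2)
  have ht := ratio_ge hn
  have hh := hcv_ge_kap n
  have hn0 : (0 : ℝ) < (n : ℝ) + 2 := by positivity
  have hpi : (3.1415 : ℝ) ≤ Real.pi := by
    have := Real.pi_gt_d4
    linarith
  have hp : 3.1415 * kap n ≤ Real.pi * kap n := mul_le_mul_of_nonneg_right hpi k0.le
  have hn' : (50 : ℝ) ≤ n := by exact_mod_cast hn
  have hc : (12 / 13 : ℝ) ≤ 1 - 4 / ((n : ℝ) + 2) := by
    have : 4 / ((n : ℝ) + 2) ≤ 1 / 13 := by
      rw [div_le_iff₀ hn0]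
      linarith
    linarith
  refine ⟨by norm_num, le_rfl, ?_, ?_, ?_, ?_, ?_⟩
  · have hz : 0 ≤ Real.pi * kap n * (2 / ((n : ℝ) + 2)) := by positivity
    nlinarith
  · nlinarith
  · linarith
  · intro e he he0 he1
    have hee := e_ge he he0
    have g0 : (1 / 4 : ℝ) ≤ e * (12 / 13 * 2.8 - e) := by
      apply conc hee he1
      · norm_num
      · norm_num
    have g1 : (12 / 13 * 2.8) * kap (n + 1) ≤ (1 - 4 / ((n : ℝ) + 2)) * kap n := by
      calc (12 / 13 * 2.8) * kap (n + 1) = 12 / 13 * (2.8 * kap (n + 1)) := by ring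
        _ ≤ 12 / 13 * kap n := by gcongr
        _ ≤ (1 - 4 / ((n : ℝ) + 2)) * kap n := by gcongr
    have g2 := mul_le_mul_of_nonneg_right g0 k1.le
    have g3 := mul_le_mul_of_nonneg_left g1 he0
    linarith
  · have e1 : Real.pi / 12 * kap n * (1 + 2 / (n + 2))
        = Real.pi / 12 * kap n + kap (n + 2) / 12 := by
      have hpk := pi_kap n
      have : Real.pi / 12 * kap n * (2 / ((n : ℝ) + 2)) = kap (n + 2) / 12 := by
        have : Real.pi / 12 * kap n * (2 / ((n : ℝ) + 2))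
            = (((n : ℝ) + 2) / 2 * kap (n + 2)) / 12 * (2 / ((n : ℝ) + 2)) := by
          rw [← hpk]; ring
        rw [this]
        field_simp
      rw [mul_add, mul_one, this]
    rw [e1]
    nlinarith

end

end Pool.Agent.Saus
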