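import Pool.Agent.Lib.MP_5a9905_co.ChainNum

/-! Verified checker for the numerical chain (`ChainOut`). -/

set_option autoImplicit false

open Finset

namespace Pool.Agent.Saus

/-- a class of centres `x < X/100`, with `τ = K h / 10^4` and the list of overlap bounds -/
structure Cls where
  X : ℕ
  K : ℕ
  h : ℕ
  q : List ℕ

/-- steps of a certificate -/
inductive Step
  | gs (r : ℕ) (L : List (ℕ × ℕ)) (g : ℕ)
  | ts (i k J : ℕ) (L : List (ℕ × ℕ))

def nearN (n r : ℕ) : ℕ → ℕ → List (ℕ × ℕ) → ℕ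
  | _, _, [] => 0
  | m0, x0, p :: L => (p.2 - m0) * sgU n r x0 + nearN n r p.2 p.1 L

def lastX : ℕ → List (ℕ × ℕ) → ℕ
  | x0, [] => x0
  | _, p :: L => lastX p.1 L

def sOK (st : List (ℕ × ℕ)) : ℕ → List (ℕ × ℕ) → Bool
  | _, [] => true
  | x0, p :: L => (Nat.ble x0 p.1 && st.any (fun s => Nat.ble p.1 s.1 && Nat.ble s.2 p.2))
      && sOK st p.1 L

def restOK (n r x : ℕ) : Bool := (Nat.ble r x || Nat.ble 200 x) || Nat.ble 1 (gamL n x)

/-- bound for `ρ g`, in units `1/uU` -/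
def restN (n r x g : ℕ) : ℕ :=
  bif (Nat.ble r x || Nat.ble 200 x) then 0 else sgU n r x * g / gamL n x + 1

def sB (n r g : ℕ) (L : List (ℕ × ℕ)) : ℕ := nearN n r 0 100 L + restN n r (lastX 100 L) g

def sbOK (n r : ℕ) (st L : List (ℕ × ℕ)) : Bool := sOK st 100 L && restOK n r (lastX 100 L)

def gOK (n r : ℕ) (st L : List (ℕ × ℕ)) (g : ℕ) : Bool :=
  (Nat.ble 1 r && Nat.ble r 200) && sbOK n r st L &&
    Nat.ble ((2 * uU + nearN n r 0 100 L) * uU)
      (g * (powL n r - restN n r (lastX 100 L) uU))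

def tsmN (n k : ℕ) (ys q : List ℕ) : ℕ → ℕ
  | 0 => 0
  | j + 1 => tsmN n k ys q j
      + incL n (ys.getD j 0) (ys.getD (j + 1) 0) * k * 10 ^ 4 / (10 ^ 4 + (k - 1) * q.getD j 0)

def tOK (n : ℕ) (ys : List ℕ) (c : Cls) (st : List (ℕ × ℕ)) (g k J : ℕ) (L : List (ℕ × ℕ)) :
    Bool :=
  (Nat.ble 1 k && Nat.ble 100 c.X && Nat.ble c.X 200
      && Nat.ble ((4 * c.X - 100) * (c.K * c.h) ^ 2) (10 ^ 10)) &&
    (Nat.ble (ys.getD J 0) 100 && sbOK n (100 + ys.getD J 0) st L) &&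
      Nat.ble (2 * uU + sB n (100 + ys.getD J 0) g L)
        (rL (n + 1) * uU / 10 ^ 10 + tsmN n k ys c.q J)

def run (n : ℕ) (ys : List ℕ) (cs : List Cls) (J0 : ℕ) (fin : List (ℕ × ℕ) → ℕ → Bool) :
    List Step → List (ℕ × ℕ) → ℕ → Bool
  | [], st, g => fin st g
  | Step.gs r L g' :: S, st, _ => gOK n r st L g' && run n ys cs J0 fin S st g'
  | Step.ts i k J L :: S, st, g =>
      match cs[i]? with
      | none => false
      | some c => (Nat.ble J J0 && tOK n ys c st g k J L)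
          && run n ys cs J0 fin S ((c.X, k - 1) :: st) g

def finOK (n r sN s2N : ℕ) (L L2 : List (ℕ × ℕ)) (st : List (ℕ × ℕ)) (g : ℕ) : Bool :=
  (Nat.ble 1 r && Nat.ble r 200) &&
  (sbOK n r st L && Nat.ble (sB n r g L * 10 ^ 4) (sN * uU)) &&
    (sbOK n 200 st L2 && Nat.ble (sB n 200 g L2 * 10 ^ 4) (s2N * uU))

/-- check of the overlap table -/
def tabOK (m J0 : ℕ) (ys : List ℕ) (cs : List Cls) : Bool :=
  cs.all (fun c => (List.range J0).all (fun j =>
    Nat.beq (c.q.getD j 0) (10 ^ 4) ||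
      (Nat.ble (c.q.getD j 0) (10 ^ 4)
        && qCheck m (ys.getD j 0) c.K c.h c.h 400 (c.q.getD j 0))))

def ysOK (J0 : ℕ) (ys : List ℕ) : Bool :=
  Nat.beq (ys.getD 0 0) 0 && (List.range J0).all (fun j => Nat.ble (ys.getD j 0) (ys.getD (j + 1) 0))

/-- semantic content of a table -/
def Tab (n J0 : ℕ) (ys : List ℕ) (cs : List Cls) : Prop :=
  ∀ c ∈ cs, ∀ j < J0, QB n ((ys.getD j 0 : ℕ) / 100) ((c.K * c.h : ℕ) / 10 ^ 4)
    ((c.q.getD j 0 : ℕ) / 10 ^ 4)

theorem tab_of_check {m J0 : ℕ} {ys : List ℕ} {cs : List Cls} (hm : 1 ≤ m)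
    (h : tabOK m J0 ys cs = true) {n : ℕ} (hn : 2 * m ≤ n) : Tab n J0 ys cs := by
  intro c hc j hj
  have h1 := List.all_eq_true.mp h c hc
  have h2 := List.all_eq_true.mp h1 j (List.mem_range.mpr hj)
  rw [Bool.or_eq_true] at h2
  rcases h2 with h2 | h2
  · have h3 : c.q.getD j 0 = 10 ^ 4 := Nat.eq_of_beq_eq_true h2
    rw [h3]
    have h4 : (((10 ^ 4 : ℕ)) : ℝ) / 10 ^ 4 = 1 := by norm_num
    rw [h4]
    exact QB.one (by positivity) (by positivity)
  · rw [Bool.and_eq_true] at h2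
    have h3 := QB_of_check hm (Nat.le_of_ble_eq_true h2.1) h2.2
    exact QB.mono_n h3 (by positivity) (by positivity) hn

section

variable {ι : Type} {n : ℕ} {I : Finset ι} {x : ι → ℝ}

/-- number of centres with `x < X/100` -/
noncomputable def Nc (I : Finset ι) (x : ι → ℝ) (X : ℕ) : ℕ := (I.filter (fun i => x i < (X : ℝ) / 100)).card

/-- the Blichfeldt sum -/
noncomputable def GG (n : ℕ) (I : Finset ι) (x : ι → ℝ) : ℝ :=
  ∑ i ∈ I.filter (fun i => x i < 2), gam (n + 2) (x i)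

structure Inv (n : ℕ) (I : Finset ι) (x : ι → ℝ) (st : List (ℕ × ℕ)) (g : ℕ) : Prop where
  cnt : ∀ p ∈ st, Nc I x p.1 ≤ p.2
  gb : GG n I x ≤ (g : ℝ) / (uU : ℝ)

theorem Nc_mono {X X' : ℕ} (h : X ≤ X') : Nc I x X ≤ Nc I x X' := by
  apply Finset.card_le_card
  intro i hi
  rw [Finset.mem_filter] at hi ⊢
  refine ⟨hi.1, lt_of_lt_of_le hi.2 ?_⟩
  have : (X : ℝ) ≤ X' := by exact_mod_cast h
  linarith

theorem near_bound {st : List (ℕ × ℕ)} {g : ℕ} (hI : Inv n I x st g) (r : ℕ)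
    (L : List (ℕ × ℕ)) : ∀ (m0 x0 : ℕ), 0 < x0 → Nc I x x0 ≤ m0 → sOK st x0 L = true →
    ∑ i ∈ I.filter (fun i => (x0 : ℝ) / 100 ≤ x i), sg (n + 2) ((r : ℝ) / 100) (x i)
      ≤ (nearN n r m0 x0 L : ℝ) / (uU : ℝ)
        + ((m0 : ℝ) - Nc I x x0) * sg (n + 2) ((r : ℝ) / 100) ((x0 : ℝ) / 100)
        + ∑ i ∈ I.filter (fun i => ((lastX x0 L : ℕ) : ℝ) / 100 ≤ x i),
            sg (n + 2) ((r : ℝ) / 100) (x i) := by
  classical
  induction L with
  | nil =>
    intro m0 x0 hx0 hm0 _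
    have h1 : (Nc I x x0 : ℝ) ≤ m0 := by exact_mod_cast hm0
    have h2 : 0 ≤ ((m0 : ℝ) - Nc I x x0) * sg (n + 2) ((r : ℝ) / 100) ((x0 : ℝ) / 100) :=
      mul_nonneg (by linarith) (sg_nonneg _ _ _)
    simp only [nearN, lastX, Nat.cast_zero, zero_div]
    linarith
  | cons p L ih =>
    intro m0 x0 hx0 hm0 hs
    simp only [sOK, Bool.and_eq_true] at hs
    obtain ⟨⟨h01, hany⟩, hs'⟩ := hs
    have h01' : x0 ≤ p.1 := Nat.le_of_ble_eq_true h01
    obtain ⟨s, hsm, hs1⟩ := List.any_eq_true.mp hany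
    rw [Bool.and_eq_true] at hs1
    have hN1 : Nc I x p.1 ≤ p.2 :=
      le_trans (Nc_mono (Nat.le_of_ble_eq_true hs1.1))
        (le_trans (hI.cnt s hsm) (Nat.le_of_ble_eq_true hs1.2))
    have hp : 0 < p.1 := lt_of_lt_of_le hx0 h01'
    have IH := ih p.2 p.1 hp hN1 hs'
    set f : ℝ → ℝ := fun t => sg (n + 2) ((r : ℝ) / 100) t with hf
    have hx0' : (0 : ℝ) < (x0 : ℝ) / 100 := by positivity
    have hxx : (x0 : ℝ) / 100 ≤ (p.1 : ℝ) / 100 := by
      have : (x0 : ℝ) ≤ p.1 := by exact_mod_cast h01'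
      linarith
    have hsplit : ∑ i ∈ I.filter (fun i => (x0 : ℝ) / 100 ≤ x i), f (x i)
        = ∑ i ∈ I.filter (fun i => (x0 : ℝ) / 100 ≤ x i ∧ x i < (p.1 : ℝ) / 100), f (x i)
          + ∑ i ∈ I.filter (fun i => (p.1 : ℝ) / 100 ≤ x i), f (x i) := by
      rw [← Finset.sum_union]
      · apply Finset.sum_congr _ (fun _ _ => rfl)
        ext i
        simp only [Finset.mem_filter, Finset.mem_union]
        constructor
        · rintro ⟨hi, h⟩
          rcases lt_or_ge (x i) ((p.1 : ℝ) / 100) with h' | h'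
          · exact Or.inl ⟨hi, h, h'⟩
          · exact Or.inr ⟨hi, h'⟩
        · rintro (⟨hi, h, _⟩ | ⟨hi, h⟩)
          · exact ⟨hi, h⟩
          · exact ⟨hi, le_trans hxx h⟩
      · rw [Finset.disjoint_left]
        intro i hi hi'
        rw [Finset.mem_filter] at hi hi'
        linarith [hi.2.2, hi'.2]
    have hcard : Nc I x p.1 = Nc I x x0
        + (I.filter (fun i => (x0 : ℝ) / 100 ≤ x i ∧ x i < (p.1 : ℝ) / 100)).card := by
      unfold Nc
      rw [← Finset.card_union_of_disjoint]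
      · congr 1
        ext i
        simp only [Finset.mem_filter, Finset.mem_union]
        constructor
        · rintro ⟨hi, h⟩
          rcases lt_or_ge (x i) ((x0 : ℝ) / 100) with h' | h'
          · exact Or.inl ⟨hi, h'⟩
          · exact Or.inr ⟨hi, h', h⟩
        · rintro (⟨hi, h⟩ | ⟨hi, _, h⟩)
          · exact ⟨hi, lt_of_lt_of_le h hxx⟩
          · exact ⟨hi, h⟩
      · rw [Finset.disjoint_left]
        intro i hi hi'
        rw [Finset.mem_filter] at hi hi'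
        linarith [hi.2, hi'.2.1]
    have hmid : ∑ i ∈ I.filter (fun i => (x0 : ℝ) / 100 ≤ x i ∧ x i < (p.1 : ℝ) / 100), f (x i)
        ≤ ((Nc I x p.1 : ℝ) - Nc I x x0) * f ((x0 : ℝ) / 100) := by
      have h1 : ∑ i ∈ I.filter (fun i => (x0 : ℝ) / 100 ≤ x i ∧ x i < (p.1 : ℝ) / 100), f (x i)
          ≤ ∑ _i ∈ I.filter (fun i => (x0 : ℝ) / 100 ≤ x i ∧ x i < (p.1 : ℝ) / 100),
              f ((x0 : ℝ) / 100) := by
        apply Finset.sum_le_sum
        intro i hi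
        rw [Finset.mem_filter] at hi
        exact sg_anti (n + 2) hx0' hi.2.1
      refine le_trans h1 (le_of_eq ?_)
      rw [Finset.sum_const, nsmul_eq_mul]
      have h2 : (Nc I x p.1 : ℝ) = Nc I x x0
          + ((I.filter (fun i => (x0 : ℝ) / 100 ≤ x i ∧ x i < (p.1 : ℝ) / 100)).card : ℝ) := by
        exact_mod_cast hcard
      rw [h2]; ring
    have hanti : f ((p.1 : ℝ) / 100) ≤ f ((x0 : ℝ) / 100) := sg_anti (n + 2) hx0' hxx
    have hf0 : 0 ≤ f ((x0 : ℝ) / 100) := sg_nonneg _ _ _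
    have hN1' : (Nc I x p.1 : ℝ) ≤ p.2 := by exact_mod_cast hN1
    have h3 : ((p.2 : ℝ) - Nc I x p.1) * f ((p.1 : ℝ) / 100)
        ≤ ((p.2 : ℝ) - Nc I x p.1) * f ((x0 : ℝ) / 100) :=
      mul_le_mul_of_nonneg_left hanti (by linarith)
    have h4 : f ((x0 : ℝ) / 100) ≤ (sgU n r x0 : ℝ) / (uU : ℝ) := sg_le_sgU hx0
    have h5 : ((p.2 : ℝ) - m0) * f ((x0 : ℝ) / 100)
        ≤ (((p.2 - m0 : ℕ) : ℝ) * (sgU n r x0 : ℝ)) / (uU : ℝ) := by
      have h6 : ((p.2 : ℝ) - m0) ≤ ((p.2 - m0 : ℕ) : ℝ) := by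
        have : p.2 ≤ (p.2 - m0) + m0 := by omega
        have : (p.2 : ℝ) ≤ ((p.2 - m0 : ℕ) : ℝ) + m0 := by exact_mod_cast this
        linarith
      calc ((p.2 : ℝ) - m0) * f ((x0 : ℝ) / 100) ≤ ((p.2 - m0 : ℕ) : ℝ) * f ((x0 : ℝ) / 100) :=
            mul_le_mul_of_nonneg_right h6 hf0
        _ ≤ ((p.2 - m0 : ℕ) : ℝ) * ((sgU n r x0 : ℝ) / (uU : ℝ)) :=
            mul_le_mul_of_nonneg_left h4 (Nat.cast_nonneg _)
        _ = _ := by ring
    have h7 : (nearN n r m0 x0 (p :: L) : ℝ) / (uU : ℝ)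
        = (((p.2 - m0 : ℕ) : ℝ) * (sgU n r x0 : ℝ)) / (uU : ℝ)
          + (nearN n r p.2 p.1 L : ℝ) / (uU : ℝ) := by
      simp only [nearN]
      rw [Nat.cast_add, Nat.cast_mul, add_div]
    have h8 : lastX x0 (p :: L) = lastX p.1 L := rfl
    rw [h7, h8]
    change ∑ i ∈ I.filter (fun i => (x0 : ℝ) / 100 ≤ x i), f (x i) ≤ _
    rw [hsplit]
    nlinarith [IH, hmid, h3, h5]

/-- the far part is bounded by the Blichfeldt sum -/
theorem far_bound (hn : 1 ≤ n) {r X : ℕ} (hr : r ≤ 200) (hX : 100 ≤ X) (hX2 : X < 200) :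
    (∑ i ∈ I.filter (fun i => (X : ℝ) / 100 ≤ x i), sg (n + 2) ((r : ℝ) / 100) (x i))
      * gam (n + 2) ((X : ℝ) / 100)
      ≤ sg (n + 2) ((r : ℝ) / 100) ((X : ℝ) / 100) * GG n I x := by
  classical
  have hr' : (r : ℝ) / 100 ≤ 2 := by
    have : (r : ℝ) ≤ 200 := by exact_mod_cast hr
    linarith
  have hX' : (1 : ℝ) ≤ (X : ℝ) / 100 := by
    have : (100 : ℝ) ≤ X := by exact_mod_cast hX
    linarith
  have hX2' : (X : ℝ) / 100 < 2 := by
    have : (X : ℝ) < 200 := by exact_mod_cast hX2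
    linarith
  have hterm : ∀ i ∈ I.filter (fun i => (X : ℝ) / 100 ≤ x i),
      sg (n + 2) ((r : ℝ) / 100) (x i) * gam (n + 2) ((X : ℝ) / 100)
        ≤ if x i < 2 then sg (n + 2) ((r : ℝ) / 100) ((X : ℝ) / 100) * gam (n + 2) (x i) else 0 := by
    intro i hi
    rw [Finset.mem_filter] at hi
    split_ifs with h
    · exact sg_gam_ratio (n + 2) (by omega) hr' hX' hi.2 h
    · have : sg (n + 2) ((r : ℝ) / 100) (x i) = 0 := by
        unfold sg
        rw [if_neg (by linarith)]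
      rw [this, zero_mul]
  rw [Finset.sum_mul]
  refine le_trans (Finset.sum_le_sum hterm) ?_
  rw [← Finset.sum_filter, Finset.filter_filter, ← Finset.mul_sum]
  apply mul_le_mul_of_nonneg_left _ (sg_nonneg _ _ _)
  unfold GG
  apply Finset.sum_le_sum_of_subset_of_nonneg
  · intro i hi
    rw [Finset.mem_filter] at hi ⊢
    exact ⟨hi.1, hi.2.2⟩
  · intro i hi _
    rw [Finset.mem_filter] at hi
    exact gam_nonneg hi.2.le

theorem GG_nonneg : 0 ≤ GG n I x := by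
  unfold GG
  apply Finset.sum_nonneg
  intro i hi
  rw [Finset.mem_filter] at hi
  exact gam_nonneg hi.2.le

theorem lastX_ge {st : List (ℕ × ℕ)} (L : List (ℕ × ℕ)) : ∀ x0 : ℕ, sOK st x0 L = true →
    x0 ≤ lastX x0 L := by
  induction L with
  | nil => intro x0 _; exact le_rfl
  | cons p L ih =>
    intro x0 hs
    simp only [sOK, Bool.and_eq_true] at hs
    exact le_trans (Nat.le_of_ble_eq_true hs.1.1) (ih p.1 hs.2)

/-- the far part is at most `restN(uU)/uU * G` -/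
theorem rest_bound (hn : 1 ≤ n) {r X : ℕ} (hr : r ≤ 200) (hX : 100 ≤ X)
    (hok : restOK n r X = true) :
    ∑ i ∈ I.filter (fun i => (X : ℝ) / 100 ≤ x i), sg (n + 2) ((r : ℝ) / 100) (x i)
      ≤ (restN n r X uU : ℝ) / (uU : ℝ) * GG n I x ∧
    ∀ g : ℕ, GG n I x ≤ (g : ℝ) / (uU : ℝ) →
      ∑ i ∈ I.filter (fun i => (X : ℝ) / 100 ≤ x i), sg (n + 2) ((r : ℝ) / 100) (x i)
        ≤ (restN n r X g : ℝ) / (uU : ℝ) := by
  classical
  have hG := GG_nonneg (n := n) (I := I) (x := x)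
  have hU := uU_pos
  cases hb : (Nat.ble r X || Nat.ble 200 X)
  · have hb' := hb
    rw [Bool.or_eq_false_iff] at hb'
    have hX2 : X < 200 := by
      by_contra hc
      push Not at hc
      rw [Nat.ble_eq_true_of_le hc] at hb'
      exact absurd hb'.2 (by decide)
    have hgl : 1 ≤ gamL n X := by
      unfold restOK at hok
      rw [hb, Bool.false_or] at hok
      exact Nat.le_of_ble_eq_true hok
    have hgl' : (0 : ℝ) < (gamL n X : ℝ) := by
      have : (1 : ℝ) ≤ (gamL n X : ℝ) := by exact_mod_cast hgl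
      linarith
    have h1 := far_bound (I := I) (x := x) hn hr hX hX2
    have h2 := gamL_le (n := n) hX2.le
    have h3 : sg (n + 2) ((r : ℝ) / 100) ((X : ℝ) / 100) ≤ (sgU n r X : ℝ) / (uU : ℝ) :=
      sg_le_sgU (by omega)
    set F := ∑ i ∈ I.filter (fun i => (X : ℝ) / 100 ≤ x i), sg (n + 2) ((r : ℝ) / 100) (x i)
      with hFd
    have hF0 : 0 ≤ F := Finset.sum_nonneg (fun i _ => sg_nonneg _ _ _)
    have h4 : F * ((gamL n X : ℝ) / (uU : ℝ)) ≤ (sgU n r X : ℝ) / (uU : ℝ) * GG n I x :=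
      le_trans (mul_le_mul_of_nonneg_left h2 hF0)
        (le_trans h1 (mul_le_mul_of_nonneg_right h3 hG))
    have h5 : F * (gamL n X : ℝ) ≤ (sgU n r X : ℝ) * GG n I x := by
      have e1 : F * ((gamL n X : ℝ) / (uU : ℝ)) = F * (gamL n X : ℝ) / (uU : ℝ) := by ring
      have e2 : (sgU n r X : ℝ) / (uU : ℝ) * GG n I x = (sgU n r X : ℝ) * GG n I x / (uU : ℝ) := by
        ring
      rw [e1, e2] at h4
      exact (div_le_div_iff_of_pos_right hU).mp h4
    have hrest : ∀ g : ℕ, (sgU n r X : ℝ) * g / (gamL n X : ℝ) ≤ (restN n r X g : ℝ) := by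
      intro g
      unfold restN
      rw [hb, cond_false]
      have h6 := Nat.lt_floor_add_one (((sgU n r X * g : ℕ) : ℝ) / ((gamL n X : ℕ) : ℝ))
      rw [Nat.floor_div_eq_div] at h6
      rw [Nat.cast_add, Nat.cast_one]
      rw [Nat.cast_mul] at h6
      exact h6.le
    constructor
    · have h7 := hrest uU
      rw [div_le_iff₀ hgl'] at h7
      have h8 : (sgU n r X : ℝ) ≤ (restN n r X uU : ℝ) / (uU : ℝ) * (gamL n X : ℝ) := by
        rw [div_mul_eq_mul_div, le_div_iff₀ hU]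
        exact h7
      have h9 : F * (gamL n X : ℝ) ≤ (restN n r X uU : ℝ) / (uU : ℝ) * GG n I x * (gamL n X : ℝ) := by
        calc F * (gamL n X : ℝ) ≤ (sgU n r X : ℝ) * GG n I x := h5
          _ ≤ ((restN n r X uU : ℝ) / (uU : ℝ) * (gamL n X : ℝ)) * GG n I x :=
            mul_le_mul_of_nonneg_right h8 hG
          _ = _ := by ring
      exact le_of_mul_le_mul_right h9 hgl'
    · intro g hg
      have h7 := hrest g
      have h8 : F ≤ (sgU n r X : ℝ) * GG n I x / (gamL n X : ℝ) := by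
        rw [le_div_iff₀ hgl']; exact h5
      have h9 : (sgU n r X : ℝ) * GG n I x / (gamL n X : ℝ)
          ≤ (sgU n r X : ℝ) * ((g : ℝ) / (uU : ℝ)) / (gamL n X : ℝ) := by
        gcongr
      have h10 : (sgU n r X : ℝ) * ((g : ℝ) / (uU : ℝ)) / (gamL n X : ℝ)
          = (sgU n r X : ℝ) * g / (gamL n X : ℝ) / (uU : ℝ) := by ring
      rw [h10] at h9
      exact le_trans h8 (le_trans h9 (div_le_div_of_nonneg_right h7 hU.le))
  · have h0 : ∑ i ∈ I.filter (fun i => (X : ℝ) / 100 ≤ x i), sg (n + 2) ((r : ℝ) / 100) (x i)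
        = 0 := by
      apply Finset.sum_eq_zero
      intro i hi
      rw [Finset.mem_filter] at hi
      unfold sg
      rw [if_neg]
      push Not
      rw [Bool.or_eq_true] at hb
      rcases hb with hb | hb
      · have : (r : ℝ) ≤ X := by exact_mod_cast Nat.le_of_ble_eq_true hb
        linarith [hi.2]
      · have h1 : (200 : ℝ) ≤ X := by exact_mod_cast Nat.le_of_ble_eq_true hb
        have h2 : (r : ℝ) ≤ 200 := by exact_mod_cast hr
        linarith [hi.2]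
    rw [h0]
    have h1 : ∀ g : ℕ, restN n r X g = 0 := by
      intro g
      unfold restN
      rw [hb, cond_true]
    constructor
    · positivity
    · intro g _
      positivity

theorem Nc_hundred (hF : Facts n I x) : Nc I x 100 = 0 := by
  unfold Nc
  rw [Finset.card_eq_zero, Finset.filter_eq_empty_iff]
  intro i hi
  have := hF.one_le i hi
  push Not
  norm_num
  exact this

/-- the master bounds for `S(R)` -/
theorem S_bound (hn : 1 ≤ n) (hF : Facts n I x) {st : List (ℕ × ℕ)} {g : ℕ}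
    (hI : Inv n I x st g) {r : ℕ} (hr : r ≤ 200) {L : List (ℕ × ℕ)}
    (hok : sbOK n r st L = true) :
    ∑ i ∈ I, sg (n + 2) ((r : ℝ) / 100) (x i)
        ≤ (nearN n r 0 100 L : ℝ) / (uU : ℝ)
          + (restN n r (lastX 100 L) uU : ℝ) / (uU : ℝ) * GG n I x ∧
      ∑ i ∈ I, sg (n + 2) ((r : ℝ) / 100) (x i) ≤ (sB n r g L : ℝ) / (uU : ℝ) := by
  classical
  unfold sbOK at hok
  rw [Bool.and_eq_true] at hok
  have h100 := Nc_hundred hF
  have h1 := near_bound hI r L 0 100 (by norm_num) (by rw [h100]) hok.1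
  have h2 : I.filter (fun i => ((100 : ℕ) : ℝ) / 100 ≤ x i) = I := by
    rw [Finset.filter_eq_self]
    intro i hi
    have := hF.one_le i hi
    norm_num
    exact this
  rw [h2, h100] at h1
  have hlast : 100 ≤ lastX 100 L := lastX_ge L 100 hok.1
  obtain ⟨h3, h4⟩ := rest_bound (I := I) (x := x) hn hr hlast hok.2
  have h5 : (((0 : ℕ) : ℝ) - ((0 : ℕ) : ℝ)) * sg (n + 2) ((r : ℝ) / 100) (((100 : ℕ) : ℝ) / 100)
      = 0 := by simp
  rw [h5] at h1
  constructor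
  · linarith
  · have h6 := h4 g hI.gb
    unfold sB
    rw [Nat.cast_add, add_div]
    linarith

theorem G_step (hn : 1 ≤ n) (hF : Facts n I x) {st : List (ℕ × ℕ)} {g : ℕ}
    (hI : Inv n I x st g) {r g' : ℕ} {L : List (ℕ × ℕ)} (h : gOK n r st L g' = true) :
    Inv n I x st g' := by
  refine ⟨hI.cnt, ?_⟩
  unfold gOK at h
  simp only [Bool.and_eq_true] at h
  obtain ⟨⟨⟨hr1, hr2⟩, hok⟩, hle⟩ := h
  have hr1' : 1 ≤ r := Nat.le_of_ble_eq_true hr1
  have hr2' : r ≤ 200 := Nat.le_of_ble_eq_true hr2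
  have hS := (S_bound hn hF hI hr2' hok).1
  have hr0 : (0 : ℝ) < (r : ℝ) / 100 := by
    have : (1 : ℝ) ≤ r := by exact_mod_cast hr1'
    positivity
  have hrr : (r : ℝ) / 100 ≤ 2 := by
    have : (r : ℝ) ≤ 200 := by exact_mod_cast hr2'
    linarith
  have hbli := hF.bli ((r : ℝ) / 100) hr0 hrr
  change _ * GG n I x < _ at hbli
  have hP := powL_le (n := n) (r := r)
  have hG := GG_nonneg (n := n) (I := I) (x := x)
  have hU := uU_pos
  have h1 : (powL n r : ℝ) / (uU : ℝ) * GG n I x ≤ ((r : ℝ) / 100) ^ (((n : ℝ) + 2) / 2) * GG n I x :=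
    mul_le_mul_of_nonneg_right hP hG
  set ρ := restN n r (lastX 100 L) uU with hρ
  set N := nearN n r 0 100 L with hN
  have hle' : (2 * uU + N) * uU ≤ g' * (powL n r - ρ) := Nat.le_of_ble_eq_true hle
  have h2 : ((powL n r : ℝ) / (uU : ℝ) - (ρ : ℝ) / (uU : ℝ)) * GG n I x
      ≤ 2 + (N : ℝ) / (uU : ℝ) := by linarith
  have h3 : ((powL n r : ℝ) - ρ) * GG n I x ≤ 2 * uU + N := by
    have e1 : ((powL n r : ℝ) / (uU : ℝ) - (ρ : ℝ) / (uU : ℝ)) * GG n I x
        = ((powL n r : ℝ) - ρ) * GG n I x / (uU : ℝ) := by ring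
    have e2 : 2 + (N : ℝ) / (uU : ℝ) = (2 * uU + N) / (uU : ℝ) := by field_simp
    rw [e1, e2] at h2
    exact (div_le_div_iff_of_pos_right hU).mp h2
  have hUn : 0 < uU := by exact_mod_cast hU
  have hpos : 0 < powL n r - ρ := by
    rcases Nat.eq_zero_or_pos (powL n r - ρ) with h0 | h0
    · rw [h0, Nat.mul_zero] at hle'
      have : 0 < (2 * uU + N) * uU := by positivity
      omega
    · exact h0
  have hlt : ρ ≤ powL n r := by omega
  have hposR : (0 : ℝ) < (powL n r : ℝ) - ρ := by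
    have : (0 : ℝ) < ((powL n r - ρ : ℕ) : ℝ) := by exact_mod_cast hpos
    rwa [Nat.cast_sub hlt] at this
  have h4 : (2 * (uU : ℝ) + N) * uU ≤ g' * ((powL n r : ℝ) - ρ) := by
    have : (((2 * uU + N) * uU : ℕ) : ℝ) ≤ ((g' * (powL n r - ρ) : ℕ) : ℝ) := by
      exact_mod_cast hle'
    rw [Nat.cast_mul, Nat.cast_mul, Nat.cast_sub hlt] at this
    push_cast at this
    exact this
  rw [le_div_iff₀ hU]
  have h5 : GG n I x * (uU : ℝ) * ((powL n r : ℝ) - ρ) ≤ g' * ((powL n r : ℝ) - ρ) := by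
    calc GG n I x * (uU : ℝ) * ((powL n r : ℝ) - ρ)
        = (((powL n r : ℝ) - ρ) * GG n I x) * (uU : ℝ) := by ring
      _ ≤ (2 * uU + N) * (uU : ℝ) := mul_le_mul_of_nonneg_right h3 hU.le
      _ ≤ _ := h4
  exact le_of_mul_le_mul_right h5 hposR

theorem tsmN_le (n k : ℕ) (hk : 1 ≤ k) (ys q : List ℕ) (J : ℕ)
    (hy : ∀ j < J, ys.getD j 0 ≤ ys.getD (j + 1) 0) :
    (tsmN n k ys q J : ℝ) / (uU : ℝ)
      ≤ tsmSum n k J (fun j => ((ys.getD j 0 : ℕ) : ℝ) / 100)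
          (fun j => ((q.getD j 0 : ℕ) : ℝ) / 10 ^ 4) := by
  have hU := uU_pos
  induction J with
  | zero => simp [tsmN, tsmSum]
  | succ J ih =>
    have ih' := ih (fun j hj => hy j (by omega))
    unfold tsmSum at ih' ⊢
    rw [Finset.sum_range_succ]
    simp only [tsmN]
    rw [Nat.cast_add, add_div]
    refine add_le_add ih' ?_
    have h1 := incL_le n (ys.getD J 0) (ys.getD (J + 1) 0)
    have hmono : ((ys.getD J 0 : ℕ) : ℝ) ≤ ((ys.getD (J + 1) 0 : ℕ) : ℝ) := by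
      exact_mod_cast hy J (by omega)
    have h2 : √(((ys.getD J 0 : ℕ) : ℝ) / 100 + 2 / (n + 3))
        ≤ √(((ys.getD (J + 1) 0 : ℕ) : ℝ) / 100 + 2 / (n + 3)) := by
      apply Real.sqrt_le_sqrt
      linarith
    rw [max_eq_right (by linarith)] at h1
    have h3 : ((incL n (ys.getD J 0) (ys.getD (J + 1) 0) * k * 10 ^ 4
        / (10 ^ 4 + (k - 1) * q.getD J 0) : ℕ) : ℝ)
        ≤ ((incL n (ys.getD J 0) (ys.getD (J + 1) 0) * k * 10 ^ 4 : ℕ) : ℝ)
          / ((10 ^ 4 + (k - 1) * q.getD J 0 : ℕ) : ℝ) := Nat.cast_div_le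
    have h4 : ((incL n (ys.getD J 0) (ys.getD (J + 1) 0) * k * 10 ^ 4 : ℕ) : ℝ)
          / ((10 ^ 4 + (k - 1) * q.getD J 0 : ℕ) : ℝ)
        = (incL n (ys.getD J 0) (ys.getD (J + 1) 0) : ℝ) *
          ((k : ℝ) / (1 + ((k : ℝ) - 1) * (((q.getD J 0 : ℕ) : ℝ) / 10 ^ 4))) := by
      push_cast [Nat.cast_sub hk]
      have h5 : (0 : ℝ) ≤ (k : ℝ) - 1 := by
        have : (1 : ℝ) ≤ k := by exact_mod_cast hk
        linarith
      have h6 : (0 : ℝ) ≤ ((q.getD J 0 : ℕ) : ℝ) := Nat.cast_nonneg _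
      generalize ((q.getD J 0 : ℕ) : ℝ) = w at h6 ⊢
      have h7 : (0 : ℝ) < 1 + ((k : ℝ) - 1) * (w / 10 ^ 4) := by positivity
      have h8 : (0 : ℝ) < 10000 + ((k : ℝ) - 1) * w := by positivity
      rw [mul_div_assoc', div_eq_div_iff h8.ne' h7.ne']
      ring
    rw [h4] at h3
    have h9 : (0 : ℝ) ≤ (k : ℝ) / (1 + ((k : ℝ) - 1) * (((q.getD J 0 : ℕ) : ℝ) / 10 ^ 4)) := by
      have h5 : (0 : ℝ) ≤ (k : ℝ) - 1 := by
        have : (1 : ℝ) ≤ k := by exact_mod_cast hk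
        linarith
      positivity
    calc _ ≤ (incL n (ys.getD J 0) (ys.getD (J + 1) 0) : ℝ) *
          ((k : ℝ) / (1 + ((k : ℝ) - 1) * (((q.getD J 0 : ℕ) : ℝ) / 10 ^ 4))) / (uU : ℝ) :=
          div_le_div_of_nonneg_right h3 hU.le
      _ = (incL n (ys.getD J 0) (ys.getD (J + 1) 0) : ℝ) / (uU : ℝ) *
          ((k : ℝ) / (1 + ((k : ℝ) - 1) * (((q.getD J 0 : ℕ) : ℝ) / 10 ^ 4))) := by ring
      _ ≤ _ := mul_le_mul_of_nonneg_right h1 h9

theorem T_step (hn : 1 ≤ n) (hF : Facts n I x) {st : List (ℕ × ℕ)} {g : ℕ}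
    (hI : Inv n I x st g) {ys : List ℕ} {c : Cls} {J0 k J : ℕ} {L : List (ℕ × ℕ)}
    (hJ : J ≤ J0) (hys : ysOK J0 ys = true)
    (hT : ∀ j < J0, QB n ((ys.getD j 0 : ℕ) / 100) ((c.K * c.h : ℕ) / 10 ^ 4)
      ((c.q.getD j 0 : ℕ) / 10 ^ 4))
    (h : tOK n ys c st g k J L = true) :
    Inv n I x ((c.X, k - 1) :: st) g := by
  refine ⟨?_, hI.gb⟩
  intro p hp
  rcases List.mem_cons.mp hp with hp | hp
  swap
  · exact hI.cnt p hp
  subst hp
  show Nc I x c.X ≤ k - 1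
  unfold tOK at h
  simp only [Bool.and_eq_true] at h
  obtain ⟨⟨⟨⟨⟨hk, hX1⟩, hX2⟩, hτ⟩, ⟨hyJ, hok⟩⟩, hle⟩ := h
  have hk' : 1 ≤ k := Nat.le_of_ble_eq_true hk
  have hX1' : 100 ≤ c.X := Nat.le_of_ble_eq_true hX1
  have hX2' : c.X ≤ 200 := Nat.le_of_ble_eq_true hX2
  have hτ' : (4 * c.X - 100) * (c.K * c.h) ^ 2 ≤ 10 ^ 10 := Nat.le_of_ble_eq_true hτ
  have hyJ' : ys.getD J 0 ≤ 100 := Nat.le_of_ble_eq_true hyJ
  have hle' := Nat.le_of_ble_eq_true hle
  unfold ysOK at hys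
  rw [Bool.and_eq_true] at hys
  have hy0 : ys.getD 0 0 = 0 := Nat.eq_of_beq_eq_true hys.1
  have hymono : ∀ j < J0, ys.getD j 0 ≤ ys.getD (j + 1) 0 := by
    intro j hj
    exact Nat.le_of_ble_eq_true (List.all_eq_true.mp hys.2 j (List.mem_range.mpr hj))
  by_contra hc
  have hcard : k ≤ Nc I x c.X := by omega
  have hU := uU_pos
  have hS := (S_bound hn hF hI (r := 100 + ys.getD J 0) (by omega) hok).2
  have hτR : (4 * ((c.X : ℝ) / 100) - 1) * (((c.K * c.h : ℕ) : ℝ) / 10 ^ 4) ^ 2 ≤ 1 := by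
    have h1 : (((4 * c.X - 100) * (c.K * c.h) ^ 2 : ℕ) : ℝ) ≤ ((10 ^ 10 : ℕ) : ℝ) := by
      exact_mod_cast hτ'
    rw [Nat.cast_mul, Nat.cast_sub (by omega), Nat.cast_pow] at h1
    push_cast at h1 ⊢
    have h2 : (4 * ((c.X : ℝ) / 100) - 1) * ((c.K : ℝ) * c.h / 10 ^ 4) ^ 2
        = (4 * (c.X : ℝ) - 100) * ((c.K : ℝ) * c.h) ^ 2 / 10 ^ 10 := by ring
    rw [h2, div_le_one (by norm_num)]
    exact le_trans h1 (by norm_num)
  have hfact := hF.tsm k ((c.X : ℝ) / 100) (((c.K * c.h : ℕ) : ℝ) / 10 ^ 4) J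
    (fun j => ((ys.getD j 0 : ℕ) : ℝ) / 100) (fun j => ((c.q.getD j 0 : ℕ) : ℝ) / 10 ^ 4) hk'
    (by
      have : (c.X : ℝ) ≤ 200 := by exact_mod_cast hX2'
      linarith)
    (by positivity) hτR
    (by simp only [hy0]; simp)
    (by
      intro j hj
      have : ((ys.getD j 0 : ℕ) : ℝ) ≤ ((ys.getD (j + 1) 0 : ℕ) : ℝ) := by
        exact_mod_cast hymono j (by omega)
      linarith)
    (by
      have : ((ys.getD J 0 : ℕ) : ℝ) ≤ 100 := by exact_mod_cast hyJ'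
      linarith)
    (by
      intro j hj
      exact hT j (by omega))
    hcard
  have hR : (1 : ℝ) + ((ys.getD J 0 : ℕ) : ℝ) / 100 = ((100 + ys.getD J 0 : ℕ) : ℝ) / 100 := by
    push_cast; ring
  simp only [hR] at hfact
  have hTs := tsmN_le n k hk' ys c.q J (fun j hj => hymono j (by omega))
  have hrL : ((rL (n + 1) * uU / 10 ^ 10 : ℕ) : ℝ) / (uU : ℝ) ≤ kap (n + 2) / kap (n + 1) := by
    refine le_trans ?_ (rL_le (n + 1))
    rw [div_le_iff₀ hU]
    refine le_trans Nat.cast_div_le (le_of_eq ?_)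
    push_cast; ring
  have h5 : (2 : ℝ) + (sB n (100 + ys.getD J 0) g L : ℝ) / (uU : ℝ)
      ≤ ((rL (n + 1) * uU / 10 ^ 10 : ℕ) : ℝ) / (uU : ℝ) + (tsmN n k ys c.q J : ℝ) / (uU : ℝ) := by
    have h6 : (((2 * uU + sB n (100 + ys.getD J 0) g L : ℕ)) : ℝ)
        ≤ ((rL (n + 1) * uU / 10 ^ 10 + tsmN n k ys c.q J : ℕ) : ℝ) := by exact_mod_cast hle'
    rw [Nat.cast_add, Nat.cast_add, Nat.cast_mul] at h6
    have e1 : (2 : ℝ) + (sB n (100 + ys.getD J 0) g L : ℝ) / (uU : ℝ)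
        = (((2 : ℕ) : ℝ) * uU + sB n (100 + ys.getD J 0) g L) / (uU : ℝ) := by
      push_cast; field_simp
    rw [e1, ← add_div]
    exact div_le_div_of_nonneg_right h6 hU.le
  linarith

theorem run_sound (hn : 1 ≤ n) (hF : Facts n I x) {ys : List ℕ} {cs : List Cls} {J0 : ℕ}
    (hys : ysOK J0 ys = true) (hT : Tab n J0 ys cs) {fin : List (ℕ × ℕ) → ℕ → Bool}
    (S : List Step) : ∀ (st : List (ℕ × ℕ)) (g : ℕ), Inv n I x st g →
      run n ys cs J0 fin S st g = true → ∃ st' g', Inv n I x st' g' ∧ fin st' g' = true := by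
  induction S with
  | nil => intro st g hI h; exact ⟨st, g, hI, h⟩
  | cons s S ih =>
    intro st g hI h
    cases s with
    | gs r L g' =>
      simp only [run, Bool.and_eq_true] at h
      exact ih st g' (G_step hn hF hI h.1) h.2
    | ts i k J L =>
      simp only [run] at h
      cases hc : cs[i]? with
      | none => rw [hc] at h; exact absurd h (by simp)
      | some c =>
        rw [hc] at h
        simp only [Bool.and_eq_true] at h
        have hmem : c ∈ cs := List.mem_of_getElem? hc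
        exact ih _ g (T_step hn hF hI (Nat.le_of_ble_eq_true h.1.1) hys (hT c hmem) h.1.2) h.2

/-- **Soundness of the checker.** -/
theorem chain_sound (hn : 1 ≤ n) {ys : List ℕ} {cs : List Cls} {J0 : ℕ}
    (hys : ysOK J0 ys = true) (hT : Tab n J0 ys cs) {S : List Step} {r sN s2N : ℕ}
    {L L2 : List (ℕ × ℕ)} (h : run n ys cs J0 (finOK n r sN s2N L L2) S [] (2 * uU) = true) :
    ChainOut n ((r : ℝ) / 100) ((sN : ℝ) / 10 ^ 4) ((s2N : ℝ) / 10 ^ 4) := by
  intro ι I x hF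
  have hU := uU_pos
  have hI0 : Inv n I x [] (2 * uU) := by
    refine ⟨by simp, ?_⟩
    have h1 := hF.bli 1 one_pos (by norm_num)
    rw [Real.one_rpow, one_mul] at h1
    have h2 : ∑ i ∈ I, sg (n + 2) 1 (x i) = 0 := by
      apply Finset.sum_eq_zero
      intro i hi
      have := hF.one_le i hi
      unfold sg
      rw [if_neg (by linarith)]
    rw [h2] at h1
    have h3 : ((2 * uU : ℕ) : ℝ) / (uU : ℝ) = 2 := by
      rw [Nat.cast_mul]
      field_simp
      norm_num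
    rw [h3]
    unfold GG
    linarith
  obtain ⟨st, g, hI, hfin⟩ := run_sound hn hF hys hT S [] (2 * uU) hI0 h
  unfold finOK at hfin
  simp only [Bool.and_eq_true] at hfin
  obtain ⟨⟨⟨hr1, hr2⟩, hok1, hle1⟩, hok2, hle2⟩ := hfin
  have hS1 := (S_bound hn hF hI (Nat.le_of_ble_eq_true hr2) hok1).2
  have hS2 := (S_bound hn hF hI (r := 200) le_rfl hok2).2
  have hle1' := Nat.le_of_ble_eq_true hle1
  have hle2' := Nat.le_of_ble_eq_true hle2
  constructor
  · refine le_trans hS1 ?_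
    rw [div_le_div_iff₀ hU (by norm_num)]
    exact_mod_cast hle1'
  · have h200 : (((200 : ℕ) : ℝ)) / 100 = 2 := by norm_num
    rw [h200] at hS2
    refine le_trans hS2 ?_
    rw [div_le_div_iff₀ hU (by norm_num)]
    exact_mod_cast hle2'

end

end Pool.Agent.Saus
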