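import Pool.Agent.Lib.MP_5a9905_co.Defs

/-!
# SAUS, module ROT: rotation invariance of the model volumes
-/

set_option autoImplicit false

open MeasureTheory

namespace Pool.Agent.Saus

noncomputable section

variable {n : ℕ}

namespace RotAux

theorem exists_iso {d : ℕ} {u v : E d} (h : ‖u‖ = ‖v‖) : ∃ L : E d ≃ₗᵢ[ℝ] E d, L u = v :=
  ⟨(ℝ ∙ (u - v))ᗮ.reflection, Submodule.reflection_sub h⟩

theorem iso_preimage {d : ℕ} (L : E d ≃ₗᵢ[ℝ] E d) (s : Set (E d)) :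
    volume (L ⁻¹' s) = volume s :=
  MeasurePreserving.measure_preimage_equiv (f := L.toMeasurableEquiv) L.measurePreserving s

theorem volume_eq {d : ℕ} {u v : E d} (h : ‖u‖ = ‖v‖) (A : Set (ℝ × ℝ)) :
    volume {z : E d | (inner ℝ u z, ‖z‖ ^ 2) ∈ A} =
      volume {z : E d | (inner ℝ v z, ‖z‖ ^ 2) ∈ A} := by
  obtain ⟨L, hL⟩ := exists_iso h
  rw [← iso_preimage L {z : E d | (inner ℝ v z, ‖z‖ ^ 2) ∈ A}]
  congr 1
  ext z
  simp only [Set.mem_ofPred_eq, Set.mem_preimage, ← hL, LinearIsometryEquiv.inner_map_map,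
    LinearIsometryEquiv.norm_map]

theorem norm_e0 : ‖e0 n‖ = 1 := by simp [e0]

end RotAux

open RotAux

/-- B0. Rotation invariance. -/
theorem hcv_eq (u : E (n + 2)) (hu : ‖u‖ = 1) (R : ℝ) :
    volume.real (HC u ∩ Bl (n + 2) R) = hcv n R := by
  have h := volume_eq (u := u) (v := e0 n) (hu.trans norm_e0.symm)
    {p : ℝ × ℝ | (0 ≤ p.1 ∧ p.2 ≤ p.1 ^ 2 + 1) ∧ p.2 ≤ R}
  exact congrArg ENNReal.toReal h

theorem seg1_eq (u : E (n + 2)) (hu : ‖u‖ = 1) :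
    volume.real ({z | 1 < inner ℝ u z} ∩ Bl (n + 2) 2) = seg1 n := by
  have h := volume_eq (u := u) (v := e0 n) (hu.trans norm_e0.symm)
    {p : ℝ × ℝ | 1 < p.1 ∧ p.2 ≤ 2}
  exact congrArg ENNReal.toReal h

theorem hs_eq (u v : E (n + 2)) (hu : ‖u‖ = 1) (hv : ‖v‖ = 1) (y₁ y₂ : ℝ) :
    volume.real (HS u y₁ y₂) = volume.real (HS v y₁ y₂) := by
  have h := volume_eq (u := u) (v := v) (hu.trans hv.symm)
    {p : ℝ × ℝ | (0 ≤ p.1 ∧ p.2 ≤ p.1 ^ 2 + 1) ∧ 1 + y₁ ≤ p.2 ∧ p.2 ≤ 1 + y₂}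
  exact congrArg ENNReal.toReal h

end

end Pool.Agent.Saus
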