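import Pool.Agent.Lib.MP_5a9905_co.Seg
import Pool.Agent.Lib.MP_5a9905_co.Rot

set_option autoImplicit false

open MeasureTheory Finset

namespace Pool.Agent.Saus

noncomputable section

variable {n : ℕ}

namespace CutAux

theorem bl_finite (R : ℝ) (S : Set (E (n + 2))) : volume (S ∩ Bl (n + 2) R) ≠ ⊤ := by
  have hsub : S ∩ Bl (n + 2) R ⊆ Metric.closedBall (0 : E (n + 2)) (√R) := by
    rintro z ⟨-, hz⟩
    have hz' : ‖z‖ ^ 2 ≤ R := hz
    rw [mem_closedBall_zero_iff]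
    exact Real.le_sqrt_of_sq_le hz'
  exact ne_top_of_le_ne_top measure_closedBall_lt_top.ne (measure_mono hsub)

/-- One cut. -/
def cutset (R : ℝ) (w : E (n + 2)) : Set (E (n + 2)) :=
  {z | ‖w‖ / 2 < inner ℝ (‖w‖⁻¹ • w) z} ∩ Bl (n + 2) R

theorem unit {w : E (n + 2)} (hw : 2 ≤ ‖w‖) : ‖(‖w‖⁻¹ • w)‖ = 1 := by
  rw [norm_smul, norm_inv, norm_norm]
  exact inv_mul_cancel₀ (by positivity)

theorem subset_cut {Y : Finset (E (n + 2))} {K : Set (E (n + 2))} (hL : Loc (n + 2) Y K) (R : ℝ) :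
    K ∩ Bl (n + 2) R ⊆ (K ∩ Vor Y) ∪ ⋃ w ∈ Y, cutset R w := by
  rintro z ⟨hK, hB⟩
  by_cases hz : z ∈ Vor Y
  · exact Or.inl ⟨hK, hz⟩
  · right
    have hz' : ¬ ∀ y ∈ Y, inner ℝ y z ≤ ‖y‖ ^ 2 / 2 := hz
    push Not at hz'
    obtain ⟨w, hw, hlt⟩ := hz'
    have hw2 := hL.far w hw
    have hpos : 0 < ‖w‖ := by linarith
    refine Set.mem_iUnion₂.2 ⟨w, hw, ⟨?_, hB⟩⟩
    show ‖w‖ / 2 < inner ℝ (‖w‖⁻¹ • w) z
    rw [real_inner_smul_left, inv_mul_eq_div, lt_div_iff₀ hpos]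
    nlinarith

theorem cut_gen {Y : Finset (E (n + 2))} {K : Set (E (n + 2))} (hL : Loc (n + 2) Y K) (R : ℝ) :
    volume.real (K ∩ Bl (n + 2) R) ≤ volume.real (K ∩ Vor Y)
      + ∑ w ∈ Y, volume.real (cutset R w) := by
  have hfK : volume (K ∩ Vor Y) ≠ ⊤ :=
    ne_top_of_le_ne_top hL.bounded.measure_lt_top.ne (measure_mono Set.inter_subset_left)
  have hfU : volume (⋃ w ∈ Y, cutset R w) ≠ ⊤ := by
    refine ne_top_of_le_ne_top (measure_closedBall_lt_top (x := (0 : E (n + 2))) (r := √R)).ne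
      (measure_mono ?_)
    refine Set.iUnion₂_subset fun w _ => ?_
    rintro z ⟨-, hz⟩
    have hz' : ‖z‖ ^ 2 ≤ R := hz
    rw [mem_closedBall_zero_iff]
    exact Real.le_sqrt_of_sq_le hz'
  calc volume.real (K ∩ Bl (n + 2) R)
      ≤ volume.real ((K ∩ Vor Y) ∪ ⋃ w ∈ Y, cutset R w) :=
        measureReal_mono (subset_cut hL R) (by
          exact (measure_union_lt_top hfK.lt_top hfU.lt_top).ne)
    _ ≤ volume.real (K ∩ Vor Y) + volume.real (⋃ w ∈ Y, cutset R w) := measureReal_union_le _ _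
    _ ≤ volume.real (K ∩ Vor Y) + ∑ w ∈ Y, volume.real (cutset R w) := by
        gcongr
        exact measureReal_biUnion_finset_le _ _

end CutAux

open CutAux

/-- D2 CUT. -/
theorem cut {Y : Finset (E (n + 2))} {K : Set (E (n + 2))} (hL : Loc (n + 2) Y K) {R : ℝ}
    (h₂ : R ≤ 2) :
    volume.real (K ∩ Bl (n + 2) R) ≤ volume.real (K ∩ Vor Y) + kap (n + 1) * SS Y R := by
  refine (cut_gen hL R).trans ?_
  rw [SS, Finset.mul_sum]
  gcongr with w hw
  have hw2 := hL.far w hw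
  have hxi : xi w = (‖w‖ / 2) ^ 2 := by unfold xi; ring
  rw [hxi]
  exact seg_upper (‖w‖⁻¹ • w) (unit hw2) (by linarith)

theorem cut_two {Y : Finset (E (n + 2))} {K : Set (E (n + 2))} (hL : Loc (n + 2) Y K) :
    volume.real (K ∩ Bl (n + 2) 2)
      ≤ volume.real (K ∩ Vor Y) + (Y.filter (fun w => xi w < 2)).card * seg1 n := by
  refine (cut_gen hL 2).trans ?_
  have key : ∑ w ∈ Y, volume.real (cutset (n := n) 2 w)
      ≤ ∑ w ∈ Y, (if xi w < 2 then seg1 n else 0) := by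
    refine Finset.sum_le_sum fun w hw => ?_
    have hw2 := hL.far w hw
    split_ifs with hx
    · rw [← seg1_eq (‖w‖⁻¹ • w) (unit hw2)]
      refine measureReal_mono ?_ (bl_finite _ _)
      rintro z ⟨hz1, hz2⟩
      refine ⟨?_, hz2⟩
      have hz1' : ‖w‖ / 2 < inner ℝ (‖w‖⁻¹ • w) z := hz1
      show 1 < inner ℝ (‖w‖⁻¹ • w) z
      linarith
    · have hemp : cutset (n := n) 2 w = ∅ := by
        ext z
        simp only [Set.mem_empty_iff_false, iff_false]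
        rintro ⟨hz1, hz2⟩
        have hz1' : ‖w‖ / 2 < inner ℝ (‖w‖⁻¹ • w) z := hz1
        have hz2' : ‖z‖ ^ 2 ≤ 2 := hz2
        have hcs := real_inner_le_norm (‖w‖⁻¹ • w) z
        rw [unit hw2, one_mul] at hcs
        have hxw : 2 ≤ ‖w‖ ^ 2 / 4 := not_lt.1 hx
        have h3 : ‖w‖ / 2 < ‖z‖ := lt_of_lt_of_le hz1' hcs
        nlinarith [norm_nonneg w, norm_nonneg z]
      rw [hemp, measureReal_empty]
  have e : ∑ w ∈ Y, (if xi w < 2 then seg1 n else 0)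
      = (Y.filter (fun w => xi w < 2)).card * seg1 n := by
    rw [← Finset.sum_filter, Finset.sum_const, nsmul_eq_mul]
  rw [← e]
  gcongr

end

end Pool.Agent.Saus
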