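import Pool.Agent.Lib.MP_5a9905_co.HCK
import Pool.Agent.Lib.MP_5a9905_co.Cut
import Pool.Agent.Lib.MP_5a9905_co.HCVTwo
import Pool.Agent.Lib.MP_5a9905_co.Rot

set_option autoImplicit false

open MeasureTheory Finset

namespace Pool.Agent.Saus

noncomputable section

variable {n : ℕ}

namespace EndPoint

lemma isClosed_Bl (d : ℕ) (R : ℝ) : IsClosed (Bl d R) := by
  unfold Bl
  exact isClosed_le (continuous_norm.pow 2) continuous_const

lemma isClosed_HC {d : ℕ} (u : E d) : IsClosed (HC u) := by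
  have h1 : IsClosed {z : E d | 0 ≤ inner ℝ u z} :=
    isClosed_le continuous_const (continuous_const.inner continuous_id)
  have h2 : IsClosed {z : E d | ‖z‖ ^ 2 ≤ (inner ℝ u z) ^ 2 + 1} :=
    isClosed_le (continuous_norm.pow 2)
      (((continuous_const.inner continuous_id).pow 2).add continuous_const)
  have : HC u = {z : E d | 0 ≤ inner ℝ u z} ∩ {z : E d | ‖z‖ ^ 2 ≤ (inner ℝ u z) ^ 2 + 1} := by
    ext z
    simp [HC]
  rw [this]
  exact h1.inter h2

/-- The open half of the unit ball has half of its volume. -/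
lemma half_ball {d : ℕ} (u : E d) (hu : ‖u‖ = 1) :
    volume.real {z : E d | ‖z‖ ≤ 1 ∧ inner ℝ u z < 0} = kap d / 2 := by
  have hne : {z : E d | ‖z‖ ≤ 1 ∧ inner ℝ u z < 0} = -{z : E d | ‖z‖ ≤ 1 ∧ 0 < inner ℝ u z} := by
    ext z
    simp [inner_neg_right]
  have hfin : ∀ A : Set (E d), (∀ z ∈ A, ‖z‖ ≤ 1) → volume A ≠ ⊤ := by
    intro A hA
    refine ((measure_mono (t := Metric.closedBall (0 : E d) 1) ?_).trans_lt
      measure_closedBall_lt_top).ne
    intro z hz
    simpa using hA z hz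
  have hmP : MeasurableSet {z : E d | ‖z‖ ≤ 1 ∧ 0 < inner ℝ u z} := by
    have : {z : E d | ‖z‖ ≤ 1 ∧ 0 < inner ℝ u z} = {z | ‖z‖ ≤ 1} ∩ {z | 0 < inner ℝ u z} := by
      ext z; simp
    rw [this]
    exact (isClosed_le continuous_norm continuous_const).measurableSet.inter
      (isOpen_lt continuous_const (continuous_const.inner continuous_id)).measurableSet
  have h1 : volume.real {z : E d | ‖z‖ ≤ 1 ∧ inner ℝ u z < 0}
      = volume.real {z : E d | ‖z‖ ≤ 1 ∧ 0 < inner ℝ u z} := by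
    rw [hne, measureReal_def, measureReal_def, Measure.measure_neg]
  have h0 : volume {z : E d | ‖z‖ ≤ 1 ∧ inner ℝ u z = 0} = 0 := by
    refine measure_mono_null (t := ((ℝ ∙ u)ᗮ : Submodule ℝ (E d))) ?_ ?_
    · rintro z ⟨-, hz⟩
      exact Submodule.mem_orthogonal_singleton_iff_inner_right.mpr hz
    · refine Measure.addHaar_submodule _ _ ?_
      intro htop
      have : u ∈ ((ℝ ∙ u)ᗮ : Submodule ℝ (E d)) := by rw [htop]; trivial
      have h2 := Submodule.mem_orthogonal_singleton_iff_inner_right.mp this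
      rw [real_inner_self_eq_norm_sq, hu] at h2
      norm_num at h2
  have hball : Metric.closedBall (0 : E d) 1
      = ({z : E d | ‖z‖ ≤ 1 ∧ inner ℝ u z < 0} ∪ {z : E d | ‖z‖ ≤ 1 ∧ 0 < inner ℝ u z})
        ∪ {z : E d | ‖z‖ ≤ 1 ∧ inner ℝ u z = 0} := by
    ext z
    simp only [Metric.mem_closedBall, dist_zero_right, Set.mem_union, Set.mem_ofPred_eq]
    constructor
    · intro h
      rcases lt_trichotomy (inner ℝ u z) 0 with h3 | h3 | h3
      · exact Or.inl (Or.inl ⟨h, h3⟩)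
      · exact Or.inr ⟨h, h3⟩
      · exact Or.inl (Or.inr ⟨h, h3⟩)
    · rintro ((h | h) | h) <;> exact h.1
  have hk : kap d = volume.real {z : E d | ‖z‖ ≤ 1 ∧ inner ℝ u z < 0}
      + volume.real {z : E d | ‖z‖ ≤ 1 ∧ 0 < inner ℝ u z} := by
    unfold kap
    have h3 : volume.real (Metric.closedBall (0 : E d) 1)
        = volume.real ({z : E d | ‖z‖ ≤ 1 ∧ inner ℝ u z < 0}
          ∪ {z : E d | ‖z‖ ≤ 1 ∧ 0 < inner ℝ u z}) := by
      refine measureReal_congr ?_
      rw [hball]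
      exact union_ae_eq_left_of_ae_eq_empty (ae_eq_empty.mpr h0)
    rw [h3]
    refine measureReal_union ?_ hmP (hfin _ ?_) (hfin _ ?_)
    · rw [Set.disjoint_left]
      rintro z ⟨-, h⟩ ⟨-, h'⟩
      exact absurd h (not_lt.mpr h'.le)
    · rintro z ⟨h, -⟩; exact h
    · rintro z ⟨h, -⟩; exact h
  rw [hk, ← h1]
  ring

end EndPoint

open EndPoint in
/-- D11 E0. At most one near neighbour. -/
theorem end_point {Y : Finset (E (n + 2))} {K : Set (E (n + 2))} (hL : Loc (n + 2) Y K)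
    (hY : Y.Nonempty) (h : (Y.filter (fun w => xi w < 2)).card ≤ 1) :
    kap (n + 1) + kap (n + 2) / 2 ≤ volume.real (K ∩ Vor Y) := by
  obtain ⟨y, hy⟩ := hY
  have ny : 0 < ‖y‖ := by linarith [hL.far y hy]
  set u : E (n + 2) := ‖y‖⁻¹ • y with hu_def
  have hu : ‖u‖ = 1 := by
    rw [hu_def, norm_smul, norm_inv, norm_norm, inv_mul_cancel₀ ny.ne']
  have hsub : (HC u ∩ Bl (n + 2) 2) ∪ {z : E (n + 2) | ‖z‖ ≤ 1 ∧ inner ℝ u z < 0}
      ⊆ K ∩ Bl (n + 2) 2 := by
    rintro z (hz | ⟨hz, -⟩)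
    · exact ⟨hc_subset hL hy hz, hz.2⟩
    · refine ⟨hL.ball_zero (by simpa using hz), ?_⟩
      change ‖z‖ ^ 2 ≤ 2
      nlinarith [norm_nonneg z]
  have hfinK : volume (K ∩ Bl (n + 2) 2) ≠ ⊤ :=
    ((hL.bounded.subset Set.inter_subset_left).measure_lt_top).ne
  have hmN : MeasurableSet {z : E (n + 2) | ‖z‖ ≤ 1 ∧ inner ℝ u z < 0} := by
    have : {z : E (n + 2) | ‖z‖ ≤ 1 ∧ inner ℝ u z < 0}
        = {z | ‖z‖ ≤ 1} ∩ {z | inner ℝ u z < 0} := by
      ext z; simp
    rw [this]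
    exact (isClosed_le continuous_norm continuous_const).measurableSet.inter
      (isOpen_lt (continuous_const.inner continuous_id) continuous_const).measurableSet
  have hdisj : Disjoint (HC u ∩ Bl (n + 2) 2) {z : E (n + 2) | ‖z‖ ≤ 1 ∧ inner ℝ u z < 0} := by
    rw [Set.disjoint_left]
    rintro z hz ⟨-, h'⟩
    exact absurd h' (not_lt.mpr hz.1.1)
  have hvol : hcv n 2 + kap (n + 2) / 2 ≤ volume.real (K ∩ Bl (n + 2) 2) := by
    rw [← hcv_eq u hu 2, ← half_ball u hu,
      ← measureReal_union hdisj hmN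
        (ne_top_of_le_ne_top hfinK (measure_mono (Set.subset_union_left.trans hsub)))
        (ne_top_of_le_ne_top hfinK (measure_mono (Set.subset_union_right.trans hsub)))]
    exact measureReal_mono hsub hfinK
  have hcut := cut_two hL
  have hs : 0 ≤ seg1 n := measureReal_nonneg
  have hcard : ((Y.filter (fun w => xi w < 2)).card : ℝ) * seg1 n ≤ seg1 n := by
    have : ((Y.filter (fun w => xi w < 2)).card : ℝ) ≤ 1 := by exact_mod_cast h
    nlinarith
  have := hcv_two (n := n)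
  linarith

end

end Pool.Agent.Saus
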