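import Pool.Agent.Lib.MP_5a9905_co.Plane
import Pool.Agent.Lib.MP_5a9905_co.Kap

/-!
# Module OVF: volume of a half-cylinder shell cut by a slope condition

The coordinates `(t, u t)` in the plane spanned by `f₁, f₂` and then the substitution
`y = |z| ^ 2 - 1` give the double integral of `FF`.
-/

set_option autoImplicit false

open MeasureTheory

namespace Pool.Agent.Saus

noncomputable section

variable {n : ℕ}

namespace SlopeAux

/-- Area of a planar set in the right half plane in the coordinates `(t, u t)`. -/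
theorem volume_slope (S : Set (ℝ × ℝ)) (hS : MeasurableSet S) (h : ∀ p ∈ S, 0 ≤ p.1) :
    volume S
      = ∫⁻ t in Set.Ioi (0 : ℝ), ENNReal.ofReal t * volume {u : ℝ | (t, u * t) ∈ S} := by
  rw [Measure.volume_eq_prod, Measure.prod_apply hS]
  have h1 : ∫⁻ t : ℝ, volume (Prod.mk t ⁻¹' S)
      = ∫⁻ t in Set.Ici (0 : ℝ), volume (Prod.mk t ⁻¹' S) := by
    rw [← lintegral_indicator measurableSet_Ici]
    congr 1
    funext t
    by_cases ht : t ∈ Set.Ici (0 : ℝ)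
    · rw [Set.indicator_of_mem ht]
    · rw [Set.indicator_of_notMem ht]
      have h2 : Prod.mk t ⁻¹' S = ∅ := by
        ext s
        simp only [Set.mem_preimage, Set.mem_empty_iff_false, iff_false]
        intro hs
        exact ht (h _ hs)
      rw [h2, measure_empty]
  rw [h1, ← setLIntegral_congr Ioi_ae_eq_Ici]
  refine setLIntegral_congr_fun measurableSet_Ioi ?_
  intro t ht
  have ht0 : (0 : ℝ) < t := ht
  have h3 := Real.volume_preimage_mul_right (inv_ne_zero ht0.ne') {u : ℝ | (t, u * t) ∈ S}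
  have h4 : ((fun x => x * t⁻¹) ⁻¹' {u : ℝ | (t, u * t) ∈ S}) = Prod.mk t ⁻¹' S := by
    ext s
    simp only [Set.mem_preimage, Set.mem_ofPred_eq]
    rw [inv_mul_cancel_right₀ ht0.ne']
  rw [h4, inv_inv, abs_of_pos ht0] at h3
  exact h3

/-- The substitution `y = t ^ 2 (1 + u ^ 2) - β`. -/
theorem subst_t (β u y₁ y₂ : ℝ) (h₀ : 0 ≤ y₁) :
    ∫⁻ t in Set.Ioi (0 : ℝ), ENNReal.ofReal t *
        Set.indicator {t : ℝ | u ^ 2 * t ^ 2 ≤ β ∧ y₁ ≤ t ^ 2 * (1 + u ^ 2) - β ∧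
          t ^ 2 * (1 + u ^ 2) - β ≤ y₂} (fun _ => (1 : ENNReal)) t
      = ENNReal.ofReal (1 / (2 * (1 + u ^ 2))) *
        ∫⁻ y in Set.Icc y₁ y₂, Set.indicator {y : ℝ | u ^ 2 * y ≤ β} (fun _ => 1) y := by
  have hu : (0 : ℝ) < 1 + u ^ 2 := by positivity
  set f : ℝ → ℝ := fun t => t ^ 2 * (1 + u ^ 2) - β with hf
  set f' : ℝ → ℝ := fun t => 2 * (1 + u ^ 2) * t with hf'
  set g : ℝ → ENNReal := Set.indicator {y : ℝ | u ^ 2 * y ≤ β ∧ y₁ ≤ y ∧ y ≤ y₂} (fun _ => 1)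
    with hg
  have hder : ∀ t ∈ Set.Ioi (0 : ℝ), HasDerivWithinAt f (f' t) (Set.Ioi 0) t := by
    intro t _
    have h1 : HasDerivAt f (f' t) t := by
      have h2 := ((hasDerivAt_pow 2 t).mul_const (1 + u ^ 2)).sub_const β
      refine h2.congr_deriv ?_
      simp only [hf']
      push_cast
      ring
    exact h1.hasDerivWithinAt
  have hinj : Set.InjOn f (Set.Ioi 0) := by
    intro s hs t ht hst
    have hs0 : (0 : ℝ) < s := hs
    have ht0 : (0 : ℝ) < t := ht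
    have h1 : s ^ 2 * (1 + u ^ 2) = t ^ 2 * (1 + u ^ 2) := by
      have := hst
      simp only [hf] at this
      linarith
    have h2 : s ^ 2 = t ^ 2 := mul_right_cancel₀ hu.ne' h1
    exact (pow_left_inj₀ hs0.le ht0.le two_ne_zero).1 h2
  have himg : f '' Set.Ioi 0 = Set.Ioi (-β) := by
    ext y
    constructor
    · rintro ⟨t, ht, rfl⟩
      have ht0 : (0 : ℝ) < t := ht
      have : 0 < t ^ 2 * (1 + u ^ 2) := by positivity
      simp only [hf, Set.mem_Ioi]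
      linarith
    · intro hy
      have hy0 : -β < y := hy
      have h1 : 0 < (y + β) / (1 + u ^ 2) := div_pos (by linarith) hu
      refine ⟨√((y + β) / (1 + u ^ 2)), Real.sqrt_pos.2 h1, ?_⟩
      simp only [hf]
      rw [Real.sq_sqrt h1.le, div_mul_cancel₀ _ hu.ne']
      ring
  have hcv := lintegral_image_eq_lintegral_abs_deriv_mul measurableSet_Ioi hder hinj g
  rw [himg] at hcv
  have hgm : MeasurableSet {y : ℝ | u ^ 2 * y ≤ β ∧ y₁ ≤ y ∧ y ≤ y₂} := by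
    refine MeasurableSet.inter ?_ (MeasurableSet.inter ?_ ?_)
    · exact measurableSet_le (measurable_id.const_mul _) measurable_const
    · exact measurableSet_le measurable_const measurable_id
    · exact measurableSet_le measurable_id measurable_const
  -- left side
  have hL : ∫⁻ t in Set.Ioi (0 : ℝ), ENNReal.ofReal |f' t| * g (f t)
      = ENNReal.ofReal (2 * (1 + u ^ 2)) * ∫⁻ t in Set.Ioi (0 : ℝ), ENNReal.ofReal t *
        Set.indicator {t : ℝ | u ^ 2 * t ^ 2 ≤ β ∧ y₁ ≤ t ^ 2 * (1 + u ^ 2) - β ∧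
          t ^ 2 * (1 + u ^ 2) - β ≤ y₂} (fun _ => (1 : ENNReal)) t := by
    rw [← lintegral_const_mul' _ _ ENNReal.ofReal_ne_top]
    refine setLIntegral_congr_fun measurableSet_Ioi ?_
    intro t ht
    have ht0 : (0 : ℝ) < t := ht
    have h1 : |f' t| = 2 * (1 + u ^ 2) * t := abs_of_pos (by simp only [hf']; positivity)
    have h2 : g (f t) = Set.indicator {t : ℝ | u ^ 2 * t ^ 2 ≤ β ∧ y₁ ≤ t ^ 2 * (1 + u ^ 2) - β ∧
          t ^ 2 * (1 + u ^ 2) - β ≤ y₂} (fun _ => (1 : ENNReal)) t := by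
      have h3 : u ^ 2 * (t ^ 2 * (1 + u ^ 2) - β) ≤ β ↔ u ^ 2 * t ^ 2 ≤ β := by
        constructor
        · intro h4
          by_contra h5
          push Not at h5
          nlinarith
        · intro h4
          nlinarith
      by_cases ht2 : u ^ 2 * t ^ 2 ≤ β ∧ y₁ ≤ t ^ 2 * (1 + u ^ 2) - β ∧
          t ^ 2 * (1 + u ^ 2) - β ≤ y₂
      · rw [Set.indicator_of_mem (show t ∈ {t : ℝ | u ^ 2 * t ^ 2 ≤ β ∧
          y₁ ≤ t ^ 2 * (1 + u ^ 2) - β ∧ t ^ 2 * (1 + u ^ 2) - β ≤ y₂} from ht2), hg,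
          Set.indicator_of_mem (show f t ∈ {y : ℝ | u ^ 2 * y ≤ β ∧ y₁ ≤ y ∧ y ≤ y₂} from
            ⟨h3.2 ht2.1, ht2.2⟩)]
      · rw [Set.indicator_of_notMem (show t ∉ {t : ℝ | u ^ 2 * t ^ 2 ≤ β ∧
          y₁ ≤ t ^ 2 * (1 + u ^ 2) - β ∧ t ^ 2 * (1 + u ^ 2) - β ≤ y₂} from ht2), hg,
          Set.indicator_of_notMem (show f t ∉ {y : ℝ | u ^ 2 * y ≤ β ∧ y₁ ≤ y ∧ y ≤ y₂} from
            fun h4 => ht2 ⟨h3.1 h4.1, h4.2⟩)]
    show ENNReal.ofReal |f' t| * g (f t) = _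
    rw [h1, h2, ENNReal.ofReal_mul (by positivity), mul_assoc]
  -- right side
  have hR : ∫⁻ y in Set.Ioi (-β), g y
      = ∫⁻ y in Set.Icc y₁ y₂, Set.indicator {y : ℝ | u ^ 2 * y ≤ β} (fun _ => 1) y := by
    rw [← lintegral_indicator measurableSet_Ioi, ← lintegral_indicator measurableSet_Icc]
    refine lintegral_congr_ae ?_
    have h0 : ∀ᵐ y : ℝ, y ≠ 0 := by
      have : (volume : Measure ℝ) {0} = 0 := Real.volume_singleton
      rw [ae_iff]
      simp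
    filter_upwards [h0] with y hy
    by_cases hyI : y ∈ Set.Icc y₁ y₂
    · rw [Set.indicator_of_mem hyI]
      by_cases hyb : u ^ 2 * y ≤ β
      · have h1 : y ∈ Set.Ioi (-β) := by
          have h2 : 0 < y := lt_of_le_of_ne (h₀.trans hyI.1) (Ne.symm hy)
          have h3 : 0 ≤ u ^ 2 * y := by positivity
          simp only [Set.mem_Ioi]
          linarith
        rw [Set.indicator_of_mem h1, hg,
          Set.indicator_of_mem (show y ∈ {y : ℝ | u ^ 2 * y ≤ β ∧ y₁ ≤ y ∧ y ≤ y₂} from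
            ⟨hyb, hyI⟩),
          Set.indicator_of_mem (show y ∈ {y : ℝ | u ^ 2 * y ≤ β} from hyb)]
      · rw [Set.indicator_of_notMem (show y ∉ {y : ℝ | u ^ 2 * y ≤ β} from hyb)]
        have h1 : g y = 0 := by
          rw [hg]
          exact Set.indicator_of_notMem (fun h2 => hyb h2.1) _
        by_cases h2 : y ∈ Set.Ioi (-β)
        · rw [Set.indicator_of_mem h2, h1]
        · rw [Set.indicator_of_notMem h2]
    · rw [Set.indicator_of_notMem hyI]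
      have h1 : g y = 0 := by
        rw [hg]
        exact Set.indicator_of_notMem (fun h2 => hyI h2.2) _
      by_cases h2 : y ∈ Set.Ioi (-β)
      · rw [Set.indicator_of_mem h2, h1]
      · rw [Set.indicator_of_notMem h2]
  rw [hL, hR] at hcv
  rw [hcv, ← mul_assoc, ← ENNReal.ofReal_mul (by positivity)]
  have h5 : 1 / (2 * (1 + u ^ 2)) * (2 * (1 + u ^ 2)) = 1 := by
    field_simp
  rw [h5, ENNReal.ofReal_one, one_mul]

/-- Balls of possibly negative squared radius. -/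
theorem volume_Bl' (hn : 1 ≤ n) (r : ℝ) :
    volume {x : E n | ‖x‖ ^ 2 ≤ r} = ENNReal.ofReal ((max 0 r) ^ ((n : ℝ) / 2) * kap n) := by
  rcases le_or_gt 0 r with h | h
  · rw [max_eq_right h]
    exact volume_Bl n h
  · have h1 : {x : E n | ‖x‖ ^ 2 ≤ r} = ∅ := by
      ext x
      simp only [Set.mem_ofPred_eq, Set.mem_empty_iff_false, iff_false]
      have := sq_nonneg ‖x‖
      linarith
    have h2 : (0 : ℝ) < (n : ℝ) / 2 := by
      have : (1 : ℝ) ≤ n := by exact_mod_cast hn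
      linarith
    rw [h1, max_eq_left h.le, Real.zero_rpow h2.ne', zero_mul, ENNReal.ofReal_zero, measure_empty]

/-- The region in the variables `(x, t, u)`. -/
def R3 (n : ℕ) (τ y₁ y₂ : ℝ) : Set (E n × ℝ × ℝ) :=
  {q | τ ≤ q.2.2 ∧ q.2.2 ^ 2 * q.2.1 ^ 2 ≤ 1 - ‖q.1‖ ^ 2 ∧
    y₁ ≤ q.2.1 ^ 2 * (1 + q.2.2 ^ 2) - (1 - ‖q.1‖ ^ 2) ∧
    q.2.1 ^ 2 * (1 + q.2.2 ^ 2) - (1 - ‖q.1‖ ^ 2) ≤ y₂}

theorem measurableSet_R3 (τ y₁ y₂ : ℝ) : MeasurableSet (R3 n τ y₁ y₂) := by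
  refine IsClosed.measurableSet ?_
  unfold R3
  simp only [Set.ofPred_and]
  refine IsClosed.inter ?_ (IsClosed.inter ?_ (IsClosed.inter ?_ ?_))
  · exact isClosed_le (by fun_prop) (by fun_prop)
  · exact isClosed_le (by fun_prop) (by fun_prop)
  · exact isClosed_le (by fun_prop) (by fun_prop)
  · exact isClosed_le (by fun_prop) (by fun_prop)

/-- Indicator of the region, weighted with `t`. -/
def G3 (n : ℕ) (τ y₁ y₂ : ℝ) (x : E n) (t u : ℝ) : ENNReal :=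
  ENNReal.ofReal t * Set.indicator (R3 n τ y₁ y₂) (fun _ => (1 : ENNReal)) (x, t, u)

theorem measurable_G3 (τ y₁ y₂ : ℝ) :
    Measurable (fun q : E n × ℝ × ℝ => G3 n τ y₁ y₂ q.1 q.2.1 q.2.2) := by
  unfold G3
  refine Measurable.mul ?_ ?_
  · exact ENNReal.measurable_ofReal.comp (measurable_fst.comp measurable_snd)
  · exact measurable_const.indicator (measurableSet_R3 τ y₁ y₂)

theorem region_eq (τ y₁ y₂ : ℝ) (Reg : Set ((ℝ × ℝ) × E n))
    (hReg : Reg = {q : (ℝ × ℝ) × E n | 0 ≤ q.1.1 ∧ τ * q.1.1 ≤ q.1.2 ∧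
      q.1.1 ^ 2 + q.1.2 ^ 2 + ‖q.2‖ ^ 2 ≤ q.1.1 ^ 2 + 1 ∧
      1 + y₁ ≤ q.1.1 ^ 2 + q.1.2 ^ 2 + ‖q.2‖ ^ 2 ∧
      q.1.1 ^ 2 + q.1.2 ^ 2 + ‖q.2‖ ^ 2 ≤ 1 + y₂}) :
    volume Reg = ∫⁻ u : ℝ, ∫⁻ x : E n, ∫⁻ t in Set.Ioi (0 : ℝ), G3 n τ y₁ y₂ x t u := by
  have hclosed : IsClosed Reg := by
    rw [hReg]
    simp only [Set.ofPred_and]
    refine IsClosed.inter ?_ (IsClosed.inter ?_ (IsClosed.inter ?_ (IsClosed.inter ?_ ?_)))
    · exact isClosed_le (by fun_prop) (by fun_prop)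
    · exact isClosed_le (by fun_prop) (by fun_prop)
    · exact isClosed_le (by fun_prop) (by fun_prop)
    · exact isClosed_le (by fun_prop) (by fun_prop)
    · exact isClosed_le (by fun_prop) (by fun_prop)
  have hm : MeasurableSet Reg := hclosed.measurableSet
  rw [Measure.volume_eq_prod, Measure.prod_apply_symm hm]
  have h1 : ∀ x : E n, volume ((fun p : ℝ × ℝ => (p, x)) ⁻¹' Reg)
      = ∫⁻ u : ℝ, ∫⁻ t in Set.Ioi (0 : ℝ), G3 n τ y₁ y₂ x t u := by
    intro x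
    have hmx : MeasurableSet ((fun p : ℝ × ℝ => (p, x)) ⁻¹' Reg) :=
      measurable_prodMk_right hm
    rw [volume_slope _ hmx]
    · have h2 : ∀ t ∈ Set.Ioi (0 : ℝ), ENNReal.ofReal t *
          volume {u : ℝ | (t, u * t) ∈ ((fun p : ℝ × ℝ => (p, x)) ⁻¹' Reg)}
          = ∫⁻ u : ℝ, G3 n τ y₁ y₂ x t u := by
        intro t ht
        have ht0 : (0 : ℝ) < t := ht
        have h3 : {u : ℝ | (t, u * t) ∈ ((fun p : ℝ × ℝ => (p, x)) ⁻¹' Reg)}
            = {u : ℝ | (x, t, u) ∈ R3 n τ y₁ y₂} := by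
          ext u
          rw [hReg]
          simp only [Set.mem_preimage, Set.mem_ofPred_eq, R3]
          constructor
          · rintro ⟨_, h5, h6, h7, h8⟩
            refine ⟨le_of_mul_le_mul_right h5 ht0, ?_, ?_, ?_⟩
            · linarith [mul_pow u t 2]
            · have : t ^ 2 * (1 + u ^ 2) = t ^ 2 + (u * t) ^ 2 := by ring
              rw [this]
              linarith
            · have : t ^ 2 * (1 + u ^ 2) = t ^ 2 + (u * t) ^ 2 := by ring
              rw [this]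
              linarith
          · rintro ⟨h5, h6, h7, h8⟩
            have : t ^ 2 * (1 + u ^ 2) = t ^ 2 + (u * t) ^ 2 := by ring
            rw [this] at h7 h8
            refine ⟨ht0.le, mul_le_mul_of_nonneg_right h5 ht0.le, ?_, ?_, ?_⟩
            · linarith [mul_pow u t 2]
            · linarith
            · linarith
        have hm3 : MeasurableSet {u : ℝ | (x, t, u) ∈ R3 n τ y₁ y₂} := by
          have : Measurable (fun u : ℝ => ((x, t, u) : E n × ℝ × ℝ)) := by fun_prop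
          exact this (measurableSet_R3 τ y₁ y₂)
        rw [h3]
        unfold G3
        rw [lintegral_const_mul' _ _ ENNReal.ofReal_ne_top]
        congr 1
        rw [← lintegral_indicator_one hm3]
        rfl
      rw [setLIntegral_congr_fun measurableSet_Ioi h2]
      refine lintegral_lintegral_swap ?_
      refine Measurable.aemeasurable ?_
      have : Measurable (fun q : ℝ × ℝ => ((x, q.1, q.2) : E n × ℝ × ℝ)) := by fun_prop
      exact (measurable_G3 τ y₁ y₂).comp this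
    · intro p hp
      have h4 : (p, x) ∈ Reg := hp
      rw [hReg] at h4
      exact h4.1
  rw [lintegral_congr h1]
  refine lintegral_lintegral_swap ?_
  refine Measurable.aemeasurable ?_
  have h5 : Measurable (fun q : (E n × ℝ) × ℝ => G3 n τ y₁ y₂ q.1.1 q.2 q.1.2) := by
    have : Measurable (fun q : (E n × ℝ) × ℝ => ((q.1.1, q.2, q.1.2) : E n × ℝ × ℝ)) := by
      fun_prop
    exact (measurable_G3 τ y₁ y₂).comp this
  exact Measurable.lintegral_prod_right' (ν := volume.restrict (Set.Ioi (0 : ℝ))) h5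

theorem inner_x (hn : 1 ≤ n) (τ y₁ y₂ u : ℝ) (h₀ : 0 ≤ y₁) (hu : τ ≤ u) :
    ∫⁻ x : E n, ∫⁻ t in Set.Ioi (0 : ℝ), G3 n τ y₁ y₂ x t u
      = ∫⁻ y in Set.Icc y₁ y₂, ENNReal.ofReal
          (kap n / 2 * ((max 0 (1 - y * u ^ 2)) ^ ((n : ℝ) / 2) / (1 + u ^ 2))) := by
  have hpos : (0 : ℝ) < 1 + u ^ 2 := by positivity
  have h1 : ∀ x : E n, ∫⁻ t in Set.Ioi (0 : ℝ), G3 n τ y₁ y₂ x t u
      = ENNReal.ofReal (1 / (2 * (1 + u ^ 2))) * ∫⁻ y in Set.Icc y₁ y₂,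
        Set.indicator {q : E n × ℝ | u ^ 2 * q.2 ≤ 1 - ‖q.1‖ ^ 2} (fun _ => 1) (x, y) := by
    intro x
    have h2 := subst_t (1 - ‖x‖ ^ 2) u y₁ y₂ h₀
    have h3 : ∀ t : ℝ, G3 n τ y₁ y₂ x t u = ENNReal.ofReal t *
        Set.indicator {t : ℝ | u ^ 2 * t ^ 2 ≤ (1 - ‖x‖ ^ 2) ∧
          y₁ ≤ t ^ 2 * (1 + u ^ 2) - (1 - ‖x‖ ^ 2) ∧
          t ^ 2 * (1 + u ^ 2) - (1 - ‖x‖ ^ 2) ≤ y₂} (fun _ => (1 : ENNReal)) t := by
      intro t
      unfold G3
      congr 1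
      by_cases h4 : u ^ 2 * t ^ 2 ≤ (1 - ‖x‖ ^ 2) ∧
          y₁ ≤ t ^ 2 * (1 + u ^ 2) - (1 - ‖x‖ ^ 2) ∧
          t ^ 2 * (1 + u ^ 2) - (1 - ‖x‖ ^ 2) ≤ y₂
      · rw [Set.indicator_of_mem (show (x, t, u) ∈ R3 n τ y₁ y₂ from ⟨hu, h4⟩),
          Set.indicator_of_mem (show t ∈ {t : ℝ | u ^ 2 * t ^ 2 ≤ (1 - ‖x‖ ^ 2) ∧
          y₁ ≤ t ^ 2 * (1 + u ^ 2) - (1 - ‖x‖ ^ 2) ∧
          t ^ 2 * (1 + u ^ 2) - (1 - ‖x‖ ^ 2) ≤ y₂} from h4)]
      · rw [Set.indicator_of_notMem (show (x, t, u) ∉ R3 n τ y₁ y₂ from fun h5 => h4 h5.2),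
          Set.indicator_of_notMem (show t ∉ {t : ℝ | u ^ 2 * t ^ 2 ≤ (1 - ‖x‖ ^ 2) ∧
          y₁ ≤ t ^ 2 * (1 + u ^ 2) - (1 - ‖x‖ ^ 2) ∧
          t ^ 2 * (1 + u ^ 2) - (1 - ‖x‖ ^ 2) ≤ y₂} from h4)]
    rw [lintegral_congr h3, h2]
    rfl
  rw [lintegral_congr h1, lintegral_const_mul' _ _ ENNReal.ofReal_ne_top]
  have hms : MeasurableSet {q : E n × ℝ | u ^ 2 * q.2 ≤ 1 - ‖q.1‖ ^ 2} :=
    (isClosed_le (by fun_prop) (by fun_prop)).measurableSet
  rw [lintegral_lintegral_swap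
    (f := fun x y => Set.indicator {q : E n × ℝ | u ^ 2 * q.2 ≤ 1 - ‖q.1‖ ^ 2} (fun _ => 1) (x, y))
    (measurable_const.indicator hms).aemeasurable]
  rw [← lintegral_const_mul' _ _ ENNReal.ofReal_ne_top]
  refine lintegral_congr fun y => ?_
  have h6 : ∫⁻ x : E n, Set.indicator {q : E n × ℝ | u ^ 2 * q.2 ≤ 1 - ‖q.1‖ ^ 2} (fun _ => 1)
      (x, y) = volume {x : E n | ‖x‖ ^ 2 ≤ 1 - y * u ^ 2} := by
    have hm : MeasurableSet {x : E n | ‖x‖ ^ 2 ≤ 1 - y * u ^ 2} :=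
      (isClosed_le (by fun_prop) (by fun_prop)).measurableSet
    rw [← lintegral_indicator_one hm]
    refine lintegral_congr fun x => ?_
    by_cases h7 : ‖x‖ ^ 2 ≤ 1 - y * u ^ 2
    · rw [Set.indicator_of_mem (show x ∈ {x : E n | ‖x‖ ^ 2 ≤ 1 - y * u ^ 2} from h7),
        Set.indicator_of_mem]
      · rfl
      · show u ^ 2 * y ≤ 1 - ‖x‖ ^ 2
        linarith
    · rw [Set.indicator_of_notMem (show x ∉ {x : E n | ‖x‖ ^ 2 ≤ 1 - y * u ^ 2} from h7),
        Set.indicator_of_notMem]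
      intro h8
      apply h7
      have h9 : u ^ 2 * y ≤ 1 - ‖x‖ ^ 2 := h8
      linarith
  rw [h6, volume_Bl' hn, ← ENNReal.ofReal_mul (by positivity)]
  congr 1
  field_simp

theorem aux_nonneg (y u : ℝ) :
    0 ≤ (max 0 (1 - y * u ^ 2)) ^ ((n : ℝ) / 2) / (1 + u ^ 2) := by
  have : 0 ≤ (max 0 (1 - y * u ^ 2)) ^ ((n : ℝ) / 2) := Real.rpow_nonneg (le_max_left _ _) _
  positivity

theorem aux_le (y u : ℝ) (hy : 0 ≤ y) :
    (max 0 (1 - y * u ^ 2)) ^ ((n : ℝ) / 2) / (1 + u ^ 2) ≤ (1 + u ^ 2)⁻¹ := by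
  have h1 : (max 0 (1 - y * u ^ 2)) ^ ((n : ℝ) / 2) ≤ 1 := by
    refine Real.rpow_le_one (le_max_left _ _) ?_ (by positivity)
    refine max_le zero_le_one ?_
    have : 0 ≤ y * u ^ 2 := by positivity
    linarith
  rw [div_eq_mul_inv]
  have h2 : (0 : ℝ) ≤ (1 + u ^ 2)⁻¹ := by positivity
  calc (max 0 (1 - y * u ^ 2)) ^ ((n : ℝ) / 2) * (1 + u ^ 2)⁻¹ ≤ 1 * (1 + u ^ 2)⁻¹ :=
        mul_le_mul_of_nonneg_right h1 h2
    _ = _ := one_mul _

theorem aux_continuous :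
    Continuous (fun p : ℝ × ℝ => (max 0 (1 - p.1 * p.2 ^ 2)) ^ ((n : ℝ) / 2) / (1 + p.2 ^ 2)) := by
  refine Continuous.div ?_ (by fun_prop) (fun p => by positivity)
  refine Continuous.rpow_const (by fun_prop) (fun p => Or.inr (by positivity))

theorem aux_integrable (y : ℝ) (hy : 0 ≤ y) (τ : ℝ) :
    IntegrableOn (fun u : ℝ => (max 0 (1 - y * u ^ 2)) ^ ((n : ℝ) / 2) / (1 + u ^ 2))
      (Set.Ioi τ) := by
  have h1 : Integrable (fun u : ℝ => (max 0 (1 - y * u ^ 2)) ^ ((n : ℝ) / 2) / (1 + u ^ 2)) := by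
    refine integrable_inv_one_add_sq.mono' ?_ ?_
    · exact ((aux_continuous (n := n)).comp (by fun_prop : Continuous fun u : ℝ => (y, u))
        ).aestronglyMeasurable
    · refine Filter.Eventually.of_forall fun u => ?_
      rw [Real.norm_of_nonneg (aux_nonneg y u)]
      exact aux_le y u hy
  exact h1.integrableOn

theorem FF_nonneg' (y τ : ℝ) : 0 ≤ FF n y τ :=
  integral_nonneg fun u => aux_nonneg y u

theorem FF_le_pi (y : ℝ) (hy : 0 ≤ y) (τ : ℝ) : FF n y τ ≤ Real.pi := by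
  have h1 : FF n y τ ≤ ∫ u in Set.Ioi τ, (1 + u ^ 2)⁻¹ := by
    refine integral_mono (aux_integrable y hy τ) integrable_inv_one_add_sq.integrableOn ?_
    intro u
    exact aux_le y u hy
  have h2 : ∫ u in Set.Ioi τ, (1 + u ^ 2)⁻¹ ≤ ∫ u : ℝ, (1 + u ^ 2)⁻¹ := by
    refine setIntegral_le_integral integrable_inv_one_add_sq ?_
    exact Filter.Eventually.of_forall fun u => by positivity
  rw [integral_univ_inv_one_add_sq] at h2
  exact h1.trans h2

theorem FF_measurable (τ : ℝ) : StronglyMeasurable (fun y : ℝ => FF n y τ) := by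
  have h := (aux_continuous (n := n)).stronglyMeasurable
  exact StronglyMeasurable.integral_prod_right (ν := volume.restrict (Set.Ioi τ))
    (f := fun y u : ℝ => (max 0 (1 - y * u ^ 2)) ^ ((n : ℝ) / 2) / (1 + u ^ 2)) h

theorem FF_integrable {y₁ y₂ : ℝ} (h₀ : 0 ≤ y₁) (τ : ℝ) :
    IntegrableOn (fun y : ℝ => FF n y τ) (Set.Icc y₁ y₂) := by
  refine Measure.integrableOn_of_bounded (M := Real.pi) ?_ ?_ ?_
  · rw [Real.volume_Icc]
    exact ENNReal.ofReal_ne_top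
  · exact (FF_measurable τ).aestronglyMeasurable
  · refine (ae_restrict_iff' measurableSet_Icc).2 (Filter.Eventually.of_forall fun y hy => ?_)
    rw [Real.norm_of_nonneg (FF_nonneg' y τ)]
    exact FF_le_pi y (h₀.trans hy.1) τ

end SlopeAux

open SlopeAux

/-- C2 OVF. -/
theorem slope_volume (hn : 1 ≤ n) (f₁ f₂ : E (n + 2)) (h₁ : ‖f₁‖ = 1) (h₂ : ‖f₂‖ = 1)
    (h : inner ℝ f₁ f₂ = (0 : ℝ)) {τ y₁ y₂ : ℝ} (hτ : 0 ≤ τ) (h₀ : 0 ≤ y₁) (h₁₂ : y₁ ≤ y₂) :
    volume.real {z : E (n + 2) | 0 ≤ inner ℝ f₁ z ∧ τ * inner ℝ f₁ z ≤ inner ℝ f₂ z ∧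
        ‖z‖ ^ 2 ≤ (inner ℝ f₁ z) ^ 2 + 1 ∧ 1 + y₁ ≤ ‖z‖ ^ 2 ∧ ‖z‖ ^ 2 ≤ 1 + y₂}
      = kap n / 2 * ∫ y in y₁..y₂, FF n y τ := by
  have hk : 0 ≤ kap n := (kap_pos n).le
  have hA : MeasurableSet {p : ℝ × ℝ × ℝ | 0 ≤ p.1 ∧ τ * p.1 ≤ p.2.1 ∧ p.2.2 ≤ p.1 ^ 2 + 1 ∧
      1 + y₁ ≤ p.2.2 ∧ p.2.2 ≤ 1 + y₂} := by
    refine IsClosed.measurableSet ?_
    simp only [Set.ofPred_and]
    refine IsClosed.inter ?_ (IsClosed.inter ?_ (IsClosed.inter ?_ (IsClosed.inter ?_ ?_)))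
    · exact isClosed_le (by fun_prop) (by fun_prop)
    · exact isClosed_le (by fun_prop) (by fun_prop)
    · exact isClosed_le (by fun_prop) (by fun_prop)
    · exact isClosed_le (by fun_prop) (by fun_prop)
    · exact isClosed_le (by fun_prop) (by fun_prop)
  have hpl := plane_measure f₁ f₂ h₁ h₂ h _ hA
  have hmain : volume {z : E (n + 2) | 0 ≤ inner ℝ f₁ z ∧ τ * inner ℝ f₁ z ≤ inner ℝ f₂ z ∧
        ‖z‖ ^ 2 ≤ (inner ℝ f₁ z) ^ 2 + 1 ∧ 1 + y₁ ≤ ‖z‖ ^ 2 ∧ ‖z‖ ^ 2 ≤ 1 + y₂}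
      = ENNReal.ofReal (kap n / 2 * ∫ y in y₁..y₂, FF n y τ) := by
    refine hpl.trans ((region_eq τ y₁ y₂ _ rfl).trans ?_)
    -- restrict to `u > τ`
    have h3 : ∫⁻ u : ℝ, ∫⁻ x : E n, ∫⁻ t in Set.Ioi (0 : ℝ), G3 n τ y₁ y₂ x t u
        = ∫⁻ u in Set.Ici τ, ∫⁻ x : E n, ∫⁻ t in Set.Ioi (0 : ℝ), G3 n τ y₁ y₂ x t u := by
      rw [← lintegral_indicator measurableSet_Ici]
      refine lintegral_congr fun u => ?_
      by_cases hu : u ∈ Set.Ici τ
      · rw [Set.indicator_of_mem hu]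
      · rw [Set.indicator_of_notMem hu]
        have h4 : ∀ (x : E n) (t : ℝ), G3 n τ y₁ y₂ x t u = 0 := by
          intro x t
          unfold G3
          rw [Set.indicator_of_notMem (fun h5 => hu h5.1), mul_zero]
        simp only [h4, lintegral_zero]
    rw [h3, ← setLIntegral_congr Ioi_ae_eq_Ici]
    rw [setLIntegral_congr_fun measurableSet_Ioi
      (fun u hu => inner_x hn τ y₁ y₂ u h₀ (le_of_lt hu))]
    have hc : Continuous (fun p : ℝ × ℝ => kap n / 2 *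
        ((max 0 (1 - p.1 * p.2 ^ 2)) ^ ((n : ℝ) / 2) / (1 + p.2 ^ 2))) :=
      continuous_const.mul aux_continuous
    rw [lintegral_lintegral_swap (f := fun u y => ENNReal.ofReal
          (kap n / 2 * ((max 0 (1 - y * u ^ 2)) ^ ((n : ℝ) / 2) / (1 + u ^ 2))))]
    · rw [setLIntegral_congr_fun (g := fun y => ENNReal.ofReal (kap n / 2 * FF n y τ))
        measurableSet_Icc]
      · rw [← ofReal_integral_eq_lintegral_ofReal]
        · rw [integral_const_mul, intervalIntegral.integral_of_le h₁₂,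
            integral_Icc_eq_integral_Ioc]
        · exact (FF_integrable h₀ τ).const_mul _
        · exact Filter.Eventually.of_forall fun y =>
            mul_nonneg (by positivity) (FF_nonneg' y τ)
      · intro y hy
        have hy0 : 0 ≤ y := h₀.trans hy.1
        show ∫⁻ u in Set.Ioi τ, ENNReal.ofReal
          (kap n / 2 * ((max 0 (1 - y * u ^ 2)) ^ ((n : ℝ) / 2) / (1 + u ^ 2)))
          = ENNReal.ofReal (kap n / 2 * FF n y τ)
        rw [← ofReal_integral_eq_lintegral_ofReal]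
        · rw [integral_const_mul]
          rfl
        · exact (aux_integrable y hy0 τ).const_mul _
        · exact Filter.Eventually.of_forall fun u =>
            mul_nonneg (by positivity) (aux_nonneg y u)
    · refine Measurable.aemeasurable ?_
      exact ENNReal.measurable_ofReal.comp
        (hc.comp (by fun_prop : Continuous fun p : ℝ × ℝ => (p.2, p.1))).measurable
  unfold Measure.real
  rw [hmain, ENNReal.toReal_ofReal]
  refine mul_nonneg (by positivity) ?_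
  rw [intervalIntegral.integral_of_le h₁₂]
  exact integral_nonneg fun y => FF_nonneg' y τ

end

end Pool.Agent.Saus
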