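import Pool.Agent.Lib.MP_5a9905_co.Rot
import Pool.Agent.Lib.MP_5a9905_co.Slope

/-! # Volume of shells of half-cylinders (module HSF) -/

set_option autoImplicit false

open MeasureTheory

namespace Pool.Agent.Saus

noncomputable section

variable {n : ℕ}

namespace HSVolAux

/-- second standard basis vector -/
def e1 (n : ℕ) : E (n + 2) := EuclideanSpace.single 1 1

theorem norm_e1 : ‖e1 n‖ = 1 := by simp [e1]

theorem norm_e0 : ‖e0 n‖ = 1 := by simp [e0]

theorem inner_e0_e1 : inner ℝ (e0 n) (e1 n) = (0 : ℝ) := by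
  simp [e0, e1, EuclideanSpace.inner_single_left]

theorem meas_inner {d : ℕ} (f : E d) : Continuous fun z : E d => (inner ℝ f z : ℝ) :=
  continuous_const.inner continuous_id

theorem null_inner : volume {z : E (n + 2) | (inner ℝ (e1 n) z : ℝ) = 0} = 0 := by
  have h := Measure.addHaar_submodule (volume : Measure (E (n + 2))) ((ℝ ∙ (e1 n))ᗮ) (by
    intro htop
    have h1 : e1 n ∈ ((ℝ ∙ (e1 n))ᗮ : Submodule ℝ (E (n + 2))) := by rw [htop]; trivial
    rw [Submodule.mem_orthogonal_singleton_iff_inner_right] at h1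
    rw [real_inner_self_eq_norm_sq, norm_e1] at h1
    norm_num at h1)
  convert h using 2
  ext z
  simp only [SetLike.mem_coe, Submodule.mem_orthogonal_singleton_iff_inner_right]
  rfl

end HSVolAux

open HSVolAux

/-- C3 HSF. -/
theorem hs_volume (hn : 1 ≤ n) (u : E (n + 2)) (hu : ‖u‖ = 1) {y₁ y₂ : ℝ} (h₀ : 0 ≤ y₁)
    (h₁₂ : y₁ ≤ y₂) : volume.real (HS u y₁ y₂) = kap n * ∫ y in y₁..y₂, FF n y 0 := by
  rw [hs_eq u (e0 n) hu norm_e0]
  set P : E (n + 2) → Set (E (n + 2)) := fun f => {z : E (n + 2) | 0 ≤ inner ℝ (e0 n) z ∧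
    (0 : ℝ) * inner ℝ (e0 n) z ≤ inner ℝ f z ∧
        ‖z‖ ^ 2 ≤ (inner ℝ (e0 n) z) ^ 2 + 1 ∧ 1 + y₁ ≤ ‖z‖ ^ 2 ∧ ‖z‖ ^ 2 ≤ 1 + y₂} with hP
  have hvol : ∀ f : E (n + 2), ‖f‖ = 1 → inner ℝ (e0 n) f = (0 : ℝ) →
      volume.real (P f) = kap n / 2 * ∫ y in y₁..y₂, FF n y 0 := fun f hf hf0 =>
    slope_volume hn (e0 n) f norm_e0 hf hf0 le_rfl h₀ h₁₂
  have hmeas : ∀ f : E (n + 2), MeasurableSet (P f) := by
    intro f
    have c0 := meas_inner (e0 n)
    have c1 := meas_inner f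
    exact ((isClosed_le continuous_const c0).inter
      ((isClosed_le (continuous_const.mul c0) c1).inter
      ((isClosed_le (continuous_norm.pow 2) ((c0.pow 2).add continuous_const)).inter
      ((isClosed_le continuous_const (continuous_norm.pow 2)).inter
      (isClosed_le (continuous_norm.pow 2) continuous_const))))).measurableSet
  have hfin : ∀ f : E (n + 2), volume (P f) ≠ ⊤ := by
    intro f
    refine ne_top_of_le_ne_top
      (measure_closedBall_lt_top (x := (0 : E (n + 2))) (r := √(1 + y₂))).ne (measure_mono ?_)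
    rintro z ⟨_, _, _, _, hz⟩
    rw [mem_closedBall_zero_iff]
    exact Real.le_sqrt_of_sq_le hz
  have hunion : HS (e0 n) y₁ y₂ = P (e1 n) ∪ P (-e1 n) := by
    ext z
    constructor
    · rintro ⟨⟨ha, hb⟩, hc, hd⟩
      rcases le_total 0 (inner ℝ (e1 n) z : ℝ) with h | h
      · exact Or.inl ⟨ha, by rw [zero_mul]; exact h, hb, hc, hd⟩
      · exact Or.inr ⟨ha, by rw [zero_mul, inner_neg_left]; linarith, hb, hc, hd⟩
    · rintro (⟨ha, _, hb, hc, hd⟩ | ⟨ha, _, hb, hc, hd⟩) <;> exact ⟨⟨ha, hb⟩, hc, hd⟩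
  have hinter : volume (P (e1 n) ∩ P (-e1 n)) = 0 := by
    refine measure_mono_null ?_ null_inner
    rintro z ⟨⟨_, h1, _⟩, _, h2, _⟩
    rw [zero_mul] at h1 h2
    rw [inner_neg_left] at h2
    exact le_antisymm (by linarith) h1
  rw [hunion, measureReal_union₀ (hmeas _).nullMeasurableSet hinter (hfin _) (hfin _),
    hvol _ norm_e1 inner_e0_e1, hvol _ (by rw [norm_neg, norm_e1])
      (by rw [inner_neg_right, inner_e0_e1, neg_zero])]
  ring

end

end Pool.Agent.Saus
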