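import Pool.Agent.Lib.MP_5a9905_co.Defs
import Pool.Agent.Lib.MP_5a9905_co.FMono
import Pool.Agent.Lib.MP_5a9905_co.Slope
import Pool.Agent.Lib.MP_5a9905_co.HSVol

/-!
# Overlap of two shells of half-cylinders
-/

set_option autoImplicit false

open MeasureTheory Set

namespace Pool.Agent.Saus

noncomputable section

variable {n : ℕ}

namespace Ov

/-- the slope set -/
def SL (f₁ f₂ : E (n + 2)) (τ y₁ y₂ : ℝ) : Set (E (n + 2)) :=
  {z | 0 ≤ inner ℝ f₁ z ∧ τ * inner ℝ f₁ z ≤ inner ℝ f₂ z ∧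
        ‖z‖ ^ 2 ≤ (inner ℝ f₁ z) ^ 2 + 1 ∧ 1 + y₁ ≤ ‖z‖ ^ 2 ∧ ‖z‖ ^ 2 ≤ 1 + y₂}

/-- the part of the shell of `u` on the side of `v` -/
def PT (u v : E (n + 2)) (y₁ y₂ : ℝ) : Set (E (n + 2)) :=
  {z | z ∈ HS u y₁ y₂ ∧ (inner ℝ u z : ℝ) ≤ inner ℝ v z}

lemma finite_of_norm_le {d : ℕ} {S : Set (E d)} {R : ℝ} (h : ∀ z ∈ S, ‖z‖ ^ 2 ≤ R) :
    volume S ≠ ⊤ := by
  have hs : S ⊆ Metric.closedBall (0 : E d) (√R) := by
    intro z hz
    rw [mem_closedBall_zero_iff]
    exact Real.le_sqrt_of_sq_le (h z hz)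
  exact ((measure_mono hs).trans_lt measure_closedBall_lt_top).ne

lemma FF_anti_y {y y' τ : ℝ} (h₀ : 0 ≤ y) (hy : y ≤ y') : FF n y' τ ≤ FF n y τ := by
  have hp : (0 : ℝ) ≤ (n : ℝ) / 2 := by positivity
  rw [FMono.FF_eq, FMono.FF_eq]
  exact setIntegral_mono_on (FMono.integrable_W hp (h₀.trans hy)).integrableOn
    (FMono.integrable_W hp h₀).integrableOn measurableSet_Ioi fun u _ => FMono.W_anti hp hy u

lemma FF_intervalIntegrable {τ y₁ y₂ : ℝ} (h₀ : 0 ≤ y₁) (h₁₂ : y₁ ≤ y₂) :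
    IntervalIntegrable (fun y => FF n y τ) volume y₁ y₂ := by
  refine AntitoneOn.intervalIntegrable fun a ha b hb hab => ?_
  rw [uIcc_of_le h₁₂] at ha
  exact FF_anti_y (h₀.trans ha.1) hab

lemma FF_nonneg (y τ : ℝ) : 0 ≤ FF n y τ := by
  rw [FMono.FF_eq]
  exact setIntegral_nonneg measurableSet_Ioi fun u _ => FMono.W_nonneg _ _ _

lemma FF_zero_pos {y : ℝ} (h₀ : 0 ≤ y) : 0 < FF n y 0 := by
  have hp : (0 : ℝ) ≤ (n : ℝ) / 2 := by positivity
  rw [FMono.FF_eq]
  have hc := FMono.continuous_W hp y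
  -- positive near zero
  set a : ℝ := 1 / (1 + y) with ha
  have hapos : 0 < a := by positivity
  have ha1 : a ≤ 1 := by
    rw [ha, div_le_one (by positivity)]; linarith
  have hpos : ∀ u ∈ Ioo (0 : ℝ) a, 0 < FMono.W ((n : ℝ) / 2) y u := by
    intro u hu
    unfold FMono.W
    have h1 : y * u ^ 2 < 1 := by
      have hu2 : u ^ 2 ≤ u := by nlinarith [hu.1, hu.2]
      have h2 : y * u ^ 2 ≤ y * u := mul_le_mul_of_nonneg_left hu2 h₀
      have h3 : (1 + y) * u < 1 := by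
        have := mul_lt_mul_of_pos_left hu.2 (by positivity : 0 < 1 + y)
        rwa [ha, mul_one_div_cancel (by positivity)] at this
      nlinarith [hu.1]
    have h2 : 0 < max 0 (1 - y * u ^ 2) := lt_max_of_lt_right (by linarith)
    positivity
  have h1 : 0 < ∫ u in Ioo (0 : ℝ) a, FMono.W ((n : ℝ) / 2) y u := by
    rw [← integral_Ioc_eq_integral_Ioo, ← intervalIntegral.integral_of_le hapos.le]
    refine intervalIntegral.intervalIntegral_pos_of_pos_on (hc.intervalIntegrable _ _) hpos hapos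
  refine h1.trans_le ?_
  exact setIntegral_mono_set (FMono.integrable_W hp h₀).integrableOn
    (Filter.Eventually.of_forall fun u => FMono.W_nonneg _ _ _)
    (Ioo_subset_Ioi_self.eventuallyLE)

lemma null_plane {d : ℕ} (u : E d) (hu : ‖u‖ = 1) : volume {z : E d | (inner ℝ u z : ℝ) = 0} = 0 := by
  have h : {z : E d | (inner ℝ u z : ℝ) = 0} = ((ℝ ∙ u)ᗮ : Submodule ℝ (E d)) := by
    ext z
    rw [mem_ofPred_eq, SetLike.mem_coe, Submodule.mem_orthogonal_singleton_iff_inner_right]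
  rw [h]
  refine Measure.addHaar_submodule _ _ fun htop => ?_
  have : u ∈ (ℝ ∙ u)ᗮ := by rw [htop]; trivial
  rw [Submodule.mem_orthogonal_singleton_iff_inner_right, real_inner_self_eq_norm_sq, hu] at this
  norm_num at this

lemma part_le (hn : 1 ≤ n) (u v : E (n + 2)) (hu : ‖u‖ = 1) (hv : ‖v‖ = 1) {τ y₁ y₂ : ℝ}
    (hτ : 0 ≤ τ) (huv : (1 + τ ^ 2) * inner ℝ u v ≤ 1 - τ ^ 2) (hne : (inner ℝ u v : ℝ) < 1)
    (h₀ : 0 ≤ y₁) (h₁₂ : y₁ ≤ y₂) :
    volume.real (PT u v y₁ y₂) ≤ kap n / 2 * ∫ y in y₁..y₂, FF n y τ := by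
  set c : ℝ := inner ℝ u v with hc
  have hc1 : -1 ≤ c := by
    have := neg_le_of_abs_le (abs_real_inner_le_norm u v)
    rwa [hu, hv, mul_one] at this
  rcases hc1.eq_or_lt with h | h
  · -- opposite directions
    have hvu : v = -u := by
      have : ‖u + v‖ ^ 2 = 0 := by
        rw [norm_add_sq_real, hu, hv, ← hc, ← h]; ring
      have h2 : u + v = 0 := by simpa using this
      exact (neg_eq_of_add_eq_zero_right h2).symm
    have hsub : PT u v y₁ y₂ ⊆ {z : E (n + 2) | (inner ℝ u z : ℝ) = 0} := by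
      intro z hz
      obtain ⟨⟨⟨h1, -⟩, -⟩, h2⟩ := hz
      rw [hvu, inner_neg_left] at h2
      exact le_antisymm (by linarith) h1
    have h0 : volume (PT u v y₁ y₂) = 0 := measure_mono_null hsub (null_plane u hu)
    rw [measureReal_def, h0, ENNReal.toReal_zero]
    have hk : 0 ≤ kap n := by unfold kap; exact measureReal_nonneg
    have hI : 0 ≤ ∫ y in y₁..y₂, FF n y τ :=
      intervalIntegral.integral_nonneg h₁₂ fun y _ => FF_nonneg _ _
    positivity
  · have hpos : 0 < 1 - c ^ 2 := by nlinarith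
    set s : ℝ := √(1 - c ^ 2) with hs
    have hs0 : 0 < s := Real.sqrt_pos.2 hpos
    have hs2 : s ^ 2 = 1 - c ^ 2 := Real.sq_sqrt hpos.le
    set f : E (n + 2) := s⁻¹ • (v - c • u) with hf
    have huf : (inner ℝ u f : ℝ) = 0 := by
      rw [hf, inner_smul_right, inner_sub_right, inner_smul_right, real_inner_self_eq_norm_sq, hu,
        ← hc]
      ring
    have hf1 : ‖f‖ = 1 := by
      have h1 : ‖v - c • u‖ ^ 2 = s ^ 2 := by
        rw [norm_sub_sq_real, inner_smul_right, norm_smul, hu, hv, real_inner_comm, ← hc, mul_one,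
          Real.norm_eq_abs, sq_abs, hs2]
        ring
      have h2 : ‖v - c • u‖ = s := by
        rwa [sq_eq_sq₀ (norm_nonneg _) hs0.le] at h1
      rw [hf, norm_smul, h2, norm_inv, Real.norm_eq_abs, abs_of_pos hs0, inv_mul_cancel₀ hs0.ne']
    have hfz : ∀ z : E (n + 2), s * inner ℝ f z = inner ℝ v z - c * inner ℝ u z := by
      intro z
      rw [hf, inner_smul_left, inner_sub_left, inner_smul_left]
      simp only [RCLike.conj_to_real]
      field_simp
    have hτs : τ * s ≤ 1 - c := by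
      have h1 : (τ * s) ^ 2 ≤ (1 - c) ^ 2 := by
        rw [mul_pow, hs2]
        nlinarith [mul_le_mul_of_nonneg_right huv (by linarith : 0 ≤ 1 - c)]
      exact (pow_le_pow_iff_left₀ (by positivity) (by linarith) two_ne_zero).1 h1
    have hsub : PT u v y₁ y₂ ⊆ SL u f τ y₁ y₂ := by
      intro z hz
      obtain ⟨⟨⟨h1, h2⟩, h3, h4⟩, h5⟩ := hz
      refine ⟨h1, ?_, h2, h3, h4⟩
      have h6 := hfz z
      have h7 : τ * s * inner ℝ u z ≤ (1 - c) * inner ℝ u z :=
        mul_le_mul_of_nonneg_right hτs h1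
      have h8 : s * (τ * inner ℝ u z) ≤ s * inner ℝ f z := by
        rw [h6]; linarith
      exact le_of_mul_le_mul_left h8 hs0
    rw [← slope_volume hn u f hu hf1 huf hτ h₀ h₁₂]
    exact measureReal_mono hsub (finite_of_norm_le fun z hz => hz.2.2.2.2)

end Ov

open Ov

/-- C5 OV. -/
theorem overlap (hn : 1 ≤ n) (u v : E (n + 2)) (hu : ‖u‖ = 1) (hv : ‖v‖ = 1) {τ y₁ y₂ q : ℝ}
    (hτ : 0 ≤ τ) (huv : (1 + τ ^ 2) * inner ℝ u v ≤ 1 - τ ^ 2) (h₀ : 0 ≤ y₁) (h₁₂ : y₁ ≤ y₂)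
    (hq : QB n y₁ τ q) :
    volume.real (HS u y₁ y₂ ∩ HS v y₁ y₂) ≤ q * volume.real (HS u y₁ y₂) := by
  have hk : 0 ≤ kap n := by unfold kap; exact measureReal_nonneg
  have hc1 : (inner ℝ u v : ℝ) ≤ 1 := by
    have := real_inner_le_norm u v
    rwa [hu, hv, mul_one] at this
  rcases hc1.eq_or_lt with h | h
  · -- equal directions
    rw [h, mul_one] at huv
    have hτ0 : τ = 0 := by nlinarith
    have hF := FF_zero_pos (n := n) h₀
    have h1 := hq.2.2
    rw [hτ0] at h1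
    have hq1 : 1 ≤ q := by
      by_contra hlt
      push Not at hlt
      nlinarith
    have h2 : volume.real (HS u y₁ y₂ ∩ HS v y₁ y₂) ≤ volume.real (HS u y₁ y₂) :=
      measureReal_mono inter_subset_left (finite_of_norm_le fun z hz => hz.2.2)
    have h3 : 0 ≤ volume.real (HS u y₁ y₂) := measureReal_nonneg
    nlinarith
  · have h' : (inner ℝ v u : ℝ) < 1 := by rwa [real_inner_comm]
    have huv' : (1 + τ ^ 2) * inner ℝ v u ≤ 1 - τ ^ 2 := by rwa [real_inner_comm]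
    have p1 := part_le hn u v hu hv hτ huv h h₀ h₁₂
    have p2 := part_le hn v u hv hu hτ huv' h' h₀ h₁₂
    have hsub : HS u y₁ y₂ ∩ HS v y₁ y₂ ⊆ PT u v y₁ y₂ ∪ PT v u y₁ y₂ := by
      intro z hz
      rcases le_total (inner ℝ u z : ℝ) (inner ℝ v z) with h1 | h1
      · exact Or.inl ⟨hz.1, h1⟩
      · exact Or.inr ⟨hz.2, h1⟩
    have hfin : volume (PT u v y₁ y₂ ∪ PT v u y₁ y₂) ≠ ⊤ :=
      finite_of_norm_le fun z hz => by
        rcases hz with hz | hz
        · exact hz.1.2.2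
        · exact hz.1.2.2
    have h1 : volume.real (HS u y₁ y₂ ∩ HS v y₁ y₂) ≤
        volume.real (PT u v y₁ y₂) + volume.real (PT v u y₁ y₂) :=
      (measureReal_mono hsub hfin).trans (measureReal_union_le _ _)
    have h2 : ∫ y in y₁..y₂, FF n y τ ≤ q * ∫ y in y₁..y₂, FF n y 0 := by
      rw [← intervalIntegral.integral_const_mul]
      refine intervalIntegral.integral_mono_on h₁₂ (FF_intervalIntegrable h₀ h₁₂)
        ((FF_intervalIntegrable h₀ h₁₂).const_mul _) fun y hy => ?_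
      exact (QB.mono_y hq hτ h₀ hy.1).2.2
    rw [hs_volume hn u hu h₀ h₁₂]
    have h3 := mul_le_mul_of_nonneg_left h2 hk
    linarith

end

end Pool.Agent.Saus
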