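import Mathlib
import Pool.Agent.Lib.MP_5a9905_co.Defs

set_option autoImplicit false

open MeasureTheory Finset

namespace Pool.Agent.Saus

noncomputable section

/-- C1 SM. -/
theorem union_second_moment {α ι : Type*} [MeasurableSpace α] (μ : Measure α)
    (I : Finset ι) (hI : I.Nonempty) (A : ι → Set α) (hA : ∀ i ∈ I, MeasurableSet (A i))
    (hfin : ∀ i ∈ I, μ (A i) ≠ ⊤) (V q : ℝ) (hq : 0 ≤ q) (hV : ∀ i ∈ I, μ.real (A i) = V)
    (hp : ∀ i ∈ I, ∀ j ∈ I, i ≠ j → μ.real (A i ∩ A j) ≤ q * V) :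
    V * (I.card / (1 + (I.card - 1) * q)) ≤ μ.real (⋃ i ∈ I, A i) := by
  classical
  set U : Set α := ⋃ i ∈ I, A i with hU
  have hUm : MeasurableSet U := Finset.measurableSet_biUnion I hA
  have hUfin : μ U ≠ ⊤ := by
    refine ne_top_of_le_ne_top ?_ (measure_biUnion_finset_le I A)
    exact (ENNReal.sum_ne_top).mpr hfin
  set k : ℝ := (I.card : ℝ) with hk
  have hk1 : 1 ≤ k := by
    rw [hk]; exact_mod_cast hI.card_pos
  obtain ⟨i₀, hi₀⟩ := hI
  have hV0 : 0 ≤ V := by rw [← hV i₀ hi₀]; exact measureReal_nonneg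
  -- the counting function
  let f : α → ℝ := fun x => ∑ i ∈ I, (A i).indicator (fun _ => (1 : ℝ)) x
  have hint1 : ∀ i ∈ I, Integrable ((A i).indicator (fun _ => (1 : ℝ))) μ := fun i hi =>
    (integrable_indicator_iff (hA i hi)).mpr (integrableOn_const (hfin i hi))
  have hint2 : ∀ i ∈ I, ∀ j ∈ I,
      Integrable ((A i ∩ A j).indicator (fun _ => (1 : ℝ))) μ := fun i hi j hj =>
    (integrable_indicator_iff ((hA i hi).inter (hA j hj))).mpr
      (integrableOn_const (ne_top_of_le_ne_top (hfin i hi) (measure_mono Set.inter_subset_left)))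
  have hintU : Integrable (U.indicator (fun _ => (1 : ℝ))) μ :=
    (integrable_indicator_iff hUm).mpr (integrableOn_const hUfin)
  have hf1 : ∫ x, f x ∂μ = k * V := by
    change ∫ x, ∑ i ∈ I, (A i).indicator (fun _ => (1 : ℝ)) x ∂μ = k * V
    rw [integral_finset_sum I hint1]
    have : ∀ i ∈ I, ∫ x, (A i).indicator (fun _ => (1 : ℝ)) x ∂μ = V := fun i hi => by
      rw [integral_indicator_const _ (hA i hi), hV i hi]; simp
    rw [Finset.sum_congr rfl this, Finset.sum_const, nsmul_eq_mul]
  have hff : ∀ x, f x ^ 2 = ∑ i ∈ I, ∑ j ∈ I, (A i ∩ A j).indicator (fun _ => (1 : ℝ)) x := by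
    intro x
    change (∑ i ∈ I, (A i).indicator (fun _ => (1 : ℝ)) x) ^ 2 = _
    rw [sq, Finset.sum_mul_sum]
    refine Finset.sum_congr rfl fun i _ => Finset.sum_congr rfl fun j _ => ?_
    rw [Set.indicator_apply, Set.indicator_apply, Set.indicator_apply]
    by_cases h1 : x ∈ A i <;> by_cases h2 : x ∈ A j <;> simp [h1, h2]
  have hintf2 : Integrable (fun x => f x ^ 2) μ := by
    simp only [hff]
    exact integrable_finset_sum I fun i hi => integrable_finset_sum I fun j hj => hint2 i hi j hj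
  have hf2 : ∫ x, f x ^ 2 ∂μ ≤ k * V * (1 + (k - 1) * q) := by
    simp only [hff]
    rw [integral_finset_sum I fun i hi => integrable_finset_sum I fun j hj => hint2 i hi j hj]
    have h1 : ∀ i ∈ I, ∫ x, ∑ j ∈ I, (A i ∩ A j).indicator (fun _ => (1 : ℝ)) x ∂μ ≤
        V + (k - 1) * (q * V) := by
      intro i hi
      rw [integral_finset_sum I fun j hj => hint2 i hi j hj]
      have h2 : ∀ j ∈ I, ∫ x, (A i ∩ A j).indicator (fun _ => (1 : ℝ)) x ∂μ =
          μ.real (A i ∩ A j) := fun j hj => by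
        rw [integral_indicator_const _ ((hA i hi).inter (hA j hj))]; simp
      rw [Finset.sum_congr rfl h2, ← Finset.add_sum_erase I _ hi, Set.inter_self, hV i hi]
      have h3 : ∑ j ∈ I.erase i, μ.real (A i ∩ A j) ≤ ∑ j ∈ I.erase i, q * V :=
        Finset.sum_le_sum fun j hj => hp i hi j (Finset.mem_of_mem_erase hj)
          (Finset.ne_of_mem_erase hj).symm
      have h4 : ((I.erase i).card : ℝ) = k - 1 := by
        rw [Finset.card_erase_of_mem hi, Nat.cast_sub (Finset.card_pos.mpr ⟨i, hi⟩)]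
        simp [hk]
      rw [Finset.sum_const, nsmul_eq_mul, h4] at h3
      linarith
    calc _ ≤ ∑ i ∈ I, (V + (k - 1) * (q * V)) := Finset.sum_le_sum h1
      _ = k * V * (1 + (k - 1) * q) := by
        rw [Finset.sum_const, nsmul_eq_mul]; ring
  have hfU : ∀ x, f x * U.indicator (fun _ => (1 : ℝ)) x = f x := by
    intro x
    by_cases hx : x ∈ U
    · rw [Set.indicator_of_mem hx, mul_one]
    · have : f x = 0 := Finset.sum_eq_zero fun i hi => by
        apply Set.indicator_of_notMem
        intro h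
        exact hx (Set.mem_biUnion hi h)
      rw [this, zero_mul]
  have hintf : Integrable f μ := integrable_finset_sum I hint1
  -- the quadratic inequality for all parameters
  have hquad : ∀ t : ℝ, 0 ≤ μ.real U * (t * t) + (-2 * (k * V)) * t + ∫ x, f x ^ 2 ∂μ := by
    intro t
    have h1 : 0 ≤ ∫ x, (f x - t * U.indicator (fun _ => (1 : ℝ)) x) ^ 2 ∂μ :=
      integral_nonneg fun x => sq_nonneg _
    have h2 : ∀ x, (f x - t * U.indicator (fun _ => (1 : ℝ)) x) ^ 2 =
        f x ^ 2 + (-2 * t) * f x + (t * t) * U.indicator (fun _ => (1 : ℝ)) x := by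
      intro x
      have h3 := hfU x
      have h4 : U.indicator (fun _ => (1 : ℝ)) x ^ 2 = U.indicator (fun _ => (1 : ℝ)) x := by
        by_cases hx : x ∈ U
        · rw [Set.indicator_of_mem hx]; norm_num
        · rw [Set.indicator_of_notMem hx]; norm_num
      calc (f x - t * U.indicator (fun _ => (1 : ℝ)) x) ^ 2
          = f x ^ 2 + (-2 * t) * (f x * U.indicator (fun _ => (1 : ℝ)) x) +
            (t * t) * U.indicator (fun _ => (1 : ℝ)) x ^ 2 := by ring
        _ = _ := by rw [h3, h4]
    have i1 : Integrable (fun x => (-2 * t) * f x) μ := hintf.const_mul _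
    have i2 : Integrable (fun x => (t * t) * U.indicator (fun _ => (1 : ℝ)) x) μ :=
      hintU.const_mul _
    have i3 : Integrable (fun x => f x ^ 2 + (-2 * t) * f x) μ := hintf2.add i1
    have h5 : ∫ x, (f x - t * U.indicator (fun _ => (1 : ℝ)) x) ^ 2 ∂μ =
        ∫ x, f x ^ 2 ∂μ + (-2 * t) * (k * V) + (t * t) * μ.real U := by
      simp only [h2]
      rw [integral_add i3 i2, integral_add hintf2 i1, integral_const_mul, integral_const_mul, hf1,
        integral_indicator_const _ hUm]
      simp only [smul_eq_mul, mul_one]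
    rw [h5] at h1
    linarith
  have hdisc := discrim_le_zero hquad
  rw [discrim] at hdisc
  have hden : 0 < 1 + (k - 1) * q := by
    have : 0 ≤ (k - 1) * q := mul_nonneg (by linarith) hq
    linarith
  have hU0 : 0 ≤ μ.real U := measureReal_nonneg
  have hmain : (k * V) ^ 2 ≤ μ.real U * (k * V * (1 + (k - 1) * q)) := by
    have h1 : (k * V) ^ 2 ≤ μ.real U * ∫ x, f x ^ 2 ∂μ := by nlinarith
    exact h1.trans (mul_le_mul_of_nonneg_left hf2 hU0)
  rcases hV0.eq_or_lt with h0 | h0
  · rw [← h0]; simp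
  · have hkV : 0 < k * V := by positivity
    have h1 : k * V ≤ μ.real U * (1 + (k - 1) * q) := by
      have h2 : (k * V) * (k * V) ≤ (k * V) * (μ.real U * (1 + (k - 1) * q)) := by
        nlinarith
      exact le_of_mul_le_mul_left h2 hkV
    rw [← mul_div_assoc, div_le_iff₀ hden]
    linarith

end

end Pool.Agent.Saus
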