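import Pool.Agent.Lib.MP_5a9905_co.Defs
import Pool.Agent.Lib.MP_5a9905_co.SecondMoment
import Pool.Agent.Lib.MP_5a9905_co.Overlap
import Pool.Agent.Lib.MP_5a9905_co.HSLower
import Pool.Agent.Lib.MP_5a9905_co.Rot
import Pool.Agent.Lib.MP_5a9905_co.HCK
import Pool.Agent.Lib.MP_5a9905_co.Angle

/-!
# Unions of shells of half-cylinders (second moments)
-/

set_option autoImplicit false

open MeasureTheory Finset

namespace Pool.Agent.Saus

noncomputable section

variable {n : ℕ}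

namespace Tsm

theorem isClosed_HS {d : ℕ} (u : E d) (y₁ y₂ : ℝ) : IsClosed (HS u y₁ y₂) := by
  have h1 : Continuous fun z : E d => (inner ℝ u z : ℝ) := by fun_prop
  have h2 : Continuous fun z : E d => ‖z‖ ^ 2 := by fun_prop
  have e : HS u y₁ y₂ = {z | 0 ≤ (inner ℝ u z : ℝ)} ∩ {z | ‖z‖ ^ 2 ≤ (inner ℝ u z) ^ 2 + 1} ∩
      {z | 1 + y₁ ≤ ‖z‖ ^ 2} ∩ {z | ‖z‖ ^ 2 ≤ 1 + y₂} := by
    ext z
    simp only [HS, HC, Set.mem_ofPred_eq, Set.mem_inter_iff]
    tauto
  rw [e]
  exact (((isClosed_le continuous_const h1).inter (isClosed_le h2 ((h1.pow 2).add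
    continuous_const))).inter (isClosed_le continuous_const h2)).inter
    (isClosed_le h2 continuous_const)

theorem isClosed_Bl (d : ℕ) (R : ℝ) : IsClosed (Bl d R) := by
  have h2 : Continuous fun z : E d => ‖z‖ ^ 2 := by fun_prop
  exact isClosed_le h2 continuous_const

theorem Bl_subset {d : ℕ} {R : ℝ} : Bl d R ⊆ Metric.closedBall (0 : E d) (√R) := by
  intro z hz
  rw [mem_closedBall_zero_iff]
  exact Real.le_sqrt_of_sq_le hz

theorem volume_Bl_ne_top (d : ℕ) (R : ℝ) : volume (Bl d R) ≠ ⊤ :=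
  ((measure_mono Bl_subset).trans_lt measure_closedBall_lt_top).ne

theorem HS_subset_Bl {d : ℕ} {u : E d} {y₁ y₂ : ℝ} : HS u y₁ y₂ ⊆ Bl d (1 + y₂) :=
  fun _ hz => hz.2.2

theorem volume_sphere (d : ℕ) {R : ℝ} (hR : 0 < R) : volume {z : E d | ‖z‖ ^ 2 = R} = 0 := by
  have e : {z : E d | ‖z‖ ^ 2 = R} ⊆ Metric.sphere (0 : E d) (√R) := by
    intro z hz
    rw [mem_sphere_zero_iff_norm]
    rw [Set.mem_ofPred_eq] at hz
    rw [← hz, Real.sqrt_sq (norm_nonneg _)]
  exact measure_mono_null e (Measure.addHaar_sphere_of_ne_zero _ _ (Real.sqrt_pos.2 hR).ne')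

end Tsm

open Tsm

theorem tsm (hn : 1 ≤ n) {Y : Finset (E (n + 2))} {K : Set (E (n + 2))} (hL : Loc (n + 2) Y K)
    (A : Finset (E (n + 2))) (hA : A ⊆ Y) (hA1 : 1 ≤ A.card) {x τ : ℝ}
    (hx : ∀ w ∈ A, xi w < x) (hx2 : x ≤ 2) (hτ : 0 ≤ τ) (hτx : (4 * x - 1) * τ ^ 2 ≤ 1)
    (J : ℕ) (y q : ℕ → ℝ) (hy0 : y 0 = 0) (hy : ∀ j < J, y j ≤ y (j + 1)) (hyJ : y J ≤ 1)
    (hq : ∀ j < J, QB n (y j) τ (q j)) :
    kap (n + 2) + kap (n + 1) * tsmSum n A.card J y q ≤ volume.real (K ∩ Bl (n + 2) (1 + y J)) := by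
  have hnorm : ∀ w ∈ A, 2 ≤ ‖w‖ := fun w hw => hL.far w (hA hw)
  have hunit : ∀ w ∈ A, ‖‖w‖⁻¹ • w‖ = 1 := by
    intro w hw
    have := hnorm w hw
    rw [norm_smul, norm_inv, norm_norm, inv_mul_cancel₀ (by linarith)]
  induction J with
  | zero =>
    unfold tsmSum
    rw [Finset.range_zero, Finset.sum_empty, mul_zero, add_zero, hy0, add_zero]
    unfold kap
    refine measureReal_mono ?_ ?_
    · intro z hz
      refine ⟨hL.ball_zero hz, ?_⟩
      rw [mem_closedBall_zero_iff] at hz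
      change ‖z‖ ^ 2 ≤ 1
      nlinarith [norm_nonneg z]
    · exact ((measure_mono Set.inter_subset_right).trans_lt (volume_Bl_ne_top _ _).lt_top).ne
  | succ J ih =>
    have hyJ1 : y J ≤ y (J + 1) := hy J (Nat.lt_succ_self J)
    have ih' := ih (fun j hj => hy j (by omega)) (hyJ1.trans hyJ) fun j hj => hq j (by omega)
    have hnn : ∀ j ≤ J, 0 ≤ y j := by
      intro j
      induction j with
      | zero => intro _; exact hy0.ge
      | succ j ihj =>
        intro hj
        exact (ihj (by omega)).trans (hy j (by omega))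
    have hJ0 : 0 ≤ y J := hnn J le_rfl
    obtain ⟨w₀, hw₀⟩ := Finset.card_pos.1 (show 0 < A.card from hA1)
    -- the union of the shells
    set T : Set (E (n + 2)) := ⋃ w ∈ A, HS (‖w‖⁻¹ • w) (y J) (y (J + 1)) with hT
    set V : ℝ := volume.real (HS (‖w₀‖⁻¹ • w₀) (y J) (y (J + 1))) with hV
    have hfin : ∀ w : E (n + 2), volume (HS (‖w‖⁻¹ • w) (y J) (y (J + 1))) ≠ ⊤ := fun w =>
      ((measure_mono HS_subset_Bl).trans_lt (volume_Bl_ne_top _ _).lt_top).ne
    have hVw : ∀ w ∈ A, volume.real (HS (‖w‖⁻¹ • w) (y J) (y (J + 1))) = V := fun w hw =>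
      hs_eq _ _ (hunit w hw) (hunit w₀ hw₀) _ _
    have hqJ := hq J (Nat.lt_succ_self J)
    have hsm := union_second_moment volume A ⟨w₀, hw₀⟩
      (fun w => HS (‖w‖⁻¹ • w) (y J) (y (J + 1))) (fun w _ => (isClosed_HS _ _ _).measurableSet)
      (fun w _ => hfin w) V (q J) hqJ.1 hVw (fun w hw w' hw' hne => by
        have hxw := hx w hw
        have hxw' := hx w' hw'
        have h2 := hnorm w hw
        have h2' := hnorm w' hw'
        have hx1 : 1 < x := by
          refine lt_of_le_of_lt ?_ hxw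
          unfold xi
          nlinarith
        have hang := angle_near hL (hA hw) (hA hw') hne hx2 hxw.le hxw'.le
        have hpos : 0 < ‖w‖ * ‖w'‖ := by positivity
        have hc : inner ℝ (‖w‖⁻¹ • w) (‖w'‖⁻¹ • w') ≤ 1 - 1 / (2 * x) := by
          rw [real_inner_smul_left, real_inner_smul_right, ← mul_assoc, ← mul_inv, inv_mul_le_iff₀ hpos,
            mul_comm]
          exact hang
        have huv : (1 + τ ^ 2) * inner ℝ (‖w‖⁻¹ • w) (‖w'‖⁻¹ • w') ≤ 1 - τ ^ 2 := by
          refine (mul_le_mul_of_nonneg_left hc (by positivity)).trans ?_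
          have hx0 : 0 < 2 * x := by linarith
          have e : (1 + τ ^ 2) * (1 - 1 / (2 * x)) =
              1 - τ ^ 2 + ((4 * x - 1) * τ ^ 2 - 1) / (2 * x) := by
            field_simp
            ring
          rw [e]
          have : ((4 * x - 1) * τ ^ 2 - 1) / (2 * x) ≤ 0 :=
            div_nonpos_of_nonpos_of_nonneg (by linarith) hx0.le
          linarith
        have h3 := overlap hn _ _ (hunit w hw) (hunit w' hw') hτ huv hJ0 hyJ1 hqJ
        rw [hVw w hw] at h3
        exact h3)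
    have hlow := hs_lower (‖w₀‖⁻¹ • w₀) (hunit w₀ hw₀) hJ0 hyJ1
    rw [← hV] at hlow
    -- the shells are in K and do not overlap with the smaller ball
    have hTK : T ⊆ K ∩ Bl (n + 2) (1 + y (J + 1)) := by
      intro z hz
      rw [hT, Set.mem_iUnion₂] at hz
      obtain ⟨w, hw, hz⟩ := hz
      refine ⟨hc_subset hL (hA hw) ⟨hz.1, ?_⟩, HS_subset_Bl hz⟩
      have : ‖z‖ ^ 2 ≤ 1 + y (J + 1) := hz.2.2
      change ‖z‖ ^ 2 ≤ 2
      linarith
    have hTm : MeasurableSet T :=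
      Finset.measurableSet_biUnion _ fun w _ => (isClosed_HS _ _ _).measurableSet
    have hnull : volume (T ∩ Bl (n + 2) (1 + y J)) = 0 := by
      refine measure_mono_null ?_ (volume_sphere (n + 2) (R := 1 + y J) (by linarith))
      rintro z ⟨hz, hz'⟩
      rw [hT, Set.mem_iUnion₂] at hz
      obtain ⟨w, hw, hz⟩ := hz
      exact le_antisymm hz' hz.2.1
    have hTdiff : volume.real (T \ Bl (n + 2) (1 + y J)) = volume.real T := by
      unfold Measure.real
      rw [measure_sdiff_null' hnull]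
    have hKfin : volume (K ∩ Bl (n + 2) (1 + y J)) ≠ ⊤ :=
      ((measure_mono Set.inter_subset_right).trans_lt (volume_Bl_ne_top _ _).lt_top).ne
    have hTfin : volume T ≠ ⊤ :=
      ((measure_mono (hTK.trans Set.inter_subset_right)).trans_lt
        (volume_Bl_ne_top _ _).lt_top).ne
    have hTfin' : volume (T \ Bl (n + 2) (1 + y J)) ≠ ⊤ :=
      ((measure_mono Set.sdiff_subset).trans_lt hTfin.lt_top).ne
    have hun : volume.real ((K ∩ Bl (n + 2) (1 + y J)) ∪ (T \ Bl (n + 2) (1 + y J))) =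
        volume.real (K ∩ Bl (n + 2) (1 + y J)) + volume.real (T \ Bl (n + 2) (1 + y J)) :=
      measureReal_union (Set.disjoint_left.2 fun z hz hz' => hz'.2 hz.2)
        (hTm.diff (isClosed_Bl _ _).measurableSet) hKfin hTfin'
    have hsub : (K ∩ Bl (n + 2) (1 + y J)) ∪ (T \ Bl (n + 2) (1 + y J)) ⊆
        K ∩ Bl (n + 2) (1 + y (J + 1)) := by
      refine Set.union_subset ?_ (Set.sdiff_subset.trans hTK)
      rintro z ⟨hz, hz'⟩
      refine ⟨hz, ?_⟩
      change ‖z‖ ^ 2 ≤ _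
      have : ‖z‖ ^ 2 ≤ 1 + y J := hz'
      linarith
    have hmono := measureReal_mono (μ := volume) hsub
      ((measure_mono Set.inter_subset_right).trans_lt (volume_Bl_ne_top _ _).lt_top).ne
    rw [hun, hTdiff] at hmono
    refine le_trans ?_ hmono
    have hden : 0 < 1 + ((A.card : ℝ) - 1) * q J := by
      have h1 : (1 : ℝ) ≤ A.card := by exact_mod_cast hA1
      have := mul_nonneg (sub_nonneg.2 h1) hqJ.1
      linarith
    have hfac : 0 ≤ (A.card : ℝ) / (1 + ((A.card : ℝ) - 1) * q J) :=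
      div_nonneg (Nat.cast_nonneg _) hden.le
    have h5 := (mul_le_mul_of_nonneg_right hlow hfac).trans hsm
    unfold tsmSum at ih' ⊢
    rw [Finset.sum_range_succ, mul_add, ← add_assoc]
    have h6 : kap (n + 1) * ((√(y (J + 1) + 2 / (n + 3)) - √(y J + 2 / (n + 3))) *
        ((A.card : ℝ) / (1 + ((A.card : ℝ) - 1) * q J))) ≤ volume.real T := by
      rw [← mul_assoc]
      exact h5
    linarith

end

end Pool.Agent.Saus
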