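import Pool.Agent.Lib.MP_5a9905_co.Cut
import Pool.Agent.Lib.MP_5a9905_co.Tsm
import Pool.Agent.Lib.MP_5a9905_co.Bli
import Pool.Agent.Lib.MP_5a9905_co.Kap

/-!
# Sausage project (MP_5a9905_co), module FACTS: the real inequalities of a bad local configuration
-/

set_option autoImplicit false

open MeasureTheory Finset

namespace Pool.Agent.Saus

noncomputable section

variable {n : ℕ}

/-- E1 FACTS. -/
theorem facts_of_loc (hn : 1 ≤ n) {Y : Finset (E (n + 2))} {K : Set (E (n + 2))}
    (hL : Loc (n + 2) Y K) (hV : volume.real (K ∩ Vor Y) < 2 * kap (n + 1)) : Facts n Y xi := by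
  have hk : 0 < kap (n + 1) := kap_pos _
  refine ⟨?_, ?_, ?_⟩
  · intro w hw
    have := hL.far w hw
    unfold xi
    nlinarith
  · intro k X τ J y q hk1 hX hτ hXτ hy0 hy hyJ hq hcard
    obtain ⟨A, hA, hAk⟩ := Finset.exists_subset_card_eq hcard
    have hAY : A ⊆ Y := hA.trans (Finset.filter_subset _ _)
    have h1 := tsm hn hL A hAY (by rw [hAk]; exact hk1)
      (fun w hw => (Finset.mem_filter.1 (hA hw)).2) hX hτ hXτ J y q hy0 hy hyJ hq
    rw [hAk] at h1
    have h2 := cut hL (R := 1 + y J) (by linarith)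
    unfold SS at h2
    have h3 : kap (n + 2) + kap (n + 1) * tsmSum n k J y q
        < kap (n + 1) * (2 + ∑ i ∈ Y, sg (n + 2) (1 + y J) (xi i)) := by linarith
    have h4 : kap (n + 2) / kap (n + 1) + tsmSum n k J y q
        = (kap (n + 2) + kap (n + 1) * tsmSum n k J y q) / kap (n + 1) := by
      field_simp
    rw [h4, div_lt_iff₀ hk]
    linarith
  · intro R hR0 hR2
    have h1 := bli hL hR0 hR2
    have h2 := cut hL hR2
    unfold SS at h2
    have h3 : kap (n + 1) * (R ^ (((n : ℝ) + 2) / 2) * ∑ i ∈ Y.filter (fun i => xi i < 2),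
        gam (n + 2) (xi i)) < kap (n + 1) * (2 + ∑ i ∈ Y, sg (n + 2) R (xi i)) := by
      calc kap (n + 1) * (R ^ (((n : ℝ) + 2) / 2) * ∑ i ∈ Y.filter (fun i => xi i < 2),
              gam (n + 2) (xi i))
          = R ^ (((n : ℝ) + 2) / 2) * (kap (n + 1) * ∑ w ∈ Y.filter (fun w => xi w < 2),
              gam (n + 2) (xi w)) := by ring
        _ < _ := by linarith
    exact lt_of_mul_lt_mul_left h3 hk.le

end

end Pool.Agent.Saus
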