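import Pool.Agent.Lib.MP_5a9905_co.Defs

/-!
# MP_5a9905_co: at most two centres see all the others within 60 degrees
-/

set_option autoImplicit false

open MeasureTheory Finset

namespace Pool.Agent.Saus

noncomputable section

namespace FewEnds

/-- the angle opposite to the longest side is at least 60 degrees -/
theorem aux {d : ℕ} (a b c : E d) (h1 : ‖b - a‖ ≤ ‖b - c‖) (h2 : ‖c - a‖ ≤ ‖b - c‖) :
    inner ℝ (b - a) (c - a) ≤ 1 / 2 * (‖b - a‖ * ‖c - a‖) := by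
  have e : ‖b - c‖ ^ 2 = ‖b - a‖ ^ 2 - 2 * inner ℝ (b - a) (c - a) + ‖c - a‖ ^ 2 := by
    have h := norm_sub_sq_real (b - a) (c - a)
    rw [sub_sub_sub_cancel_right] at h
    exact h
  have p1 := norm_nonneg (b - a)
  have p2 := norm_nonneg (c - a)
  have p3 := norm_nonneg (b - c)
  rcases le_total ‖b - a‖ ‖c - a‖ with h | h
  · have q1 : ‖c - a‖ ^ 2 ≤ ‖b - c‖ ^ 2 := by gcongr
    have q2 : ‖b - a‖ * ‖b - a‖ ≤ ‖b - a‖ * ‖c - a‖ := mul_le_mul_of_nonneg_left h p1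
    nlinarith
  · have q1 : ‖b - a‖ ^ 2 ≤ ‖b - c‖ ^ 2 := by gcongr
    have q2 : ‖c - a‖ * ‖c - a‖ ≤ ‖b - a‖ * ‖c - a‖ := mul_le_mul_of_nonneg_right h p2
    nlinarith

end FewEnds

/-- at most two centres see all the others within 60 degrees -/
theorem few_ends {d : ℕ} (X : Finset (E d)) :
    (X.filter (fun x => ∀ y ∈ X, ∀ z ∈ X, y ≠ x → z ≠ x →
      1 / 2 * (‖y - x‖ * ‖z - x‖) < inner ℝ (y - x) (z - x))).card ≤ 2 := by
  by_contra hcon
  obtain ⟨a, ha, b, hb, c, hc, hab, hac, hbc⟩ := Finset.two_lt_card.mp (not_le.mp hcon)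
  rw [Finset.mem_filter] at ha hb hc
  have A := ha.2 b hb.1 c hc.1 hab.symm hac.symm
  have B := hb.2 a ha.1 c hc.1 hab hbc.symm
  have C := hc.2 a ha.1 b hb.1 hac hbc
  have e1 : ‖a - b‖ = ‖b - a‖ := norm_sub_rev _ _
  have e2 : ‖a - c‖ = ‖c - a‖ := norm_sub_rev _ _
  have e3 : ‖c - b‖ = ‖b - c‖ := norm_sub_rev _ _
  rcases le_total ‖b - a‖ ‖b - c‖ with h1 | h1
  · rcases le_total ‖c - a‖ ‖b - c‖ with h2 | h2
    · exact absurd A (not_lt.mpr (FewEnds.aux a b c h1 h2))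
    · exact absurd B (not_lt.mpr (FewEnds.aux b a c (by rw [e1, e2]; exact h1.trans h2)
        (by rw [e2, e3]; exact h2)))
  · rcases le_total ‖b - a‖ ‖c - a‖ with h2 | h2
    · exact absurd B (not_lt.mpr (FewEnds.aux b a c (by rw [e1, e2]; exact h2)
        (by rw [e2, e3]; exact h1.trans h2)))
    · exact absurd C (not_lt.mpr (FewEnds.aux c a b (by rw [e2, e1]; exact h2)
        (by rw [e1]; exact h1)))

end

end Pool.Agent.Saus
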