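import Pool.Agent.Lib.MP_5a9905_co.Defs

set_option autoImplicit false

open MeasureTheory Finset

namespace Pool.Agent.Saus

noncomputable section

variable {n : ℕ}

/-- A1 ISO. -/
theorem exists_isom (f₁ f₂ : E (n + 2)) (h₁ : ‖f₁‖ = 1) (h₂ : ‖f₂‖ = 1)
    (h : inner ℝ f₁ f₂ = (0 : ℝ)) :
    ∃ L : E (n + 2) ≃ₗᵢ[ℝ] E (n + 2), L f₁ = EuclideanSpace.single 0 1 ∧
      L f₂ = EuclideanSpace.single 1 1 := by
  classical
  have h01 : (0 : Fin (n + 2)) ≠ 1 := by
    intro h
    have := congrArg Fin.val h
    simp at this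
  set v : Fin (n + 2) → E (n + 2) := fun i => if i = 0 then f₁ else f₂ with hv
  set s : Set (Fin (n + 2)) := {0, 1} with hs
  have v0 : v 0 = f₁ := by simp [hv]
  have v1 : v 1 = f₂ := by simp only [hv]; rw [if_neg h01.symm]
  have ho : Orthonormal ℝ (s.domRestrict v) := by
    constructor
    · rintro ⟨i, hi⟩
      rcases hi with hi | hi
      · subst hi
        show ‖v 0‖ = 1
        rw [v0]; exact h₁
      · have hi' : i = 1 := hi
        subst hi'
        show ‖v 1‖ = 1
        rw [v1]; exact h₂
    · rintro ⟨i, hi⟩ ⟨j, hj⟩ hij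
      show inner ℝ (v i) (v j) = 0
      have hne : i ≠ j := fun h => hij (Subtype.ext h)
      rcases hi with hi | hi
      · rcases hj with hj | hj
        · exact absurd (hi.trans hj.symm) hne
        · have hj' : j = 1 := hj
          rw [hi, hj', v0, v1]; exact h
      · have hi' : i = 1 := hi
        rcases hj with hj | hj
        · rw [hi', hj, v0, v1, real_inner_comm]; exact h
        · have hj' : j = 1 := hj
          exact absurd (hi'.trans hj'.symm) hne
  obtain ⟨b, hb⟩ := ho.exists_orthonormalBasis_extension_of_card_eq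
    (by rw [finrank_euclideanSpace])
  refine ⟨b.repr, ?_, ?_⟩
  · have h0 : b 0 = f₁ := by rw [hb 0 (by simp [hs]), v0]
    rw [← h0, b.repr_self]
  · have h0 : b 1 = f₂ := by rw [hb 1 (by simp [hs]), v1]
    rw [← h0, b.repr_self]

end

end Pool.Agent.Saus
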