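import Pool.Agent.Lib.MP_5a9905_co.Defs
import Pool.Agent.Lib.MP_5a9905_co.Iso
import Pool.Agent.Lib.MP_5a9905_co.Cyl

set_option autoImplicit false

open MeasureTheory Finset

namespace Pool.Agent.Saus

noncomputable section

variable {n : ℕ}

namespace PlaneAux

open CylAux

/-- splitting off the first two coordinates -/
def spl2 (n : ℕ) (z : E (n + 2)) : (ℝ × ℝ) × E n :=
  (((spl (n + 1) z).1, (spl n (spl (n + 1) z).2).1), (spl n (spl (n + 1) z).2).2)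

theorem spl2_preserving (n : ℕ) : MeasurePreserving (spl2 n)
    (volume : Measure (E (n + 2))) (volume : Measure ((ℝ × ℝ) × E n)) := by
  have h4 : MeasurePreserving (Prod.map (id : ℝ → ℝ) (spl n))
      ((volume : Measure ℝ).prod volume) ((volume : Measure ℝ).prod volume) :=
    (MeasurePreserving.id volume).prod (spl_preserving n)
  have h5 : MeasurePreserving (MeasurableEquiv.prodAssoc (α := ℝ) (β := ℝ) (γ := E n)).symm
      volume volume := volume_preserving_prodAssoc.symm _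
  exact h5.comp (h4.comp (spl_preserving (n + 1)))

end PlaneAux

open CylAux PlaneAux in
/-- A2 PLN. -/
theorem plane_measure (f₁ f₂ : E (n + 2)) (h₁ : ‖f₁‖ = 1) (h₂ : ‖f₂‖ = 1)
    (h : inner ℝ f₁ f₂ = (0 : ℝ)) (A : Set (ℝ × ℝ × ℝ)) (hA : MeasurableSet A) :
    volume {z : E (n + 2) | (inner ℝ f₁ z, inner ℝ f₂ z, ‖z‖ ^ 2) ∈ A}
      = (volume : Measure ((ℝ × ℝ) × E n))
          {q | (q.1.1, q.1.2, q.1.1 ^ 2 + q.1.2 ^ 2 + ‖q.2‖ ^ 2) ∈ A} := by
  obtain ⟨L, hL1, hL2⟩ := exists_isom f₁ f₂ h₁ h₂ h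
  have hmp : MeasurePreserving (fun z => spl2 n (L z)) volume volume :=
    (spl2_preserving n).comp L.measurePreserving
  have hQ : MeasurableSet {q : (ℝ × ℝ) × E n |
      (q.1.1, q.1.2, q.1.1 ^ 2 + q.1.2 ^ 2 + ‖q.2‖ ^ 2) ∈ A} := by
    have hf : Measurable (fun q : (ℝ × ℝ) × E n =>
        (q.1.1, q.1.2, q.1.1 ^ 2 + q.1.2 ^ 2 + ‖q.2‖ ^ 2)) := by fun_prop
    exact hf hA
  rw [← hmp.measure_preimage hQ.nullMeasurableSet]
  congr 1
  ext z
  have e1 : inner ℝ f₁ z = (L z) 0 := by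
    rw [← L.inner_map_map f₁ z, hL1, EuclideanSpace.inner_single_left]
    simp
  have e2 : inner ℝ f₂ z = (L z) 1 := by
    rw [← L.inner_map_map f₂ z, hL2, EuclideanSpace.inner_single_left]
    simp
  have e3 : ‖z‖ ^ 2 = (L z) 0 ^ 2 + (L z) 1 ^ 2 + ‖(spl2 n (L z)).2‖ ^ 2 := by
    have a1 := norm_spl (n + 1) (L z)
    have a2 := norm_spl n (spl (n + 1) (L z)).2
    rw [L.norm_map] at a1
    rw [a1, a2]
    have a3 : (spl (n + 1) (L z)).2 0 = (L z) 1 := rfl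
    rw [a3]
    exact (add_assoc _ _ _).symm
  show (inner ℝ f₁ z, inner ℝ f₂ z, ‖z‖ ^ 2) ∈ A ↔
    ((spl2 n (L z)).1.1, (spl2 n (L z)).1.2, (spl2 n (L z)).1.1 ^ 2 + (spl2 n (L z)).1.2 ^ 2 +
      ‖(spl2 n (L z)).2‖ ^ 2) ∈ A
  rw [e1, e2, e3]
  rfl

end

end Pool.Agent.Saus
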