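import Pool.Agent.Lib.MP_5a9905_co.Defs
import Pool.Agent.Lib.MP_5a9905_co.Plane
import Pool.Agent.Lib.MP_5a9905_co.Cyl
import Pool.Agent.Lib.MP_5a9905_co.Moment
import Pool.Agent.Lib.MP_5a9905_co.Rot
import Pool.Agent.Lib.MP_5a9905_co.HCK

/-!
# SAUS module FLAT: two directions which are nearly opposite
-/

set_option autoImplicit false

open MeasureTheory Finset

namespace Pool.Agent.Saus

noncomputable section

variable {n : ℕ}

namespace FlatAux

/-- The frame map. -/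
def fr (f m z : E (n + 2)) : ℝ × ℝ × ℝ := (inner ℝ f z, inner ℝ m z, ‖z‖ ^ 2)

lemma fr_meas (f m : E (n + 2)) : Measurable (fr f m) := by
  unfold fr
  fun_prop

/-- The model of the preimage of a set under the frame map. -/
def mo (n : ℕ) (A : Set (ℝ × ℝ × ℝ)) : Set ((ℝ × ℝ) × E n) :=
  {q | (q.1.1, q.1.2, q.1.1 ^ 2 + q.1.2 ^ 2 + ‖q.2‖ ^ 2) ∈ A}

lemma mo_meas {A : Set (ℝ × ℝ × ℝ)} (hA : MeasurableSet A) : MeasurableSet (mo n A) := by
  have : Measurable (fun q : (ℝ × ℝ) × E n =>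
      (q.1.1, q.1.2, q.1.1 ^ 2 + q.1.2 ^ 2 + ‖q.2‖ ^ 2)) := by fun_prop
  exact this hA

lemma fr_vol {f m : E (n + 2)} (hf : ‖f‖ = 1) (hm : ‖m‖ = 1) (h : inner ℝ f m = (0 : ℝ))
    {A : Set (ℝ × ℝ × ℝ)} (hA : MeasurableSet A) :
    volume (fr f m ⁻¹' A) = (volume : Measure ((ℝ × ℝ) × E n)) (mo n A) :=
  plane_measure f m hf hm h A hA

/-- Reflection of the second coordinate. -/
lemma fr_refl {f m : E (n + 2)} (hf : ‖f‖ = 1) (hm : ‖m‖ = 1) (h : inner ℝ f m = (0 : ℝ))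
    {A : Set (ℝ × ℝ × ℝ)} (hA : MeasurableSet A) :
    volume (fr f m ⁻¹' A) = volume (fr f (-m) ⁻¹' A) := by
  rw [fr_vol hf hm h hA, fr_vol hf (by rwa [norm_neg]) (by rw [inner_neg_right, h, neg_zero]) hA]

lemma null_inner {u : E (n + 2)} (hu : ‖u‖ = 1) : volume {z : E (n + 2) | inner ℝ u z = (0 : ℝ)} = 0 := by
  have h : {z : E (n + 2) | inner ℝ u z = (0 : ℝ)} = ((innerₛₗ ℝ u).ker : Set (E (n + 2))) := by
    ext z; simp
  rw [h]
  refine Measure.addHaar_submodule _ _ fun htop => ?_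
  have : u ∈ (innerₛₗ ℝ u).ker := by rw [htop]; trivial
  rw [LinearMap.mem_ker] at this
  simp only [innerₛₗ_apply_apply, real_inner_self_eq_norm_sq, hu] at this
  norm_num at this

lemma Bl_fin {S : Set (E (n + 2))} (hS : ∀ z ∈ S, ‖z‖ ^ 2 ≤ 2) : volume S ≠ ⊤ := by
  refine ne_of_lt (lt_of_le_of_lt (measure_mono (t := Metric.closedBall 0 2) fun z hz => ?_)
    measure_closedBall_lt_top)
  rw [mem_closedBall_zero_iff]
  nlinarith [hS z hz, norm_nonneg z]

/-- The open quarter of a half-cylinder. -/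
def A0 : Set (ℝ × ℝ × ℝ) := {p | 0 < p.1 ∧ 0 < p.2.1 ∧ p.2.2 ≤ p.1 ^ 2 + 1 ∧ p.2.2 ≤ 2}

lemma A0_meas : MeasurableSet A0 := by
  unfold A0
  simp only [Set.ofPred_and]
  exact ((measurableSet_lt (by fun_prop) (by fun_prop)).inter
    ((measurableSet_lt (by fun_prop) (by fun_prop)).inter
    ((measurableSet_le (by fun_prop) (by fun_prop)).inter
    (measurableSet_le (by fun_prop) (by fun_prop)))))

lemma half {u m : E (n + 2)} (hu : ‖u‖ = 1) (hm : ‖m‖ = 1) (h : inner ℝ u m = (0 : ℝ)) :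
    hcv n 2 ≤ 2 * volume.real (fr u m ⁻¹' A0) := by
  rw [← hcv_eq u hu 2]
  have h1 : volume (HC u ∩ Bl (n + 2) 2) ≤ volume (fr u m ⁻¹' A0) + volume (fr u m ⁻¹' A0) := by
    calc volume (HC u ∩ Bl (n + 2) 2)
        ≤ volume ((fr u m ⁻¹' A0 ∪ fr u (-m) ⁻¹' A0) ∪
          ({z | inner ℝ u z = (0 : ℝ)} ∪ {z | inner ℝ m z = (0 : ℝ)})) := by
          refine measure_mono fun z hz => ?_
          obtain ⟨⟨h1, h2⟩, h3⟩ := hz
          rcases eq_or_lt_of_le h1 with h4 | h4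
          · right; left; exact h4.symm
          · rcases lt_trichotomy (0 : ℝ) (inner ℝ m z) with h5 | h5 | h5
            · left; left; exact ⟨h4, h5, h2, h3⟩
            · right; right; exact h5.symm
            · left; right
              refine ⟨h4, ?_, h2, h3⟩
              show (0 : ℝ) < inner ℝ (-m) z
              rw [inner_neg_left]; linarith
      _ ≤ (volume (fr u m ⁻¹' A0) + volume (fr u (-m) ⁻¹' A0)) +
          (volume {z | inner ℝ u z = (0 : ℝ)} + volume {z | inner ℝ m z = (0 : ℝ)}) :=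
          (measure_union_le _ _).trans (add_le_add (measure_union_le _ _) (measure_union_le _ _))
      _ = volume (fr u m ⁻¹' A0) + volume (fr u m ⁻¹' A0) := by
          rw [null_inner hu, null_inner hm, ← fr_refl hu hm h A0_meas]; simp
  have h2 : volume (fr u m ⁻¹' A0) ≠ ⊤ := Bl_fin fun z hz => hz.2.2.2
  have h3 := ENNReal.toReal_mono (ENNReal.add_ne_top.2 ⟨h2, h2⟩) h1
  rw [ENNReal.toReal_add h2 h2] at h3
  show (volume _).toReal ≤ 2 * (volume _).toReal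
  linarith

/-! ### The body -/

lemma inK {Y : Finset (E (n + 2))} {K : Set (E (n + 2))} (hL : Loc (n + 2) Y K)
    {y y' : E (n + 2)} (hy : y ∈ Y) (hy' : y' ∈ Y) {a b : ℝ} (ha : 0 ≤ a) (hb : 0 ≤ b)
    (hab : a + b ≤ 1) {w : E (n + 2)} (hw : ‖w‖ ≤ 1) :
    (a * 2) • (‖y‖⁻¹ • y) + (b * 2) • (‖y'‖⁻¹ • y') + w ∈ K := by
  have h1 := hL.far y hy
  have h2 := hL.far y' hy'
  have ha1 : a * 2 * ‖y‖⁻¹ ≤ a := by
    rw [mul_assoc]
    refine mul_le_of_le_one_right ha ?_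
    rw [← div_eq_mul_inv, div_le_one (by linarith)]
    exact h1
  have hb1 : b * 2 * ‖y'‖⁻¹ ≤ b := by
    rw [mul_assoc]
    refine mul_le_of_le_one_right hb ?_
    rw [← div_eq_mul_inv, div_le_one (by linarith)]
    exact h2
  have ha0 : 0 ≤ a * 2 * ‖y‖⁻¹ := by positivity
  have hb0 : 0 ≤ b * 2 * ‖y'‖⁻¹ := by positivity
  have key := hL.convex.sum_mem (t := (Finset.univ : Finset (Fin 3)))
    (w := ![1 - a * 2 * ‖y‖⁻¹ - b * 2 * ‖y'‖⁻¹, a * 2 * ‖y‖⁻¹, b * 2 * ‖y'‖⁻¹])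
    (z := ![w, y + w, y' + w]) ?_ ?_ ?_
  · rw [Fin.sum_univ_three] at key
    have e1 : (a * 2) • (‖y‖⁻¹ • y) + (b * 2) • (‖y'‖⁻¹ • y') + w =
        (1 - a * 2 * ‖y‖⁻¹ - b * 2 * ‖y'‖⁻¹) • w + (a * 2 * ‖y‖⁻¹) • (y + w) +
          (b * 2 * ‖y'‖⁻¹) • (y' + w) := by
      module
    rw [e1]
    exact key
  · intro i _
    fin_cases i
    · show (0 : ℝ) ≤ 1 - a * 2 * ‖y‖⁻¹ - b * 2 * ‖y'‖⁻¹
      linarith
    · exact ha0
    · exact hb0
  · rw [Fin.sum_univ_three]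
    show 1 - a * 2 * ‖y‖⁻¹ - b * 2 * ‖y'‖⁻¹ + a * 2 * ‖y‖⁻¹ + b * 2 * ‖y'‖⁻¹ = 1
    ring
  · intro i _
    fin_cases i
    · exact hL.ball_zero (by rw [mem_closedBall_zero_iff]; exact hw)
    · refine hL.ball y hy ?_
      show y + w ∈ Metric.closedBall y 1
      rw [mem_closedBall_iff_norm]; simpa using hw
    · refine hL.ball y' hy' ?_
      show y' + w ∈ Metric.closedBall y' 1
      rw [mem_closedBall_iff_norm]; simpa using hw

lemma inK' {Y : Finset (E (n + 2))} {K : Set (E (n + 2))} (hL : Loc (n + 2) Y K)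
    {y y' : E (n + 2)} (hy : y ∈ Y) (hy' : y' ∈ Y) {f m : E (n + 2)} (hf : ‖f‖ = 1)
    (hm : ‖m‖ = 1) (hfm : inner ℝ f m = (0 : ℝ)) {e h : ℝ} (he : 0 < e) (hh : 0 < h)
    (hu : (2 : ℝ) • (‖y‖⁻¹ • y) = e • m - h • f) (hv : (2 : ℝ) • (‖y'‖⁻¹ • y') = e • m + h • f)
    {z : E (n + 2)} {t : ℝ} (ht : t ≤ e) (ht1 : e * |inner ℝ f z| ≤ h * t)
    (hz : ‖z‖ ^ 2 - (inner ℝ f z) ^ 2 - (inner ℝ m z) ^ 2 + (inner ℝ m z - t) ^ 2 ≤ 1) :
    z ∈ K := by
  set p1 : ℝ := inner ℝ f z with hp1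
  set p2 : ℝ := inner ℝ m z with hp2
  have ht2 : |p1| / h ≤ t / e := by
    rw [div_le_div_iff₀ hh he]; linarith
  have ht3 := abs_le.1 (le_refl |p1|)
  have ht4 : p1 / h ≤ |p1| / h := by gcongr; exact le_abs_self _
  have ht5 : -p1 / h ≤ |p1| / h := by gcongr; exact neg_le_abs _
  have ht6 : t / e ≤ 1 := by rw [div_le_one he]; exact ht
  have e0 : -p1 / h = - (p1 / h) := by ring
  have h1 := inK hL hy hy' (a := (t / e - p1 / h) / 2) (b := (t / e + p1 / h) / 2)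
    (by linarith) (by linarith) (by linarith) (w := z - (p1 • f + t • m)) ?_
  · have e1 : (((t / e - p1 / h) / 2) * 2) • (‖y‖⁻¹ • y) +
        (((t / e + p1 / h) / 2) * 2) • (‖y'‖⁻¹ • y') = p1 • f + t • m := by
      rw [mul_smul, mul_smul, hu, hv]
      have e2 : ((t / e - p1 / h) / 2) • (e • m - h • f) + ((t / e + p1 / h) / 2) • (e • m + h • f)
          = ((p1 / h) * h) • f + ((t / e) * e) • m := by module
      rw [e2, div_mul_cancel₀ _ hh.ne', div_mul_cancel₀ _ he.ne']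
    rw [e1] at h1
    simpa using h1
  · have e3 : ‖z - (p1 • f + t • m)‖ ^ 2 = ‖z‖ ^ 2 - p1 ^ 2 - p2 ^ 2 + (p2 - t) ^ 2 := by
      rw [norm_sub_sq_real, inner_add_right, inner_smul_right, inner_smul_right,
        real_inner_comm f z, real_inner_comm m z, norm_add_sq_real, norm_smul, norm_smul,
        inner_smul_left, inner_smul_right, hfm, hf, hm]
      simp only [← hp1, ← hp2, Real.norm_eq_abs, mul_one, sq_abs, mul_zero]
      ring
    rw [← e3] at hz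
    have := (sq_le_one_iff₀ (norm_nonneg _)).1 hz
    exact this

/-! ### Volumes -/

/-- The planar triangle, cut off. -/
def T0 (g e h : ℝ) : Set (ℝ × ℝ) := {p | |p.1| ≤ g ∧ e * |p.1| < h * p.2 ∧ p.2 ≤ e}

lemma T0_meas (g e h : ℝ) : MeasurableSet (T0 g e h) := by
  unfold T0
  simp only [Set.ofPred_and]
  exact (measurableSet_le (by fun_prop) (by fun_prop)).inter
    ((measurableSet_lt (by fun_prop) (by fun_prop)).inter
    (measurableSet_le (by fun_prop) (by fun_prop)))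

lemma integral_abs' {g : ℝ} (hg : 0 ≤ g) : ∫ a in (-g)..g, |a| = g ^ 2 := by
  have h1 : ∫ a in (-g)..0, |a| = g ^ 2 / 2 := by
    have : ∫ a in (-g)..0, |a| = ∫ a in (-g)..0, -a := by
      refine intervalIntegral.integral_congr fun a ha => ?_
      rw [Set.uIcc_of_le (by linarith)] at ha
      exact abs_of_nonpos ha.2
    rw [this, intervalIntegral.integral_neg, integral_id]
    ring
  have h2 : ∫ a in (0 : ℝ)..g, |a| = g ^ 2 / 2 := by
    have : ∫ a in (0 : ℝ)..g, |a| = ∫ a in (0 : ℝ)..g, a := by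
      refine intervalIntegral.integral_congr fun a ha => ?_
      rw [Set.uIcc_of_le hg] at ha
      exact abs_of_nonneg ha.1
    rw [this, integral_id]
    ring
  rw [← intervalIntegral.integral_add_adjacent_intervals (b := 0)
    (continuous_abs.intervalIntegrable _ _) (continuous_abs.intervalIntegrable _ _), h1, h2]
  ring

lemma area {g e h : ℝ} (hg : 3 / 5 ≤ g) (hg1 : g ≤ 1) (he : 0 < e) (hh : 9 / 5 ≤ h) :
    ENNReal.ofReal e ≤ volume (T0 g e h) := by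
  have hh0 : 0 < h := by linarith
  rw [Measure.volume_eq_prod, Measure.prod_apply (T0_meas g e h)]
  have h1 : ∀ a ∈ Set.Icc (-g) g, ENNReal.ofReal (e - e / h * |a|) ≤
      volume (Prod.mk a ⁻¹' T0 g e h) := by
    intro a ha
    have h2 : Set.Ioc (e / h * |a|) e ⊆ Prod.mk a ⁻¹' T0 g e h := by
      intro s hs
      refine ⟨abs_le.2 ha, ?_, hs.2⟩
      have h3 := hs.1
      show e * |a| < h * s
      have h4 : h * (e / h * |a|) = e * |a| := by field_simp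
      rw [← h4]
      exact mul_lt_mul_of_pos_left h3 hh0
    calc ENNReal.ofReal (e - e / h * |a|) = volume (Set.Ioc (e / h * |a|) e) := by
          rw [Real.volume_Ioc]
      _ ≤ _ := measure_mono h2
  calc ENNReal.ofReal e ≤ ENNReal.ofReal (∫ a in (-g)..g, (e - e / h * |a|)) := by
        apply ENNReal.ofReal_le_ofReal
        rw [intervalIntegral.integral_sub (Continuous.intervalIntegrable (by fun_prop) _ _)
            (Continuous.intervalIntegrable (by fun_prop) _ _),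
          intervalIntegral.integral_const, intervalIntegral.integral_const_mul,
          integral_abs' (by linarith)]
        have h5 : e / h * g ^ 2 ≤ e / (9 / 5) * g ^ 2 := by gcongr
        have h6 : (g - -g) • e = 2 * g * e := by rw [smul_eq_mul]; ring
        rw [h6]
        nlinarith [mul_nonneg he.le (mul_nonneg (sub_nonneg.2 hg) (by linarith : (0 : ℝ) ≤ 3 - g))]
    _ = ∫⁻ a in Set.Icc (-g) g, ENNReal.ofReal (e - e / h * |a|) := by
        rw [intervalIntegral.integral_of_le (by linarith), ← integral_Icc_eq_integral_Ioc]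
        rw [ofReal_integral_eq_lintegral_ofReal]
        · exact (Continuous.continuousOn (by fun_prop)).integrableOn_Icc
        · filter_upwards [ae_restrict_mem measurableSet_Icc] with a ha
          have h7 : |a| ≤ 1 := (abs_le.2 ha).trans hg1
          have h8 : e / h * |a| ≤ e / h * 1 := by gcongr
          have h9 : e / h ≤ e / 1 := by gcongr; linarith
          show (0 : ℝ) ≤ e - e / h * |a|
          linarith
    _ ≤ ∫⁻ a in Set.Icc (-g) g, volume (Prod.mk a ⁻¹' T0 g e h) :=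
        setLIntegral_mono_ae' measurableSet_Icc (Filter.Eventually.of_forall h1)
    _ ≤ ∫⁻ a, volume (Prod.mk a ⁻¹' T0 g e h) := setLIntegral_le_lintegral _ _

/-- The triangle times the ball, in the coordinates of the frame. -/
def A3 (g e h : ℝ) : Set (ℝ × ℝ × ℝ) :=
  {p | |p.1| ≤ g ∧ e * |p.1| < h * p.2.1 ∧ p.2.1 ≤ e ∧ p.2.2 ≤ p.1 ^ 2 + p.2.1 ^ 2 + 1}

lemma A3_meas (g e h : ℝ) : MeasurableSet (A3 g e h) := by
  unfold A3
  simp only [Set.ofPred_and]
  exact (measurableSet_le (by fun_prop) (by fun_prop)).inter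
    ((measurableSet_lt (by fun_prop) (by fun_prop)).inter
    ((measurableSet_le (by fun_prop) (by fun_prop)).inter
    (measurableSet_le (by fun_prop) (by fun_prop))))

lemma kap_nonneg' (m : ℕ) : 0 ≤ kap m := measureReal_nonneg

lemma ofReal_kap (m : ℕ) : ENNReal.ofReal (kap m) = volume (Metric.closedBall (0 : E m) 1) := by
  unfold kap
  rw [Measure.real, ENNReal.ofReal_toReal measure_closedBall_lt_top.ne]

lemma vol3 {g e h : ℝ} (hg : 3 / 5 ≤ g) (hg1 : g ≤ 1) (he : 0 < e) (hh : 9 / 5 ≤ h) :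
    ENNReal.ofReal (e * kap n) ≤ (volume : Measure ((ℝ × ℝ) × E n)) (mo n (A3 g e h)) := by
  have h1 : T0 g e h ×ˢ Metric.closedBall (0 : E n) 1 ⊆ mo n (A3 g e h) := by
    rintro ⟨p, x⟩ ⟨⟨h1, h2, h3⟩, h4⟩
    refine ⟨h1, h2, h3, ?_⟩
    rw [mem_closedBall_zero_iff] at h4
    show p.1 ^ 2 + p.2 ^ 2 + ‖x‖ ^ 2 ≤ p.1 ^ 2 + p.2 ^ 2 + 1
    nlinarith [norm_nonneg x]
  refine le_trans ?_ (measure_mono h1)
  rw [Measure.volume_eq_prod, Measure.prod_prod, ENNReal.ofReal_mul he.le, ofReal_kap]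
  gcongr
  exact area hg hg1 he hh

/-! ### The top part -/

/-- The half-cylinder in the direction `f`, above the plane. -/
def AH : Set (ℝ × ℝ × ℝ) := {p | 0 < p.2.1 ∧ p.2.2 - p.1 ^ 2 ≤ 1 ∧ p.2.2 ≤ 2}

lemma AH_meas : MeasurableSet AH := by
  unfold AH
  simp only [Set.ofPred_and]
  exact (measurableSet_lt (by fun_prop) (by fun_prop)).inter
    ((measurableSet_le (by fun_prop) (by fun_prop)).inter
    (measurableSet_le (by fun_prop) (by fun_prop)))

/-- The top part, in the coordinates of the frame. -/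
def A4 (e : ℝ) : Set (ℝ × ℝ × ℝ) :=
  {p | e < p.2.1 ∧ p.2.2 - p.1 ^ 2 - p.2.1 ^ 2 + (p.2.1 - e) ^ 2 ≤ 1 ∧ p.2.2 ≤ 2}

lemma A4_meas (e : ℝ) : MeasurableSet (A4 e) := by
  unfold A4
  simp only [Set.ofPred_and]
  exact (measurableSet_lt (by fun_prop) (by fun_prop)).inter
    ((measurableSet_le (by fun_prop) (by fun_prop)).inter
    (measurableSet_le (by fun_prop) (by fun_prop)))

lemma hcv_le {f m : E (n + 2)} (hf : ‖f‖ = 1) (hm : ‖m‖ = 1) (h : inner ℝ f m = (0 : ℝ)) :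
    hcv n 2 ≤ volume.real (fr f m ⁻¹' AH) := by
  have h1 := half hf hm h
  have h2 := half (u := -f) (m := m) (by rwa [norm_neg]) hm (by rw [inner_neg_left, h, neg_zero])
  have hfin : ∀ (g : E (n + 2)), volume (fr g m ⁻¹' A0) ≠ ⊤ := fun g => Bl_fin fun z hz => hz.2.2.2
  have hfin' : volume (fr f m ⁻¹' AH) ≠ ⊤ := Bl_fin fun z hz => hz.2.2
  have h3 : fr f m ⁻¹' A0 ∪ fr (-f) m ⁻¹' A0 ⊆ fr f m ⁻¹' AH := by
    rintro z (hz | hz)
    · obtain ⟨a1, a2, a3, a4⟩ := hz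
      refine ⟨a2, ?_, a4⟩
      linarith
    · obtain ⟨a1, a2, a3, a4⟩ := hz
      refine ⟨a2, ?_, a4⟩
      change ‖z‖ ^ 2 ≤ (inner ℝ (-f) z) ^ 2 + 1 at a3
      rw [inner_neg_left, neg_sq] at a3
      show ‖z‖ ^ 2 - (inner ℝ f z) ^ 2 ≤ 1
      linarith
  have h4 : Disjoint (fr f m ⁻¹' A0) (fr (-f) m ⁻¹' A0) := by
    rw [Set.disjoint_left]
    intro z hz hz'
    have a1 : (0 : ℝ) < inner ℝ f z := hz.1
    have a2 : (0 : ℝ) < inner ℝ (-f) z := hz'.1
    rw [inner_neg_left] at a2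
    linarith
  have h5 : volume.real (fr f m ⁻¹' A0) + volume.real (fr (-f) m ⁻¹' A0) ≤
      volume.real (fr f m ⁻¹' AH) := by
    rw [← measureReal_union h4 ((fr_meas (-f) m) A0_meas) (hfin f) (hfin (-f))]
    exact measureReal_mono h3 hfin'
  linarith

/-- The difference set. -/
def DD (n : ℕ) (e : ℝ) : Set ((ℝ × ℝ) × E n) :=
  {q | 0 < q.1.2 ∧ q.1.2 ^ 2 + ‖q.2‖ ^ 2 ≤ 1 ∧
    2 - (e ^ 2 + 2 * e * q.1.2) < q.1.1 ^ 2 + q.1.2 ^ 2 + ‖q.2‖ ^ 2 ∧
    q.1.1 ^ 2 + q.1.2 ^ 2 + ‖q.2‖ ^ 2 ≤ 2}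

lemma DD_meas (e : ℝ) : MeasurableSet (DD n e) := by
  unfold DD
  simp only [Set.ofPred_and]
  exact (measurableSet_lt (by fun_prop) (by fun_prop)).inter
    ((measurableSet_le (by fun_prop) (by fun_prop)).inter
    ((measurableSet_lt (by fun_prop) (by fun_prop)).inter
    (measurableSet_le (by fun_prop) (by fun_prop))))

lemma len {A b : ℝ} (hA : 1 ≤ A) (hb : 0 ≤ b) :
    volume {a : ℝ | A - b < a ^ 2 ∧ a ^ 2 ≤ A} ≤ ENNReal.ofReal (2 * b) := by
  set r := √A with hr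
  have hr1 : 1 ≤ r := Real.one_le_sqrt.2 hA
  have hrA : r ^ 2 = A := Real.sq_sqrt (by linarith)
  have h1 : {a : ℝ | A - b < a ^ 2 ∧ a ^ 2 ≤ A} ⊆ Set.Icc (r - b) r ∪ Set.Icc (-r) (-r + b) := by
    rintro a ⟨ha, ha'⟩
    rcases le_total 0 a with h0 | h0
    · left
      have h2 : a ≤ r := by
        rw [← hrA] at ha'
        exact (pow_le_pow_iff_left₀ h0 (by linarith) two_ne_zero).1 ha'
      refine ⟨?_, h2⟩
      by_contra h3
      push Not at h3
      nlinarith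
    · right
      have h2 : -a ≤ r := by
        rw [← hrA, ← neg_sq a] at ha'
        exact (pow_le_pow_iff_left₀ (by linarith) (by linarith) two_ne_zero).1 ha'
      refine ⟨by linarith, ?_⟩
      by_contra h3
      push Not at h3
      nlinarith
  calc volume {a : ℝ | A - b < a ^ 2 ∧ a ^ 2 ≤ A}
      ≤ volume (Set.Icc (r - b) r ∪ Set.Icc (-r) (-r + b)) := measure_mono h1
    _ ≤ volume (Set.Icc (r - b) r) + volume (Set.Icc (-r) (-r + b)) := measure_union_le _ _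
    _ = ENNReal.ofReal (2 * b) := by
        rw [Real.volume_Icc, Real.volume_Icc, ← ENNReal.ofReal_add (by linarith) (by linarith)]
        congr 1
        ring

lemma sec {e : ℝ} (he : 0 ≤ e) (x : E n) (hx : ‖x‖ ≤ 1) :
    volume ((fun p : ℝ × ℝ => (p, x)) ⁻¹' DD n e) ≤
      ENNReal.ofReal (2 * e ^ 2 * √(1 - ‖x‖ ^ 2) + 2 * e * (1 - ‖x‖ ^ 2)) := by
  have hx2 : 0 ≤ 1 - ‖x‖ ^ 2 := by nlinarith [norm_nonneg x]
  set r := √(1 - ‖x‖ ^ 2) with hr
  have hr0 : 0 ≤ r := Real.sqrt_nonneg _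
  have hr2 : r ^ 2 = 1 - ‖x‖ ^ 2 := Real.sq_sqrt hx2
  have hm : MeasurableSet ((fun p : ℝ × ℝ => (p, x)) ⁻¹' DD n e) :=
    (by fun_prop : Measurable (fun p : ℝ × ℝ => (p, x))) (DD_meas e)
  rw [Measure.volume_eq_prod, Measure.prod_apply_symm hm]
  calc ∫⁻ s, volume ((fun a : ℝ => (a, s)) ⁻¹' ((fun p : ℝ × ℝ => (p, x)) ⁻¹' DD n e))
      ≤ ∫⁻ s, (Set.Ioc 0 r).indicator (fun s => ENNReal.ofReal (2 * (e ^ 2 + 2 * e * s))) s := by
        refine lintegral_mono fun s => ?_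
        by_cases hs : s ∈ Set.Ioc 0 r
        · rw [Set.indicator_of_mem hs]
          have hs2 : s ^ 2 ≤ r ^ 2 := pow_le_pow_left₀ hs.1.le hs.2 2
          refine le_trans (measure_mono ?_) (len (A := 2 - s ^ 2 - ‖x‖ ^ 2)
            (b := e ^ 2 + 2 * e * s) (by linarith)
            (add_nonneg (sq_nonneg _) (mul_nonneg (by linarith) hs.1.le)))
          rintro a ⟨b1, b2, b3, b4⟩
          change 2 - (e ^ 2 + 2 * e * s) < a ^ 2 + s ^ 2 + ‖x‖ ^ 2 at b3
          change a ^ 2 + s ^ 2 + ‖x‖ ^ 2 ≤ 2 at b4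
          exact ⟨by linarith, by linarith⟩
        · rw [Set.indicator_of_notMem hs]
          refine le_of_eq (measure_mono_null (t := ∅) ?_ measure_empty)
          rintro a ⟨b1, b2, b3, b4⟩
          change 0 < s at b1
          change s ^ 2 + ‖x‖ ^ 2 ≤ 1 at b2
          refine hs ⟨b1, ?_⟩
          exact (pow_le_pow_iff_left₀ b1.le hr0 two_ne_zero).1 (by linarith)
    _ = ∫⁻ s in Set.Ioc 0 r, ENNReal.ofReal (2 * (e ^ 2 + 2 * e * s)) :=
        lintegral_indicator measurableSet_Ioc _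
    _ = ENNReal.ofReal (∫ s in (0 : ℝ)..r, 2 * (e ^ 2 + 2 * e * s)) := by
        rw [intervalIntegral.integral_of_le hr0, ofReal_integral_eq_lintegral_ofReal]
        · exact (Continuous.continuousOn (by fun_prop)).integrableOn_Icc.mono_set
            Set.Ioc_subset_Icc_self
        · filter_upwards [ae_restrict_mem measurableSet_Ioc] with s hs
          have : 0 ≤ e * s := mul_nonneg he hs.1.le
          show (0 : ℝ) ≤ 2 * (e ^ 2 + 2 * e * s)
          nlinarith [sq_nonneg e]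
    _ = ENNReal.ofReal (2 * e ^ 2 * r + 2 * e * (1 - ‖x‖ ^ 2)) := by
        congr 1
        rw [intervalIntegral.integral_const_mul, intervalIntegral.integral_add
          (Continuous.intervalIntegrable (by fun_prop) _ _)
          (Continuous.intervalIntegrable (by fun_prop) _ _), intervalIntegral.integral_const,
          intervalIntegral.integral_const_mul, integral_id, ← hr2, smul_eq_mul]
        ring

lemma slices : ∫⁻ x in Metric.closedBall (0 : E n) 1, ENNReal.ofReal (2 * √(1 - ‖x‖ ^ 2)) =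
    ENNReal.ofReal (kap (n + 1)) := by
  have h1 := cyl_measure (m := n) (EuclideanSpace.single 0 1) (by simp) {p | p.2 ≤ 1}
    (measurableSet_le (by fun_prop) (by fun_prop))
  have h2 : {z : E (n + 1) | (inner ℝ (EuclideanSpace.single 0 1) z, ‖z‖ ^ 2) ∈
      {p : ℝ × ℝ | p.2 ≤ 1}} = Metric.closedBall (0 : E (n + 1)) 1 := by
    ext z
    rw [mem_closedBall_zero_iff]
    exact sq_le_one_iff₀ (norm_nonneg z)
  rw [ofReal_kap, ← h2, h1]
  have hm : MeasurableSet {q : ℝ × E n | (q.1, q.1 ^ 2 + ‖q.2‖ ^ 2) ∈ {p : ℝ × ℝ | p.2 ≤ 1}} :=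
    measurableSet_le (f := fun q : ℝ × E n => q.1 ^ 2 + ‖q.2‖ ^ 2) (by fun_prop) (by fun_prop)
  rw [Measure.volume_eq_prod, Measure.prod_apply_symm hm, ← lintegral_indicator
    Metric.isClosed_closedBall.measurableSet]
  refine lintegral_congr fun x => ?_
  by_cases hx : x ∈ Metric.closedBall (0 : E n) 1
  · rw [Set.indicator_of_mem hx]
    rw [mem_closedBall_zero_iff] at hx
    have hx2 : 0 ≤ 1 - ‖x‖ ^ 2 := by nlinarith [norm_nonneg x]
    have h3 : (fun t : ℝ => (t, x)) ⁻¹' {q : ℝ × E n | (q.1, q.1 ^ 2 + ‖q.2‖ ^ 2) ∈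
        {p : ℝ × ℝ | p.2 ≤ 1}} = Set.Icc (-√(1 - ‖x‖ ^ 2)) (√(1 - ‖x‖ ^ 2)) := by
      ext t
      rw [Set.mem_Icc, ← abs_le, ← Real.sqrt_sq_eq_abs, Real.sqrt_le_sqrt_iff hx2]
      show t ^ 2 + ‖x‖ ^ 2 ≤ 1 ↔ _
      constructor <;> intro h <;> linarith
    rw [h3, Real.volume_Icc]
    congr 1
    ring
  · rw [Set.indicator_of_notMem hx]
    symm
    refine measure_mono_null (t := ∅) ?_ measure_empty
    intro t ht
    change t ^ 2 + ‖x‖ ^ 2 ≤ 1 at ht
    apply hx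
    rw [mem_closedBall_zero_iff, ← sq_le_one_iff₀ (norm_nonneg x)]
    nlinarith [sq_nonneg t]

lemma moment : ∫⁻ x in Metric.closedBall (0 : E n) 1, ENNReal.ofReal (1 - ‖x‖ ^ 2) =
    ENNReal.ofReal (kap n * (2 / ((n : ℝ) + 2))) := by
  rw [← ball_moment_one n, ofReal_integral_eq_lintegral_ofReal]
  · exact (Continuous.continuousOn (by fun_prop)).integrableOn_compact (isCompact_closedBall _ _)
  · filter_upwards [ae_restrict_mem Metric.isClosed_closedBall.measurableSet] with x hx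
    rw [mem_closedBall_zero_iff] at hx
    show (0 : ℝ) ≤ 1 - ‖x‖ ^ 2
    nlinarith [norm_nonneg x]

lemma DD_vol {e : ℝ} (he : 0 ≤ e) : (volume : Measure ((ℝ × ℝ) × E n)) (DD n e) ≤
    ENNReal.ofReal (e ^ 2 * kap (n + 1) + 2 * e * (kap n * (2 / ((n : ℝ) + 2)))) := by
  rw [Measure.volume_eq_prod, Measure.prod_apply_symm (DD_meas e)]
  calc ∫⁻ x : E n, volume ((fun p : ℝ × ℝ => (p, x)) ⁻¹' DD n e)
      ≤ ∫⁻ x : E n, (Metric.closedBall (0 : E n) 1).indicator (fun x =>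
          ENNReal.ofReal (2 * e ^ 2 * √(1 - ‖x‖ ^ 2) + 2 * e * (1 - ‖x‖ ^ 2))) x := by
        refine lintegral_mono fun x => ?_
        by_cases hx : x ∈ Metric.closedBall (0 : E n) 1
        · rw [Set.indicator_of_mem hx]
          exact sec he x (mem_closedBall_zero_iff.1 hx)
        · rw [Set.indicator_of_notMem hx]
          refine le_of_eq (measure_mono_null (t := ∅) ?_ measure_empty)
          rintro ⟨a, s⟩ ⟨b1, b2, b3, b4⟩
          change s ^ 2 + ‖x‖ ^ 2 ≤ 1 at b2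
          apply hx
          rw [mem_closedBall_zero_iff, ← sq_le_one_iff₀ (norm_nonneg x)]
          nlinarith [sq_nonneg s]
    _ = ∫⁻ x in Metric.closedBall (0 : E n) 1,
          ENNReal.ofReal (2 * e ^ 2 * √(1 - ‖x‖ ^ 2) + 2 * e * (1 - ‖x‖ ^ 2)) :=
        lintegral_indicator Metric.isClosed_closedBall.measurableSet _
    _ = ∫⁻ x in Metric.closedBall (0 : E n) 1,
          (ENNReal.ofReal (e ^ 2) * ENNReal.ofReal (2 * √(1 - ‖x‖ ^ 2)) +
            ENNReal.ofReal (2 * e) * ENNReal.ofReal (1 - ‖x‖ ^ 2)) := by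
        refine setLIntegral_congr_fun Metric.isClosed_closedBall.measurableSet fun x hx => ?_
        rw [mem_closedBall_zero_iff] at hx
        have hx2 : 0 ≤ 1 - ‖x‖ ^ 2 := by nlinarith [norm_nonneg x]
        show ENNReal.ofReal _ = _
        rw [← ENNReal.ofReal_mul (by positivity), ← ENNReal.ofReal_mul (by positivity),
          ← ENNReal.ofReal_add (by positivity) (by positivity)]
        congr 1
        ring
    _ = ENNReal.ofReal (e ^ 2) * ENNReal.ofReal (kap (n + 1)) +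
          ENNReal.ofReal (2 * e) * ENNReal.ofReal (kap n * (2 / ((n : ℝ) + 2))) := by
        rw [lintegral_add_left (by fun_prop), lintegral_const_mul _ (by fun_prop),
          lintegral_const_mul _ (by fun_prop), slices, moment]
    _ = _ := by
        have := kap_nonneg' n
        rw [← ENNReal.ofReal_mul (by positivity), ← ENNReal.ofReal_mul (by positivity),
          ← ENNReal.ofReal_add (mul_nonneg (sq_nonneg _) (kap_nonneg' _)) (by positivity)]

lemma vol4 {f m : E (n + 2)} (hf : ‖f‖ = 1) (hm : ‖m‖ = 1) (h : inner ℝ f m = (0 : ℝ)) {e : ℝ}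
    (he : 0 ≤ e) : hcv n 2 ≤ volume.real (fr f m ⁻¹' A4 e) +
      (e ^ 2 * kap (n + 1) + 2 * e * (kap n * (2 / ((n : ℝ) + 2)))) := by
  have h1 := hcv_le hf hm h
  have hfin : volume (fr f m ⁻¹' A4 e) ≠ ⊤ := Bl_fin fun z hz => hz.2.2
  have h2 : volume (fr f m ⁻¹' AH) ≤ volume (fr f m ⁻¹' A4 e) +
      ENNReal.ofReal (e ^ 2 * kap (n + 1) + 2 * e * (kap n * (2 / ((n : ℝ) + 2)))) := by
    rw [fr_vol hf hm h AH_meas, fr_vol hf hm h (A4_meas e)]
    have i1 : (volume : Measure (ℝ × ℝ)).IsAddRightInvariant := by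
      rw [Measure.volume_eq_prod]; infer_instance
    have i2 : (volume : Measure ((ℝ × ℝ) × E n)).IsAddRightInvariant := by
      rw [Measure.volume_eq_prod]; infer_instance
    rw [← measure_preimage_add_right volume (((0 : ℝ), e), (0 : E n)) (mo n (A4 e))]
    calc (volume : Measure ((ℝ × ℝ) × E n)) (mo n AH)
        ≤ volume (((fun q => q + (((0 : ℝ), e), (0 : E n))) ⁻¹' mo n (A4 e)) ∪ DD n e) := by
          refine measure_mono ?_
          rintro ⟨⟨a, s⟩, x⟩ ⟨b1, b2, b3⟩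
          change 0 < s at b1
          change a ^ 2 + s ^ 2 + ‖x‖ ^ 2 - a ^ 2 ≤ 1 at b2
          change a ^ 2 + s ^ 2 + ‖x‖ ^ 2 ≤ 2 at b3
          by_cases h4 : a ^ 2 + (s + e) ^ 2 + ‖x‖ ^ 2 ≤ 2
          · left
            refine ⟨?_, ?_, ?_⟩
            · show e < s + e
              linarith
            · show (a + 0) ^ 2 + (s + e) ^ 2 + ‖x + 0‖ ^ 2 - (a + 0) ^ 2 - (s + e) ^ 2 +
                (s + e - e) ^ 2 ≤ 1
              rw [add_zero, add_zero]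
              have : s + e - e = s := by ring
              rw [this]
              linarith
            · show (a + 0) ^ 2 + (s + e) ^ 2 + ‖x + 0‖ ^ 2 ≤ 2
              rw [add_zero, add_zero]
              exact h4
          · right
            push Not at h4
            refine ⟨b1, ?_, ?_, b3⟩
            · show s ^ 2 + ‖x‖ ^ 2 ≤ 1
              linarith
            · show 2 - (e ^ 2 + 2 * e * s) < a ^ 2 + s ^ 2 + ‖x‖ ^ 2
              nlinarith
      _ ≤ _ := (measure_union_le _ _).trans (add_le_add_right (DD_vol he) _)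
  have hk := kap_nonneg' n
  have hk1 := kap_nonneg' (n + 1)
  have h3 := ENNReal.toReal_mono (ENNReal.add_ne_top.2 ⟨hfin, ENNReal.ofReal_ne_top⟩) h2
  rw [ENNReal.toReal_add hfin ENNReal.ofReal_ne_top, ENNReal.toReal_ofReal (by positivity)] at h3
  exact h1.trans h3

/-! ### Frames -/

lemma inner_comb {f m : E (n + 2)} (hf : ‖f‖ = 1) (hm : ‖m‖ = 1) (h : inner ℝ f m = (0 : ℝ))
    (a b a' b' : ℝ) : inner ℝ (a • f + b • m) (a' • f + b' • m) = a * a' + b * b' := by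
  have h' : inner ℝ m f = (0 : ℝ) := by rw [real_inner_comm]; exact h
  simp only [inner_add_left, inner_add_right, real_inner_smul_left, real_inner_smul_right,
    real_inner_self_eq_norm_sq, hf, hm, h, h']
  ring

lemma norm_comb {f m : E (n + 2)} (hf : ‖f‖ = 1) (hm : ‖m‖ = 1) (h : inner ℝ f m = (0 : ℝ))
    {a b : ℝ} (hab : a ^ 2 + b ^ 2 = 1) : ‖a • f + b • m‖ = 1 := by
  have h1 := inner_comb hf hm h a b a b
  rw [real_inner_self_eq_norm_sq] at h1
  have h2 : ‖a • f + b • m‖ ^ 2 = 1 := by rw [h1]; linarith [sq a, sq b]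
  exact (pow_eq_one_iff_of_nonneg (norm_nonneg _) two_ne_zero).1 h2

lemma inner_comb_z (f m z : E (n + 2)) (a b : ℝ) :
    inner ℝ (a • f + b • m) z = a * inner ℝ f z + b * inner ℝ m z := by
  rw [inner_add_left, real_inner_smul_left, real_inner_smul_left]

lemma bessel {f m : E (n + 2)} (hf : ‖f‖ = 1) (hm : ‖m‖ = 1) (h : inner ℝ f m = (0 : ℝ))
    (z : E (n + 2)) : (inner ℝ f z) ^ 2 + (inner ℝ m z) ^ 2 ≤ ‖z‖ ^ 2 := by
  have e3 : ‖z - ((inner ℝ f z : ℝ) • f + (inner ℝ m z : ℝ) • m)‖ ^ 2 =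
      ‖z‖ ^ 2 - (inner ℝ f z) ^ 2 - (inner ℝ m z) ^ 2 := by
    rw [norm_sub_sq_real, inner_add_right, inner_smul_right, inner_smul_right,
      real_inner_comm f z, real_inner_comm m z, norm_add_sq_real, norm_smul, norm_smul,
      inner_smul_left, inner_smul_right, h, hf, hm]
    simp only [Real.norm_eq_abs, mul_one, sq_abs, mul_zero]
    ring
  have := sq_nonneg ‖z - ((inner ℝ f z : ℝ) • f + (inner ℝ m z : ℝ) • m)‖
  linarith

/-- The open half-cylinder. -/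
def HP (u : E (n + 2)) : Set (E (n + 2)) :=
  {z | 0 < inner ℝ u z ∧ ‖z‖ ^ 2 ≤ (inner ℝ u z) ^ 2 + 1 ∧ ‖z‖ ^ 2 ≤ 2}

lemma HP_meas (u : E (n + 2)) : MeasurableSet (HP u) := by
  unfold HP
  simp only [Set.ofPred_and]
  exact (measurableSet_lt (by fun_prop) (by fun_prop)).inter
    ((measurableSet_le (by fun_prop) (by fun_prop)).inter
    (measurableSet_le (by fun_prop) (by fun_prop)))

lemma HP_vol {u : E (n + 2)} (hu : ‖u‖ = 1) : hcv n 2 ≤ volume.real (HP u) := by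
  rw [← hcv_eq u hu 2]
  have h1 : volume (HC u ∩ Bl (n + 2) 2) ≤ volume (HP u) := by
    calc volume (HC u ∩ Bl (n + 2) 2)
        ≤ volume (HP u ∪ {z | inner ℝ u z = (0 : ℝ)}) := by
          refine measure_mono fun z hz => ?_
          obtain ⟨⟨h1, h2⟩, h3⟩ := hz
          rcases eq_or_lt_of_le h1 with h4 | h4
          · right; exact h4.symm
          · left; exact ⟨h4, h2, h3⟩
      _ ≤ volume (HP u) + volume {z | inner ℝ u z = (0 : ℝ)} := measure_union_le _ _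
      _ = volume (HP u) := by rw [null_inner hu, add_zero]
  exact ENNReal.toReal_mono (Bl_fin fun z hz => hz.2.2) h1

/-- The case of two opposite directions. -/
lemma opposite {Y : Finset (E (n + 2))} {K : Set (E (n + 2))} (hL : Loc (n + 2) Y K)
    {y y' : E (n + 2)} (hy : y ∈ Y) (hy' : y' ∈ Y) (h : ‖y‖⁻¹ • y + ‖y'‖⁻¹ • y' = 0) :
    2 * hcv n 2 ≤ volume.real (K ∩ Bl (n + 2) 2) := by
  have hy0 : 0 < ‖y‖ := by have := hL.far y hy; linarith
  have hy0' : 0 < ‖y'‖ := by have := hL.far y' hy'; linarith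
  have hu : ‖‖y‖⁻¹ • y‖ = 1 := by
    rw [norm_smul, norm_inv, norm_norm, inv_mul_cancel₀ hy0.ne']
  have hv : ‖‖y'‖⁻¹ • y'‖ = 1 := by
    rw [norm_smul, norm_inv, norm_norm, inv_mul_cancel₀ hy0'.ne']
  have h1 := HP_vol hu
  have h2 := HP_vol hv
  have h3 := hc_subset hL hy
  have h4 := hc_subset hL hy'
  have hd : Disjoint (HP (‖y‖⁻¹ • y)) (HP (‖y'‖⁻¹ • y')) := by
    rw [Set.disjoint_left]
    intro z hz hz'
    have a1 := hz.1
    have a2 := hz'.1
    have a3 : (inner ℝ (‖y‖⁻¹ • y + ‖y'‖⁻¹ • y') z : ℝ) = 0 := by rw [h, inner_zero_left]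
    rw [inner_add_left] at a3
    linarith
  have hf1 : volume (HP (‖y‖⁻¹ • y)) ≠ ⊤ := Bl_fin fun z hz => hz.2.2
  have hf2 : volume (HP (‖y'‖⁻¹ • y')) ≠ ⊤ := Bl_fin fun z hz => hz.2.2
  have h5 : volume.real (HP (‖y‖⁻¹ • y)) + volume.real (HP (‖y'‖⁻¹ • y')) ≤
      volume.real (K ∩ Bl (n + 2) 2) := by
    rw [← measureReal_union hd (HP_meas _) hf1 hf2]
    refine measureReal_mono ?_ (Bl_fin fun z hz => hz.2)
    rintro z (hz | hz)
    · exact ⟨h3 ⟨⟨hz.1.le, hz.2.1⟩, hz.2.2⟩, hz.2.2⟩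
    · exact ⟨h4 ⟨⟨hz.1.le, hz.2.1⟩, hz.2.2⟩, hz.2.2⟩
  linarith

/-- The main case, in a frame. -/
lemma main {Y : Finset (E (n + 2))} {K : Set (E (n + 2))} (hL : Loc (n + 2) Y K)
    {y y' : E (n + 2)} (hy : y ∈ Y) (hy' : y' ∈ Y) {f m : E (n + 2)} (hf : ‖f‖ = 1)
    (hm : ‖m‖ = 1) (hfm : inner ℝ f m = (0 : ℝ)) {e h g : ℝ} (he : 0 < e) (he1 : e ≤ 4 / 5)
    (hh : 9 / 5 ≤ h) (heh : e ^ 2 + h ^ 2 = 4) (hg : 3 / 5 ≤ g) (hg1 : g ≤ 1)
    (hge : g ^ 2 + e ^ 2 = 1)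
    (hu : ‖y‖⁻¹ • y = (-(h / 2)) • f + (e / 2) • m) (hv : ‖y'‖⁻¹ • y' = (h / 2) • f + (e / 2) • m) :
    2 * hcv n 2 + e * ((1 - 4 / (n + 2)) * kap n - e * kap (n + 1)) ≤
      volume.real (K ∩ Bl (n + 2) 2) := by
  have hh0 : 0 < h := by linarith
  have h1 := hc_subset hL hy
  have h2 := hc_subset hL hy'
  rw [hu] at h1
  rw [hv] at h2
  have hu2 : (2 : ℝ) • (‖y‖⁻¹ • y) = e • m - h • f := by rw [hu]; module
  have hv2 : (2 : ℝ) • (‖y'‖⁻¹ • y') = e • m + h • f := by rw [hv]; module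
  set u : E (n + 2) := (-(h / 2)) • f + (e / 2) • m with hud
  set v : E (n + 2) := (h / 2) • f + (e / 2) • m with hvd
  set nu : E (n + 2) := (-(e / 2)) • f + (-(h / 2)) • m with hnud
  set nv : E (n + 2) := (e / 2) • f + (-(h / 2)) • m with hnvd
  have un : ‖u‖ = 1 := norm_comb hf hm hfm (by nlinarith)
  have vn : ‖v‖ = 1 := norm_comb hf hm hfm (by nlinarith)
  have nun : ‖nu‖ = 1 := norm_comb hf hm hfm (by nlinarith)
  have nvn : ‖nv‖ = 1 := norm_comb hf hm hfm (by nlinarith)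
  have unu : inner ℝ u nu = (0 : ℝ) := by rw [hud, hnud, inner_comb hf hm hfm]; ring
  have vnv : inner ℝ v nv = (0 : ℝ) := by rw [hvd, hnvd, inner_comb hf hm hfm]; ring
  have uz : ∀ z, (inner ℝ u z : ℝ) = -(h / 2) * inner ℝ f z + e / 2 * inner ℝ m z :=
    fun z => inner_comb_z f m z _ _
  have vz : ∀ z, (inner ℝ v z : ℝ) = h / 2 * inner ℝ f z + e / 2 * inner ℝ m z :=
    fun z => inner_comb_z f m z _ _
  have nuz : ∀ z, (inner ℝ nu z : ℝ) = -(e / 2) * inner ℝ f z + -(h / 2) * inner ℝ m z :=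
    fun z => inner_comb_z f m z _ _
  have nvz : ∀ z, (inner ℝ nv z : ℝ) = e / 2 * inner ℝ f z + -(h / 2) * inner ℝ m z :=
    fun z => inner_comb_z f m z _ _
  have s1 : fr u nu ⁻¹' A0 ⊆ K ∩ Bl (n + 2) 2 := by
    rintro z ⟨a1, a2, a3, a4⟩
    exact ⟨h1 ⟨⟨le_of_lt a1, a3⟩, a4⟩, a4⟩
  have s2 : fr v nv ⁻¹' A0 ⊆ K ∩ Bl (n + 2) 2 := by
    rintro z ⟨a1, a2, a3, a4⟩
    exact ⟨h2 ⟨⟨le_of_lt a1, a3⟩, a4⟩, a4⟩
  have s3 : fr f m ⁻¹' A3 g e h ⊆ K ∩ Bl (n + 2) 2 := by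
    rintro z ⟨a1, a2, a3, a4⟩
    change |(inner ℝ f z : ℝ)| ≤ g at a1
    change e * |(inner ℝ f z : ℝ)| < h * inner ℝ m z at a2
    change (inner ℝ m z : ℝ) ≤ e at a3
    change ‖z‖ ^ 2 ≤ (inner ℝ f z) ^ 2 + (inner ℝ m z) ^ 2 + 1 at a4
    have a5 : 0 < h * inner ℝ m z := lt_of_le_of_lt (mul_nonneg he.le (abs_nonneg _)) a2
    have a6 : 0 < (inner ℝ m z : ℝ) := (mul_pos_iff_of_pos_left hh0).1 a5
    refine ⟨inK' hL hy hy' hf hm hfm he hh0 hu2 hv2 (t := inner ℝ m z) a3 a2.le ?_, ?_⟩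
    · rw [sub_self]; linarith
    · show ‖z‖ ^ 2 ≤ 2
      have a7 : (inner ℝ f z) ^ 2 ≤ g ^ 2 := by
        rw [← sq_abs (inner ℝ f z : ℝ)]
        exact pow_le_pow_left₀ (abs_nonneg _) a1 2
      have a8 : (inner ℝ m z) ^ 2 ≤ e ^ 2 := pow_le_pow_left₀ a6.le a3 2
      linarith
  have s4 : fr f m ⁻¹' A4 e ⊆ K ∩ Bl (n + 2) 2 := by
    rintro z ⟨a1, a2, a3⟩
    change e < inner ℝ m z at a1
    change ‖z‖ ^ 2 - (inner ℝ f z) ^ 2 - (inner ℝ m z) ^ 2 + (inner ℝ m z - e) ^ 2 ≤ 1 at a2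
    change ‖z‖ ^ 2 ≤ 2 at a3
    refine ⟨inK' hL hy hy' hf hm hfm he hh0 hu2 hv2 (t := e) le_rfl ?_ a2, a3⟩
    have b1 := bessel hf hm hfm z
    have b2 : |(inner ℝ f z : ℝ)| ≤ h := by
      refine abs_le_of_sq_le_sq ?_ hh0.le
      nlinarith
    calc e * |(inner ℝ f z : ℝ)| ≤ e * h := by gcongr
      _ = h * e := mul_comm _ _
  have d12 : Disjoint (fr u nu ⁻¹' A0) (fr v nv ⁻¹' A0) := by
    rw [Set.disjoint_left]
    rintro z ⟨a1, a2, -, -⟩ ⟨b1, b2, -, -⟩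
    change 0 < (inner ℝ u z : ℝ) at a1
    change 0 < (inner ℝ nu z : ℝ) at a2
    change 0 < (inner ℝ v z : ℝ) at b1
    change 0 < (inner ℝ nv z : ℝ) at b2
    rw [uz] at a1
    rw [vz] at b1
    rw [nuz] at a2
    rw [nvz] at b2
    have c1 : 0 < e * (inner ℝ m z : ℝ) := by linarith
    have c2 : h * (inner ℝ m z : ℝ) < 0 := by linarith
    have c3 : 0 < (inner ℝ m z : ℝ) := (mul_pos_iff_of_pos_left he).1 c1
    nlinarith
  have d1 : ∀ z, e * |(inner ℝ f z : ℝ)| ≤ h * inner ℝ m z → z ∉ fr u nu ⁻¹' A0 := by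
    rintro z hz ⟨-, a2, -, -⟩
    change 0 < (inner ℝ nu z : ℝ) at a2
    rw [nuz] at a2
    have := neg_le_abs (inner ℝ f z : ℝ)
    nlinarith
  have d2 : ∀ z, e * |(inner ℝ f z : ℝ)| ≤ h * inner ℝ m z → z ∉ fr v nv ⁻¹' A0 := by
    rintro z hz ⟨-, a2, -, -⟩
    change 0 < (inner ℝ nv z : ℝ) at a2
    rw [nvz] at a2
    have := le_abs_self (inner ℝ f z : ℝ)
    nlinarith
  have q3 : ∀ z ∈ fr f m ⁻¹' A3 g e h, e * |(inner ℝ f z : ℝ)| ≤ h * inner ℝ m z :=
    fun z hz => le_of_lt hz.2.1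
  have q4 : ∀ z ∈ fr f m ⁻¹' A4 e, e * |(inner ℝ f z : ℝ)| ≤ h * inner ℝ m z := by
    rintro z ⟨a1, a2, a3⟩
    change e < inner ℝ m z at a1
    change ‖z‖ ^ 2 ≤ 2 at a3
    have b1 := bessel hf hm hfm z
    have b2 : |(inner ℝ f z : ℝ)| ≤ h := by
      refine abs_le_of_sq_le_sq ?_ hh0.le
      nlinarith
    calc e * |(inner ℝ f z : ℝ)| ≤ e * h := by gcongr
      _ = h * e := mul_comm _ _
      _ ≤ h * inner ℝ m z := by gcongr
  have d34 : Disjoint (fr f m ⁻¹' A3 g e h) (fr f m ⁻¹' A4 e) := by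
    rw [Set.disjoint_left]
    rintro z ⟨-, -, a3, -⟩ ⟨a1, -, -⟩
    exact absurd a1 (not_lt.2 a3)
  have d3' : Disjoint (fr u nu ⁻¹' A0 ∪ fr v nv ⁻¹' A0) (fr f m ⁻¹' A3 g e h) := by
    rw [Set.disjoint_right]
    rintro z hz (hz' | hz')
    · exact d1 z (q3 z hz) hz'
    · exact d2 z (q3 z hz) hz'
  have d4' : Disjoint (fr u nu ⁻¹' A0 ∪ fr v nv ⁻¹' A0 ∪ fr f m ⁻¹' A3 g e h)
      (fr f m ⁻¹' A4 e) := by
    rw [Set.disjoint_right]
    rintro z hz ((hz' | hz') | hz')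
    · exact d1 z (q4 z hz) hz'
    · exact d2 z (q4 z hz) hz'
    · exact Set.disjoint_left.1 d34 hz' hz
  have fin : ∀ S ⊆ K ∩ Bl (n + 2) 2, volume S ≠ ⊤ := fun S hS => Bl_fin fun z hz => (hS hz).2
  have m1 := (fr_meas u nu) A0_meas
  have m2 := (fr_meas v nv) A0_meas
  have m3 := (fr_meas f m) (A3_meas g e h)
  have m4 := (fr_meas f m) (A4_meas e)
  have tot : volume.real (fr u nu ⁻¹' A0) + volume.real (fr v nv ⁻¹' A0) +
      volume.real (fr f m ⁻¹' A3 g e h) + volume.real (fr f m ⁻¹' A4 e) ≤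
      volume.real (K ∩ Bl (n + 2) 2) := by
    rw [← measureReal_union d12 m2 (fin _ s1) (fin _ s2),
      ← measureReal_union d3' m3 (fin _ (Set.union_subset s1 s2)) (fin _ s3),
      ← measureReal_union d4' m4 (fin _ (Set.union_subset (Set.union_subset s1 s2) s3))
        (fin _ s4)]
    exact measureReal_mono (Set.union_subset (Set.union_subset (Set.union_subset s1 s2) s3) s4)
      (Bl_fin fun z hz => hz.2)
  have v1 := half un nun unu
  have v2 := half vn nvn vnv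
  have v4 := vol4 hf hm hfm he.le
  have v3 : e * kap n ≤ volume.real (fr f m ⁻¹' A3 g e h) := by
    have := vol3 (n := n) hg hg1 he hh
    rw [← fr_vol hf hm hfm (A3_meas g e h)] at this
    have h5 := ENNReal.toReal_mono (fin _ s3) this
    rwa [ENNReal.toReal_ofReal (mul_nonneg he.le (kap_nonneg' n))] at h5
  have key : 2 * hcv n 2 + e * ((1 - 4 / (n + 2)) * kap n - e * kap (n + 1)) =
      hcv n 2 / 2 + hcv n 2 / 2 + e * kap n +
        (hcv n 2 - (e ^ 2 * kap (n + 1) + 2 * e * (kap n * (2 / ((n : ℝ) + 2))))) := by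
    ring
  rw [key]
  linarith

end FlatAux

open FlatAux

theorem flat {Y : Finset (E (n + 2))} {K : Set (E (n + 2))} (hL : Loc (n + 2) Y K)
    {y y' : E (n + 2)} (hy : y ∈ Y) (hy' : y' ∈ Y) {c : ℝ}
    (hc : inner ℝ y y' = c * (‖y‖ * ‖y'‖)) (hc1 : c ≤ -(17 / 25)) :
    2 * hcv n 2 + √(2 + 2 * c) * ((1 - 4 / (n + 2)) * kap n - √(2 + 2 * c) * kap (n + 1))
      ≤ volume.real (K ∩ Bl (n + 2) 2) := by
  have hy0 : 0 < ‖y‖ := by have := hL.far y hy; linarith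
  have hy0' : 0 < ‖y'‖ := by have := hL.far y' hy'; linarith
  have hun : ‖‖y‖⁻¹ • y‖ = 1 := by
    rw [norm_smul, norm_inv, norm_norm, inv_mul_cancel₀ hy0.ne']
  have hvn : ‖‖y'‖⁻¹ • y'‖ = 1 := by
    rw [norm_smul, norm_inv, norm_norm, inv_mul_cancel₀ hy0'.ne']
  have huv : (inner ℝ (‖y‖⁻¹ • y) (‖y'‖⁻¹ • y') : ℝ) = c := by
    rw [real_inner_smul_left, real_inner_smul_right, hc]
    field_simp
  set u : E (n + 2) := ‖y‖⁻¹ • y with hu
  set v : E (n + 2) := ‖y'‖⁻¹ • y' with hv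
  have hc2 : -1 ≤ c := by
    have := abs_real_inner_le_norm u v
    rw [huv, hun, hvn] at this
    have := (abs_le.1 this).1
    linarith
  have hs : ‖u + v‖ ^ 2 = 2 + 2 * c := by
    rw [norm_add_sq_real, huv, hun, hvn]; ring
  have hd : ‖v - u‖ ^ 2 = 2 - 2 * c := by
    rw [norm_sub_sq_real, real_inner_comm, huv, hun, hvn]; ring
  have hse : √(2 + 2 * c) = ‖u + v‖ := by rw [← hs, Real.sqrt_sq (norm_nonneg _)]
  rw [hse]
  rcases eq_or_lt_of_le (norm_nonneg (u + v)) with h0 | h0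
  · rw [← h0, zero_mul, add_zero]
    exact opposite hL hy hy' (norm_eq_zero.1 h0.symm)
  · have h1 : ‖u + v‖ ≤ 4 / 5 := abs_le_of_sq_le_sq' (by nlinarith) (by norm_num) |>.2
    have h2 : 9 / 5 ≤ ‖v - u‖ := by
      by_contra hcon
      push Not at hcon
      nlinarith [norm_nonneg (v - u)]
    have h3 : 0 < ‖v - u‖ := by linarith
    have h4 : 0 ≤ 1 - ‖u + v‖ ^ 2 := by nlinarith
    have h5 : √(1 - ‖u + v‖ ^ 2) ^ 2 = 1 - ‖u + v‖ ^ 2 := Real.sq_sqrt h4
    have h6 := Real.sqrt_nonneg (1 - ‖u + v‖ ^ 2)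
    refine main hL hy hy' (f := ‖v - u‖⁻¹ • (v - u)) (m := ‖u + v‖⁻¹ • (u + v)) ?_ ?_ ?_ h0 h1 h2
      (by rw [hs, hd]; ring) (g := √(1 - ‖u + v‖ ^ 2)) ?_ ?_ (by rw [h5]; ring) ?_ ?_
    · rw [norm_smul, norm_inv, norm_norm, inv_mul_cancel₀ h3.ne']
    · rw [norm_smul, norm_inv, norm_norm, inv_mul_cancel₀ h0.ne']
    · rw [real_inner_smul_left, real_inner_smul_right, inner_sub_left, inner_add_right,
        inner_add_right, real_inner_self_eq_norm_sq, real_inner_self_eq_norm_sq,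
        real_inner_comm u v, hun, hvn]
      ring
    · by_contra hcon
      push Not at hcon
      nlinarith
    · nlinarith
    · rw [← hu, smul_smul, smul_smul]
      have e1 : -(‖v - u‖ / 2) * ‖v - u‖⁻¹ = -(1 / 2) := by field_simp
      have e2 : ‖u + v‖ / 2 * ‖u + v‖⁻¹ = 1 / 2 := by field_simp
      rw [e1, e2]
      module
    · rw [← hv, smul_smul, smul_smul]
      have e1 : ‖v - u‖ / 2 * ‖v - u‖⁻¹ = 1 / 2 := by field_simp
      have e2 : ‖u + v‖ / 2 * ‖u + v‖⁻¹ = 1 / 2 := by field_simp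
      rw [e1, e2]
      module

end

end Pool.Agent.Saus
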