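import Pool.Agent.Lib.MP_5a9905_co.Defs

set_option autoImplicit false

open MeasureTheory Finset

namespace Pool.Agent.Saus

noncomputable section

namespace LocXAux

open scoped Pointwise

theorem isCompact_hull {d : ℕ} (X : Finset (E d)) :
    IsCompact (convexHull ℝ (⋃ y ∈ X, Metric.closedBall y 1) : Set (E d)) := by
  have h1 : (⋃ y ∈ X, Metric.closedBall y 1 : Set (E d)) =
      (X : Set (E d)) + Metric.closedBall (0 : E d) 1 := by
    ext z
    simp only [Set.mem_iUnion, Set.mem_add, Metric.mem_closedBall, dist_zero_right, exists_prop]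
    constructor
    · rintro ⟨y, hy, hz⟩
      exact ⟨y, hy, z - y, by rwa [← dist_eq_norm], by abel⟩
    · rintro ⟨y, hy, w, hw, rfl⟩
      exact ⟨y, hy, by rwa [dist_eq_norm, add_sub_cancel_left]⟩
  rw [h1, convexHull_add]
  have h2 : IsCompact (convexHull ℝ (X : Set (E d))) := X.finite_toSet.isCompact_convexHull ℝ
  have h3 : convexHull ℝ (Metric.closedBall (0 : E d) 1) = Metric.closedBall (0 : E d) 1 :=
    (convex_closedBall _ _).convexHull_eq
  rw [h3]
  exact h2.add (isCompact_closedBall _ _)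

end LocXAux

open LocXAux

/-- F3 LOCX. -/
theorem loc_of_centres {d : ℕ} (X : Finset (E d)) (hX : ∀ x ∈ X, ∀ y ∈ X, x ≠ y → 2 ≤ ‖x - y‖)
    {x : E d} (hx : x ∈ X) :
    Loc d ((X.erase x).image (fun y => y - x))
      ((fun z => z - x) '' (convexHull ℝ (⋃ y ∈ X, Metric.closedBall y 1))) := by
  have hc := isCompact_hull X
  have hc2 : IsCompact ((fun z => z - x) '' (convexHull ℝ (⋃ y ∈ X, Metric.closedBall y 1))) :=
    hc.image (by fun_prop)
  have hball : ∀ y ∈ X, Metric.closedBall (y - x) 1 ⊆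
      ((fun z => z - x) '' (convexHull ℝ (⋃ y ∈ X, Metric.closedBall y 1))) := by
    intro y hy z hz
    refine ⟨z + x, subset_convexHull ℝ _ ?_, by simp⟩
    refine Set.mem_iUnion₂.2 ⟨y, hy, ?_⟩
    rw [Metric.mem_closedBall, dist_eq_norm] at hz ⊢
    have : z + x - y = z - (y - x) := by abel
    rwa [this]
  refine ⟨?_, hc2.isClosed, hc2.isBounded, ?_, ?_, ?_, ?_⟩
  · have h1 := (convex_convexHull ℝ (⋃ y ∈ X, Metric.closedBall y 1 : Set (E d))).translate (-x)
    have h2 : (fun z : E d => z - x) = fun z => -x + z := by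
      funext z; abel
    rw [h2]
    exact h1
  · have := hball x hx
    rwa [sub_self] at this
  · intro y hy
    obtain ⟨y₀, hy₀, rfl⟩ := Finset.mem_image.1 hy
    exact hball y₀ (Finset.mem_of_mem_erase hy₀)
  · intro y hy
    obtain ⟨y₀, hy₀, rfl⟩ := Finset.mem_image.1 hy
    exact hX y₀ (Finset.mem_of_mem_erase hy₀) x hx (Finset.ne_of_mem_erase hy₀)
  · intro y hy y' hy' hne
    obtain ⟨y₀, hy₀, rfl⟩ := Finset.mem_image.1 hy
    obtain ⟨y₁, hy₁, rfl⟩ := Finset.mem_image.1 hy'
    have h1 : y₀ - x - (y₁ - x) = y₀ - y₁ := by abel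
    rw [h1]
    refine hX y₀ (Finset.mem_of_mem_erase hy₀) y₁ (Finset.mem_of_mem_erase hy₁) ?_
    rintro rfl
    exact hne rfl

end

end Pool.Agent.Saus
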