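import Pool.Agent.Lib.MP_5a9905_co.Defs
import Pool.Agent.Lib.MP_5a9905_co.Cyl

set_option autoImplicit false

open MeasureTheory Finset
open scoped Pointwise

namespace Pool.Agent.Saus

noncomputable section

namespace SausVolAux

/-- the tube around the segment from `0` to `L e` -/
def Tb {d : ℕ} (e : E (d + 1)) (L : ℝ) : Set (E (d + 1)) :=
  (fun s : ℝ => s • e) '' Set.Icc 0 L + Metric.closedBall 0 1

theorem convex_Tb {d : ℕ} (e : E (d + 1)) (L : ℝ) : Convex ℝ (Tb e L) := by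
  refine Convex.add ?_ (convex_closedBall 0 1)
  exact (convex_Icc 0 L).linear_image (LinearMap.toSpanSingleton ℝ (E (d + 1)) e)

theorem mem_Tb {d : ℕ} {e : E (d + 1)} {L : ℝ} {z : E (d + 1)} (h : z ∈ Tb e L) :
    ∃ s, 0 ≤ s ∧ s ≤ L ∧ ‖z - s • e‖ ≤ 1 := by
  obtain ⟨p, ⟨s, hs, rfl⟩, w, hw, rfl⟩ := h
  refine ⟨s, hs.1, hs.2, ?_⟩
  rw [mem_closedBall_zero_iff] at hw
  simpa using hw

theorem hull_subset {d k : ℕ} (e : E (d + 1)) :
    convexHull ℝ (⋃ i : Fin (k + 1), Metric.closedBall ((2 * ((i : ℕ) : ℝ)) • e) (1 : ℝ)) ⊆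
      Tb e (2 * k) := by
  refine convexHull_min (Set.iUnion_subset fun i z hz => ?_) (convex_Tb e _)
  refine ⟨(2 * ((i : ℕ) : ℝ)) • e, ⟨2 * ((i : ℕ) : ℝ), ⟨by positivity, ?_⟩, rfl⟩,
    z - (2 * ((i : ℕ) : ℝ)) • e, ?_, by simp⟩
  · have : ((i : ℕ) : ℝ) ≤ k := by exact_mod_cast Nat.lt_succ_iff.mp i.2
    linarith
  · rw [mem_closedBall_zero_iff, ← dist_eq_norm]
    exact hz

theorem norm_sub_sq' {d : ℕ} {e : E (d + 1)} (he : ‖e‖ = 1) (z : E (d + 1)) (s : ℝ) :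
    ‖z - s • e‖ ^ 2 = ‖z‖ ^ 2 - 2 * s * inner ℝ e z + s ^ 2 := by
  rw [norm_sub_sq_real, inner_smul_right, norm_smul, he, real_inner_comm, mul_one,
    Real.norm_eq_abs, sq_abs]
  ring

/-- left cap -/
def A1 {d : ℕ} (e : E (d + 1)) : Set (E (d + 1)) := {z | inner ℝ e z < 0 ∧ ‖z‖ ≤ 1}

/-- middle part -/
def A2 {d : ℕ} (e : E (d + 1)) (L : ℝ) : Set (E (d + 1)) :=
  {z | 0 ≤ inner ℝ e z ∧ inner ℝ e z ≤ L ∧ ‖z‖ ^ 2 ≤ (inner ℝ e z) ^ 2 + 1}

/-- right cap, moved to the origin -/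
def A3 {d : ℕ} (e : E (d + 1)) : Set (E (d + 1)) := {z | 0 < inner ℝ e z ∧ ‖z‖ ≤ 1}

theorem Tb_subset {d : ℕ} {e : E (d + 1)} (he : ‖e‖ = 1) (L : ℝ) :
    Tb e L ⊆ A1 e ∪ A2 e L ∪ (fun z => z + -(L • e)) ⁻¹' A3 e := by
  intro z hz
  obtain ⟨s, hs0, hsL, hs⟩ := mem_Tb hz
  have h1 : ‖z - s • e‖ ^ 2 ≤ 1 := by
    have := norm_nonneg (z - s • e)
    nlinarith
  rw [norm_sub_sq' he] at h1
  set a := inner ℝ e z with ha
  rcases lt_or_ge a 0 with h | h
  · left; left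
    refine ⟨h, ?_⟩
    have h2 : ‖z‖ ^ 2 ≤ 1 := by nlinarith
    have := norm_nonneg z
    nlinarith
  · rcases le_or_gt a L with h' | h'
    · left; right
      refine ⟨h, h', ?_⟩
      nlinarith [sq_nonneg (a - s)]
    · right
      change 0 < inner ℝ e (z + -(L • e)) ∧ ‖z + -(L • e)‖ ≤ 1
      rw [← sub_eq_add_neg]
      constructor
      · rw [inner_sub_right, inner_smul_right, real_inner_self_eq_norm_sq, he]
        rw [← ha]; linarith
      · have h2 : ‖z - L • e‖ ^ 2 ≤ 1 := by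
          rw [norm_sub_sq' he, ← ha]
          nlinarith
        have := norm_nonneg (z - L • e)
        nlinarith

theorem vol_A2 {d : ℕ} {e : E (d + 1)} (he : ‖e‖ = 1) {L : ℝ} (hL : 0 ≤ L) :
    volume (A2 e L) = ENNReal.ofReal (L * kap d) := by
  have h := cyl_measure e he {p : ℝ × ℝ | 0 ≤ p.1 ∧ p.1 ≤ L ∧ p.2 ≤ p.1 ^ 2 + 1}
    (((isClosed_le (f := fun _ : ℝ × ℝ => (0 : ℝ)) (g := fun p => p.1) (by fun_prop)
      (by fun_prop)).inter ((isClosed_le (f := fun p : ℝ × ℝ => p.1) (g := fun _ => L) (by fun_prop)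
        (by fun_prop)).inter (isClosed_le (f := fun p : ℝ × ℝ => p.2) (g := fun p => p.1 ^ 2 + 1)
          (by fun_prop) (by fun_prop)))).measurableSet)
  have e1 : {q : ℝ × E d | (q.1, q.1 ^ 2 + ‖q.2‖ ^ 2) ∈
      {p : ℝ × ℝ | 0 ≤ p.1 ∧ p.1 ≤ L ∧ p.2 ≤ p.1 ^ 2 + 1}} =
      Set.Icc 0 L ×ˢ Metric.closedBall (0 : E d) 1 := by
    ext q
    simp only [Set.mem_setOf_eq, Set.mem_prod, Set.mem_Icc, mem_closedBall_zero_iff]
    constructor
    · rintro ⟨h1, h2, h3⟩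
      refine ⟨⟨h1, h2⟩, ?_⟩
      have := norm_nonneg q.2
      nlinarith
    · rintro ⟨⟨h1, h2⟩, h3⟩
      refine ⟨h1, h2, ?_⟩
      have := norm_nonneg q.2
      nlinarith
  rw [e1] at h
  have e2 : A2 e L = {z : E (d + 1) | (inner ℝ e z, ‖z‖ ^ 2) ∈
      {p : ℝ × ℝ | 0 ≤ p.1 ∧ p.1 ≤ L ∧ p.2 ≤ p.1 ^ 2 + 1}} := rfl
  rw [e2, h, Measure.volume_eq_prod, Measure.prod_prod, Real.volume_Icc, sub_zero,
    ENNReal.ofReal_mul hL]
  congr 1
  rw [kap, Measure.real, ENNReal.ofReal_toReal]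
  exact (isCompact_closedBall _ _).measure_lt_top.ne

theorem vol_caps {d : ℕ} (e : E (d + 1)) :
    volume (A1 e) + volume (A3 e) ≤ ENNReal.ofReal (kap (d + 1)) := by
  have hm : MeasurableSet (A3 e) :=
    (isOpen_lt continuous_const (by fun_prop : Continuous fun z : E (d + 1) =>
      inner ℝ e z)).measurableSet.inter (isClosed_le continuous_norm continuous_const).measurableSet
  rw [← measure_union (Set.disjoint_left.mpr fun z h1 h2 => lt_asymm h1.1 h2.1) hm, kap,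
    Measure.real, ENNReal.ofReal_toReal (isCompact_closedBall _ _).measure_lt_top.ne]
  refine measure_mono ?_
  rintro z (h | h)
  · exact mem_closedBall_zero_iff.mpr h.2
  · exact mem_closedBall_zero_iff.mpr h.2

end SausVolAux

open SausVolAux

/-- F4 SAUS. Volume of the sausage. -/
theorem sausage_volume_le (d k : ℕ) (e : E (d + 1)) (he : ‖e‖ = 1) :
    volume (convexHull ℝ (⋃ i : Fin (k + 1),
      Metric.closedBall ((2 * ((i : ℕ) : ℝ)) • e) (1 : ℝ)))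
      ≤ ENNReal.ofReal (kap (d + 1) + 2 * k * kap d) := by
  have hk0 : 0 ≤ kap (d + 1) := measureReal_nonneg
  have hk1 : 0 ≤ kap d := measureReal_nonneg
  refine (measure_mono ((hull_subset e).trans (Tb_subset he _))).trans ?_
  refine (measure_union_le _ _).trans ?_
  refine (add_le_add_left (measure_union_le _ _) _).trans ?_
  rw [measure_preimage_add_right, vol_A2 he (by positivity), ENNReal.ofReal_add hk0 (by positivity),
    add_right_comm]
  exact add_le_add_left (vol_caps e) _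

end

end Pool.Agent.Saus
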