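import Pool.Agent.Lib.MP_5a9905_co.Defs

set_option autoImplicit false

open MeasureTheory Finset

namespace Pool.Agent.Saus

noncomputable section

namespace VorAux

/-- the Voronoi cell of `x` in global coordinates -/
def DD {d : ℕ} (X : Finset (E d)) (x : E d) : Set (E d) := {z | ∀ y ∈ X, ‖z - x‖ ≤ ‖z - y‖}

theorem isClosed_DD {d : ℕ} (X : Finset (E d)) (x : E d) : IsClosed (DD X x) := by
  have e : DD X x = ⋂ y ∈ X, {z | ‖z - x‖ ≤ ‖z - y‖} := by
    ext z; simp [DD]
  rw [e]
  exact isClosed_biInter fun y _ => isClosed_le (by fun_prop) (by fun_prop)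

theorem cell_iff {d : ℕ} (x y z : E d) :
    inner ℝ (y - x) (z - x) ≤ ‖y - x‖ ^ 2 / 2 ↔ ‖z - x‖ ≤ ‖z - y‖ := by
  have e : z - y = (z - x) - (y - x) := by abel
  have h := norm_sub_sq_real (z - x) (y - x)
  rw [← e, real_inner_comm] at h
  constructor
  · intro h1
    refine le_of_sq_le_sq ?_ (norm_nonneg _)
    nlinarith
  · intro h1
    have h2 : ‖z - x‖ ^ 2 ≤ ‖z - y‖ ^ 2 := pow_le_pow_left₀ (norm_nonneg _) h1 2
    nlinarith

theorem cell_image {d : ℕ} (X : Finset (E d)) (K : Set (E d)) (x : E d) :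
    (fun z => z - x) '' K ∩ Vor ((X.erase x).image (fun y => y - x)) =
      (fun z => z - x) '' (K ∩ DD X x) := by
  ext w
  constructor
  · rintro ⟨⟨z, hz, rfl⟩, hw⟩
    refine ⟨z, ⟨hz, fun y hy => ?_⟩, rfl⟩
    by_cases hyx : y = x
    · rw [hyx]
    · exact (cell_iff x y z).mp (hw (y - x)
        (Finset.mem_image.mpr ⟨y, Finset.mem_erase.mpr ⟨hyx, hy⟩, rfl⟩))
  · rintro ⟨z, ⟨hz, hd⟩, rfl⟩
    refine ⟨⟨z, hz, rfl⟩, fun w hw => ?_⟩
    obtain ⟨y, hy, rfl⟩ := Finset.mem_image.mp hw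
    exact (cell_iff x y z).mpr (hd y (Finset.mem_of_mem_erase hy))

theorem vol_shift {d : ℕ} (S : Set (E d)) (x : E d) :
    volume ((fun z => z - x) '' S) = volume S := by
  have e : (fun z => z - x) '' S = (fun z => z + x) ⁻¹' S := by
    ext z
    constructor
    · rintro ⟨w, hw, rfl⟩
      simpa using hw
    · intro hz
      exact ⟨z + x, hz, by simp⟩
  rw [e]
  exact measure_preimage_add_right volume x S

theorem null_bisector {d : ℕ} {x y : E d} (h : x ≠ y) :
    volume {z : E d | ‖z - x‖ = ‖z - y‖} = 0 := by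
  have e : {z : E d | ‖z - x‖ = ‖z - y‖} =
      (AffineSubspace.perpBisector x y : Set (E d)) := by
    ext z
    rw [Set.mem_setOf_eq, SetLike.mem_coe, AffineSubspace.mem_perpBisector_iff_dist_eq,
      dist_eq_norm, dist_eq_norm]
  rw [e]
  refine Measure.addHaar_affineSubspace _ _ fun ht => ?_
  exact h (AffineSubspace.perpBisector_eq_top.mp ht)

end VorAux

open VorAux

/-- F1 VOR. -/
theorem voronoi_sum {d : ℕ} (X : Finset (E d)) (K : Set (E d)) (hK : MeasurableSet K)
    (hb : Bornology.IsBounded K) :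
    ∑ x ∈ X, volume.real ((fun z => z - x) '' K ∩ Vor ((X.erase x).image (fun y => y - x)))
      ≤ volume.real K := by
  have h1 : ∀ x ∈ X, volume.real ((fun z => z - x) '' K ∩
      Vor ((X.erase x).image (fun y => y - x))) = volume.real (K ∩ DD X x) := by
    intro x _
    rw [cell_image, Measure.real, vol_shift, Measure.real]
  rw [Finset.sum_congr rfl h1]
  have hfin : volume K ≠ ⊤ := hb.measure_lt_top.ne
  have h2 : volume (⋃ x ∈ X, K ∩ DD X x) = ∑ x ∈ X, volume (K ∩ DD X x) := by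
    refine measure_biUnion_finset₀ ?_ fun x _ =>
      (hK.inter (isClosed_DD X x).measurableSet).nullMeasurableSet
    intro x hx y hy hxy
    refine measure_mono_null ?_ (null_bisector hxy)
    rintro z ⟨⟨_, h3⟩, ⟨_, h4⟩⟩
    exact le_antisymm (h3 y hy) (h4 x hx)
  have h3 : ∑ x ∈ X, volume.real (K ∩ DD X x) = (∑ x ∈ X, volume (K ∩ DD X x)).toReal := by
    rw [ENNReal.toReal_sum]
    · rfl
    · intro x _
      exact ne_top_of_le_ne_top hfin (measure_mono Set.inter_subset_left)
  rw [h3, ← h2]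
  refine ENNReal.toReal_mono hfin (measure_mono ?_)
  exact Set.iUnion₂_subset fun x _ => Set.inter_subset_left

end

end Pool.Agent.Saus
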