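import Pool.Agent.Lib.MP_5a9905_co.Kap
import Pool.Agent.Lib.MP_5a9905_co.Voronoi
import Pool.Agent.Lib.MP_5a9905_co.FewEnds
import Pool.Agent.Lib.MP_5a9905_co.LocX
import Pool.Agent.Lib.MP_5a9905_co.SausVol

/-!
# Module GLOB of the sausage project (MP_5a9905_co): from the local claims to the global one
-/

set_option autoImplicit false

open MeasureTheory Finset

namespace Pool.Agent.Saus

noncomputable section

variable {n : ℕ}

namespace GlobAux

theorem kap_succ_le (m : ℕ) : kap (m + 1) ≤ 2 * kap m := by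
  induction m with
  | zero => rw [kap_zero, kap_one]; norm_num
  | succ m ih =>
    have h1 := kap_ratio_anti m
    have h2 := kap_pos m
    have h3 := kap_pos (m + 1)
    have h4 : kap (m + 2) * kap m ≤ (2 * kap (m + 1)) * kap m := by
      calc kap (m + 2) * kap m ≤ kap (m + 1) ^ 2 := h1
        _ = kap (m + 1) * kap (m + 1) := by ring
        _ ≤ (2 * kap m) * kap (m + 1) := by
            exact mul_le_mul_of_nonneg_right ih h3.le
        _ = (2 * kap (m + 1)) * kap m := by ring
    exact le_of_mul_le_mul_right h4 h2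

theorem count_bound {k : ℕ} {X E : Finset (Pool.Agent.Saus.E (n + 2))} (hX : X.card = k + 2)
    (hEX : E ⊆ X) (hE : E.card ≤ 2) (f : Pool.Agent.Saus.E (n + 2) → ℝ)
    (h1 : ∀ x ∈ E, kap (n + 1) + kap (n + 2) / 2 ≤ f x)
    (h2 : ∀ x ∈ X, x ∉ E → 2 * kap (n + 1) ≤ f x) :
    kap (n + 2) + 2 * ((k : ℝ) + 1) * kap (n + 1) ≤ ∑ x ∈ X, f x := by
  classical
  have hk2 : kap (n + 2) ≤ 2 * kap (n + 1) := kap_succ_le (n + 1)
  have hsplit : ∑ x ∈ X, f x = ∑ x ∈ E, f x + ∑ x ∈ X \ E, f x := by
    have h := Finset.sum_sdiff hEX (f := f)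
    linarith
  have hs1 : (E.card : ℝ) * (kap (n + 1) + kap (n + 2) / 2) ≤ ∑ x ∈ E, f x := by
    have := Finset.card_nsmul_le_sum E f _ h1
    rwa [nsmul_eq_mul] at this
  have hs2 : ((X \ E).card : ℝ) * (2 * kap (n + 1)) ≤ ∑ x ∈ X \ E, f x := by
    have := Finset.card_nsmul_le_sum (X \ E) f (2 * kap (n + 1)) (by
      intro x hx
      rw [Finset.mem_sdiff] at hx
      exact h2 x hx.1 hx.2)
    rwa [nsmul_eq_mul] at this
  have hcard : ((X \ E).card : ℝ) = (k : ℝ) + 2 - E.card := by
    have h := Finset.card_sdiff_add_card_eq_card hEX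
    rw [hX] at h
    have h' : (((X \ E).card + E.card : ℕ) : ℝ) = ((k + 2 : ℕ) : ℝ) := by rw [h]
    push_cast at h'
    linarith
  rw [hcard] at hs2
  have hE' : (E.card : ℝ) ≤ 2 := by exact_mod_cast hE
  rw [hsplit]
  nlinarith

end GlobAux

/-- F5 GLOB. -/
theorem sausage_of_local (hn : 1 ≤ n)
    (hN : ∀ (Y : Finset (E (n + 2))) (K : Set (E (n + 2))), Loc (n + 2) Y K →
      (∃ y ∈ Y, ∃ y' ∈ Y, inner ℝ y y' ≤ 1 / 2 * (‖y‖ * ‖y'‖)) →
      2 * kap (n + 1) ≤ volume.real (K ∩ Vor Y))
    (hE : ∀ (Y : Finset (E (n + 2))) (K : Set (E (n + 2))), Loc (n + 2) Y K → Y.Nonempty →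
      kap (n + 1) + kap (n + 2) / 2 ≤ volume.real (K ∩ Vor Y))
    (k : ℕ) (x : Fin k → E (n + 2)) (hx : ∀ i j : Fin k, i ≠ j → 2 ≤ dist (x i) (x j))
    (e : E (n + 2)) (he : ‖e‖ = 1) :
    volume (convexHull ℝ (⋃ i : Fin k, Metric.closedBall ((2 * ((i : ℕ) : ℝ)) • e) (1 : ℝ)))
      ≤ volume (convexHull ℝ (⋃ i : Fin k, Metric.closedBall (x i) (1 : ℝ))) := by
  classical
  have _ := hn
  rcases k with _ | _ | k
  · -- no centre
    simp
  · -- one centre
    have h1 : (⋃ i : Fin 1, Metric.closedBall ((2 * ((i : ℕ) : ℝ)) • e) (1 : ℝ))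
        = Metric.closedBall (0 : E (n + 2)) 1 := by
      ext z
      simp
    have h2 : (⋃ i : Fin 1, Metric.closedBall (x i) (1 : ℝ)) = Metric.closedBall (x 0) 1 := by
      ext z
      simp [Fin.exists_fin_one]
    have h3 : convexHull ℝ (Metric.closedBall (0 : E (n + 2)) (1 : ℝ))
        = Metric.closedBall (0 : E (n + 2)) 1 := (convex_closedBall _ _).convexHull_eq
    have h4 : convexHull ℝ (Metric.closedBall (x 0) (1 : ℝ)) = Metric.closedBall (x 0) 1 :=
      (convex_closedBall _ _).convexHull_eq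
    have h5 : volume (Metric.closedBall (0 : E (n + 2)) (1 : ℝ))
        = volume (Metric.closedBall (x 0) (1 : ℝ)) :=
      (Measure.addHaar_closedBall_center volume (x 0) 1).symm
    refine le_of_eq ?_
    calc volume (convexHull ℝ (⋃ i : Fin 1, Metric.closedBall ((2 * ((i : ℕ) : ℝ)) • e) (1 : ℝ)))
        = volume (convexHull ℝ (⋃ i : Fin 1, Metric.closedBall (x i) (1 : ℝ))) := by
          rw [h1, h2, h3, h4, h5]
      _ = _ := rfl
  · -- at least two centres
    have hinj : Function.Injective x := by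
      intro i j hij
      by_contra hne
      have := hx i j hne
      rw [hij, dist_self] at this
      norm_num at this
    set X : Finset (E (n + 2)) := Finset.univ.image x with hXdef
    have hcard : X.card = k + 2 := by
      rw [hXdef, Finset.card_image_of_injective _ hinj, Finset.card_univ, Fintype.card_fin]
    have hsep : ∀ a ∈ X, ∀ b ∈ X, a ≠ b → 2 ≤ ‖a - b‖ := by
      intro a ha b hb hab
      rw [hXdef, Finset.mem_image] at ha hb
      obtain ⟨i, -, rfl⟩ := ha
      obtain ⟨j, -, rfl⟩ := hb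
      have hij : i ≠ j := by rintro rfl; exact hab rfl
      have := hx i j hij
      rwa [dist_eq_norm] at this
    set K : Set (E (n + 2)) := convexHull ℝ (⋃ y ∈ X, Metric.closedBall y 1) with hKdef
    have hK : K = convexHull ℝ (⋃ i : Fin (k + 2), Metric.closedBall (x i) (1 : ℝ)) := by
      rw [hKdef]
      congr 1
      ext z
      simp [hXdef]
    -- a centre
    have hne : X.Nonempty := by rw [← Finset.card_pos, hcard]; omega
    obtain ⟨x₀, hx₀⟩ := hne
    have hcomp : IsCompact K := by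
      have hL := loc_of_centres X hsep hx₀
      have h1 : IsCompact ((fun z => z - x₀) '' K) :=
        Metric.isCompact_of_isClosed_isBounded hL.closed hL.bounded
      have h2 := h1.image (continuous_id.add continuous_const : Continuous fun z : E (n + 2) => z + x₀)
      rw [Set.image_image] at h2
      simpa using h2
    have hKb : Bornology.IsBounded K := hcomp.isBounded
    have hKfin : volume K ≠ ⊤ := hcomp.measure_lt_top.ne
    -- local bounds
    set f : E (n + 2) → ℝ := fun a => volume.real ((fun z => z - a) '' K ∩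
      Vor ((X.erase a).image (fun y => y - a))) with hf
    set En : Finset (E (n + 2)) := X.filter (fun x => ∀ y ∈ X, ∀ z ∈ X, y ≠ x → z ≠ x →
      1 / 2 * (‖y - x‖ * ‖z - x‖) < inner ℝ (y - x) (z - x)) with hEn
    have hb1 : ∀ a ∈ En, kap (n + 1) + kap (n + 2) / 2 ≤ f a := by
      intro a ha
      have haX : a ∈ X := (Finset.mem_filter.1 ha).1
      have hL := loc_of_centres X hsep haX
      refine hE _ _ hL ?_
      rw [Finset.image_nonempty, ← Finset.card_pos, Finset.card_erase_of_mem haX, hcard]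
      omega
    have hb2 : ∀ a ∈ X, a ∉ En → 2 * kap (n + 1) ≤ f a := by
      intro a haX ha
      have hL := loc_of_centres X hsep haX
      refine hN _ _ hL ?_
      rw [hEn, Finset.mem_filter] at ha
      push Not at ha
      obtain ⟨y, hy, z, hz, hya, hza, hyz⟩ := ha haX
      refine ⟨y - a, Finset.mem_image.2 ⟨y, Finset.mem_erase.2 ⟨hya, hy⟩, rfl⟩, z - a,
        Finset.mem_image.2 ⟨z, Finset.mem_erase.2 ⟨hza, hz⟩, rfl⟩, hyz⟩
    have hsum := GlobAux.count_bound hcard (Finset.filter_subset _ _) (few_ends X) f hb1 hb2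
    have hvor := voronoi_sum X K hcomp.measurableSet hKb
    have hle : kap (n + 2) + 2 * ((k : ℝ) + 1) * kap (n + 1) ≤ volume.real K :=
      hsum.trans hvor
    have hs := sausage_volume_le (n + 1) (k + 1) e he
    refine hs.trans ?_
    rw [← hK]
    rw [← ofReal_measureReal hKfin]
    refine ENNReal.ofReal_le_ofReal ?_
    push_cast
    exact hle

end

end Pool.Agent.Saus
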