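import Pool.Agent.Lib.MP_5a9905_co.LocalN
import Pool.Agent.Lib.MP_5a9905_co.EndPoint
import Pool.Agent.Lib.MP_5a9905_co.Angle

set_option autoImplicit false

open MeasureTheory Finset

namespace Pool.Agent.Saus

noncomputable section

variable {n : ℕ}

namespace LocE

lemma kap_succ_le (m : ℕ) : kap (m + 1) ≤ 2 * kap m := by
  induction m with
  | zero => rw [kap_zero, kap_one]; norm_num
  | succ m ih =>
    have h1 := kap_ratio_anti m
    have h2 := kap_pos m
    have h3 := kap_pos (m + 1)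
    have h4 : kap (m + 1) ^ 2 ≤ kap (m + 1) * (2 * kap m) := by
      rw [sq]; exact mul_le_mul_of_nonneg_left ih h3.le
    have h5 : kap (m + 2) * kap m ≤ (2 * kap (m + 1)) * kap m := by linarith
    exact le_of_mul_le_mul_right h5 h2

end LocE

/-- E3 LOCE. The local claim (E). -/
theorem local_E (hn : 6 ≤ n) {R s s₂ : ℝ} (hch : ChainOut n R s s₂) (hnum : NumOut n R s s₂)
    {Y : Finset (E (n + 2))} {K : Set (E (n + 2))} (hL : Loc (n + 2) Y K) (hY : Y.Nonempty) :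
    kap (n + 1) + kap (n + 2) / 2 ≤ volume.real (K ∩ Vor Y) := by
  have kp : 0 < kap (n + 1) := kap_pos _
  have kle : kap (n + 2) ≤ 2 * kap (n + 1) := LocE.kap_succ_le (n + 1)
  by_cases hV : 2 * kap (n + 1) ≤ volume.real (K ∩ Vor Y)
  · linarith
  by_cases hpair : ∃ y ∈ Y, ∃ y' ∈ Y, inner ℝ y y' ≤ 1 / 2 * (‖y‖ * ‖y'‖)
  · exact absurd (local_N hn hch hnum hL hpair) hV
  by_cases hcard : (Y.filter (fun w => xi w < 2)).card ≤ 1
  · exact end_point hL hY hcard
  push Not at hV hpair hcard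
  obtain ⟨-, hs2⟩ := hch Y xi (facts_of_loc (by omega) hL hV)
  obtain ⟨y, hy, y', hy', hne⟩ := Finset.one_lt_card.mp hcard
  rw [Finset.mem_filter] at hy hy'
  have ny : 0 < ‖y‖ := by linarith [hL.far y hy.1]
  have ny' : 0 < ‖y'‖ := by linarith [hL.far y' hy'.1]
  have nyy : 0 < ‖y‖ * ‖y'‖ := mul_pos ny ny'
  have h0 : 0 ≤ inner ℝ y y' := by
    have := hpair y hy.1 y' hy'.1
    nlinarith
  have h1 : inner ℝ y y' ≤ Real.cos (Real.pi / 6) * (‖y‖ * ‖y'‖) := by
    have h2 := angle_near hL hy.1 hy'.1 hne (x := 2) le_rfl hy.2.le hy'.2.le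
    have h3 : (1 - 1 / (2 * 2) : ℝ) ≤ Real.cos (Real.pi / 6) := by
      rw [Real.cos_pi_div_six]
      have : (3 / 2 : ℝ) ≤ √3 := Real.le_sqrt_of_sq_le (by norm_num)
      linarith
    exact h2.trans (mul_le_mul_of_nonneg_right h3 nyy.le)
  have hN := narrow hL hy.1 hy'.1 (φ := Real.pi / 6) (by positivity)
    (by linarith [Real.pi_pos]) h0 h1 (R := 2) (by norm_num) le_rfl
  have e1 : (1 / 2 - Real.pi / 6 / (2 * Real.pi)) = (5 / 12 : ℝ) := by
    field_simp [Real.pi_ne_zero]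
    norm_num
  rw [e1] at hN
  have e2 : Real.pi / 6 / 2 = Real.pi / 12 := by ring
  rw [e2] at hN
  have e3 : (2 - 1 + 2 / ((n : ℝ) + 2)) = 1 + 2 / (n + 2) := by ring
  rw [e3] at hN
  have cut2 := cut hL (R := 2) le_rfl
  have h4 : kap (n + 1) * SS Y 2 ≤ kap (n + 1) * s₂ := mul_le_mul_of_nonneg_left hs2 kp.le
  have := hnum.ends
  linarith

end

end Pool.Agent.Saus
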