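import Pool.Agent.Lib.MP_5a9905_co.Defs
import Pool.Agent.Lib.MP_5a9905_co.Plane

set_option autoImplicit false

open MeasureTheory Finset

namespace Pool.Agent.Saus

noncomputable section

variable {n : ℕ}

namespace SectorAux

/-- a plane sector -/
def Sec (w : ℝ) : Set (ℝ × ℝ) :=
  {p | ∃ ρ t : ℝ, 0 < ρ ∧ -w < t ∧ t < w ∧ p.1 = ρ * Real.cos t ∧ p.2 = ρ * Real.sin t}

theorem sec_eq {w : ℝ} (hw : w ≤ Real.pi) :
    Sec w = polarCoord.source ∩ polarCoord ⁻¹' (Set.univ ×ˢ Set.Ioo (-w) w) := by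
  ext p
  constructor
  · rintro ⟨ρ, t, hρ, ht1, ht2, hp1, hp2⟩
    have htar : (ρ, t) ∈ polarCoord.target := by
      rw [polarCoord_target]
      exact ⟨hρ, by constructor <;> linarith⟩
    have hp : p = polarCoord.symm (ρ, t) := by
      rw [polarCoord_symm_apply]
      exact Prod.ext hp1 hp2
    refine ⟨?_, ?_⟩
    · rw [hp]; exact polarCoord.map_target htar
    · show polarCoord p ∈ Set.univ ×ˢ Set.Ioo (-w) w
      rw [hp, polarCoord.right_inv htar]
      exact ⟨Set.mem_univ _, ht1, ht2⟩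
  · rintro ⟨hp1, hp2⟩
    have htar := polarCoord.map_source hp1
    rw [polarCoord_target] at htar
    refine ⟨(polarCoord p).1, (polarCoord p).2, htar.1, hp2.2.1, hp2.2.2, ?_⟩
    have h1 := polarCoord.left_inv hp1
    rw [polarCoord_symm_apply] at h1
    exact ⟨(congrArg Prod.fst h1).symm, (congrArg Prod.snd h1).symm⟩

theorem sec_meas {w : ℝ} (hw : w ≤ Real.pi) : MeasurableSet (Sec w) := by
  rw [sec_eq hw]
  exact (polarCoord.isOpen_inter_preimage (isOpen_univ.prod isOpen_Ioo)).measurableSet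

/-- the plane integral over a sector -/
theorem sec_lintegral {w : ℝ} (hw : w ≤ Real.pi) {g : ℝ → ENNReal}
    (hg : Measurable g) :
    ∫⁻ p : ℝ × ℝ, (Sec w).indicator (fun p => g (p.1 ^ 2 + p.2 ^ 2)) p =
      ENNReal.ofReal (2 * w) * ∫⁻ ρ in Set.Ioi (0 : ℝ), ENNReal.ofReal ρ * g (ρ ^ 2) := by
  rw [← lintegral_comp_polarCoord_symm]
  have h1 : ∀ q ∈ polarCoord.target,
      ENNReal.ofReal q.1 • (Sec w).indicator (fun p => g (p.1 ^ 2 + p.2 ^ 2))
        (polarCoord.symm q) =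
      (ENNReal.ofReal q.1 * g (q.1 ^ 2)) * (Set.Ioo (-w) w).indicator (fun _ => 1) q.2 := by
    intro q hq
    have hq2 := hq
    rw [polarCoord_target] at hq2
    have h2 : polarCoord.symm q ∈ Sec w ↔ q.2 ∈ Set.Ioo (-w) w := by
      rw [sec_eq hw]
      constructor
      · rintro ⟨_, h3⟩
        have h4 : polarCoord (polarCoord.symm q) ∈ Set.univ ×ˢ Set.Ioo (-w) w := h3
        rw [polarCoord.right_inv hq] at h4
        exact h4.2
      · intro h3
        refine ⟨polarCoord.map_target hq, ?_⟩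
        show polarCoord (polarCoord.symm q) ∈ Set.univ ×ˢ Set.Ioo (-w) w
        rw [polarCoord.right_inv hq]
        exact ⟨Set.mem_univ _, h3⟩
    have h5 : (polarCoord.symm q).1 ^ 2 + (polarCoord.symm q).2 ^ 2 = q.1 ^ 2 := by
      rw [polarCoord_symm_apply]
      have := Real.sin_sq_add_cos_sq q.2
      show (q.1 * Real.cos q.2) ^ 2 + (q.1 * Real.sin q.2) ^ 2 = q.1 ^ 2
      linear_combination q.1 ^ 2 * this
    by_cases h6 : q.2 ∈ Set.Ioo (-w) w
    · rw [Set.indicator_of_mem (h2.2 h6), Set.indicator_of_mem h6, h5, mul_one, smul_eq_mul]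
    · rw [Set.indicator_of_notMem (fun h => h6 (h2.1 h)), Set.indicator_of_notMem h6]
      simp
  rw [setLIntegral_congr_fun polarCoord.open_target.measurableSet h1, polarCoord_target,
    Measure.volume_eq_prod, ← Measure.prod_restrict,
    lintegral_prod_mul (f := fun ρ : ℝ => ENNReal.ofReal ρ * g (ρ ^ 2))
      (g := (Set.Ioo (-w) w).indicator (fun _ => (1 : ENNReal)))]
  · rw [mul_comm]
    congr 1
    rw [lintegral_indicator measurableSet_Ioo, Measure.restrict_restrict measurableSet_Ioo]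
    have h7 : Set.Ioo (-w) w ∩ Set.Ioo (-Real.pi) Real.pi = Set.Ioo (-w) w := by
      apply Set.inter_eq_left.2
      intro t ht
      exact ⟨by linarith [ht.1], by linarith [ht.2]⟩
    rw [h7, setLIntegral_one, Real.volume_Ioo]
    congr 1
    ring
  · exact ((ENNReal.measurable_ofReal.mul (hg.comp (by fun_prop)))).aemeasurable
  · exact (measurable_const.indicator measurableSet_Ioo).aemeasurable

/-- the plane integral over the whole plane -/
theorem all_lintegral {g : ℝ → ENNReal} (hg : Measurable g) :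
    ∫⁻ p : ℝ × ℝ, g (p.1 ^ 2 + p.2 ^ 2) =
      ENNReal.ofReal (2 * Real.pi) * ∫⁻ ρ in Set.Ioi (0 : ℝ), ENNReal.ofReal ρ * g (ρ ^ 2) := by
  rw [← sec_lintegral le_rfl hg]
  apply lintegral_congr_ae
  filter_upwards [Filter.eventuallyEq_univ.1 polarCoord_source_ae_eq_univ] with p hp1
  rw [Set.indicator_of_mem]
  rw [sec_eq le_rfl]
  refine ⟨hp1, ?_⟩
  have htar := polarCoord.map_source hp1
  rw [polarCoord_target] at htar
  exact ⟨Set.mem_univ _, htar.2⟩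

/-- symmetric sectors -/
theorem sector_sym (f₁ f₂ : E (n + 2)) (h₁ : ‖f₁‖ = 1) (h₂ : ‖f₂‖ = 1)
    (h : inner ℝ f₁ f₂ = (0 : ℝ)) {w : ℝ} (hw0 : 0 ≤ w) (hw : w ≤ Real.pi)
    (S : Set (ℝ × ℝ)) (hS : MeasurableSet S) :
    volume {z : E (n + 2) | (inner ℝ f₁ z, inner ℝ f₂ z) ∈ Sec w ∧
        ((inner ℝ f₁ z) ^ 2 + (inner ℝ f₂ z) ^ 2, ‖z‖ ^ 2) ∈ S}
      = ENNReal.ofReal (w / Real.pi) *
        volume {z : E (n + 2) | ((inner ℝ f₁ z) ^ 2 + (inner ℝ f₂ z) ^ 2, ‖z‖ ^ 2) ∈ S} := by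
  -- the fibre volume
  set g : ℝ → ENNReal := fun s => volume {x : E n | (s, s + ‖x‖ ^ 2) ∈ S} with hgdef
  have hg : Measurable g := by
    have h3 : MeasurableSet {q : ℝ × E n | (q.1, q.1 + ‖q.2‖ ^ 2) ∈ S} := by
      have hf : Measurable (fun q : ℝ × E n => (q.1, q.1 + ‖q.2‖ ^ 2)) := by fun_prop
      exact hf hS
    exact measurable_measure_prodMk_left h3
  have key : ∀ P : Set (ℝ × ℝ), MeasurableSet P →
      volume {z : E (n + 2) | (inner ℝ f₁ z, inner ℝ f₂ z) ∈ P ∧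
        ((inner ℝ f₁ z) ^ 2 + (inner ℝ f₂ z) ^ 2, ‖z‖ ^ 2) ∈ S} =
      ∫⁻ p : ℝ × ℝ, P.indicator (fun p => g (p.1 ^ 2 + p.2 ^ 2)) p := by
    intro P hP
    set A : Set (ℝ × ℝ × ℝ) := {q | (q.1, q.2.1) ∈ P ∧ (q.1 ^ 2 + q.2.1 ^ 2, q.2.2) ∈ S} with hA
    have hAm : MeasurableSet A := by
      apply MeasurableSet.inter
      · have hf : Measurable (fun q : ℝ × ℝ × ℝ => (q.1, q.2.1)) := by fun_prop
        exact hf hP
      · have hf : Measurable (fun q : ℝ × ℝ × ℝ => (q.1 ^ 2 + q.2.1 ^ 2, q.2.2)) := by fun_prop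
        exact hf hS
    have h4 := plane_measure f₁ f₂ h₁ h₂ h A hAm
    have h5 : {z : E (n + 2) | (inner ℝ f₁ z, inner ℝ f₂ z, ‖z‖ ^ 2) ∈ A} =
        {z : E (n + 2) | (inner ℝ f₁ z, inner ℝ f₂ z) ∈ P ∧
        ((inner ℝ f₁ z) ^ 2 + (inner ℝ f₂ z) ^ 2, ‖z‖ ^ 2) ∈ S} := rfl
    rw [← h5, h4, Measure.volume_eq_prod, Measure.prod_apply]
    · apply lintegral_congr
      intro p
      by_cases hp : p ∈ P
      · rw [Set.indicator_of_mem hp, hgdef]
        congr 1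
        ext x
        show (p ∈ P ∧ (p.1 ^ 2 + p.2 ^ 2, p.1 ^ 2 + p.2 ^ 2 + ‖x‖ ^ 2) ∈ S) ↔
          (p.1 ^ 2 + p.2 ^ 2, p.1 ^ 2 + p.2 ^ 2 + ‖x‖ ^ 2) ∈ S
        exact ⟨fun h => h.2, fun h => ⟨hp, h⟩⟩
      · rw [Set.indicator_of_notMem hp]
        have : Prod.mk p ⁻¹' {q : (ℝ × ℝ) × E n |
            (q.1.1, q.1.2, q.1.1 ^ 2 + q.1.2 ^ 2 + ‖q.2‖ ^ 2) ∈ A} = ∅ := by
          ext x
          constructor
          · intro hx
            exact hp hx.1
          · intro hx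
            exact absurd hx (Set.notMem_empty x)
        rw [this, measure_empty]
    · have hf : Measurable (fun q : (ℝ × ℝ) × E n =>
          (q.1.1, q.1.2, q.1.1 ^ 2 + q.1.2 ^ 2 + ‖q.2‖ ^ 2)) := by fun_prop
      exact hf hAm
  have k1 := key (Sec w) (sec_meas hw)
  have k2 := key Set.univ MeasurableSet.univ
  simp only [Set.mem_univ, true_and, Set.indicator_univ] at k2
  rw [k1, k2, sec_lintegral hw hg, all_lintegral hg, ← mul_assoc,
    ← ENNReal.ofReal_mul (div_nonneg hw0 Real.pi_pos.le)]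
  congr 2
  field_simp

end SectorAux

open SectorAux in
/-- D4 SECT. Sectors. -/
theorem sector_measure (f₁ f₂ : E (n + 2)) (h₁ : ‖f₁‖ = 1) (h₂ : ‖f₂‖ = 1)
    (h : inner ℝ f₁ f₂ = (0 : ℝ)) {α β : ℝ} (hαβ : α ≤ β) (h2π : β ≤ α + 2 * Real.pi)
    (S : Set (ℝ × ℝ)) (hS : MeasurableSet S) :
    volume {z : E (n + 2) | (∃ ρ t : ℝ, 0 < ρ ∧ α < t ∧ t < β ∧ inner ℝ f₁ z = ρ * Real.cos t ∧
        inner ℝ f₂ z = ρ * Real.sin t) ∧
        ((inner ℝ f₁ z) ^ 2 + (inner ℝ f₂ z) ^ 2, ‖z‖ ^ 2) ∈ S}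
      = ENNReal.ofReal ((β - α) / (2 * Real.pi)) *
        volume {z : E (n + 2) | ((inner ℝ f₁ z) ^ 2 + (inner ℝ f₂ z) ^ 2, ‖z‖ ^ 2) ∈ S} := by
  set γ : ℝ := (α + β) / 2 with hγ
  set w : ℝ := (β - α) / 2 with hw
  set g₁ : E (n + 2) := Real.cos γ • f₁ + Real.sin γ • f₂ with hg₁
  set g₂ : E (n + 2) := -Real.sin γ • f₁ + Real.cos γ • f₂ with hg₂
  have hcs := Real.sin_sq_add_cos_sq γ
  have hf11 : inner ℝ f₁ f₁ = (1 : ℝ) := by rw [real_inner_self_eq_norm_sq, h₁]; norm_num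
  have hf22 : inner ℝ f₂ f₂ = (1 : ℝ) := by rw [real_inner_self_eq_norm_sq, h₂]; norm_num
  have hf21 : inner ℝ f₂ f₁ = (0 : ℝ) := by rw [real_inner_comm]; exact h
  have a1 : ∀ z, inner ℝ g₁ z = Real.cos γ * inner ℝ f₁ z + Real.sin γ * inner ℝ f₂ z := by
    intro z
    rw [hg₁, inner_add_left, real_inner_smul_left, real_inner_smul_left]
  have a2 : ∀ z, inner ℝ g₂ z = -Real.sin γ * inner ℝ f₁ z + Real.cos γ * inner ℝ f₂ z := by
    intro z
    rw [hg₂, inner_add_left, real_inner_smul_left, real_inner_smul_left]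
  have b11 : inner ℝ g₁ g₁ = (1 : ℝ) := by
    rw [a1, real_inner_comm, real_inner_comm (y := f₂), a1, a1, hf11, h, hf21, hf22]
    linear_combination hcs
  have b22 : inner ℝ g₂ g₂ = (1 : ℝ) := by
    rw [a2, real_inner_comm, real_inner_comm (y := f₂), a2, a2, hf11, h, hf21, hf22]
    linear_combination hcs
  have b12 : inner ℝ g₁ g₂ = (0 : ℝ) := by
    rw [a1, real_inner_comm, real_inner_comm (y := f₂), a2, a2, hf11, h, hf21, hf22]
    ring
  have n1 : ‖g₁‖ = 1 := by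
    have := real_inner_self_eq_norm_sq g₁
    rw [b11] at this
    have h0 := norm_nonneg g₁
    nlinarith
  have n2 : ‖g₂‖ = 1 := by
    have := real_inner_self_eq_norm_sq g₂
    rw [b22] at this
    have h0 := norm_nonneg g₂
    nlinarith
  have hsq : ∀ z, (inner ℝ g₁ z) ^ 2 + (inner ℝ g₂ z) ^ 2 =
      (inner ℝ f₁ z) ^ 2 + (inner ℝ f₂ z) ^ 2 := by
    intro z
    rw [a1, a2]
    linear_combination ((inner ℝ f₁ z) ^ 2 + (inner ℝ f₂ z) ^ 2) * hcs
  have hsec : ∀ z, (∃ ρ t : ℝ, 0 < ρ ∧ α < t ∧ t < β ∧ inner ℝ f₁ z = ρ * Real.cos t ∧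
        inner ℝ f₂ z = ρ * Real.sin t) ↔ (inner ℝ g₁ z, inner ℝ g₂ z) ∈ Sec w := by
    intro z
    constructor
    · rintro ⟨ρ, t, hρ, ht1, ht2, hz1, hz2⟩
      refine ⟨ρ, t - γ, hρ, by rw [hw, hγ]; linarith, by rw [hw, hγ]; linarith, ?_, ?_⟩
      · show inner ℝ g₁ z = ρ * Real.cos (t - γ)
        rw [a1, hz1, hz2, Real.cos_sub]; ring
      · show inner ℝ g₂ z = ρ * Real.sin (t - γ)
        rw [a2, hz1, hz2, Real.sin_sub]; ring
    · rintro ⟨ρ, t, hρ, ht1, ht2, hz1, hz2⟩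
      have hz1' : inner ℝ g₁ z = ρ * Real.cos t := hz1
      have hz2' : inner ℝ g₂ z = ρ * Real.sin t := hz2
      refine ⟨ρ, t + γ, hρ, by rw [hw] at ht1; rw [hγ]; linarith,
        by rw [hw] at ht2; rw [hγ]; linarith, ?_, ?_⟩
      · have : inner ℝ f₁ z = Real.cos γ * inner ℝ g₁ z - Real.sin γ * inner ℝ g₂ z := by
          rw [a1, a2]
          linear_combination (-inner ℝ f₁ z) * hcs
        rw [this, hz1', hz2', Real.cos_add]; ring
      · have : inner ℝ f₂ z = Real.sin γ * inner ℝ g₁ z + Real.cos γ * inner ℝ g₂ z := by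
          rw [a1, a2]
          linear_combination (-inner ℝ f₂ z) * hcs
        rw [this, hz1', hz2', Real.sin_add]; ring
  have main := sector_sym g₁ g₂ n1 n2 b12 (w := w) (by rw [hw]; linarith) (by rw [hw]; linarith)
    S hS
  simp only [hsq] at main
  have e1 : (β - α) / (2 * Real.pi) = w / Real.pi := by
    rw [hw]; field_simp
  rw [e1, ← main]
  congr 1
  ext z
  show _ ∧ _ ↔ _ ∧ _
  rw [hsec z]

end

end Pool.Agent.Saus
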