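import Pool.Agent.Lib.MP_5a9905_co.Plane
import Pool.Agent.Lib.MP_5a9905_co.Moment

/-! # Volume of the tube around a plane (module TUBE) -/

set_option autoImplicit false

open MeasureTheory

namespace Pool.Agent.Saus

noncomputable section

variable {n : ℕ}

namespace TubeAux

theorem disc_volume {s : ℝ} (hs : 0 ≤ s) :
    volume {p : ℝ × ℝ | p.1 ^ 2 + p.2 ^ 2 ≤ s} = ENNReal.ofReal (Real.pi * s) := by
  have h1 := Complex.volume_preserving_equiv_real_prod.measure_preimage_equiv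
    (f := Complex.measurableEquivRealProd) {p : ℝ × ℝ | p.1 ^ 2 + p.2 ^ 2 ≤ s}
  rw [← h1]
  have h2 : Complex.measurableEquivRealProd ⁻¹' {p : ℝ × ℝ | p.1 ^ 2 + p.2 ^ 2 ≤ s}
      = Metric.closedBall (0 : ℂ) (√s) := by
    ext z
    rw [Set.mem_preimage, mem_closedBall_zero_iff]
    show z.re ^ 2 + z.im ^ 2 ≤ s ↔ _
    rw [Real.le_sqrt (norm_nonneg z) hs, Complex.sq_norm, Complex.normSq_apply]
    constructor <;> intro h <;> nlinarith
  rw [h2, Complex.volume_closedBall, ← ENNReal.ofReal_pow (Real.sqrt_nonneg s), Real.sq_sqrt hs,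
    mul_comm Real.pi, ENNReal.ofReal_mul hs]
  congr 1
  rw [← NNReal.coe_real_pi, ENNReal.ofReal_coe_nnreal]

end TubeAux

open TubeAux

/-- D5 TUBE. -/
theorem tube_volume (f₁ f₂ : E (n + 2)) (h₁ : ‖f₁‖ = 1) (h₂ : ‖f₂‖ = 1)
    (h : inner ℝ f₁ f₂ = (0 : ℝ)) {R : ℝ} (hR : 1 ≤ R) :
    volume.real {z : E (n + 2) | ‖z‖ ^ 2 ≤ R ∧
        ‖z‖ ^ 2 ≤ (inner ℝ f₁ z) ^ 2 + (inner ℝ f₂ z) ^ 2 + 1}
      = Real.pi * kap n * (R - 1 + 2 / (n + 2)) := by
  have hA1 : IsClosed {a : ℝ × ℝ × ℝ | a.2.2 ≤ R} := isClosed_le (by fun_prop) continuous_const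
  have hA2 : IsClosed {a : ℝ × ℝ × ℝ | a.2.2 ≤ a.1 ^ 2 + a.2.1 ^ 2 + 1} :=
    isClosed_le (by fun_prop) (by fun_prop)
  have hA : MeasurableSet {a : ℝ × ℝ × ℝ | a.2.2 ≤ R ∧ a.2.2 ≤ a.1 ^ 2 + a.2.1 ^ 2 + 1} :=
    (hA1.inter hA2).measurableSet
  have h3 := plane_measure f₁ f₂ h₁ h₂ h _ hA
  have h4 : volume {z : E (n + 2) | ‖z‖ ^ 2 ≤ R ∧
        ‖z‖ ^ 2 ≤ (inner ℝ f₁ z) ^ 2 + (inner ℝ f₂ z) ^ 2 + 1}
      = (volume : Measure ((ℝ × ℝ) × E n))
          {q | q.1.1 ^ 2 + q.1.2 ^ 2 + ‖q.2‖ ^ 2 ≤ R ∧ ‖q.2‖ ^ 2 ≤ 1} := by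
    refine h3.trans ?_
    congr 1
    ext q
    simp only [Set.mem_ofPred_eq]
    constructor
    · rintro ⟨ha, hb⟩
      exact ⟨ha, by linarith⟩
    · rintro ⟨ha, hb⟩
      exact ⟨ha, by linarith⟩
  have hB1 : IsClosed {q : (ℝ × ℝ) × E n | q.1.1 ^ 2 + q.1.2 ^ 2 + ‖q.2‖ ^ 2 ≤ R} :=
    isClosed_le (by fun_prop) continuous_const
  have hB2 : IsClosed {q : (ℝ × ℝ) × E n | ‖q.2‖ ^ 2 ≤ 1} :=
    isClosed_le (by fun_prop) continuous_const
  have hB : MeasurableSet {q : (ℝ × ℝ) × E n | q.1.1 ^ 2 + q.1.2 ^ 2 + ‖q.2‖ ^ 2 ≤ R ∧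
      ‖q.2‖ ^ 2 ≤ 1} := (hB1.inter hB2).measurableSet
  have hball : MeasurableSet (Metric.closedBall (0 : E n) 1) := measurableSet_closedBall
  have h5 : (volume : Measure ((ℝ × ℝ) × E n))
          {q | q.1.1 ^ 2 + q.1.2 ^ 2 + ‖q.2‖ ^ 2 ≤ R ∧ ‖q.2‖ ^ 2 ≤ 1}
      = ∫⁻ x in Metric.closedBall (0 : E n) 1, ENNReal.ofReal (Real.pi * (R - ‖x‖ ^ 2)) := by
    rw [Measure.volume_eq_prod, Measure.prod_apply_symm hB, ← lintegral_indicator hball]
    refine lintegral_congr fun x => ?_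
    by_cases hx : x ∈ Metric.closedBall (0 : E n) 1
    · rw [Set.indicator_of_mem hx]
      rw [mem_closedBall_zero_iff] at hx
      have hx2 : ‖x‖ ^ 2 ≤ 1 := by nlinarith [norm_nonneg x]
      rw [← disc_volume (by linarith : 0 ≤ R - ‖x‖ ^ 2)]
      congr 1
      ext p
      simp only [Set.mem_preimage, Set.mem_ofPred_eq]
      constructor
      · rintro ⟨ha, _⟩
        linarith
      · intro ha
        exact ⟨by linarith, hx2⟩
    · rw [Set.indicator_of_notMem hx]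
      rw [mem_closedBall_zero_iff] at hx
      convert measure_empty (μ := (volume : Measure (ℝ × ℝ)))
      ext p
      simp only [Set.mem_preimage, Set.mem_ofPred_eq, Set.mem_empty_iff_false, iff_false]
      rintro ⟨_, hb⟩
      exact hx (by nlinarith [norm_nonneg x])
  have hint1 : IntegrableOn (fun x : E n => (1 - ‖x‖ ^ 2)) (Metric.closedBall (0 : E n) 1) :=
    (Continuous.continuousOn (by fun_prop)).integrableOn_compact (isCompact_closedBall 0 1)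
  have hint2 : IntegrableOn (fun _ : E n => (R - 1 : ℝ)) (Metric.closedBall (0 : E n) 1) :=
    (Continuous.continuousOn (by fun_prop)).integrableOn_compact (isCompact_closedBall 0 1)
  have hint : IntegrableOn (fun x : E n => Real.pi * (R - ‖x‖ ^ 2))
      (Metric.closedBall (0 : E n) 1) :=
    (Continuous.continuousOn (by fun_prop)).integrableOn_compact (isCompact_closedBall 0 1)
  have hnn : 0 ≤ᵐ[volume.restrict (Metric.closedBall (0 : E n) 1)]
      fun x : E n => Real.pi * (R - ‖x‖ ^ 2) := by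
    refine (ae_restrict_iff' hball).mpr (Filter.Eventually.of_forall fun x hx => ?_)
    rw [mem_closedBall_zero_iff] at hx
    have hx2 : ‖x‖ ^ 2 ≤ 1 := by nlinarith [norm_nonneg x]
    exact mul_nonneg Real.pi_pos.le (by linarith)
  have h6 : ∫ x in Metric.closedBall (0 : E n) 1, Real.pi * (R - ‖x‖ ^ 2)
      = Real.pi * kap n * (R - 1 + 2 / (n + 2)) := by
    have e1 : ∀ x : E n, Real.pi * (R - ‖x‖ ^ 2) = Real.pi * ((R - 1) + (1 - ‖x‖ ^ 2)) := by
      intro x; ring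
    simp_rw [e1]
    rw [integral_const_mul, integral_add hint2 hint1, ball_moment_one, setIntegral_const, kap]
    simp only [smul_eq_mul]
    ring
  have h7 : 0 ≤ Real.pi * kap n * (R - 1 + 2 / (n + 2)) := by
    rw [← h6]
    exact integral_nonneg_of_ae hnn
  rw [Measure.real, h4, h5, ← ofReal_integral_eq_lintegral_ofReal hint hnn, h6,
    ENNReal.toReal_ofReal h7]

end

end Pool.Agent.Saus
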