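import Pool.Agent.Lib.MP_5a9905_co.Defs
import Pool.Agent.Lib.MP_5a9905_co.Rot
import Pool.Agent.Lib.MP_5a9905_co.Sector
import Pool.Agent.Lib.MP_5a9905_co.Tube

/-!
# SAUS, module NARROW: two directions at an angle between `φ` and `90°`
-/

set_option autoImplicit false

open MeasureTheory

namespace Pool.Agent.Saus

noncomputable section

variable {n : ℕ}

namespace NarrowAux

/-- unit balls around points of the triangle `0, y, y'` lie in `K` -/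
theorem ball_sub {d : ℕ} {K : Set (E d)} (hc : Convex ℝ K) {y y' : E d}
    (h0 : Metric.closedBall (0 : E d) 1 ⊆ K) (h1 : Metric.closedBall y 1 ⊆ K)
    (h2 : Metric.closedBall y' 1 ⊆ K) {a b : ℝ} (ha : 0 ≤ a) (hb : 0 ≤ b) (hab : a + b ≤ 1)
    {z : E d} (hz : ‖z - (a • y + b • y')‖ ≤ 1) : z ∈ K := by
  set w := z - (a • y + b • y') with hw
  have hsum := hc.sum_mem (t := (Finset.univ : Finset (Fin 3))) (w := ![1 - a - b, a, b])
    (z := ![w, y + w, y' + w]) (fun i _ => by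
      fin_cases i
      · simp; linarith
      · simpa using ha
      · simpa using hb) (by simp [Fin.sum_univ_three]; ring) (fun i _ => by
      fin_cases i
      · exact h0 (by simpa using hz)
      · exact h1 (by simpa [mem_closedBall_iff_norm] using hz)
      · exact h2 (by simpa [mem_closedBall_iff_norm] using hz))
  have e : z = ∑ i : Fin 3, (![1 - a - b, a, b] : Fin 3 → ℝ) i • (![w, y + w, y' + w] i) := by
    simp only [Fin.sum_univ_three, Matrix.cons_val_zero, Matrix.cons_val_one, Matrix.cons_val,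
      hw]
    module
  rw [e]
  exact hsum

/-- points at distance at most one from the part of the cone in the ball of radius `√2` -/
theorem cone_ball {d : ℕ} {Y : Finset (E d)} {K : Set (E d)} (hL : Loc d Y K) {y y' : E d}
    (hy : y ∈ Y) (hy' : y' ∈ Y) (h0 : 0 ≤ inner ℝ y y') {a b : ℝ} (ha : 0 ≤ a) (hb : 0 ≤ b)
    (hp : ‖a • y + b • y'‖ ^ 2 ≤ 2) {z : E d} (hz : ‖z - (a • y + b • y')‖ ≤ 1) : z ∈ K := by
  have e : ‖a • y + b • y'‖ ^ 2 = a ^ 2 * ‖y‖ ^ 2 + 2 * (a * b * inner ℝ y y') +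
      b ^ 2 * ‖y'‖ ^ 2 := by
    rw [norm_add_sq_real, norm_smul, norm_smul, inner_smul_left, inner_smul_right, mul_pow,
      mul_pow, Real.norm_eq_abs, Real.norm_eq_abs, sq_abs, sq_abs]
    simp
    ring
  have h1 := hL.far y hy
  have h2 := hL.far y' hy'
  have h3 : 4 ≤ ‖y‖ ^ 2 := by nlinarith
  have h4 : 4 ≤ ‖y'‖ ^ 2 := by nlinarith
  have h5 : 0 ≤ a * b * inner ℝ y y' := by positivity
  have h6 : a ^ 2 * 4 ≤ a ^ 2 * ‖y‖ ^ 2 := by gcongr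
  have h7 : b ^ 2 * 4 ≤ b ^ 2 * ‖y'‖ ^ 2 := by gcongr
  have hab : a + b ≤ 1 := by
    rw [e] at hp
    nlinarith [sq_nonneg (a - b)]
  exact ball_sub hL.convex hL.ball_zero (hL.ball y hy) (hL.ball y' hy') ha hb hab hz

/-- the same in coordinates -/
theorem tri_mem {d : ℕ} {Y : Finset (E d)} {K : Set (E d)} (hL : Loc d Y K) {y y' : E d}
    (hy : y ∈ Y) (hy' : y' ∈ Y) (h0 : 0 ≤ inner ℝ y y') {f₁ f₂ : E d} {c s : ℝ}
    (hf₁ : ‖y‖⁻¹ • y = f₁) (hv : ‖y'‖⁻¹ • y' = c • f₁ + s • f₂) (hs : 0 < s) {p₁ p₂ : ℝ}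
    (hp₂ : 0 ≤ p₂) (hp₁ : p₂ * c ≤ p₁ * s) (h2 : ‖p₁ • f₁ + p₂ • f₂‖ ^ 2 ≤ 2) {z : E d}
    (hz : ‖z - (p₁ • f₁ + p₂ • f₂)‖ ≤ 1) : z ∈ K := by
  have e : p₁ • f₁ + p₂ • f₂ = ((p₁ - p₂ * c / s) * ‖y‖⁻¹) • y + (p₂ / s * ‖y'‖⁻¹) • y' := by
    rw [mul_smul, mul_smul, hf₁, hv, smul_add, smul_smul, smul_smul, div_mul_cancel₀ _ hs.ne',
      div_mul_eq_mul_div]
    module
  rw [e] at h2 hz
  refine cone_ball hL hy hy' h0 (mul_nonneg ?_ (by positivity)) (by positivity) h2 hz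
  rw [sub_nonneg, div_le_iff₀ hs]
  exact hp₁

section coords

variable {d : ℕ} {f₁ f₂ : E d} (h₁ : ‖f₁‖ = 1) (h₂ : ‖f₂‖ = 1) (h : inner ℝ f₁ f₂ = (0 : ℝ))

include h₁ h₂ h

theorem norm_comb (p₁ p₂ : ℝ) : ‖p₁ • f₁ + p₂ • f₂‖ ^ 2 = p₁ ^ 2 + p₂ ^ 2 := by
  rw [norm_add_sq_real, norm_smul, norm_smul, inner_smul_left, inner_smul_right, h, mul_pow,
      mul_pow, Real.norm_eq_abs, Real.norm_eq_abs, sq_abs, sq_abs, h₁, h₂]
  simp

theorem norm_sub_comb (z : E d) (p₁ p₂ : ℝ) : ‖z - (p₁ • f₁ + p₂ • f₂)‖ ^ 2 =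
    ‖z‖ ^ 2 - 2 * (p₁ * inner ℝ f₁ z + p₂ * inner ℝ f₂ z) + (p₁ ^ 2 + p₂ ^ 2) := by
  rw [norm_sub_sq_real, norm_comb h₁ h₂ h, inner_add_right, inner_smul_right, inner_smul_right,
    real_inner_comm, real_inner_comm f₂]

end coords

theorem meas_HCBl (u : E (n + 2)) (R : ℝ) : MeasurableSet (HC u ∩ Bl (n + 2) R) := by
  have hc : Continuous fun z : E (n + 2) => inner ℝ u z := continuous_const.inner continuous_id
  have hn : Continuous fun z : E (n + 2) => ‖z‖ ^ 2 := continuous_norm.pow 2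
  exact ((isClosed_le continuous_const hc).inter
    (isClosed_le hn ((hc.pow 2).add continuous_const))).inter
      (isClosed_le hn continuous_const) |>.measurableSet

theorem bounded_Bl (d : ℕ) (R : ℝ) : Bornology.IsBounded (Bl d R) := by
  refine (Metric.isBounded_closedBall (x := (0 : E d)) (r := √R)).subset fun z hz => ?_
  rw [mem_closedBall_zero_iff]
  exact Real.le_sqrt_of_sq_le hz

theorem ne_top_of_Bl {d : ℕ} {R : ℝ} {s : Set (E d)} (h : s ⊆ Bl d R) : volume s ≠ ⊤ :=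
  ((bounded_Bl d R).subset h).measure_lt_top.ne

/-- half of a half-cylinder -/
theorem half_hcv {u f : E (n + 2)} (hu : ‖u‖ = 1) (hf : f ≠ 0) (h : inner ℝ u f = (0 : ℝ))
    (R : ℝ) : hcv n R / 2 ≤
      volume.real {z : E (n + 2) | z ∈ HC u ∩ Bl (n + 2) R ∧ inner ℝ f z < 0} := by
  set L : E (n + 2) ≃ₗᵢ[ℝ] E (n + 2) := (ℝ ∙ f)ᗮ.reflection with hL
  have hLf : L f = -f := Submodule.reflection_orthogonalComplement_singleton_eq_neg f
  have hLu : L u = u := Submodule.reflection_mem_subspace_eq_self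
    (Submodule.mem_orthogonal_singleton_iff_inner_left.mpr h)
  set M := HC u ∩ Bl (n + 2) R with hM
  have e1 : volume {z : E (n + 2) | z ∈ M ∧ 0 < inner ℝ f z} =
      volume {z : E (n + 2) | z ∈ M ∧ inner ℝ f z < 0} := by
    rw [← RotAux.iso_preimage L {z : E (n + 2) | z ∈ M ∧ 0 < inner ℝ f z}]
    congr 1
    ext z
    have i1 : inner ℝ u (L z) = inner ℝ u z := by
      conv_lhs => rw [← hLu]
      exact L.inner_map_map u z
    have i2 : inner ℝ f (L z) = -inner ℝ f z := by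
      have := L.inner_map_map f z
      rw [hLf, inner_neg_left] at this
      linarith
    simp only [hM, HC, Bl, Set.mem_preimage, Set.mem_inter_iff, Set.mem_ofPred_eq, i1, i2,
      L.norm_map, Left.neg_pos_iff]
  have e0 : volume {z : E (n + 2) | inner ℝ f z = 0} = 0 := by
    have h1 := Measure.addHaar_submodule (volume : Measure (E (n + 2))) (ℝ ∙ f)ᗮ (by
      intro htop
      have : f ∈ (ℝ ∙ f)ᗮ := by rw [htop]; trivial
      rw [Submodule.mem_orthogonal_singleton_iff_inner_right] at this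
      exact hf (inner_self_eq_zero.mp this))
    refine measure_mono_null (fun z hz => ?_) h1
    exact Submodule.mem_orthogonal_singleton_iff_inner_right.mpr hz
  have hsub : M ⊆ ({z : E (n + 2) | z ∈ M ∧ inner ℝ f z < 0} ∪
      {z : E (n + 2) | z ∈ M ∧ 0 < inner ℝ f z}) ∪ {z : E (n + 2) | inner ℝ f z = 0} := by
    intro z hz
    rcases lt_trichotomy (inner ℝ f z) 0 with h | h | h
    · exact Or.inl (Or.inl ⟨hz, h⟩)
    · exact Or.inr h
    · exact Or.inl (Or.inr ⟨hz, h⟩)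
  have h3 : volume M ≤ volume {z : E (n + 2) | z ∈ M ∧ inner ℝ f z < 0} +
      volume {z : E (n + 2) | z ∈ M ∧ inner ℝ f z < 0} := by
    calc volume M ≤ _ := measure_mono hsub
      _ ≤ _ := measure_union_le _ _
      _ ≤ volume {z : E (n + 2) | z ∈ M ∧ inner ℝ f z < 0} +
          volume {z : E (n + 2) | z ∈ M ∧ 0 < inner ℝ f z} + 0 := by
        rw [e0]
        gcongr
        exact measure_union_le _ _
      _ = _ := by rw [add_zero, e1]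
  have hfin : volume {z : E (n + 2) | z ∈ M ∧ inner ℝ f z < 0} ≠ ⊤ :=
    ne_top_of_Bl (R := R) fun z hz => hz.1.2
  have h4 := ENNReal.toReal_mono (ENNReal.add_ne_top.mpr ⟨hfin, hfin⟩) h3
  rw [ENNReal.toReal_add hfin hfin] at h4
  have h5 : (volume M).toReal = hcv n R := hcv_eq u hu R
  rw [h5] at h4
  change hcv n R / 2 ≤ (volume {z : E (n + 2) | z ∈ M ∧ inner ℝ f z < 0}).toReal
  linarith

theorem piece1 {f₁ f₂ : E (n + 2)} (n1 : ‖f₁‖ = 1) (n2 : ‖f₂‖ = 1)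
    (h12 : inner ℝ f₁ f₂ = (0 : ℝ)) {φ : ℝ} (hφ0 : 0 < φ) (hφ : φ ≤ Real.pi / 2) {R : ℝ}
    (hR1 : 1 ≤ R) : φ / 2 * kap n * (R - 1 + 2 / (n + 2)) ≤
      volume.real {z : E (n + 2) | (0 < inner ℝ f₂ z ∧
        0 < Real.sin φ * inner ℝ f₁ z - Real.cos φ * inner ℝ f₂ z) ∧ (‖z‖ ^ 2 ≤ R ∧
        ‖z‖ ^ 2 ≤ (inner ℝ f₁ z) ^ 2 + (inner ℝ f₂ z) ^ 2 + 1)} := by
  have hpi := Real.pi_pos
  have hS := sector_measure f₁ f₂ n1 n2 h12 (α := 0) (β := φ) hφ0.le (by linarith)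
    {q : ℝ × ℝ | q.2 ≤ R ∧ q.2 ≤ q.1 + 1}
    ((measurableSet_le measurable_snd measurable_const).inter
      (measurableSet_le measurable_snd (measurable_fst.add measurable_const)))
  have hT := tube_volume f₁ f₂ n1 n2 h12 hR1
  have hS' := congrArg ENNReal.toReal hS
  rw [ENNReal.toReal_mul, ENNReal.toReal_ofReal (by positivity)] at hS'
  have e1 : φ / 2 * kap n * (R - 1 + 2 / (n + 2)) = (φ - 0) / (2 * Real.pi) *
      (Real.pi * kap n * (R - 1 + 2 / (n + 2))) := by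
    field_simp
    ring
  rw [e1, ← hT]
  refine hS'.symm.le.trans (measureReal_mono (μ := volume) ?_
    (ne_top_of_Bl (R := R) fun z hz => hz.2.1))
  rintro z ⟨⟨ρ, t, hρ, ht0, ht1, hz1, hz2⟩, hz3⟩
  refine ⟨⟨?_, ?_⟩, hz3⟩
  · rw [hz2]
    exact mul_pos hρ (Real.sin_pos_of_pos_of_lt_pi ht0 (by linarith))
  · rw [hz1, hz2]
    have : Real.sin φ * (ρ * Real.cos t) - Real.cos φ * (ρ * Real.sin t) =
        ρ * Real.sin (φ - t) := by rw [Real.sin_sub]; ring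
    rw [this]
    exact mul_pos hρ (Real.sin_pos_of_pos_of_lt_pi (by linarith) (by linarith))

theorem piece2 {f₁ f₂ : E (n + 2)} (n1 : ‖f₁‖ = 1) (n2 : ‖f₂‖ = 1)
    (h12 : inner ℝ f₁ f₂ = (0 : ℝ)) {φ : ℝ} (hφ0 : 0 < φ) (hφ : φ ≤ Real.pi / 2) :
    (1 / 2 - φ / (2 * Real.pi)) * kap (n + 2) ≤
      volume.real {z : E (n + 2) | (inner ℝ f₁ z < 0 ∧
        Real.cos φ * inner ℝ f₁ z + Real.sin φ * inner ℝ f₂ z < 0) ∧ ‖z‖ ^ 2 ≤ 1} := by
  have hpi := Real.pi_pos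
  have hS := sector_measure f₁ f₂ n1 n2 h12 (α := φ + Real.pi / 2) (β := 3 * Real.pi / 2)
    (by linarith) (by linarith)
    {q : ℝ × ℝ | q.2 ≤ 1} (measurableSet_le measurable_snd measurable_const)
  have hS' := congrArg ENNReal.toReal hS
  have hnn : 0 ≤ (3 * Real.pi / 2 - (φ + Real.pi / 2)) / (2 * Real.pi) :=
    div_nonneg (by linarith) (by linarith)
  rw [ENNReal.toReal_mul, ENNReal.toReal_ofReal hnn] at hS'
  have e1 : {z : E (n + 2) | ((inner ℝ f₁ z) ^ 2 + (inner ℝ f₂ z) ^ 2, ‖z‖ ^ 2) ∈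
      {q : ℝ × ℝ | q.2 ≤ 1}} = Metric.closedBall (0 : E (n + 2)) 1 := by
    ext z
    rw [mem_closedBall_zero_iff]
    exact ⟨fun h => by
      have h' : ‖z‖ ^ 2 ≤ 1 := h
      nlinarith [norm_nonneg z], fun h => by
      change ‖z‖ ^ 2 ≤ 1
      nlinarith [norm_nonneg z]⟩
  have e2 : (1 / 2 - φ / (2 * Real.pi)) * kap (n + 2) =
      (3 * Real.pi / 2 - (φ + Real.pi / 2)) / (2 * Real.pi) * kap (n + 2) := by
    field_simp
    ring
  rw [e1] at hS'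
  rw [e2]
  refine hS'.symm.le.trans (measureReal_mono (μ := volume) ?_
    (ne_top_of_Bl (R := 1) fun z hz => hz.2))
  rintro z ⟨⟨ρ, t, hρ, ht0, ht1, hz1, hz2⟩, hz3⟩
  refine ⟨⟨?_, ?_⟩, hz3⟩
  · rw [hz1]
    exact mul_neg_of_pos_of_neg hρ
      (Real.cos_neg_of_pi_div_two_lt_of_lt (by linarith) (by linarith))
  · rw [hz1, hz2]
    have : Real.cos φ * (ρ * Real.cos t) + Real.sin φ * (ρ * Real.sin t) =
        ρ * Real.cos (t - φ) := by rw [Real.cos_sub]; ring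
    rw [this]
    exact mul_neg_of_pos_of_neg hρ
      (Real.cos_neg_of_pi_div_two_lt_of_lt (by linarith) (by linarith))

end NarrowAux

open NarrowAux

/-- D6 NARROW. Two directions at an angle between `φ` and `90°`. -/
theorem narrow {Y : Finset (E (n + 2))} {K : Set (E (n + 2))} (hL : Loc (n + 2) Y K)
    {y y' : E (n + 2)} (hy : y ∈ Y) (hy' : y' ∈ Y) {φ : ℝ} (hφ0 : 0 < φ) (hφ : φ ≤ Real.pi / 2)
    (h₀ : 0 ≤ inner ℝ y y') (h₁ : inner ℝ y y' ≤ Real.cos φ * (‖y‖ * ‖y'‖)) {R : ℝ} (hR1 : 1 ≤ R)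
    (hR2 : R ≤ 2) :
    (1 / 2 - φ / (2 * Real.pi)) * kap (n + 2) + hcv n R + φ / 2 * kap n * (R - 1 + 2 / (n + 2))
      ≤ volume.real (K ∩ Bl (n + 2) R) := by
  have hpi := Real.pi_pos
  have hyn : 0 < ‖y‖ := by linarith [hL.far y hy]
  have hyn' : 0 < ‖y'‖ := by linarith [hL.far y' hy']
  -- coordinates
  obtain ⟨f₁, hf₁⟩ : ∃ f₁ : E (n + 2), ‖y‖⁻¹ • y = f₁ := ⟨_, rfl⟩
  obtain ⟨v, hv⟩ : ∃ v : E (n + 2), ‖y'‖⁻¹ • y' = v := ⟨_, rfl⟩
  have n1 : ‖f₁‖ = 1 := by rw [← hf₁, norm_smul, norm_inv, norm_norm, inv_mul_cancel₀ hyn.ne']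
  have nv : ‖v‖ = 1 := by rw [← hv, norm_smul, norm_inv, norm_norm, inv_mul_cancel₀ hyn'.ne']
  obtain ⟨c, hc⟩ : ∃ c : ℝ, inner ℝ f₁ v = c := ⟨_, rfl⟩
  have hceq : c = ‖y‖⁻¹ * (‖y'‖⁻¹ * inner ℝ y y') := by
    rw [← hc, ← hf₁, ← hv, inner_smul_left, inner_smul_right]; rfl
  have hc0 : 0 ≤ c := by rw [hceq]; positivity
  have hc1 : c ≤ Real.cos φ := by
    rw [hceq]
    calc ‖y‖⁻¹ * (‖y'‖⁻¹ * inner ℝ y y') ≤ ‖y‖⁻¹ * (‖y'‖⁻¹ * (Real.cos φ * (‖y‖ * ‖y'‖))) := by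
          gcongr
      _ = Real.cos φ := by field_simp
  have hsφ : 0 < Real.sin φ := Real.sin_pos_of_pos_of_lt_pi hφ0 (by linarith)
  have hcφ : 0 ≤ Real.cos φ := Real.cos_nonneg_of_neg_pi_div_two_le_of_le (by linarith) hφ
  have hcs := Real.sin_sq_add_cos_sq φ
  obtain ⟨s, hs, hs2⟩ : ∃ s : ℝ, 0 < s ∧ s ^ 2 = 1 - c ^ 2 := by
    have h3 : 0 < 1 - c ^ 2 := by nlinarith
    exact ⟨√(1 - c ^ 2), Real.sqrt_pos.mpr h3, Real.sq_sqrt h3.le⟩
  have hsφs : Real.sin φ ≤ s := by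
    refine (sq_le_sq₀ hsφ.le hs.le).mp ?_
    nlinarith
  obtain ⟨f₂, hf₂⟩ : ∃ f₂ : E (n + 2), s⁻¹ • (v - c • f₁) = f₂ := ⟨_, rfl⟩
  have hvf : v = c • f₁ + s • f₂ := by
    rw [← hf₂, smul_inv_smul₀ hs.ne']; module
  have h12 : inner ℝ f₁ f₂ = (0 : ℝ) := by
    rw [← hf₂, inner_smul_right, inner_sub_right, hc, inner_smul_right,
      real_inner_self_eq_norm_sq, n1]
    simp
  have n2 : ‖f₂‖ = 1 := by
    have h3 : ‖v - c • f₁‖ ^ 2 = s ^ 2 := by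
      rw [norm_sub_sq_real, nv, inner_smul_right, real_inner_comm, hc, norm_smul, n1, mul_pow,
        Real.norm_eq_abs, sq_abs, hs2]
      ring
    have h4 : ‖v - c • f₁‖ = s := (sq_eq_sq₀ (norm_nonneg _) hs.le).mp h3
    rw [← hf₂, norm_smul, h4, norm_inv, Real.norm_eq_abs, abs_of_pos hs, inv_mul_cancel₀ hs.ne']
  -- the second direction
  obtain ⟨v', hv'⟩ : ∃ v' : E (n + 2), Real.cos φ • f₁ + Real.sin φ • f₂ = v' := ⟨_, rfl⟩
  obtain ⟨m, hm⟩ : ∃ m : E (n + 2), Real.sin φ • f₁ + (-Real.cos φ) • f₂ = m := ⟨_, rfl⟩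
  have nv' : ‖v'‖ = 1 := by
    have := norm_comb n1 n2 h12 (Real.cos φ) (Real.sin φ)
    rw [hv'] at this
    have h5 : ‖v'‖ ^ 2 = 1 ^ 2 := by rw [this]; linarith
    exact (sq_eq_sq₀ (norm_nonneg _) zero_le_one).mp h5
  have nm : m ≠ 0 := by
    have := norm_comb n1 n2 h12 (Real.sin φ) (-Real.cos φ)
    rw [hm] at this
    intro h0
    rw [h0] at this
    simp at this
  have iv : ∀ z, inner ℝ v' z = Real.cos φ * inner ℝ f₁ z + Real.sin φ * inner ℝ f₂ z := by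
    intro z
    rw [← hv', inner_add_left, inner_smul_left, inner_smul_left]; rfl
  have im : ∀ z, inner ℝ m z = Real.sin φ * inner ℝ f₁ z - Real.cos φ * inner ℝ f₂ z := by
    intro z
    rw [← hm, inner_add_left, inner_smul_left, inner_smul_left]
    change Real.sin φ * inner ℝ f₁ z + -Real.cos φ * inner ℝ f₂ z = _
    ring
  have ivm : inner ℝ v' m = (0 : ℝ) := by
    rw [iv, ← hm, inner_add_right, inner_add_right, inner_smul_right, inner_smul_right,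
      inner_smul_right, inner_smul_right, real_inner_self_eq_norm_sq,
      real_inner_self_eq_norm_sq, n1, n2, h12]
    have h21 : inner ℝ f₂ f₁ = (0 : ℝ) := by rw [real_inner_comm]; exact h12
    rw [h21]
    ring
  -- the four pieces
  let P1 : Set (E (n + 2)) := {z | (0 < inner ℝ f₂ z ∧
    0 < Real.sin φ * inner ℝ f₁ z - Real.cos φ * inner ℝ f₂ z) ∧ (‖z‖ ^ 2 ≤ R ∧
    ‖z‖ ^ 2 ≤ (inner ℝ f₁ z) ^ 2 + (inner ℝ f₂ z) ^ 2 + 1)}
  let P2 : Set (E (n + 2)) := {z | (inner ℝ f₁ z < 0 ∧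
    Real.cos φ * inner ℝ f₁ z + Real.sin φ * inner ℝ f₂ z < 0) ∧ ‖z‖ ^ 2 ≤ 1}
  let P3 : Set (E (n + 2)) := {z | z ∈ HC f₁ ∩ Bl (n + 2) R ∧ inner ℝ f₂ z < 0}
  let P4 : Set (E (n + 2)) := {z | z ∈ HC v' ∩ Bl (n + 2) R ∧ inner ℝ m z < 0}
  -- norms
  have hns : ∀ z p₁ p₂, ‖z - (p₁ • f₁ + p₂ • f₂)‖ ^ 2 =
      ‖z‖ ^ 2 - 2 * (p₁ * inner ℝ f₁ z + p₂ * inner ℝ f₂ z) + (p₁ ^ 2 + p₂ ^ 2) :=
    fun z p₁ p₂ => norm_sub_comb n1 n2 h12 z p₁ p₂
  have hnc : ∀ p₁ p₂, ‖p₁ • f₁ + p₂ • f₂‖ ^ 2 = p₁ ^ 2 + p₂ ^ 2 :=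
    fun p₁ p₂ => norm_comb n1 n2 h12 p₁ p₂
  have hle1 : ∀ (a : E (n + 2)), ‖a‖ ^ 2 ≤ 1 → ‖a‖ ≤ 1 := by
    intro a ha
    nlinarith [norm_nonneg a]
  have hvv : ‖y'‖⁻¹ • y' = c • f₁ + s • f₂ := hv.trans hvf
  have pos1 : ∀ z ∈ P1, 0 < inner ℝ f₁ z := by
    rintro z ⟨⟨h2, h3⟩, -⟩
    by_contra hcon
    have h4 : inner ℝ f₁ z ≤ 0 := not_lt.mp hcon
    nlinarith
  have k1 : P1 ⊆ K ∩ Bl (n + 2) R := by
    intro z hz
    have h5 := pos1 z hz
    obtain ⟨⟨h2, h3⟩, h6, h7⟩ := hz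
    have h8 := hns z (inner ℝ f₁ z) (inner ℝ f₂ z)
    have h9 : 0 ≤ ‖z - (inner ℝ f₁ z • f₁ + inner ℝ f₂ z • f₂)‖ ^ 2 := sq_nonneg _
    refine ⟨tri_mem hL hy hy' h₀ hf₁ hvv hs (p₁ := inner ℝ f₁ z) (p₂ := inner ℝ f₂ z)
      h2.le ?_ ?_ (hle1 _ ?_), h6⟩
    · calc inner ℝ f₂ z * c ≤ inner ℝ f₂ z * Real.cos φ := by gcongr
        _ ≤ inner ℝ f₁ z * Real.sin φ := by linarith
        _ ≤ inner ℝ f₁ z * s := by gcongr
    · rw [hnc]; linarith
    · rw [h8]; linarith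
  have k2 : P2 ⊆ K ∩ Bl (n + 2) R := by
    rintro z ⟨-, h2⟩
    refine ⟨hL.ball_zero ?_, h2.trans hR1⟩
    rw [mem_closedBall_zero_iff]
    exact hle1 z h2
  have k3 : P3 ⊆ K ∩ Bl (n + 2) R := by
    rintro z ⟨⟨⟨h2, h3⟩, h4⟩, h5⟩
    have h8 := hns z (inner ℝ f₁ z) 0
    have h9 : 0 ≤ ‖z - (inner ℝ f₁ z • f₁ + (0 : ℝ) • f₂)‖ ^ 2 := sq_nonneg _
    have h4' : ‖z‖ ^ 2 ≤ R := h4
    refine ⟨tri_mem hL hy hy' h₀ hf₁ hvv hs (p₁ := inner ℝ f₁ z) (p₂ := 0)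
      le_rfl ?_ ?_ (hle1 _ ?_), h4⟩
    · rw [zero_mul]; positivity
    · rw [hnc]; linarith
    · rw [h8]; linarith
  have k4 : P4 ⊆ K ∩ Bl (n + 2) R := by
    rintro z ⟨⟨⟨h2, h3⟩, h4⟩, h5⟩
    obtain ⟨w, hw⟩ : ∃ w : ℝ, inner ℝ v' z = w := ⟨_, rfl⟩
    rw [hw] at h2 h3
    rw [iv] at hw
    have h8 := hns z (w * Real.cos φ) (w * Real.sin φ)
    have h10 : (w * Real.cos φ) ^ 2 + (w * Real.sin φ) ^ 2 = w ^ 2 := by
      rw [mul_pow, mul_pow, ← mul_add, add_comm, hcs, mul_one]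
    have h11 : w * Real.cos φ * inner ℝ f₁ z + w * Real.sin φ * inner ℝ f₂ z = w ^ 2 := by
      rw [sq]
      nth_rw 4 [← hw]
      ring
    rw [h10, h11] at h8
    have h9 : 0 ≤ ‖z - ((w * Real.cos φ) • f₁ + (w * Real.sin φ) • f₂)‖ ^ 2 := sq_nonneg _
    have h4' : ‖z‖ ^ 2 ≤ R := h4
    refine ⟨tri_mem hL hy hy' h₀ hf₁ hvv hs (p₁ := w * Real.cos φ) (p₂ := w * Real.sin φ)
      (by positivity) ?_ ?_ (hle1 _ ?_), h4⟩
    · calc w * Real.sin φ * c ≤ w * Real.sin φ * Real.cos φ := by gcongr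
        _ = w * Real.cos φ * Real.sin φ := by ring
        _ ≤ w * Real.cos φ * s := by gcongr
    · rw [hnc, h10]; linarith
    · rw [h8]; linarith
  -- measurability
  have ma : ∀ a : E (n + 2), Measurable fun z : E (n + 2) => inner ℝ a z := fun a =>
    (continuous_const.inner continuous_id).measurable
  have mn : Measurable fun z : E (n + 2) => ‖z‖ ^ 2 := (continuous_norm.pow 2).measurable
  have m1 : MeasurableSet P1 :=
    ((measurableSet_lt measurable_const (ma f₂)).inter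
      (measurableSet_lt measurable_const (((ma f₁).const_mul _).sub ((ma f₂).const_mul _)))).inter
    ((measurableSet_le mn measurable_const).inter
      (measurableSet_le mn ((((ma f₁).pow_const 2).add ((ma f₂).pow_const 2)).add
        measurable_const)))
  have m2 : MeasurableSet P2 :=
    ((measurableSet_lt (ma f₁) measurable_const).inter
      (measurableSet_lt (((ma f₁).const_mul _).add ((ma f₂).const_mul _))
        measurable_const)).inter (measurableSet_le mn measurable_const)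
  have m3 : MeasurableSet P3 :=
    (meas_HCBl f₁ R).inter (measurableSet_lt (ma f₂) measurable_const)
  have m4 : MeasurableSet P4 :=
    (meas_HCBl v' R).inter (measurableSet_lt (ma m) measurable_const)
  have t1 : volume P1 ≠ ⊤ := ne_top_of_Bl fun z hz => (k1 hz).2
  have t2 : volume P2 ≠ ⊤ := ne_top_of_Bl fun z hz => (k2 hz).2
  have t3 : volume P3 ≠ ⊤ := ne_top_of_Bl fun z hz => (k3 hz).2
  have t4 : volume P4 ≠ ⊤ := ne_top_of_Bl fun z hz => (k4 hz).2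
  have tK : volume (K ∩ Bl (n + 2) R) ≠ ⊤ := ne_top_of_Bl fun z hz => hz.2
  -- volumes
  have a1 : φ / 2 * kap n * (R - 1 + 2 / (n + 2)) ≤ volume.real P1 :=
    piece1 n1 n2 h12 hφ0 hφ hR1
  have a2 : (1 / 2 - φ / (2 * Real.pi)) * kap (n + 2) ≤ volume.real P2 :=
    piece2 n1 n2 h12 hφ0 hφ
  have hf2 : f₂ ≠ 0 := by
    intro h0
    rw [h0] at n2
    simp at n2
  have a3 : hcv n R / 2 ≤ volume.real P3 := half_hcv n1 hf2 h12 R
  have a4 : hcv n R / 2 ≤ volume.real P4 := half_hcv nv' nm ivm R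
  -- disjointness
  have d12 : Disjoint P1 P2 := by
    rw [Set.disjoint_left]
    rintro z hz ⟨⟨h2, -⟩, -⟩
    exact absurd (pos1 z hz) (not_lt.mpr h2.le)
  have d3 : Disjoint (P1 ∪ P2) P3 := by
    rw [Set.disjoint_left]
    rintro z (⟨⟨h2, -⟩, -⟩ | ⟨⟨h2, -⟩, -⟩) ⟨⟨⟨h3, -⟩, -⟩, h4⟩
    · exact absurd h2 (not_lt.mpr h4.le)
    · exact absurd h2 (not_lt.mpr h3)
  have d4 : Disjoint (P1 ∪ P2 ∪ P3) P4 := by
    rw [Set.disjoint_left]
    rintro z ((⟨⟨-, h2⟩, -⟩ | ⟨⟨-, h2⟩, -⟩) | ⟨⟨⟨h2, -⟩, -⟩, h5⟩) ⟨⟨⟨h3, -⟩, -⟩, h4⟩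
    · rw [im] at h4
      exact absurd h2 (not_lt.mpr h4.le)
    · rw [iv] at h3
      exact absurd h2 (not_lt.mpr h3)
    · rw [im] at h4
      have h6 := mul_nonneg hsφ.le h2
      have h7 := mul_nonneg hcφ (neg_nonneg.mpr h5.le)
      linarith
  have u : volume.real (P1 ∪ P2 ∪ P3 ∪ P4) =
      volume.real P1 + volume.real P2 + volume.real P3 + volume.real P4 := by
    rw [measureReal_union d4 m4 (measure_union_ne_top (measure_union_ne_top t1 t2) t3) t4,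
      measureReal_union d3 m3 (measure_union_ne_top t1 t2) t3, measureReal_union d12 m2 t1 t2]
  have hfin := measureReal_mono (μ := volume)
    (Set.union_subset (Set.union_subset (Set.union_subset k1 k2) k3) k4) tK
  rw [u] at hfin
  linarith

end

end Pool.Agent.Saus
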