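import Pool.Agent.Lib.MP_5a9905_co.Flat
import Pool.Agent.Lib.MP_5a9905_co.Angle
import Pool.Agent.Lib.MP_5a9905_co.Cut
import Pool.Agent.Lib.MP_5a9905_co.HCVTwo
import Pool.Agent.Lib.MP_5a9905_co.Kap

/-!
# Sausage project (MP_5a9905_co), module NS: near-sausage configurations
-/

set_option autoImplicit false

open MeasureTheory Finset

namespace Pool.Agent.Saus

noncomputable section

variable {n : ℕ}

namespace NS

/-- Two unit vectors both nearly opposite to a third one are close to each other. -/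
theorem opp {d : ℕ} (a a' z : E d) (ha : ‖a‖ = 1) (ha' : ‖a'‖ = 1) (hz : ‖z‖ = 1)
    (h : inner ℝ a z < -√(7 / 8)) (h' : inner ℝ a' z < -√(7 / 8)) :
    3 / 4 < inner ℝ a a' := by
  set p : ℝ := inner ℝ a z with hp
  set q : ℝ := inner ℝ a' z with hq
  have hs : √(7 / 8 : ℝ) ^ 2 = 7 / 8 := Real.sq_sqrt (by norm_num)
  have hs0 : 0 < √(7 / 8 : ℝ) := Real.sqrt_pos.2 (by norm_num)
  have hp2 : 7 / 8 < p ^ 2 := by nlinarith
  have hq2 : 7 / 8 < q ^ 2 := by nlinarith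
  have hpq : 7 / 8 < p * q := by nlinarith
  have hza : inner ℝ z a = p := real_inner_comm _ _
  have hza' : inner ℝ z a' = q := real_inner_comm _ _
  have haa : inner ℝ a a = (1 : ℝ) := by rw [real_inner_self_eq_norm_sq, ha]; norm_num
  have haa' : inner ℝ a' a' = (1 : ℝ) := by rw [real_inner_self_eq_norm_sq, ha']; norm_num
  have hzz : inner ℝ z z = (1 : ℝ) := by rw [real_inner_self_eq_norm_sq, hz]; norm_num
  have hc : inner ℝ a' a = inner ℝ a a' := real_inner_comm _ _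
  have key : 0 ≤ ‖(a - p • z) + (a' - q • z)‖ ^ 2 := sq_nonneg _
  rw [← real_inner_self_eq_norm_sq] at key
  simp only [inner_add_left, inner_add_right, inner_sub_left, inner_sub_right, inner_smul_left,
    inner_smul_right, haa, haa', hzz, hza, hza', ← hp, ← hq, hc, conj_trivial] at key
  nlinarith

/-- The version for non-normalised vectors. -/
theorem opp' {d : ℕ} {a a' z : E d} (ha : 0 < ‖a‖) (ha' : 0 < ‖a'‖) (hz : 0 < ‖z‖)
    (h : inner ℝ a z < -√(7 / 8) * (‖a‖ * ‖z‖)) (h' : inner ℝ a' z < -√(7 / 8) * (‖a'‖ * ‖z‖)) :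
    3 / 4 * (‖a‖ * ‖a'‖) < inner ℝ a a' := by
  have e1 : ∀ {x : E d}, 0 < ‖x‖ → ‖‖x‖⁻¹ • x‖ = 1 := by
    intro x hx
    rw [norm_smul, norm_inv, norm_norm, inv_mul_cancel₀ hx.ne']
  have e2 : ∀ x x' : E d, inner ℝ (‖x‖⁻¹ • x) (‖x'‖⁻¹ • x') = inner ℝ x x' / (‖x‖ * ‖x'‖) := by
    intro x x'
    rw [inner_smul_left, inner_smul_right, conj_trivial, div_eq_mul_inv, mul_inv]
    ring
  have := opp (‖a‖⁻¹ • a) (‖a'‖⁻¹ • a') (‖z‖⁻¹ • z) (e1 ha) (e1 ha') (e1 hz)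
    (by rw [e2, div_lt_iff₀ (mul_pos ha hz)]; exact h)
    (by rw [e2, div_lt_iff₀ (mul_pos ha' hz)]; exact h')
  rw [e2, lt_div_iff₀ (mul_pos ha ha')] at this
  exact this

/-- A vector cannot be within `60°` of two nearly opposite vectors. -/
theorem not_both {d : ℕ} {a y z : E d} (ha : 0 < ‖a‖) (hy : 0 < ‖y‖) (hz : 0 < ‖z‖)
    (h : inner ℝ y z < -√(7 / 8) * (‖y‖ * ‖z‖)) (h1 : 1 / 2 * (‖a‖ * ‖y‖) < inner ℝ a y)
    (h2 : 1 / 2 * (‖a‖ * ‖z‖) < inner ℝ a z) : False := by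
  have e2 : ∀ x x' : E d, inner ℝ (‖x‖⁻¹ • x) (‖x'‖⁻¹ • x') = inner ℝ x x' / (‖x‖ * ‖x'‖) := by
    intro x x'
    rw [inner_smul_left, inner_smul_right, conj_trivial, div_eq_mul_inv, mul_inv]
    ring
  have e3 : ∀ {x : E d}, 0 < ‖x‖ → inner ℝ (‖x‖⁻¹ • x) (‖x‖⁻¹ • x) = (1 : ℝ) := by
    intro x hx
    rw [e2, real_inner_self_eq_norm_mul_norm, div_self (mul_pos hx hx).ne']
  have g := (div_lt_iff₀ (mul_pos hy hz)).2 h
  have g1 := (lt_div_iff₀ (mul_pos ha hy)).2 h1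
  have g2 := (lt_div_iff₀ (mul_pos ha hz)).2 h2
  rw [← e2] at g g1 g2
  have hs : 1 / 2 < √(7 / 8 : ℝ) := by
    rw [Real.lt_sqrt (by norm_num)]; norm_num
  have key : 0 ≤ ‖‖a‖⁻¹ • a - (‖y‖⁻¹ • y + ‖z‖⁻¹ • z)‖ ^ 2 := sq_nonneg _
  rw [← real_inner_self_eq_norm_sq] at key
  have c1 : inner ℝ (‖y‖⁻¹ • y) (‖a‖⁻¹ • a) = inner ℝ (‖a‖⁻¹ • a) (‖y‖⁻¹ • y) :=
    real_inner_comm _ _
  have c2 : inner ℝ (‖z‖⁻¹ • z) (‖a‖⁻¹ • a) = inner ℝ (‖a‖⁻¹ • a) (‖z‖⁻¹ • z) :=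
    real_inner_comm _ _
  have c3 : inner ℝ (‖z‖⁻¹ • z) (‖y‖⁻¹ • y) = inner ℝ (‖y‖⁻¹ • y) (‖z‖⁻¹ • z) :=
    real_inner_comm _ _
  rw [inner_sub_left, inner_sub_right, inner_sub_right, inner_add_left, inner_add_left,
    inner_add_right, inner_add_right, inner_add_right, e3 ha, e3 hy, e3 hz, c1, c2, c3] at key
  linarith

/-- Numerical inequality for the volumes of balls. -/
theorem kap_ratio {m : ℕ} (hm : 2 ≤ m) : kap (m + 1) ≤ 4 / 3 * kap m := by
  induction m, hm using Nat.le_induction with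
  | base =>
    have h2 : kap 2 = Real.pi := by
      have := kap_add_two 0
      rw [kap_zero] at this
      simpa using this
    have h3 : kap (2 + 1) = 4 / 3 * Real.pi := by
      have := kap_add_two 1
      rw [kap_one] at this
      rw [show (2 + 1 : ℕ) = 1 + 2 from rfl, this]
      norm_num
      ring
    rw [h3, h2]
  | succ m hm ih =>
    have h1 := kap_ratio_anti m
    have h2 := kap_pos m
    have h3 := kap_pos (m + 1)
    have h4 : kap (m + 2) * kap m ≤ (4 / 3 * kap (m + 1)) * kap m := by nlinarith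
    exact le_of_mul_le_mul_right h4 h2

end NS

/-- D10 NS. Near-sausage. -/
theorem near_sausage (hn : 6 ≤ n) {Y : Finset (E (n + 2))} {K : Set (E (n + 2))}
    (hL : Loc (n + 2) Y K)
    (h₁ : ∀ y ∈ Y, ∀ y' ∈ Y, y ≠ y' → 1 / 2 * (‖y‖ * ‖y'‖) < inner ℝ y y' ∨
      inner ℝ y y' < -√(7 / 8) * (‖y‖ * ‖y'‖))
    (h₂ : ∃ y ∈ Y, ∃ y' ∈ Y, inner ℝ y y' ≤ 1 / 2 * (‖y‖ * ‖y'‖)) :
    2 * kap (n + 1) ≤ volume.real (K ∩ Vor Y) := by
  classical
  have hpos : ∀ y ∈ Y, 0 < ‖y‖ := fun y hy => lt_of_lt_of_le (by norm_num) (hL.far y hy)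
  obtain ⟨y0, hy0, z0, hz0, hle⟩ := h₂
  have hne : y0 ≠ z0 := by
    intro h
    subst h
    rw [real_inner_self_eq_norm_mul_norm] at hle
    have := mul_pos (hpos y0 hy0) (hpos y0 hy0)
    linarith
  have hopp : inner ℝ y0 z0 < -√(7 / 8) * (‖y0‖ * ‖z0‖) := by
    rcases h₁ y0 hy0 z0 hz0 hne with h | h
    · exact absurd h (not_lt.2 hle)
    · exact h
  have hopp' : inner ℝ z0 y0 < -√(7 / 8) * (‖z0‖ * ‖y0‖) := by
    rw [real_inner_comm, mul_comm ‖z0‖]; exact hopp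
  -- every centre is nearly opposite to `z0` or to `y0`
  have hAB : ∀ y ∈ Y, inner ℝ y z0 < -√(7 / 8) * (‖y‖ * ‖z0‖) ∨
      inner ℝ y y0 < -√(7 / 8) * (‖y‖ * ‖y0‖) := by
    intro y hy
    by_cases e1 : y = y0
    · left; rw [e1]; exact hopp
    by_cases e2 : y = z0
    · right; rw [e2]; exact hopp'
    rcases h₁ y hy y0 hy0 e1 with h | h
    · rcases h₁ y hy z0 hz0 e2 with h' | h'
      · exact (NS.not_both (hpos y hy) (hpos y0 hy0) (hpos z0 hz0) hopp h h').elim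
      · exact Or.inl h'
    · exact Or.inr h
  -- each of the two classes contains at most one near neighbour
  have hone : ∀ z ∈ Y, (Y.filter (fun w => xi w < 2 ∧
      inner ℝ w z < -√(7 / 8) * (‖w‖ * ‖z‖))).card ≤ 1 := by
    intro z hz
    rw [Finset.card_le_one]
    intro w hw w' hw'
    rw [Finset.mem_filter] at hw hw'
    by_contra hww
    have h1 := NS.opp' (hpos w hw.1) (hpos w' hw'.1) (hpos z hz) hw.2.2 hw'.2.2
    have h2 := angle_near hL hw.1 hw'.1 hww le_rfl hw.2.1.le hw'.2.1.le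
    norm_num at h1 h2
    linarith
  have hcard : (Y.filter (fun w => xi w < 2)).card ≤ 2 := by
    have hsub : Y.filter (fun w => xi w < 2) ⊆
        Y.filter (fun w => xi w < 2 ∧ inner ℝ w z0 < -√(7 / 8) * (‖w‖ * ‖z0‖)) ∪
        Y.filter (fun w => xi w < 2 ∧ inner ℝ w y0 < -√(7 / 8) * (‖w‖ * ‖y0‖)) := by
      intro w hw
      rw [Finset.mem_filter] at hw
      rw [Finset.mem_union, Finset.mem_filter, Finset.mem_filter]
      rcases hAB w hw.1 with h | h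
      · exact Or.inl ⟨hw.1, hw.2, h⟩
      · exact Or.inr ⟨hw.1, hw.2, h⟩
    calc (Y.filter (fun w => xi w < 2)).card ≤ _ := Finset.card_le_card hsub
      _ ≤ _ := Finset.card_union_le _ _
      _ ≤ 1 + 1 := Nat.add_le_add (hone z0 hz0) (hone y0 hy0)
  have hcardR : ((Y.filter (fun w => xi w < 2)).card : ℝ) ≤ 2 := by exact_mod_cast hcard
  -- the volume estimate
  set c : ℝ := inner ℝ y0 z0 / (‖y0‖ * ‖z0‖) with hc
  have hyz : 0 < ‖y0‖ * ‖z0‖ := mul_pos (hpos y0 hy0) (hpos z0 hz0)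
  have hceq : inner ℝ y0 z0 = c * (‖y0‖ * ‖z0‖) := by rw [hc, div_mul_cancel₀ _ hyz.ne']
  have hclt : c < -√(7 / 8) := by rw [hc, div_lt_iff₀ hyz]; exact hopp
  have hs : 187 / 200 < √(7 / 8 : ℝ) := by
    rw [Real.lt_sqrt (by norm_num)]; norm_num
  have hflat := flat hL hy0 hz0 hceq (by linarith)
  set e : ℝ := √(2 + 2 * c) with he
  have he0 : 0 ≤ e := Real.sqrt_nonneg _
  have he1 : e ≤ 3 / 8 := by
    rw [he]
    rw [Real.sqrt_le_left (by norm_num)]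
    linarith
  have hk := NS.kap_ratio (m := n) (by omega)
  have hkn := kap_pos n
  have hn' : (6 : ℝ) ≤ n := by exact_mod_cast hn
  have hfrac : 4 / ((n : ℝ) + 2) ≤ 1 / 2 := by
    rw [div_le_div_iff₀ (by linarith) (by norm_num)]
    linarith
  have hbr : 0 ≤ (1 - 4 / ((n : ℝ) + 2)) * kap n - e * kap (n + 1) := by
    have h1 : 1 / 2 * kap n ≤ (1 - 4 / ((n : ℝ) + 2)) * kap n := by nlinarith
    have h2 : e * kap (n + 1) ≤ 3 / 8 * kap (n + 1) :=
      mul_le_mul_of_nonneg_right he1 (kap_pos _).le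
    linarith
  have hbr' := mul_nonneg he0 hbr
  have hcut := cut_two hL
  have hx := hcv_two (n := n)
  have hseg : 0 ≤ seg1 n := measureReal_nonneg
  have hcs : ((Y.filter (fun w => xi w < 2)).card : ℝ) * seg1 n ≤ 2 * seg1 n :=
    mul_le_mul_of_nonneg_right hcardR hseg
  linarith

end

end Pool.Agent.Saus
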