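import Pool.Agent.Lib.MP_5a9905_co.Defs
import Pool.Agent.Lib.MP_5a9905_co.Plane
import Pool.Agent.Lib.MP_5a9905_co.Rot
import Pool.Agent.Lib.MP_5a9905_co.Sector
import Pool.Agent.Lib.MP_5a9905_co.HCK

set_option autoImplicit false

open MeasureTheory

namespace Pool.Agent.Saus

noncomputable section

variable {n : ℕ}

namespace Wide1Aux

theorem volume_Bl_ne_top (d : ℕ) (R : ℝ) : volume (Bl d R) ≠ ⊤ := by
  have h : Bl d R ⊆ Metric.closedBall (0 : E d) (√(max R 0)) := by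
    intro z hz
    rw [mem_closedBall_zero_iff]
    refine Real.le_sqrt_of_sq_le ?_
    exact le_trans hz (le_max_left _ _)
  exact ne_top_of_le_ne_top Metric.isBounded_closedBall.measure_lt_top.ne (measure_mono h)

theorem null_hyper {d : ℕ} (f : E d) (hf : ‖f‖ = 1) : volume {z : E d | inner ℝ f z = (0 : ℝ)} = 0 := by
  set P : Submodule ℝ (E d) := LinearMap.ker (innerSL ℝ f : E d →L[ℝ] ℝ).toLinearMap with hP
  have h : {z : E d | inner ℝ f z = (0 : ℝ)} = (P : Set (E d)) := by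
    ext z
    simp [hP]
  rw [h]
  refine Measure.addHaar_submodule _ _ fun htop => ?_
  have h1 : f ∈ P := by
    rw [htop]; trivial
  have h2 : inner ℝ f f = (0 : ℝ) := by simpa [hP] using h1
  rw [real_inner_self_eq_norm_sq, hf] at h2
  norm_num at h2

/-- the half of a half-cylinder on one side of a plane through its axis -/
theorem half_hc (u f : E (n + 2)) (hu : ‖u‖ = 1) (hf : ‖f‖ = 1) (h : inner ℝ u f = (0 : ℝ))
    (R : ℝ) :
    hcv n R / 2 ≤ volume.real (HC u ∩ Bl (n + 2) R ∩ {z | 0 < inner ℝ f z}) := by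
  rw [← hcv_eq u hu R]
  set A : Set (ℝ × ℝ × ℝ) := {a | 0 ≤ a.1 ∧ a.2.2 ≤ a.1 ^ 2 + 1 ∧ a.2.2 ≤ R ∧ 0 < a.2.1} with hA
  have hAm : MeasurableSet A := by
    have m1 : MeasurableSet {a : ℝ × ℝ × ℝ | 0 ≤ a.1} :=
      measurableSet_le (by fun_prop) (by fun_prop)
    have m2 : MeasurableSet {a : ℝ × ℝ × ℝ | a.2.2 ≤ a.1 ^ 2 + 1} :=
      measurableSet_le (by fun_prop) (by fun_prop)
    have m3 : MeasurableSet {a : ℝ × ℝ × ℝ | a.2.2 ≤ R} :=
      measurableSet_le (by fun_prop) (by fun_prop)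
    have m4 : MeasurableSet {a : ℝ × ℝ × ℝ | 0 < a.2.1} :=
      measurableSet_lt (by fun_prop) (by fun_prop)
    exact m1.inter (m2.inter (m3.inter m4))
  have e1 := plane_measure u f hu hf h A hAm
  have e2 := plane_measure u (-f) hu (by rw [norm_neg, hf]) (by rw [inner_neg_right, h, neg_zero])
    A hAm
  rw [← e1] at e2
  have s1 : {z : E (n + 2) | (inner ℝ u z, inner ℝ f z, ‖z‖ ^ 2) ∈ A} =
      HC u ∩ Bl (n + 2) R ∩ {z | 0 < inner ℝ f z} := by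
    ext z
    simp only [hA, HC, Bl, Set.mem_ofPred_eq, Set.mem_inter_iff]
    tauto
  have s2 : {z : E (n + 2) | (inner ℝ u z, inner ℝ (-f) z, ‖z‖ ^ 2) ∈ A} =
      HC u ∩ Bl (n + 2) R ∩ {z | inner ℝ f z < 0} := by
    ext z
    simp only [hA, HC, Bl, Set.mem_ofPred_eq, Set.mem_inter_iff, inner_neg_left, Left.neg_pos_iff]
    tauto
  rw [s1, s2] at e2
  have hfin : ∀ S : Set (E (n + 2)), volume (HC u ∩ Bl (n + 2) R ∩ S) ≠ ⊤ := fun S =>
    ne_top_of_le_ne_top (volume_Bl_ne_top (n + 2) R)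
      (measure_mono fun z hz => hz.1.2)
  have hcov : HC u ∩ Bl (n + 2) R ⊆ (HC u ∩ Bl (n + 2) R ∩ {z | 0 < inner ℝ f z} ∪
      HC u ∩ Bl (n + 2) R ∩ {z | inner ℝ f z < 0}) ∪ {z : E (n + 2) | inner ℝ f z = (0 : ℝ)} := by
    intro z hz
    rcases lt_trichotomy (inner ℝ f z : ℝ) 0 with h1 | h1 | h1
    · exact Or.inl (Or.inr ⟨hz, h1⟩)
    · exact Or.inr h1
    · exact Or.inl (Or.inl ⟨hz, h1⟩)
  have hle : volume (HC u ∩ Bl (n + 2) R) ≤
      2 * volume (HC u ∩ Bl (n + 2) R ∩ {z | 0 < inner ℝ f z}) := by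
    calc volume (HC u ∩ Bl (n + 2) R) ≤ _ := measure_mono hcov
      _ ≤ _ := measure_union_le _ _
      _ ≤ (volume (HC u ∩ Bl (n + 2) R ∩ {z | 0 < inner ℝ f z}) +
        volume (HC u ∩ Bl (n + 2) R ∩ {z | inner ℝ f z < 0})) + 0 := by
          rw [null_hyper f hf]
          exact add_le_add (measure_union_le _ _) le_rfl
      _ = _ := by rw [e2, add_zero, two_mul]
  have hfin' := hfin {z | 0 < inner ℝ f z}
  have := ENNReal.toReal_mono (ENNReal.mul_ne_top (by norm_num) hfin') hle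
  rw [ENNReal.toReal_mul] at this
  simp only [Measure.real]
  norm_num at this
  linarith

/-- area of the unit disc -/
theorem disc : volume {p : ℝ × ℝ | p.1 ^ 2 + p.2 ^ 2 ≤ 1} = ENNReal.ofReal Real.pi := by
  have h1 := Complex.volume_preserving_equiv_real_prod
  have h2 : volume (Metric.closedBall (0 : ℂ) 1) = ENNReal.ofReal Real.pi := by
    rw [Complex.volume_closedBall]
    simp
    rw [← NNReal.coe_real_pi, ENNReal.ofReal_coe_nnreal]
  rw [← h2, ← h1.measure_preimage_emb (MeasurableEquiv.measurableEmbedding _)]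
  congr 1
  ext z
  simp only [Set.mem_preimage, Set.mem_ofPred_eq, Complex.measurableEquivRealProd_apply,
    mem_closedBall_zero_iff]
  rw [← Complex.normSq_add_mul_I z.re z.im, Complex.re_add_im, Complex.normSq_eq_norm_sq]
  constructor
  · intro h
    exact (sq_le_one_iff₀ (norm_nonneg _)).mp h
  · intro h
    exact (sq_le_one_iff₀ (norm_nonneg _)).mpr h

/-- the quarter of the product of two balls -/
theorem quarter (f₁ f₂ : E (n + 2)) (h₁ : ‖f₁‖ = 1) (h₂ : ‖f₂‖ = 1)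
    (h : inner ℝ f₁ f₂ = (0 : ℝ)) :
    Real.pi / 4 * kap n ≤ volume.real {z : E (n + 2) | (0 < inner ℝ f₁ z ∧ 0 < inner ℝ f₂ z) ∧
      ((inner ℝ f₁ z) ^ 2 + (inner ℝ f₂ z) ^ 2 ≤ 1 ∧
      ‖z‖ ^ 2 ≤ (inner ℝ f₁ z) ^ 2 + (inner ℝ f₂ z) ^ 2 + 1)} := by
  set S : Set (ℝ × ℝ) := {a | a.1 ≤ 1 ∧ a.2 ≤ a.1 + 1} with hS
  have hSm : MeasurableSet S := by
    have m1 : MeasurableSet {a : ℝ × ℝ | a.1 ≤ 1} :=
      measurableSet_le (by fun_prop) (by fun_prop)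
    have m2 : MeasurableSet {a : ℝ × ℝ | a.2 ≤ a.1 + 1} :=
      measurableSet_le (by fun_prop) (by fun_prop)
    exact m1.inter m2
  have hsec := sector_measure f₁ f₂ h₁ h₂ h (α := 0) (β := Real.pi / 2) (by positivity)
    (by linarith [Real.pi_pos]) S hSm
  set A : Set (ℝ × ℝ × ℝ) := {a | a.1 ^ 2 + a.2.1 ^ 2 ≤ 1 ∧ a.2.2 ≤ a.1 ^ 2 + a.2.1 ^ 2 + 1} with hA
  have hAm : MeasurableSet A := by
    have m1 : MeasurableSet {a : ℝ × ℝ × ℝ | a.1 ^ 2 + a.2.1 ^ 2 ≤ 1} :=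
      measurableSet_le (by fun_prop) (by fun_prop)
    have m2 : MeasurableSet {a : ℝ × ℝ × ℝ | a.2.2 ≤ a.1 ^ 2 + a.2.1 ^ 2 + 1} :=
      measurableSet_le (by fun_prop) (by fun_prop)
    exact m1.inter m2
  have e1 := plane_measure f₁ f₂ h₁ h₂ h A hAm
  have s1 : {q : (ℝ × ℝ) × E n | (q.1.1, q.1.2, q.1.1 ^ 2 + q.1.2 ^ 2 + ‖q.2‖ ^ 2) ∈ A} =
      {p : ℝ × ℝ | p.1 ^ 2 + p.2 ^ 2 ≤ 1} ×ˢ Metric.closedBall (0 : E n) 1 := by
    ext q
    simp only [hA, Set.mem_ofPred_eq, Set.mem_prod, mem_closedBall_zero_iff, add_le_add_iff_left]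
    rw [sq_le_one_iff₀ (norm_nonneg _)]
  rw [s1, Measure.volume_eq_prod, Measure.prod_prod, disc] at e1
  have s2 : {z : E (n + 2) | ((inner ℝ f₁ z) ^ 2 + (inner ℝ f₂ z) ^ 2, ‖z‖ ^ 2) ∈ S} =
      {z : E (n + 2) | (inner ℝ f₁ z, inner ℝ f₂ z, ‖z‖ ^ 2) ∈ A} := rfl
  rw [s2, e1] at hsec
  have hfin : volume {z : E (n + 2) | (0 < inner ℝ f₁ z ∧ 0 < inner ℝ f₂ z) ∧
      ((inner ℝ f₁ z) ^ 2 + (inner ℝ f₂ z) ^ 2 ≤ 1 ∧
      ‖z‖ ^ 2 ≤ (inner ℝ f₁ z) ^ 2 + (inner ℝ f₂ z) ^ 2 + 1)} ≠ ⊤ := by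
    refine ne_top_of_le_ne_top (volume_Bl_ne_top (n + 2) 2) (measure_mono fun z hz => ?_)
    show ‖z‖ ^ 2 ≤ 2
    have h3 := hz.2.1
    have h4 := hz.2.2
    linarith
  have hle := measure_mono (μ := volume) (show {z : E (n + 2) | (∃ ρ t : ℝ, 0 < ρ ∧ 0 < t ∧
      t < Real.pi / 2 ∧ inner ℝ f₁ z = ρ * Real.cos t ∧
        inner ℝ f₂ z = ρ * Real.sin t) ∧
        ((inner ℝ f₁ z) ^ 2 + (inner ℝ f₂ z) ^ 2, ‖z‖ ^ 2) ∈ S} ⊆
      {z : E (n + 2) | (0 < inner ℝ f₁ z ∧ 0 < inner ℝ f₂ z) ∧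
      ((inner ℝ f₁ z) ^ 2 + (inner ℝ f₂ z) ^ 2 ≤ 1 ∧
      ‖z‖ ^ 2 ≤ (inner ℝ f₁ z) ^ 2 + (inner ℝ f₂ z) ^ 2 + 1)} from by
    rintro z ⟨⟨ρ, t, hρ, ht0, ht1, hc, hs⟩, hz⟩
    refine ⟨⟨?_, ?_⟩, hz⟩
    · rw [hc]
      exact mul_pos hρ (Real.cos_pos_of_mem_Ioo ⟨by linarith, ht1⟩)
    · rw [hs]
      exact mul_pos hρ (Real.sin_pos_of_pos_of_lt_pi ht0 (by linarith [Real.pi_pos])))
  rw [hsec] at hle
  have := ENNReal.toReal_mono hfin hle
  rw [ENNReal.toReal_mul, ENNReal.toReal_mul, ENNReal.toReal_ofReal Real.pi_pos.le,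
    ENNReal.toReal_ofReal (by rw [sub_zero]; positivity)] at this
  have h5 : (Real.pi / 2 - 0) / (2 * Real.pi) = 1 / 4 := by
    field_simp
    norm_num
  rw [h5] at this
  have h6 : kap n = (volume (Metric.closedBall (0 : E n) 1)).toReal := rfl
  rw [h6]
  simp only [Measure.real]
  linarith

/-- the triangle spanned by the origin and two centres, thickened by one, lies in `K` -/
theorem in_K {Y : Finset (E (n + 2))} {K : Set (E (n + 2))} (hL : Loc (n + 2) Y K)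
    {y y' : E (n + 2)} (hy : y ∈ Y) (hy' : y' ∈ Y) {l m : ℝ} (hl : 0 ≤ l) (hm : 0 ≤ m)
    (hlm : l + m ≤ 1) {x z : E (n + 2)} (hx : ‖x‖ ≤ 1) (hz : z = l • y + m • y' + x) : z ∈ K := by
  have h0 : x ∈ K := hL.ball_zero (by rwa [mem_closedBall_zero_iff])
  have h1 : y + x ∈ K := hL.ball y hy (by rw [mem_closedBall_iff_norm]; simpa using hx)
  have h2 : y' + x ∈ K := hL.ball y' hy' (by rw [mem_closedBall_iff_norm]; simpa using hx)
  rcases (add_nonneg hl hm).eq_or_lt with h3 | h3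
  · have hl0 : l = 0 := by linarith
    have hm0 : m = 0 := by linarith
    rw [hz, hl0, hm0]
    simpa using h0
  · have h4 : (l / (l + m)) • (y + x) + (m / (l + m)) • (y' + x) ∈ K :=
      hL.convex h1 h2 (by positivity) (by positivity) (by field_simp)
    have h5 := hL.convex h0 h4 (show 0 ≤ 1 - (l + m) by linarith) h3.le (by ring)
    have h6 : (1 - (l + m)) • x + (l + m) • ((l / (l + m)) • (y + x) + (m / (l + m)) • (y' + x))
        = z := by
      rw [hz, smul_add (l + m), smul_smul, smul_smul, mul_div_cancel₀ _ h3.ne',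
        mul_div_cancel₀ _ h3.ne', smul_add, smul_add, sub_smul, add_smul, one_smul]
      abel
    rwa [h6] at h5

/-- orthonormal frames adapted to two directions -/
theorem frame {d : ℕ} (u v : E d) (hu : ‖u‖ = 1) (hv : ‖v‖ = 1) {c : ℝ} (hc : inner ℝ u v = c)
    (hs2 : 0 < 1 - c ^ 2) :
    ∃ (f g : E d) (s : ℝ), 0 < s ∧ s ^ 2 = 1 - c ^ 2 ∧ ‖f‖ = 1 ∧ inner ℝ u f = (0 : ℝ) ∧
      v = c • u + s • f ∧ ‖g‖ = 1 ∧ inner ℝ v g = (0 : ℝ) ∧
      (∀ z : E d, inner ℝ v z = c * inner ℝ u z + s * inner ℝ f z) ∧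
      ∀ z : E d, inner ℝ g z = -s * inner ℝ u z + c * inner ℝ f z := by
  obtain ⟨s, hs⟩ : ∃ s : ℝ, s = √(1 - c ^ 2) := ⟨_, rfl⟩
  have hspos : 0 < s := by rw [hs]; exact Real.sqrt_pos.mpr hs2
  have hss : s ^ 2 = 1 - c ^ 2 := by rw [hs]; exact Real.sq_sqrt hs2.le
  obtain ⟨f, hf_def⟩ : ∃ f : E d, f = s⁻¹ • (v - c • u) := ⟨_, rfl⟩
  have huu : inner ℝ u u = (1 : ℝ) := by rw [real_inner_self_eq_norm_sq, hu]; norm_num
  have hvv : inner ℝ v v = (1 : ℝ) := by rw [real_inner_self_eq_norm_sq, hv]; norm_num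
  have hcu : inner ℝ v u = c := by rw [real_inner_comm, hc]
  have huf : inner ℝ u f = (0 : ℝ) := by
    rw [hf_def, inner_smul_right, inner_sub_right, inner_smul_right, huu, hc]
    ring
  have hff : inner ℝ f f = (1 : ℝ) := by
    have h2 : inner ℝ (v - c • u) (v - c • u) = s ^ 2 := by
      rw [hss, inner_sub_left, inner_sub_right, inner_sub_right, inner_smul_left, inner_smul_right,
        inner_smul_left, inner_smul_right, huu, hvv, hcu, hc]
      simp only [conj_trivial]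
      ring
    rw [hf_def, inner_smul_left, inner_smul_right, h2]
    simp only [conj_trivial]
    field_simp
  have hf : ‖f‖ = 1 := by
    have h2 : ‖f‖ ^ 2 = 1 := by rw [← real_inner_self_eq_norm_sq, hff]
    nlinarith [norm_nonneg f]
  have hvuf : v = c • u + s • f := by
    rw [hf_def, smul_smul, mul_inv_cancel₀ hspos.ne', one_smul]
    abel
  have hfu : inner ℝ f u = (0 : ℝ) := by rw [real_inner_comm, huf]
  obtain ⟨g, hg_def⟩ : ∃ g : E d, g = (-s) • u + c • f := ⟨_, rfl⟩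
  have hvz : ∀ z : E d, inner ℝ v z = c * inner ℝ u z + s * inner ℝ f z := by
    intro z
    conv_lhs => rw [hvuf]
    rw [inner_add_left, inner_smul_left, inner_smul_left]
    simp only [conj_trivial]
  have hgz : ∀ z : E d, inner ℝ g z = -s * inner ℝ u z + c * inner ℝ f z := by
    intro z
    rw [hg_def, inner_add_left, inner_smul_left, inner_smul_left]
    simp only [conj_trivial]
  have hgu : inner ℝ g u = -s := by rw [hgz, huu, hfu]; ring
  have hgf : inner ℝ g f = c := by rw [hgz, huf, hff]; ring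
  have hg : ‖g‖ = 1 := by
    have h2 : ‖g‖ ^ 2 = 1 := by
      rw [← real_inner_self_eq_norm_sq, hgz, real_inner_comm g u, real_inner_comm g f, hgu, hgf]
      linarith
    nlinarith [norm_nonneg g]
  have hvg : inner ℝ v g = (0 : ℝ) := by
    rw [hvz, real_inner_comm g u, real_inner_comm g f, hgu, hgf]
    ring
  exact ⟨f, g, s, hspos, hss, hf, huf, hvuf, hg, hvg, hvz, hgz⟩

/-- distance to the projection on the plane -/
theorem dist_plane {d : ℕ} (u f z : E d) (hu : ‖u‖ = 1) (hf : ‖f‖ = 1)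
    (huf : inner ℝ u f = (0 : ℝ)) :
    ‖z - ((inner ℝ u z : ℝ) • u + (inner ℝ f z : ℝ) • f)‖ ^ 2 =
      ‖z‖ ^ 2 - (inner ℝ u z) ^ 2 - (inner ℝ f z) ^ 2 := by
  have huu : inner ℝ u u = (1 : ℝ) := by rw [real_inner_self_eq_norm_sq, hu]; norm_num
  have hff : inner ℝ f f = (1 : ℝ) := by rw [real_inner_self_eq_norm_sq, hf]; norm_num
  have hfu : inner ℝ f u = (0 : ℝ) := by rw [real_inner_comm, huf]
  have h1 : inner ℝ z u = (inner ℝ u z : ℝ) := real_inner_comm _ _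
  have h2 : inner ℝ z f = (inner ℝ f z : ℝ) := real_inner_comm _ _
  rw [← real_inner_self_eq_norm_sq, ← real_inner_self_eq_norm_sq]
  simp only [inner_sub_left, inner_sub_right, inner_add_left, inner_add_right, inner_smul_left,
    inner_smul_right, huu, hff, huf, hfu, h1, h2, conj_trivial]
  ring

/-- points over the planar quarter disc -/
theorem quarter_in_K {Y : Finset (E (n + 2))} {K : Set (E (n + 2))} (hL : Loc (n + 2) Y K)
    {y y' : E (n + 2)} (hy : y ∈ Y) (hy' : y' ∈ Y) {u v f : E (n + 2)} {a b c s : ℝ} (ha : 2 ≤ a)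
    (hb : 2 ≤ b) (hyu : y = a • u) (hyv : y' = b • v) (hu : ‖u‖ = 1) (hf : ‖f‖ = 1)
    (huf : inner ℝ u f = (0 : ℝ)) (hvuf : v = c • u + s • f) (hc0 : c ≤ 0) (hc1 : -(1 / 2) ≤ c)
    (hspos : 0 < s) (hss : s ^ 2 = 1 - c ^ 2) {z : E (n + 2)} (h1 : 0 < inner ℝ u z)
    (h2 : 0 < inner ℝ f z) (h3 : (inner ℝ u z) ^ 2 + (inner ℝ f z) ^ 2 ≤ 1)
    (h4 : ‖z‖ ^ 2 ≤ (inner ℝ u z) ^ 2 + (inner ℝ f z) ^ 2 + 1) : z ∈ K := by
  have h7 := dist_plane u f z hu hf huf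
  obtain ⟨p, hp⟩ : ∃ p : ℝ, p = inner ℝ u z := ⟨_, rfl⟩
  obtain ⟨q, hq⟩ : ∃ q : ℝ, q = inner ℝ f z := ⟨_, rfl⟩
  rw [← hp, ← hq] at h3 h4 h7
  rw [← hp] at h1
  rw [← hq] at h2
  obtain ⟨β, hβ⟩ : ∃ β : ℝ, β = q / s := ⟨_, rfl⟩
  obtain ⟨α, hα⟩ : ∃ α : ℝ, α = p - c * β := ⟨_, rfl⟩
  have hβ0 : 0 < β := by rw [hβ]; positivity
  have hα0 : 0 ≤ α := by nlinarith
  have hqs : q = s * β := by rw [hβ]; field_simp
  have hps : p = α + c * β := by rw [hα]; ring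
  have hab : (α + β) ^ 2 ≤ 4 := by
    have h5 : p ^ 2 + q ^ 2 = α ^ 2 + β ^ 2 + 2 * c * (α * β) := by
      rw [hps, hqs]
      linear_combination β ^ 2 * hss
    nlinarith [mul_nonneg hα0 hβ0.le, sq_nonneg (α - β)]
  have hab2 : α + β ≤ 2 := by nlinarith
  have hx : ‖z - (p • u + q • f)‖ ≤ 1 := by
    nlinarith [norm_nonneg (z - (p • u + q • f))]
  have ha0 : 0 < a := by linarith
  have hb0 : 0 < b := by linarith
  refine in_K hL hy hy' (l := α / a) (m := β / b) (by positivity) (by positivity) ?_ hx ?_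
  · have h8 : α / a ≤ α / 2 := div_le_div_of_nonneg_left hα0 (by norm_num) ha
    have h9 : β / b ≤ β / 2 := div_le_div_of_nonneg_left hβ0.le (by norm_num) hb
    linarith
  · rw [hyu, hyv, smul_smul, smul_smul, div_mul_cancel₀ _ ha0.ne', div_mul_cancel₀ _ hb0.ne', hvuf,
      hps, hqs]
    module

end Wide1Aux

open Wide1Aux in
/-- D7 WIDE1. Angle between `90°` and `120°`. -/
theorem wide1 {Y : Finset (E (n + 2))} {K : Set (E (n + 2))} (hL : Loc (n + 2) Y K)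
    {y y' : E (n + 2)} (hy : y ∈ Y) (hy' : y' ∈ Y) (h₀ : inner ℝ y y' ≤ (0 : ℝ))
    (h₁ : -(1 / 2) * (‖y‖ * ‖y'‖) ≤ inner ℝ y y') :
    hcv n 2 + Real.pi / 4 * kap n ≤ volume.real (K ∩ Bl (n + 2) 2) := by
  have hyn : 2 ≤ ‖y‖ := hL.far y hy
  have hyn' : 2 ≤ ‖y'‖ := hL.far y' hy'
  obtain ⟨u, hu_def⟩ : ∃ u : E (n + 2), u = ‖y‖⁻¹ • y := ⟨_, rfl⟩
  obtain ⟨v, hv_def⟩ : ∃ v : E (n + 2), v = ‖y'‖⁻¹ • y' := ⟨_, rfl⟩
  have hn0 : ‖y‖ ≠ 0 := by linarith
  have hn0' : ‖y'‖ ≠ 0 := by linarith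
  have hu : ‖u‖ = 1 := by
    rw [hu_def, norm_smul, norm_inv, norm_norm]
    exact inv_mul_cancel₀ hn0
  have hv : ‖v‖ = 1 := by
    rw [hv_def, norm_smul, norm_inv, norm_norm]
    exact inv_mul_cancel₀ hn0'
  have hyu : y = ‖y‖ • u := by
    rw [hu_def, smul_smul, mul_inv_cancel₀ hn0, one_smul]
  have hyv : y' = ‖y'‖ • v := by
    rw [hv_def, smul_smul, mul_inv_cancel₀ hn0', one_smul]
  obtain ⟨c, hc⟩ : ∃ c : ℝ, inner ℝ u v = c := ⟨_, rfl⟩
  have hcy : inner ℝ y y' = c * (‖y‖ * ‖y'‖) := by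
    rw [← hc, hu_def, hv_def, inner_smul_left, inner_smul_right]
    simp only [conj_trivial]
    field_simp
  have hpos : 0 < ‖y‖ * ‖y'‖ := by positivity
  have hc0 : c ≤ 0 := by
    rw [hcy] at h₀
    exact nonpos_of_mul_nonpos_left h₀ hpos
  have hc1 : -(1 / 2) ≤ c := by
    rw [hcy] at h₁
    exact le_of_mul_le_mul_right h₁ hpos
  obtain ⟨f, g, s, hspos, hss, hf, huf, hvuf, hg, hvg, hvz, hgz⟩ :=
    frame u v hu hv hc (by nlinarith)
  -- the three pieces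
  obtain ⟨A, hA⟩ : ∃ A : Set (E (n + 2)), A = {z : E (n + 2) | (0 < inner ℝ u z ∧
      0 < inner ℝ f z) ∧ ((inner ℝ u z) ^ 2 + (inner ℝ f z) ^ 2 ≤ 1 ∧
      ‖z‖ ^ 2 ≤ (inner ℝ u z) ^ 2 + (inner ℝ f z) ^ 2 + 1)} := ⟨_, rfl⟩
  obtain ⟨B, hB⟩ : ∃ B : Set (E (n + 2)), B = HC u ∩ Bl (n + 2) 2 ∩ {z | 0 < inner ℝ (-f) z} :=
    ⟨_, rfl⟩
  obtain ⟨C, hC⟩ : ∃ C : Set (E (n + 2)), C = HC v ∩ Bl (n + 2) 2 ∩ {z | 0 < inner ℝ g z} :=
    ⟨_, rfl⟩
  have vA : Real.pi / 4 * kap n ≤ volume.real A := by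
    rw [hA]
    exact quarter u f hu hf huf
  have vB : hcv n 2 / 2 ≤ volume.real B := by
    rw [hB]
    exact half_hc u (-f) hu (by rw [norm_neg, hf]) (by rw [inner_neg_right, huf, neg_zero]) 2
  have vC : hcv n 2 / 2 ≤ volume.real C := by
    rw [hC]
    exact half_hc v g hv hg hvg 2
  have pA : ∀ z ∈ A, (0 < inner ℝ u z ∧ 0 < inner ℝ f z) ∧
      ((inner ℝ u z) ^ 2 + (inner ℝ f z) ^ 2 ≤ 1 ∧
      ‖z‖ ^ 2 ≤ (inner ℝ u z) ^ 2 + (inner ℝ f z) ^ 2 + 1) := by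
    intro z hz
    rw [hA] at hz
    exact hz
  have pB : ∀ z ∈ B, z ∈ HC u ∩ Bl (n + 2) 2 ∧ 0 ≤ inner ℝ u z ∧ inner ℝ f z < 0 := by
    intro z hz
    rw [hB] at hz
    have h2 : 0 < inner ℝ (-f) z := hz.2
    rw [inner_neg_left] at h2
    exact ⟨hz.1, hz.1.1.1, by linarith⟩
  have pC : ∀ z ∈ C, z ∈ HC v ∩ Bl (n + 2) 2 ∧ 0 ≤ inner ℝ v z ∧ 0 < inner ℝ g z := by
    intro z hz
    rw [hC] at hz
    exact ⟨hz.1, hz.1.1.1, hz.2⟩
  have hAB : Disjoint A B := by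
    rw [Set.disjoint_left]
    rintro z hz1 hz2
    have h1 := (pA z hz1).1.2
    have h2 := (pB z hz2).2.2
    linarith
  have hAC : Disjoint A C := by
    rw [Set.disjoint_left]
    rintro z hz1 hz2
    have h1 := (pA z hz1).1
    have h2 := (pC z hz2).2.2
    rw [hgz] at h2
    have h3 := mul_pos hspos h1.1
    have h4 := mul_nonneg (neg_nonneg.mpr hc0) h1.2.le
    linarith
  have hBC : Disjoint B C := by
    rw [Set.disjoint_left]
    rintro z hz1 hz2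
    have h1 := (pB z hz1).2
    have h3 := (pC z hz2).2.1
    rw [hvz] at h3
    have h4 := mul_pos hspos (neg_pos.mpr h1.2)
    have h5 := mul_nonneg (neg_nonneg.mpr hc0) h1.1
    linarith
  have hBK : B ⊆ K ∩ Bl (n + 2) 2 := by
    intro z hz
    have h1 := (pB z hz).1
    refine ⟨hc_subset hL hy ?_, h1.2⟩
    rw [← hu_def]
    exact h1
  have hCK : C ⊆ K ∩ Bl (n + 2) 2 := by
    intro z hz
    have h1 := (pC z hz).1
    refine ⟨hc_subset hL hy' ?_, h1.2⟩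
    rw [← hv_def]
    exact h1
  have hAK : A ⊆ K ∩ Bl (n + 2) 2 := by
    intro z hz
    obtain ⟨⟨h1, h2⟩, h3, h4⟩ := pA z hz
    refine ⟨quarter_in_K hL hy hy' hyn hyn' hyu hyv hu hf huf hvuf hc0 hc1 hspos hss h1 h2 h3 h4,
      ?_⟩
    show ‖z‖ ^ 2 ≤ 2
    linarith
  have hfin : volume (K ∩ Bl (n + 2) 2) ≠ ⊤ :=
    ne_top_of_le_ne_top (volume_Bl_ne_top (n + 2) 2) (measure_mono Set.inter_subset_right)
  have mu : ∀ w : E (n + 2), Measurable fun z : E (n + 2) => (inner ℝ w z : ℝ) := fun w =>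
    (continuous_const.inner continuous_id).measurable
  have mn : Measurable fun z : E (n + 2) => ‖z‖ ^ 2 := (continuous_norm.pow 2).measurable
  have mHC : ∀ w : E (n + 2), MeasurableSet (HC w) := by
    intro w
    have m1 : MeasurableSet {z : E (n + 2) | 0 ≤ inner ℝ w z} :=
      measurableSet_le measurable_const (mu w)
    have m2 : MeasurableSet {z : E (n + 2) | ‖z‖ ^ 2 ≤ (inner ℝ w z) ^ 2 + 1} :=
      measurableSet_le mn (((mu w).pow_const 2).add_const 1)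
    exact m1.inter m2
  have mBl : MeasurableSet (Bl (n + 2) 2) := measurableSet_le mn measurable_const
  have mB : MeasurableSet B := by
    rw [hB]
    exact ((mHC u).inter mBl).inter (measurableSet_lt measurable_const (mu _))
  have mC : MeasurableSet C := by
    rw [hC]
    exact ((mHC v).inter mBl).inter (measurableSet_lt measurable_const (mu _))
  have fB : volume B ≠ ⊤ := ne_top_of_le_ne_top hfin (measure_mono hBK)
  have fC : volume C ≠ ⊤ := ne_top_of_le_ne_top hfin (measure_mono hCK)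
  have fA : volume A ≠ ⊤ := ne_top_of_le_ne_top hfin (measure_mono hAK)
  have fAB : volume (A ∪ B) ≠ ⊤ :=
    ne_top_of_le_ne_top hfin (measure_mono (Set.union_subset hAK hBK))
  have e1 : volume.real (A ∪ B) = volume.real A + volume.real B :=
    measureReal_union hAB mB fA fB
  have e2 : volume.real (A ∪ B ∪ C) = volume.real (A ∪ B) + volume.real C :=
    measureReal_union (Set.disjoint_union_left.mpr ⟨hAC, hBC⟩) mC fAB fC
  have e3 : volume.real (A ∪ B ∪ C) ≤ volume.real (K ∩ Bl (n + 2) 2) :=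
    measureReal_mono (Set.union_subset (Set.union_subset hAK hBK) hCK) hfin
  linarith

end

end Pool.Agent.Saus
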