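import Mathlib
import Pool.Agent.Lib.MP_5a9905_co.Defs
import Pool.Agent.Lib.MP_5a9905_co.Plane
import Pool.Agent.Lib.MP_5a9905_co.Rot

/-! Sausage project, module WIDE2: two directions at an angle between `120°` and
`arccos (-17/25)`. -/

set_option autoImplicit false
set_option linter.all false

open MeasureTheory

namespace Pool.Agent.Saus

noncomputable section

variable {n : ℕ}

namespace Wide2

theorem Bl_bounded (R : ℝ) : Bornology.IsBounded (Bl (n + 2) R) := by
  refine (Metric.isBounded_closedBall (x := (0 : E (n + 2))) (r := |R| + 1)).subset fun z hz => ?_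
  have hz' : ‖z‖ ^ 2 ≤ R := hz
  rw [mem_closedBall_zero_iff]
  by_contra h
  push Not at h
  have h1 : 0 ≤ |R| := abs_nonneg R
  have h2 := le_abs_self R
  nlinarith

theorem Bl_ne_top (R : ℝ) : volume (Bl (n + 2) R) ≠ ⊤ := (Bl_bounded R).measure_lt_top.ne

theorem null_hyperplane (w : E (n + 2)) (hw : ‖w‖ = 1) :
    volume {z : E (n + 2) | inner ℝ w z = (0 : ℝ)} = 0 := by
  have h1 : {z : E (n + 2) | inner ℝ w z = (0 : ℝ)} =
      (LinearMap.ker (innerSL ℝ w : E (n + 2) →ₗ[ℝ] ℝ) : Set (E (n + 2))) := by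
    ext z
    simp
  rw [h1]
  refine Measure.addHaar_submodule _ _ fun h => ?_
  have h2 : w ∈ LinearMap.ker (innerSL ℝ w : E (n + 2) →ₗ[ℝ] ℝ) := by rw [h]; trivial
  have h3 : inner ℝ w w = (0 : ℝ) := by simpa using h2
  rw [real_inner_self_eq_norm_sq, hw] at h3
  norm_num at h3

/-- one half of a half-cylinder -/
theorem half_volume (u w : E (n + 2)) (hu : ‖u‖ = 1) (hw : ‖w‖ = 1) (h : inner ℝ u w = (0 : ℝ))
    (R : ℝ) : hcv n R / 2 ≤ volume.real ((HC u ∩ Bl (n + 2) R) ∩ {z | 0 < inner ℝ w z}) := by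
  set A : Set (ℝ × ℝ × ℝ) :=
    {q | (0 ≤ q.1 ∧ q.2.2 ≤ q.1 ^ 2 + 1) ∧ q.2.2 ≤ R ∧ 0 < q.2.1} with hA
  have hAm : MeasurableSet A := by
    have m1 : Measurable fun q : ℝ × ℝ × ℝ => q.1 := measurable_fst
    have m2 : Measurable fun q : ℝ × ℝ × ℝ => q.2.1 := by fun_prop
    have m3 : Measurable fun q : ℝ × ℝ × ℝ => q.2.2 := by fun_prop
    exact ((measurableSet_le measurable_const m1).inter
      (measurableSet_le m3 ((m1.pow_const 2).add_const 1))).inter
      ((measurableSet_le m3 measurable_const).inter (measurableSet_lt measurable_const m2))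
  have hS : ∀ w' : E (n + 2), (HC u ∩ Bl (n + 2) R) ∩ {z | 0 < inner ℝ w' z} =
      {z : E (n + 2) | (inner ℝ u z, inner ℝ w' z, ‖z‖ ^ 2) ∈ A} := by
    intro w'
    ext z
    simp only [HC, Bl, hA, Set.mem_inter_iff, Set.mem_ofPred_eq]
    tauto
  have h1 := plane_measure u w hu hw h A hAm
  have h2 := plane_measure u (-w) hu (by rw [norm_neg, hw]) (by rw [inner_neg_right, h, neg_zero])
    A hAm
  have h3 : volume.real ((HC u ∩ Bl (n + 2) R) ∩ {z | 0 < inner ℝ w z}) =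
      volume.real ((HC u ∩ Bl (n + 2) R) ∩ {z | 0 < inner ℝ (-w) z}) := by
    rw [hS, hS, Measure.real, Measure.real, h1, h2]
  have h4 : HC u ∩ Bl (n + 2) R ⊆ ((HC u ∩ Bl (n + 2) R) ∩ {z | 0 < inner ℝ w z}) ∪
      (((HC u ∩ Bl (n + 2) R) ∩ {z | 0 < inner ℝ (-w) z}) ∪
        (Bl (n + 2) R ∩ {z | inner ℝ w z = (0 : ℝ)})) := by
    intro z hz
    rcases lt_trichotomy (0 : ℝ) (inner ℝ w z) with h5 | h5 | h5
    · exact Or.inl ⟨hz, h5⟩
    · exact Or.inr (Or.inr ⟨hz.2, h5.symm⟩)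
    · refine Or.inr (Or.inl ⟨hz, ?_⟩)
      show 0 < inner ℝ (-w) z
      rw [inner_neg_left]
      linarith
  have h5 : volume.real (HC u ∩ Bl (n + 2) R) ≤
      volume.real ((HC u ∩ Bl (n + 2) R) ∩ {z | 0 < inner ℝ w z}) +
      (volume.real ((HC u ∩ Bl (n + 2) R) ∩ {z | 0 < inner ℝ (-w) z}) +
        volume.real (Bl (n + 2) R ∩ {z | inner ℝ w z = (0 : ℝ)})) := by
    refine (measureReal_mono h4 ?_).trans ((measureReal_union_le _ _).trans
      (add_le_add_right (measureReal_union_le _ _) _))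
    refine ne_top_of_le_ne_top (Bl_ne_top (n := n) R) (measure_mono ?_)
    rintro z (hz | hz | hz)
    · exact hz.1.2
    · exact hz.1.2
    · exact hz.1
  have h6 : volume.real (Bl (n + 2) R ∩ {z : E (n + 2) | inner ℝ w z = (0 : ℝ)}) = 0 := by
    rw [Measure.real, measure_mono_null Set.inter_subset_right (null_hyperplane w hw)]
    simp
  rw [hcv_eq u hu, h6, ← h3] at h5
  linarith

/-- area of the truncated triangle -/
theorem area_bound {τ : ℝ} (hτ0 : 0 ≤ τ) (hτ : τ ≤ 7 / 12) :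
    ENNReal.ofReal (3 / 4) ≤ (volume : Measure (ℝ × ℝ)) (regionBetween (fun a => τ * |a|)
      (fun _ => 4 / 5) (Set.Icc (-(3 / 5) : ℝ) (3 / 5))) := by
  have hc : Continuous fun a : ℝ => τ * |a| := by fun_prop
  have h1 := volume_regionBetween_eq_integral (μ := (volume : Measure ℝ))
    (f := fun a => τ * |a|) (g := fun _ => (4 / 5 : ℝ)) (s := Set.Icc (-(3 / 5) : ℝ) (3 / 5))
    (hc.continuousOn.integrableOn_Icc) (continuous_const.continuousOn.integrableOn_Icc)
    measurableSet_Icc (by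
      intro a ha
      have : |a| ≤ 3 / 5 := abs_le.mpr ha
      show τ * |a| ≤ 4 / 5
      nlinarith [abs_nonneg a])
  rw [Measure.volume_eq_prod, h1]
  refine ENNReal.ofReal_le_ofReal ?_
  rw [integral_Icc_eq_integral_Ioc, ← intervalIntegral.integral_of_le (by norm_num)]
  simp only [Pi.sub_apply]
  rw [intervalIntegral.integral_sub (by simp) (hc.intervalIntegrable _ _),
    intervalIntegral.integral_const, intervalIntegral.integral_const_mul]
  have h2 : ∫ a in (-(3 / 5) : ℝ)..(3 / 5), |a| = 9 / 25 := by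
    rw [← intervalIntegral.integral_add_adjacent_intervals (b := 0)
      (continuous_abs.intervalIntegrable _ _) (continuous_abs.intervalIntegrable _ _)]
    have h3 : ∫ a in (-(3 / 5) : ℝ)..0, |a| = ∫ a in (-(3 / 5) : ℝ)..0, -a := by
      refine intervalIntegral.integral_congr fun a ha => ?_
      rw [Set.uIcc_of_le (by norm_num)] at ha
      exact abs_of_nonpos ha.2
    have h4 : ∫ a in (0 : ℝ)..(3 / 5), |a| = ∫ a in (0 : ℝ)..(3 / 5), a := by
      refine intervalIntegral.integral_congr fun a ha => ?_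
      rw [Set.uIcc_of_le (by norm_num)] at ha
      exact abs_of_nonneg ha.1
    rw [h3, h4, intervalIntegral.integral_neg, integral_id, integral_id]
    norm_num
  rw [h2, smul_eq_mul]
  linarith

/-- triangles spanned by two centres -/
theorem mem_tri {Y : Finset (E (n + 2))} {K : Set (E (n + 2))} (hL : Loc (n + 2) Y K)
    {y y' : E (n + 2)} (hy : y ∈ Y) (hy' : y' ∈ Y) {a b : ℝ} {w : E (n + 2)} (ha : 0 ≤ a)
    (hb : 0 ≤ b) (hab : a + b ≤ 1) (hw : ‖w‖ ≤ 1) : a • y + b • y' + w ∈ K := by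
  have h1 := hL.convex.sum_mem (t := (Finset.univ : Finset (Fin 3)))
    (w := ![1 - a - b, a, b]) (z := ![w, y + w, y' + w]) (by
      intro i _
      fin_cases i
      · show 0 ≤ 1 - a - b
        linarith
      · exact ha
      · exact hb) (by
      rw [Fin.sum_univ_three]
      show 1 - a - b + a + b = 1
      ring) (by
      intro i _
      fin_cases i
      · exact hL.ball_zero (by rw [mem_closedBall_zero_iff]; exact hw)
      · refine hL.ball y hy ?_
        show y + w ∈ _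
        rw [Metric.mem_closedBall, dist_eq_norm]
        simpa using hw
      · refine hL.ball y' hy' ?_
        show y' + w ∈ _
        rw [Metric.mem_closedBall, dist_eq_norm]
        simpa using hw)
  rw [Fin.sum_univ_three] at h1
  have h2 : (1 - a - b) • w + a • (y + w) + b • (y' + w) = a • y + b • y' + w := by module
  rw [← h2]
  exact h1

theorem hc_subset' {Y : Finset (E (n + 2))} {K : Set (E (n + 2))} (hL : Loc (n + 2) Y K)
    {y : E (n + 2)} (hy : y ∈ Y) : HC (‖y‖⁻¹ • y) ∩ Bl (n + 2) 2 ⊆ K := by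
  rintro z ⟨⟨h1, h2⟩, h3⟩
  have h3' : ‖z‖ ^ 2 ≤ 2 := h3
  have hy2 : 2 ≤ ‖y‖ := hL.far y hy
  have hy0 : 0 < ‖y‖ := by linarith
  set u : E (n + 2) := ‖y‖⁻¹ • y with hu
  have hu1 : ‖u‖ = 1 := by
    rw [hu, norm_smul, norm_inv, norm_norm]
    exact inv_mul_cancel₀ hy0.ne'
  set t : ℝ := inner ℝ u z with ht
  have ht2 : t ≤ 2 := by
    have h4 : t ≤ ‖u‖ * ‖z‖ := real_inner_le_norm u z
    rw [hu1, one_mul] at h4
    nlinarith [norm_nonneg z]
  have h5 : z = (t * ‖y‖⁻¹) • y + (0 : ℝ) • y + (z - t • u) := by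
    rw [zero_smul, add_zero, hu, smul_smul]
    abel
  rw [h5]
  refine mem_tri hL hy hy (mul_nonneg h1 (by positivity)) le_rfl ?_ ?_
  · rw [add_zero, ← div_eq_mul_inv, div_le_one hy0]
    linarith
  · have h6 : ‖z - t • u‖ ^ 2 = ‖z‖ ^ 2 - t ^ 2 := by
      rw [norm_sub_sq_real, real_inner_smul_right, real_inner_comm, ← ht, norm_smul, hu1, mul_one,
        Real.norm_eq_abs, sq_abs]
      ring
    have h7 : ‖z - t • u‖ ^ 2 ≤ 1 := by rw [h6]; linarith
    nlinarith [norm_nonneg (z - t • u)]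

theorem one_of_sq {x : ℝ} (h0 : 0 ≤ x) (h : x ^ 2 = 1) : x = 1 := by nlinarith

theorem le_of_sq {a b : ℝ} (hb : 0 ≤ b) (h : a ^ 2 ≤ b ^ 2) : a ≤ b := by
  by_contra h1
  push Not at h1
  nlinarith

theorem disj_aux {s d a b : ℝ} (hs : 0 < s) (hd : 0 < d) (h1 : 0 ≤ (s * b - d * a) / 2)
    (h5 : 0 ≤ (s * b + d * a) / 2) (h4 : 0 < -(s * a + d * b) / 2)
    (h8 : 0 < (s * a - d * b) / 2) : False := by
  have h9 : b < 0 := by
    by_contra h
    push Not at h
    nlinarith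
  nlinarith

theorem bl_aux {a b r : ℝ} (h1 : -(3 / 5) ≤ a) (h2 : a ≤ 3 / 5) (h7 : 0 < b) (h4 : b < 4 / 5)
    (h5 : r ≤ a ^ 2 + b ^ 2 + 1) : r ≤ 2 := by nlinarith

theorem pos_aux {d b x : ℝ} (hd : 0 < d) (hx : 0 ≤ x) (h : x < d * b) : 0 < b := by
  by_contra h1
  push Not at h1
  nlinarith

end Wide2

open Wide2

/-- D8 WIDE2. -/
theorem wide2 {Y : Finset (E (n + 2))} {K : Set (E (n + 2))} (hL : Loc (n + 2) Y K)
    {y y' : E (n + 2)} (hy : y ∈ Y) (hy' : y' ∈ Y)
    (h₀ : inner ℝ y y' ≤ -(1 / 2) * (‖y‖ * ‖y'‖))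
    (h₁ : -(17 / 25) * (‖y‖ * ‖y'‖) ≤ inner ℝ y y') :
    hcv n 2 + 3 / 4 * kap n ≤ volume.real (K ∩ Bl (n + 2) 2) := by
  have hy2 : 2 ≤ ‖y‖ := hL.far y hy
  have hy0 : 0 < ‖y‖ := by linarith
  have hy2' : 2 ≤ ‖y'‖ := hL.far y' hy'
  have hy0' : 0 < ‖y'‖ := by linarith
  obtain ⟨u, hu⟩ : ∃ u : E (n + 2), u = ‖y‖⁻¹ • y := ⟨_, rfl⟩
  obtain ⟨v, hv⟩ : ∃ v : E (n + 2), v = ‖y'‖⁻¹ • y' := ⟨_, rfl⟩
  have hu1 : ‖u‖ = 1 := by
    rw [hu, norm_smul, norm_inv, norm_norm]
    exact inv_mul_cancel₀ hy0.ne'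
  have hv1 : ‖v‖ = 1 := by
    rw [hv, norm_smul, norm_inv, norm_norm]
    exact inv_mul_cancel₀ hy0'.ne'
  have huu : inner ℝ u u = (1 : ℝ) := by rw [real_inner_self_eq_norm_sq, hu1]; norm_num
  have hvv : inner ℝ v v = (1 : ℝ) := by rw [real_inner_self_eq_norm_sq, hv1]; norm_num
  obtain ⟨c, hc⟩ : ∃ c : ℝ, inner ℝ u v = c := ⟨_, rfl⟩
  have hcv : inner ℝ v u = c := by rw [real_inner_comm, hc]
  have hyy : inner ℝ y y' = c * (‖y‖ * ‖y'‖) := by
    rw [← hc, hu, hv, real_inner_smul_left, real_inner_smul_right]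
    field_simp
  have hpos : 0 < ‖y‖ * ‖y'‖ := by positivity
  have hc1 : c ≤ -(1 / 2) := by
    rw [hyy] at h₀
    exact le_of_mul_le_mul_right h₀ hpos
  have hc2 : -(17 / 25) ≤ c := by
    rw [hyy] at h₁
    exact le_of_mul_le_mul_right h₁ hpos
  obtain ⟨s, hs0, hs⟩ : ∃ s : ℝ, 0 ≤ s ∧ s ^ 2 = 2 + 2 * c :=
    ⟨√(2 + 2 * c), Real.sqrt_nonneg _, Real.sq_sqrt (by linarith)⟩
  obtain ⟨d, hd0, hd⟩ : ∃ d : ℝ, 0 ≤ d ∧ d ^ 2 = 2 - 2 * c :=
    ⟨√(2 - 2 * c), Real.sqrt_nonneg _, Real.sq_sqrt (by linarith)⟩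
  have hs1 : 4 / 5 ≤ s := le_of_sq hs0 (by rw [hs]; linarith)
  have hs2 : s ≤ 1 := le_of_sq zero_le_one (by rw [hs]; linarith)
  have hd1 : 12 / 7 ≤ d := le_of_sq hd0 (by rw [hd]; linarith)
  have hsp : 0 < s := by linarith
  have hdp : 0 < d := by linarith
  obtain ⟨m, hm⟩ : ∃ m : E (n + 2), m = s⁻¹ • (u + v) := ⟨_, rfl⟩
  obtain ⟨f, hf⟩ : ∃ f : E (n + 2), f = d⁻¹ • (v - u) := ⟨_, rfl⟩
  have hmm : inner ℝ m m = (1 : ℝ) := by
    rw [hm, real_inner_smul_left, real_inner_smul_right, inner_add_left, inner_add_right,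
      inner_add_right, huu, hvv, hc, hcv]
    field_simp
    linarith
  have hff : inner ℝ f f = (1 : ℝ) := by
    rw [hf, real_inner_smul_left, real_inner_smul_right, inner_sub_left, inner_sub_right,
      inner_sub_right, huu, hvv, hc, hcv]
    field_simp
    linarith
  have hfm : inner ℝ f m = (0 : ℝ) := by
    rw [hf, hm, real_inner_smul_left, real_inner_smul_right, inner_sub_left, inner_add_right,
      inner_add_right, huu, hvv, hc, hcv]
    ring
  have hmf : inner ℝ m f = (0 : ℝ) := by rw [real_inner_comm, hfm]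
  have hm1 : ‖m‖ = 1 := by
    rw [real_inner_self_eq_norm_sq] at hmm
    exact one_of_sq (norm_nonneg m) hmm
  have hf1 : ‖f‖ = 1 := by
    rw [real_inner_self_eq_norm_sq] at hff
    exact one_of_sq (norm_nonneg f) hff
  have hum : u = (s / 2) • m - (d / 2) • f := by
    rw [hm, hf, smul_smul, smul_smul, div_mul_eq_mul_div, mul_inv_cancel₀ hsp.ne',
      div_mul_eq_mul_div, mul_inv_cancel₀ hdp.ne']
    module
  have hvm : v = (s / 2) • m + (d / 2) • f := by
    rw [hm, hf, smul_smul, smul_smul, div_mul_eq_mul_div, mul_inv_cancel₀ hsp.ne',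
      div_mul_eq_mul_div, mul_inv_cancel₀ hdp.ne']
    module
  obtain ⟨nu, hnu⟩ : ∃ nu : E (n + 2), nu = -((s / 2) • f) - (d / 2) • m := ⟨_, rfl⟩
  obtain ⟨nv, hnv⟩ : ∃ nv : E (n + 2), nv = (s / 2) • f - (d / 2) • m := ⟨_, rfl⟩
  have hnu1 : ‖nu‖ = 1 := by
    have h : inner ℝ nu nu = (1 : ℝ) := by
      rw [hnu]
      simp only [inner_sub_left, inner_sub_right, inner_neg_left, inner_neg_right,
        real_inner_smul_left, real_inner_smul_right, hmm, hff, hfm, hmf]
      linarith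
    rw [real_inner_self_eq_norm_sq] at h
    exact one_of_sq (norm_nonneg nu) h
  have hnv1 : ‖nv‖ = 1 := by
    have h : inner ℝ nv nv = (1 : ℝ) := by
      rw [hnv]
      simp only [inner_sub_left, inner_sub_right, inner_neg_left, inner_neg_right,
        real_inner_smul_left, real_inner_smul_right, hmm, hff, hfm, hmf]
      linarith
    rw [real_inner_self_eq_norm_sq] at h
    exact one_of_sq (norm_nonneg nv) h
  have hunu : inner ℝ u nu = (0 : ℝ) := by
    rw [hnu, hum]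
    simp only [inner_sub_left, inner_sub_right, inner_neg_left, inner_neg_right,
      real_inner_smul_left, real_inner_smul_right, hmm, hff, hfm, hmf]
    ring
  have hvnv : inner ℝ v nv = (0 : ℝ) := by
    rw [hnv, hvm]
    simp only [inner_sub_left, inner_sub_right, inner_add_left, inner_neg_left, inner_neg_right,
      real_inner_smul_left, real_inner_smul_right, hmm, hff, hfm, hmf]
    ring
  -- coordinates
  have iu : ∀ z : E (n + 2), inner ℝ u z = (s * inner ℝ m z - d * inner ℝ f z) / 2 := by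
    intro z
    rw [hum, inner_sub_left, real_inner_smul_left, real_inner_smul_left]
    ring
  have iv : ∀ z : E (n + 2), inner ℝ v z = (s * inner ℝ m z + d * inner ℝ f z) / 2 := by
    intro z
    rw [hvm, inner_add_left, real_inner_smul_left, real_inner_smul_left]
    ring
  have inu : ∀ z : E (n + 2), inner ℝ nu z = -(s * inner ℝ f z + d * inner ℝ m z) / 2 := by
    intro z
    rw [hnu, inner_sub_left, inner_neg_left, real_inner_smul_left, real_inner_smul_left]
    ring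
  have inv : ∀ z : E (n + 2), inner ℝ nv z = (s * inner ℝ f z - d * inner ℝ m z) / 2 := by
    intro z
    rw [hnv, inner_sub_left, real_inner_smul_left, real_inner_smul_left]
    ring
  -- the three pieces
  set HU : Set (E (n + 2)) := (HC u ∩ Bl (n + 2) 2) ∩ {z | 0 < inner ℝ nu z} with hHU
  set HV : Set (E (n + 2)) := (HC v ∩ Bl (n + 2) 2) ∩ {z | 0 < inner ℝ nv z} with hHV
  set τ : ℝ := s / d with hτ
  have hτ0 : 0 ≤ τ := by positivity
  have hτ1 : τ ≤ 7 / 12 := by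
    rw [hτ, div_le_iff₀ hdp]
    linarith
  set A : Set (ℝ × ℝ × ℝ) := {q | ((-(3 / 5) ≤ q.1 ∧ q.1 ≤ 3 / 5) ∧ τ * |q.1| < q.2.1) ∧
    (q.2.1 < 4 / 5 ∧ q.2.2 ≤ q.1 ^ 2 + q.2.1 ^ 2 + 1)} with hA
  have hAm : MeasurableSet A := by
    have m1 : Measurable fun q : ℝ × ℝ × ℝ => q.1 := measurable_fst
    have m2 : Measurable fun q : ℝ × ℝ × ℝ => q.2.1 := by fun_prop
    have m3 : Measurable fun q : ℝ × ℝ × ℝ => q.2.2 := by fun_prop
    have m4 : Measurable fun q : ℝ × ℝ × ℝ => τ * |q.1| :=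
      ((continuous_const.mul (continuous_abs.comp continuous_fst))).measurable
    exact (((measurableSet_le measurable_const m1).inter (measurableSet_le m1
      measurable_const)).inter (measurableSet_lt m4 m2)).inter
      ((measurableSet_lt m2 measurable_const).inter
        (measurableSet_le m3 (((m1.pow_const 2).add (m2.pow_const 2)).add_const 1)))
  set P : Set (E (n + 2)) := {z | (inner ℝ f z, inner ℝ m z, ‖z‖ ^ 2) ∈ A} with hP
  have hPmem : ∀ z ∈ P, -(3 / 5) ≤ inner ℝ f z ∧ inner ℝ f z ≤ 3 / 5 ∧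
      s * |inner ℝ f z| < d * inner ℝ m z ∧ inner ℝ m z < 4 / 5 ∧
        ‖z‖ ^ 2 ≤ (inner ℝ f z) ^ 2 + (inner ℝ m z) ^ 2 + 1 := by
    rintro z ⟨⟨⟨h1, h2⟩, h3⟩, h4, h5⟩
    refine ⟨h1, h2, ?_, h4, h5⟩
    have h3' : s / d * |inner ℝ f z| < inner ℝ m z := h3
    rw [div_mul_eq_mul_div, div_lt_iff₀ hdp] at h3'
    linarith
  have hPBl : P ⊆ Bl (n + 2) 2 := by
    intro z hz
    obtain ⟨h1, h2, h3, h4, h5⟩ := hPmem z hz
    exact bl_aux h1 h2 (pos_aux hdp (mul_nonneg hs0 (abs_nonneg _)) h3) h4 h5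
  have hPK : P ⊆ K := by
    intro z hz
    obtain ⟨h1, h2, h3, h4, h5⟩ := hPmem z hz
    obtain ⟨a, ha⟩ : ∃ a : ℝ, inner ℝ f z = a := ⟨_, rfl⟩
    obtain ⟨b, hb⟩ : ∃ b : ℝ, inner ℝ m z = b := ⟨_, rfl⟩
    rw [ha, hb] at h5
    rw [ha, hb] at h3
    rw [ha] at h1 h2
    rw [hb] at h4
    have ha' : inner ℝ z f = a := by rw [real_inner_comm, ha]
    have hb' : inner ℝ z m = b := by rw [real_inner_comm, hb]
    have h6 : z = ((b / s - a / d) * ‖y‖⁻¹) • y + ((b / s + a / d) * ‖y'‖⁻¹) • y' +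
        (z - a • f - b • m) := by
      rw [mul_smul, mul_smul, ← hu, ← hv, hf, hm]
      module
    have h7 : s * a < d * b := lt_of_le_of_lt (mul_le_mul_of_nonneg_left (le_abs_self a) hs0) h3
    have h8 : -(s * a) < d * b := by
      have := mul_le_mul_of_nonneg_left (neg_abs_le a) hs0
      linarith
    have h9 : a / d ≤ b / s := by
      rw [div_le_div_iff₀ hdp hsp]
      linarith
    have h10 : -(b / s) ≤ a / d := by
      rw [← neg_div, div_le_div_iff₀ hsp hdp]
      linarith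
    have hi : ‖y‖⁻¹ ≤ 1 / 2 := by
      rw [inv_eq_one_div]
      exact one_div_le_one_div_of_le (by norm_num) hy2
    have hi' : ‖y'‖⁻¹ ≤ 1 / 2 := by
      rw [inv_eq_one_div]
      exact one_div_le_one_div_of_le (by norm_num) hy2'
    rw [h6]
    refine mem_tri hL hy hy' (mul_nonneg (by linarith) (by positivity))
      (mul_nonneg (by linarith) (by positivity)) ?_ ?_
    · have h11 : (b / s - a / d) * ‖y‖⁻¹ ≤ (b / s - a / d) * (1 / 2) :=
        mul_le_mul_of_nonneg_left hi (by linarith)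
      have h12 : (b / s + a / d) * ‖y'‖⁻¹ ≤ (b / s + a / d) * (1 / 2) :=
        mul_le_mul_of_nonneg_left hi' (by linarith)
      have h13 : b / s ≤ 1 := by
        rw [div_le_one hsp]
        linarith
      linarith
    · have h14 : ‖z - a • f - b • m‖ ^ 2 = ‖z‖ ^ 2 - a ^ 2 - b ^ 2 := by
        rw [← real_inner_self_eq_norm_sq, ← real_inner_self_eq_norm_sq]
        simp only [inner_sub_left, inner_sub_right, real_inner_smul_left, real_inner_smul_right,
          hmm, hff, hfm, hmf, ha, hb, ha', hb']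
        ring
      exact le_of_sq zero_le_one (by rw [h14]; linarith)
  have hPvol : 3 / 4 * kap n ≤ volume.real P := by
    have h1 : volume P = _ := plane_measure f m hf1 hm1 hfm A hAm
    have h2 : (regionBetween (fun a => τ * |a|) (fun _ => 4 / 5)
        (Set.Icc (-(3 / 5) : ℝ) (3 / 5))) ×ˢ Metric.closedBall (0 : E n) 1 ⊆
        {q : (ℝ × ℝ) × E n | (q.1.1, q.1.2, q.1.1 ^ 2 + q.1.2 ^ 2 + ‖q.2‖ ^ 2) ∈ A} := by
      rintro q ⟨⟨h3, h4, h5⟩, h6⟩
      rw [mem_closedBall_zero_iff] at h6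
      refine ⟨⟨⟨h3.1, h3.2⟩, h4⟩, h5, ?_⟩
      have : ‖q.2‖ ^ 2 ≤ 1 := pow_le_one₀ (norm_nonneg _) h6
      show q.1.1 ^ 2 + q.1.2 ^ 2 + ‖q.2‖ ^ 2 ≤ q.1.1 ^ 2 + q.1.2 ^ 2 + 1
      linarith
    have h3 : ENNReal.ofReal (3 / 4) * volume (Metric.closedBall (0 : E n) 1) ≤ volume P := by
      rw [h1]
      refine le_trans ?_ (measure_mono h2)
      rw [Measure.volume_eq_prod (ℝ × ℝ) (E n), Measure.prod_prod]
      exact mul_le_mul_left (area_bound hτ0 hτ1) _
    have h4 := ENNReal.toReal_mono (ne_top_of_le_ne_top (Bl_ne_top (n := n) 2)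
      (measure_mono hPBl)) h3
    rw [ENNReal.toReal_mul, ENNReal.toReal_ofReal (by norm_num)] at h4
    exact h4
  have hPm : MeasurableSet P := by
    have : Continuous fun z : E (n + 2) => (inner ℝ f z, inner ℝ m z, ‖z‖ ^ 2) := by fun_prop
    exact hAm.preimage this.measurable
  have hVm : MeasurableSet HV := by
    have c1 : Continuous fun z : E (n + 2) => inner ℝ v z := by fun_prop
    have c2 : Continuous fun z : E (n + 2) => inner ℝ nv z := by fun_prop
    have c3 : Continuous fun z : E (n + 2) => ‖z‖ ^ 2 := by fun_prop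
    exact (((isClosed_le continuous_const c1).inter (isClosed_le c3
      ((c1.pow 2).add continuous_const))).inter (isClosed_le c3
        continuous_const)).measurableSet.inter (isOpen_lt continuous_const c2).measurableSet
  have d1 : Disjoint HU (HV ∪ P) := by
    rw [Set.disjoint_left]
    rintro z ⟨⟨⟨h1, h2⟩, h3⟩, h4⟩ (⟨⟨⟨h5, h6⟩, h7⟩, h8⟩ | hz)
    · have h4' : 0 < inner ℝ nu z := h4
      have h8' : 0 < inner ℝ nv z := h8
      rw [iu] at h1
      rw [iv] at h5
      rw [inu] at h4'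
      rw [inv] at h8'
      exact disj_aux hsp hdp h1 h5 h4' h8'
    · obtain ⟨-, -, h5, -, -⟩ := hPmem z hz
      have h4' : 0 < inner ℝ nu z := h4
      rw [inu] at h4'
      have := mul_le_mul_of_nonneg_left (neg_abs_le (inner ℝ f z)) hs0
      linarith
  have d2 : Disjoint HV P := by
    rw [Set.disjoint_left]
    rintro z ⟨h1, h8⟩ hz
    obtain ⟨-, -, h5, -, -⟩ := hPmem z hz
    have h8' : 0 < inner ℝ nv z := h8
    rw [inv] at h8'
    have := mul_le_mul_of_nonneg_left (le_abs_self (inner ℝ f z)) hs0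
    linarith
  have hfinV : volume HV ≠ ⊤ := ne_top_of_le_ne_top (Bl_ne_top (n := n) 2)
    (measure_mono fun z hz => hz.1.2)
  have hfinU : volume HU ≠ ⊤ := ne_top_of_le_ne_top (Bl_ne_top (n := n) 2)
    (measure_mono fun z hz => hz.1.2)
  have hfinP : volume P ≠ ⊤ := ne_top_of_le_ne_top (Bl_ne_top (n := n) 2) (measure_mono hPBl)
  have hfinVP : volume (HV ∪ P) ≠ ⊤ := measure_union_ne_top hfinV hfinP
  have hsub : HU ∪ (HV ∪ P) ⊆ K ∩ Bl (n + 2) 2 := by
    rintro z (hz | hz | hz)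
    · exact ⟨hc_subset' hL hy (hu ▸ hz.1), hz.1.2⟩
    · exact ⟨hc_subset' hL hy' (hv ▸ hz.1), hz.1.2⟩
    · exact ⟨hPK hz, hPBl hz⟩
  have h1 := half_volume u nu hu1 hnu1 hunu 2
  have h2 := half_volume v nv hv1 hnv1 hvnv 2
  have h3 : volume.real (HU ∪ (HV ∪ P)) = volume.real HU + (volume.real HV + volume.real P) := by
    rw [measureReal_union d1 (hVm.union hPm) hfinU hfinVP, measureReal_union d2 hPm hfinV hfinP]
  have h4 : volume.real (HU ∪ (HV ∪ P)) ≤ volume.real (K ∩ Bl (n + 2) 2) :=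
    measureReal_mono hsub (ne_top_of_le_ne_top (Bl_ne_top (n := n) 2)
      (measure_mono Set.inter_subset_right))
  rw [h3] at h4
  rw [← hHU] at h1
  rw [← hHV] at h2
  linarith

end

end Pool.Agent.Saus
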