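import Pool.Agent.Lib.MP_5a9905_co.FactsOf
import Pool.Agent.Lib.MP_5a9905_co.Narrow
import Pool.Agent.Lib.MP_5a9905_co.Wide1
import Pool.Agent.Lib.MP_5a9905_co.Wide2
import Pool.Agent.Lib.MP_5a9905_co.Flat
import Pool.Agent.Lib.MP_5a9905_co.NearSausage
import Pool.Agent.Lib.MP_5a9905_co.Cut
import Pool.Agent.Lib.MP_5a9905_co.Kap

set_option autoImplicit false

open MeasureTheory Finset

namespace Pool.Agent.Saus

noncomputable section

variable {n : ℕ}

/-- E2 LOCN. The local claim (N). -/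
theorem local_N (hn : 6 ≤ n) {R s s₂ : ℝ} (hch : ChainOut n R s s₂) (hnum : NumOut n R s s₂)
    {Y : Finset (E (n + 2))} {K : Set (E (n + 2))} (hL : Loc (n + 2) Y K)
    (h : ∃ y ∈ Y, ∃ y' ∈ Y, inner ℝ y y' ≤ 1 / 2 * (‖y‖ * ‖y'‖)) :
    2 * kap (n + 1) ≤ volume.real (K ∩ Vor Y) := by
  by_contra hV
  push Not at hV
  obtain ⟨hs, hs2⟩ := hch Y xi (facts_of_loc (by omega) hL hV)
  have cutR := cut hL hnum.R2
  have cut2 := cut hL (R := 2) le_rfl
  have kp : 0 < kap (n + 1) := kap_pos _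
  have hR : volume.real (K ∩ Bl (n + 2) R) < (2 + s) * kap (n + 1) := by
    have : kap (n + 1) * SS Y R ≤ kap (n + 1) * s := mul_le_mul_of_nonneg_left hs kp.le
    linarith
  have h2 : volume.real (K ∩ Bl (n + 2) 2) < (2 + s₂) * kap (n + 1) := by
    have : kap (n + 1) * SS Y 2 ≤ kap (n + 1) * s₂ := mul_le_mul_of_nonneg_left hs2 kp.le
    linarith
  by_cases hall : ∀ y ∈ Y, ∀ y' ∈ Y, y ≠ y' → 1 / 2 * (‖y‖ * ‖y'‖) < inner ℝ y y' ∨
      inner ℝ y y' < -√(7 / 8) * (‖y‖ * ‖y'‖)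
  · exact absurd (near_sausage hn hL hall h) (not_le.mpr hV)
  push Not at hall
  obtain ⟨y, hy, y', hy', -, h1, h3⟩ := hall
  have ny : 0 < ‖y‖ := by linarith [hL.far y hy]
  have ny' : 0 < ‖y'‖ := by linarith [hL.far y' hy']
  have nyy : 0 < ‖y‖ * ‖y'‖ := mul_pos ny ny'
  rcases le_total 0 (inner ℝ y y') with h0 | h0
  · have hN := narrow hL hy hy' (φ := Real.pi / 3) (by positivity)
      (by linarith [Real.pi_pos]) h0 (by rw [Real.cos_pi_div_three]; exact h1) hnum.R1 hnum.R2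
    have e1 : (1 / 2 - Real.pi / 3 / (2 * Real.pi)) = (1 / 3 : ℝ) := by
      field_simp [Real.pi_ne_zero]
      norm_num
    rw [e1] at hN
    have e2 : Real.pi / 3 / 2 = Real.pi / 6 := by ring
    rw [e2] at hN
    have := hnum.narrow
    linarith
  rcases le_total (-(1 / 2) * (‖y‖ * ‖y'‖)) (inner ℝ y y') with h4 | h4
  · have := wide1 hL hy hy' h0 h4
    have := hnum.wide1
    linarith
  rcases le_total (-(17 / 25) * (‖y‖ * ‖y'‖)) (inner ℝ y y') with h5 | h5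
  · have := wide2 hL hy hy' h4 h5
    have := hnum.wide2
    linarith
  · have hc : inner ℝ y y' = (inner ℝ y y' / (‖y‖ * ‖y'‖)) * (‖y‖ * ‖y'‖) := by
      field_simp
    have hc1 : inner ℝ y y' / (‖y‖ * ‖y'‖) ≤ -(17 / 25) := by
      rw [div_le_iff₀ nyy]; exact h5
    have hc2 : -√(7 / 8) ≤ inner ℝ y y' / (‖y‖ * ‖y'‖) := by
      rw [le_div_iff₀ nyy]; exact h3
    set c := inner ℝ y y' / (‖y‖ * ‖y'‖) with hcdef
    have hf := flat hL hy hy' hc hc1
    have h78 : √(7 / 8 : ℝ) ≤ 1 := Real.sqrt_le_one.mpr (by norm_num)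
    have hpos : 0 ≤ 2 + 2 * c := by linarith
    have hsq : √(2 + 2 * c) ^ 2 = 2 + 2 * c := Real.sq_sqrt hpos
    have hnf := hnum.flat (√(2 + 2 * c)) (by rw [hsq]; linarith) (Real.sqrt_nonneg _)
      (by
        rw [show (4 / 5 : ℝ) = √(16 / 25) by
          rw [show (16 / 25 : ℝ) = (4 / 5) ^ 2 by norm_num]
          exact (Real.sqrt_sq (by norm_num)).symm]
        exact Real.sqrt_le_sqrt (by linarith))
    linarith

end

end Pool.Agent.Saus
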