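import Pool.Agent.Lib.MP_5a9905_co.Defs

/-! Kernel-verified numerical bounds for the slope integrals (`QB`). -/

set_option autoImplicit false

open MeasureTheory Set

namespace Pool.Agent.Saus

/-- denominators: `y = Y/100`, `u = U/10^4`, values in units `10^{-12}` -/
def qD : ℕ := 10 ^ 10

def wLo (m Y U : ℕ) : ℕ :=
  if qD ≤ Y * U ^ 2 then 0 else 10 ^ 12 * (qD - Y * U ^ 2) ^ m * 10 ^ 8 / (qD ^ m * (10 ^ 8 + U ^ 2))

def wHi (m Y U : ℕ) : ℕ :=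
  if qD ≤ Y * U ^ 2 then 0
  else 10 ^ 12 * (qD - Y * U ^ 2) ^ m * 10 ^ 8 / (qD ^ m * (10 ^ 8 + U ^ 2)) + 1

def loSum (m Y h : ℕ) : ℕ → ℕ
  | 0 => 0
  | K + 1 => loSum m Y h K + wLo m Y ((K + 1) * h)

def nxt (s U : ℕ) : ℕ := U + max s (U / 40)

def hiSum (m Y s : ℕ) : ℕ → ℕ → ℕ
  | 0, _ => 10 ^ 20
  | f + 1, U =>
    if qD ≤ Y * U ^ 2 then 0 else (nxt s U - U) * wHi m Y U + hiSum m Y s f (nxt s U)

/-- The check: overlap ratio at level `y = Y/100` for the slope `K h / 10^4` is at most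
`Q / 10^4`. -/
def qCheck (m Y K h s fuel Q : ℕ) : Bool :=
  Nat.ble ((10 ^ 4 - Q) * hiSum m Y s fuel (K * h)) (Q * h * loSum m Y h K)

noncomputable section

/-- the integrand with natural exponent -/
def wf (m : ℕ) (y u : ℝ) : ℝ := (max 0 (1 - y * u ^ 2)) ^ m / (1 + u ^ 2)

theorem wf_nonneg (m : ℕ) (y u : ℝ) : 0 ≤ wf m y u := by
  unfold wf; positivity

theorem wf_le (m : ℕ) {y : ℝ} (hy : 0 ≤ y) (u : ℝ) : wf m y u ≤ (1 + u ^ 2)⁻¹ := by
  unfold wf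
  rw [div_eq_mul_inv]
  have h1 : (max 0 (1 - y * u ^ 2)) ^ m ≤ 1 := by
    apply pow_le_one₀ (le_max_left _ _)
    apply max_le zero_le_one
    have : 0 ≤ y * u ^ 2 := by positivity
    linarith
  have h2 : 0 ≤ (1 + u ^ 2)⁻¹ := by positivity
  nlinarith

theorem wf_continuous (m : ℕ) (y : ℝ) : Continuous (wf m y) := by
  unfold wf
  apply Continuous.div
  · fun_prop
  · fun_prop
  · intro u; positivity

theorem wf_anti (m : ℕ) {y a b : ℝ} (hy : 0 ≤ y) (ha : 0 ≤ a) (hab : a ≤ b) :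
    wf m y b ≤ wf m y a := by
  unfold wf
  have h : a ^ 2 ≤ b ^ 2 := by nlinarith
  apply div_le_div₀ (by positivity) _ (by positivity) (by linarith)
  apply pow_le_pow_left₀ (le_max_left _ _)
  apply max_le_max le_rfl
  nlinarith

theorem wf_integrable (m : ℕ) {y : ℝ} (hy : 0 ≤ y) : Integrable (wf m y) := by
  apply Integrable.mono' integrable_inv_one_add_sq (wf_continuous m y).aestronglyMeasurable
  filter_upwards with u
  rw [Real.norm_eq_abs, abs_of_nonneg (wf_nonneg m y u)]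
  exact wf_le m hy u

theorem FF_even (m : ℕ) (y τ : ℝ) : FF (2 * m) y τ = ∫ u in Ioi τ, wf m y u := by
  unfold FF wf
  congr 1
  ext u
  have : ((2 * m : ℕ) : ℝ) / 2 = (m : ℝ) := by push_cast; ring
  rw [this, Real.rpow_natCast]

theorem Ioi_split (m : ℕ) {y a b : ℝ} (hy : 0 ≤ y) (hab : a ≤ b) :
    ∫ u in Ioi a, wf m y u = (∫ u in a..b, wf m y u) + ∫ u in Ioi b, wf m y u := by
  rw [intervalIntegral.integral_of_le hab, ← setIntegral_union]
  · rw [Ioc_union_Ioi_eq_Ioi hab]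
  · exact Set.Ioc_disjoint_Ioi le_rfl
  · exact measurableSet_Ioi
  · exact (wf_integrable m hy).integrableOn
  · exact (wf_integrable m hy).integrableOn

theorem seg_le (m : ℕ) {y a b : ℝ} (hy : 0 ≤ y) (ha : 0 ≤ a) (hab : a ≤ b) :
    ∫ u in a..b, wf m y u ≤ (b - a) * wf m y a := by
  have h := intervalIntegral.integral_mono_on (μ := volume) (f := wf m y)
    (g := fun _ => wf m y a) hab ((wf_continuous m y).intervalIntegrable _ _)
    (by simp) (fun u hu => wf_anti m hy ha hu.1)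
  simpa using h

theorem le_seg (m : ℕ) {y a b : ℝ} (hy : 0 ≤ y) (ha : 0 ≤ a) (hab : a ≤ b) :
    (b - a) * wf m y b ≤ ∫ u in a..b, wf m y u := by
  have h := intervalIntegral.integral_mono_on (μ := volume) (f := fun _ => wf m y b)
    (g := wf m y) hab (by simp) ((wf_continuous m y).intervalIntegrable _ _)
    (fun u hu => wf_anti m hy (le_trans ha hu.1) hu.2)
  simpa using h

theorem tail_zero {m : ℕ} (hm : 1 ≤ m) {y a : ℝ} (hy : 0 ≤ y) (ha : 0 ≤ a)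
    (h : 1 ≤ y * a ^ 2) : ∫ u in Ioi a, wf m y u = 0 := by
  rw [setIntegral_congr_fun (g := fun _ => (0 : ℝ)) measurableSet_Ioi, integral_zero]
  intro u hu
  have h1 : a ^ 2 ≤ u ^ 2 := by
    have : a < u := hu
    nlinarith
  have h2 : max 0 (1 - y * u ^ 2) = 0 := by
    apply max_eq_left; nlinarith
  show wf m y u = 0
  unfold wf
  rw [h2, zero_pow (by omega), zero_div]

theorem wf_eq (m Y U : ℕ) (h : Y * U ^ 2 ≤ qD) :
    wf m ((Y : ℝ) / 100) ((U : ℝ) / 10 ^ 4)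
      = ((qD - Y * U ^ 2 : ℕ) : ℝ) ^ m * 10 ^ 8 / ((qD : ℝ) ^ m * (10 ^ 8 + (U : ℝ) ^ 2)) := by
  unfold wf
  have hq : (qD : ℝ) = 10 ^ 10 := by norm_num [qD]
  have h1 : (1 : ℝ) - (Y : ℝ) / 100 * ((U : ℝ) / 10 ^ 4) ^ 2
      = ((qD - Y * U ^ 2 : ℕ) : ℝ) / (qD : ℝ) := by
    rw [Nat.cast_sub h, hq, Nat.cast_mul, Nat.cast_pow]; ring
  have h2 : (0 : ℝ) ≤ ((qD - Y * U ^ 2 : ℕ) : ℝ) / (qD : ℝ) := by positivity
  rw [h1, max_eq_right h2, div_pow]
  have h3 : (0 : ℝ) < (qD : ℝ) ^ m := by rw [hq]; positivity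
  field_simp

theorem wf_zero {m Y U : ℕ} (hm : 1 ≤ m) (h : qD ≤ Y * U ^ 2) :
    wf m ((Y : ℝ) / 100) ((U : ℝ) / 10 ^ 4) = 0 := by
  unfold wf
  have hq : (qD : ℝ) = 10 ^ 10 := by norm_num [qD]
  have h' : (qD : ℝ) ≤ (Y : ℝ) * (U : ℝ) ^ 2 := by exact_mod_cast h
  have h2 : max 0 (1 - (Y : ℝ) / 100 * ((U : ℝ) / 10 ^ 4) ^ 2) = 0 := by
    apply max_eq_left
    rw [hq] at h'
    have : (Y : ℝ) / 100 * ((U : ℝ) / 10 ^ 4) ^ 2 = (Y : ℝ) * (U : ℝ) ^ 2 / 10 ^ 10 := by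
      ring
    rw [this, sub_nonpos, le_div_iff₀ (by norm_num)]
    linarith
  rw [h2, zero_pow (by omega), zero_div]

theorem wLo_le {m Y U : ℕ} (hm : 1 ≤ m) :
    (wLo m Y U : ℝ) ≤ 10 ^ 12 * wf m ((Y : ℝ) / 100) ((U : ℝ) / 10 ^ 4) := by
  unfold wLo
  split_ifs with h
  · rw [wf_zero hm h]; simp
  · push Not at h
    rw [wf_eq m Y U h.le]
    refine le_trans Nat.cast_div_le ?_
    push_cast
    apply le_of_eq
    ring

theorem le_wHi {m Y U : ℕ} (hm : 1 ≤ m) :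
    10 ^ 12 * wf m ((Y : ℝ) / 100) ((U : ℝ) / 10 ^ 4) ≤ (wHi m Y U : ℝ) := by
  unfold wHi
  split_ifs with h
  · rw [wf_zero hm h]; simp
  · push Not at h
    rw [wf_eq m Y U h.le]
    have h0 : 0 < qD ^ m * (10 ^ 8 + U ^ 2) := by
      have : 0 < qD := by norm_num [qD]
      positivity
    have h1 := Nat.lt_floor_add_one (((10 ^ 12 * (qD - Y * U ^ 2) ^ m * 10 ^ 8 : ℕ) : ℝ)
      / ((qD ^ m * (10 ^ 8 + U ^ 2) : ℕ) : ℝ))
    rw [Nat.floor_div_eq_div] at h1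
    rw [Nat.cast_add, Nat.cast_one]
    refine le_trans (le_of_eq ?_) h1.le
    push_cast
    ring

theorem loSum_le {m Y h : ℕ} (hm : 1 ≤ m) (K : ℕ) :
    (h : ℝ) * (loSum m Y h K : ℝ)
      ≤ 10 ^ 16 * ∫ u in (0 : ℝ)..((K * h : ℕ) : ℝ) / 10 ^ 4, wf m ((Y : ℝ) / 100) u := by
  have hy : (0 : ℝ) ≤ (Y : ℝ) / 100 := by positivity
  induction K with
  | zero => simp [loSum]
  | succ K ih =>
    have hab : ((K * h : ℕ) : ℝ) / 10 ^ 4 ≤ (((K + 1) * h : ℕ) : ℝ) / 10 ^ 4 := by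
      apply div_le_div_of_nonneg_right _ (by norm_num)
      exact_mod_cast Nat.mul_le_mul_right h (Nat.le_succ K)
    have h0 : (0 : ℝ) ≤ ((K * h : ℕ) : ℝ) / 10 ^ 4 := by positivity
    have hadd := intervalIntegral.integral_add_adjacent_intervals
      ((wf_continuous m ((Y : ℝ) / 100)).intervalIntegrable (μ := volume) 0
        (((K * h : ℕ) : ℝ) / 10 ^ 4))
      ((wf_continuous m ((Y : ℝ) / 100)).intervalIntegrable (μ := volume)
        (((K * h : ℕ) : ℝ) / 10 ^ 4) ((((K + 1) * h : ℕ) : ℝ) / 10 ^ 4))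
    rw [← hadd]
    have h1 := le_seg m hy h0 hab
    have h2 := wLo_le (Y := Y) (U := (K + 1) * h) hm
    have h3 : (((K + 1) * h : ℕ) : ℝ) / 10 ^ 4 - ((K * h : ℕ) : ℝ) / 10 ^ 4
        = (h : ℝ) / 10 ^ 4 := by push_cast; ring
    rw [h3] at h1
    simp only [loSum]
    push_cast at ih h1 h2 ⊢
    have hh : (0 : ℝ) ≤ (h : ℝ) := by positivity
    have h4 := mul_le_mul_of_nonneg_left h2 hh
    linarith [ih, h1, h4]

theorem le_hiSum {m Y s : ℕ} (hm : 1 ≤ m) (f : ℕ) : ∀ U : ℕ,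
    10 ^ 16 * ∫ u in Ioi ((U : ℝ) / 10 ^ 4), wf m ((Y : ℝ) / 100) u ≤ (hiSum m Y s f U : ℝ) := by
  have hy : (0 : ℝ) ≤ (Y : ℝ) / 100 := by positivity
  induction f with
  | zero =>
    intro U
    simp only [hiSum]
    have h1 : ∫ u in Ioi ((U : ℝ) / 10 ^ 4), wf m ((Y : ℝ) / 100) u
        ≤ ∫ u in Ioi ((U : ℝ) / 10 ^ 4), (1 + u ^ 2)⁻¹ := by
      apply integral_mono (wf_integrable m hy).integrableOn integrable_inv_one_add_sq.integrableOn
      intro u; exact wf_le m hy u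
    have h2 : ∫ u in Ioi ((U : ℝ) / 10 ^ 4), (1 + u ^ 2)⁻¹ ≤ ∫ u : ℝ, (1 + u ^ 2)⁻¹ := by
      apply setIntegral_le_integral integrable_inv_one_add_sq
      filter_upwards with u; positivity
    have h3 : ∫ u : ℝ, (1 + u ^ 2)⁻¹ = Real.pi := integral_univ_inv_one_add_sq
    have h4 := Real.pi_le_four
    push_cast
    linarith
  | succ f ih =>
    intro U
    simp only [hiSum]
    split_ifs with h
    · rw [tail_zero hm hy (by positivity)]
      · simp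
      · have h' : (qD : ℝ) ≤ (Y : ℝ) * (U : ℝ) ^ 2 := by exact_mod_cast h
        have hq : (qD : ℝ) = 10 ^ 10 := by norm_num [qD]
        rw [hq] at h'
        have : (Y : ℝ) / 100 * ((U : ℝ) / 10 ^ 4) ^ 2 = (Y : ℝ) * (U : ℝ) ^ 2 / 10 ^ 10 := by
          ring
        rw [this, le_div_iff₀ (by norm_num)]
        linarith
    · have hle : U ≤ nxt s U := by unfold nxt; omega
      have hab : (U : ℝ) / 10 ^ 4 ≤ ((nxt s U : ℕ) : ℝ) / 10 ^ 4 := by
        apply div_le_div_of_nonneg_right _ (by norm_num)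
        exact_mod_cast hle
      rw [Ioi_split m hy hab]
      have h1 := seg_le m hy (by positivity : (0 : ℝ) ≤ (U : ℝ) / 10 ^ 4) hab
      have h2 := le_wHi (Y := Y) (U := U) hm
      have h3 := ih (nxt s U)
      have h4 : ((nxt s U : ℕ) : ℝ) / 10 ^ 4 - (U : ℝ) / 10 ^ 4
          = ((nxt s U - U : ℕ) : ℝ) / 10 ^ 4 := by
        rw [Nat.cast_sub hle]; ring
      rw [h4] at h1
      have h5 : (0 : ℝ) ≤ ((nxt s U - U : ℕ) : ℝ) := by positivity
      have h6 := mul_le_mul_of_nonneg_left h2 h5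
      rw [Nat.cast_add, Nat.cast_mul]
      nlinarith [h1, h3, h6]

theorem QB_of_check {m Y K h s fuel Q : ℕ} (hm : 1 ≤ m) (hQ : Q ≤ 10 ^ 4)
    (hc : qCheck m Y K h s fuel Q = true) :
    QB (2 * m) ((Y : ℝ) / 100) (((K * h : ℕ) : ℝ) / 10 ^ 4) ((Q : ℝ) / 10 ^ 4) := by
  have hy : (0 : ℝ) ≤ (Y : ℝ) / 100 := by positivity
  have hc' : (10 ^ 4 - Q) * hiSum m Y s fuel (K * h) ≤ Q * h * loSum m Y h K :=
    Nat.le_of_ble_eq_true hc
  have hc2 : ((10 : ℝ) ^ 4 - Q) * (hiSum m Y s fuel (K * h) : ℝ)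
      ≤ (Q : ℝ) * h * (loSum m Y h K : ℝ) := by
    have := (Nat.cast_le (α := ℝ)).mpr hc'
    rw [Nat.cast_mul, Nat.cast_sub hQ, Nat.cast_pow, Nat.cast_mul, Nat.cast_mul] at this
    exact_mod_cast this
  refine ⟨by positivity, ?_, ?_⟩
  · rw [div_le_one (by norm_num)]; exact_mod_cast hQ
  · rw [FF_even, FF_even, Ioi_split m hy (a := 0) (b := ((K * h : ℕ) : ℝ) / 10 ^ 4)
      (by positivity)]
    have h1 := loSum_le (Y := Y) (h := h) hm K
    have h2 := le_hiSum (Y := Y) (s := s) hm fuel (K * h)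
    set A := ∫ u in (0 : ℝ)..((K * h : ℕ) : ℝ) / 10 ^ 4, wf m ((Y : ℝ) / 100) u
    set B := ∫ u in Ioi (((K * h : ℕ) : ℝ) / 10 ^ 4), wf m ((Y : ℝ) / 100) u
    have hQ' : (0 : ℝ) ≤ 10 ^ 4 - Q := by
      have : (Q : ℝ) ≤ 10 ^ 4 := by exact_mod_cast hQ
      linarith
    have hQ0 : (0 : ℝ) ≤ (Q : ℝ) := by positivity
    have h3 := mul_le_mul_of_nonneg_left h2 hQ'
    have h4 := mul_le_mul_of_nonneg_left h1 hQ0
    have h5 : (10 ^ 4 - (Q : ℝ)) * (10 ^ 16 * B) ≤ Q * (10 ^ 16 * A) := by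
      linarith
    have h6 : (10 ^ 4 - (Q : ℝ)) * B ≤ Q * A := by nlinarith
    rw [div_mul_eq_mul_div, le_div_iff₀ (by norm_num)]
    linarith

end

end Pool.Agent.Saus
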