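import Pool.Agent.Lib.MP_5a9905_co.Ratio
import Pool.Agent.Lib.MP_5a9905_co.FMono
import Pool.Agent.Lib.MP_5a9905_co.QCheck
import Pool.Agent.Lib.MP_5a9905_co.ChainNum

/-!
# Sausage project (MP_5a9905_co), module UNIF: the numerical chain for all dimensions `≥ 52`
-/

set_option autoImplicit false

open Finset

namespace Pool.Agent.Saus

namespace UN

theorem pow_one (k : ℕ) : ((k : ℝ) + 55) ^ 2 ≤ 3 * (7 / 6 : ℝ) ^ (k + 52) := by
  induction k with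
  | zero => norm_num
  | succ k ih =>
    have h0 : (0 : ℝ) ≤ k := by positivity
    have h1 : (7 / 6 : ℝ) ^ (k + 1 + 52) = (7 / 6) ^ (k + 52) * (7 / 6) := by
      rw [← pow_succ]
    rw [h1]
    push_cast
    nlinarith

theorem pow_two' (k : ℕ) : 24000 * ((k : ℝ) + 55) ^ 2 ≤ 9 * (35 / 24 : ℝ) ^ (k + 52) := by
  induction k with
  | zero => norm_num
  | succ k ih =>
    have h0 : (0 : ℝ) ≤ k := by positivity
    have h1 : (35 / 24 : ℝ) ^ (k + 1 + 52) = (35 / 24) ^ (k + 52) * (35 / 24) := by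
      rw [← pow_succ]
    rw [h1]
    push_cast
    nlinarith

theorem gam_one_sq_ge (n : ℕ) : 18 * (1 / 2 : ℝ) ^ (n + 3) / (((n : ℝ) + 3) ^ 2 * ((n : ℝ) + 5) ^ 2)
    ≤ gam (n + 2) 1 ^ 2 := by
  rw [gam_sq (by norm_num) (by norm_num)]
  have h0 : (0 : ℝ) ≤ n := by positivity
  have h1 : (3 / 2 : ℝ) / (((n : ℝ) + 3) * ((n : ℝ) + 5)) ≤
      1 / (((n : ℝ) + 2) * (n + 3)) + (1 - 1 / 2) / (((n : ℝ) + 3) * (n + 5)) := by
    have h2 : (1 : ℝ) / (((n : ℝ) + 3) * ((n : ℝ) + 5)) ≤ 1 / (((n : ℝ) + 2) * (n + 3)) := by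
      apply one_div_le_one_div_of_le (by positivity)
      nlinarith
    have h3 : (3 / 2 : ℝ) / (((n : ℝ) + 3) * ((n : ℝ) + 5)) =
        1 / (((n : ℝ) + 3) * ((n : ℝ) + 5)) + (1 - 1 / 2) / (((n : ℝ) + 3) * (n + 5)) := by
      ring
    rw [h3]
    linarith
  have h4 : ((3 / 2 : ℝ) / (((n : ℝ) + 3) * ((n : ℝ) + 5))) ^ 2 ≤
      (1 / (((n : ℝ) + 2) * (n + 3)) + (1 - 1 / 2) / (((n : ℝ) + 3) * (n + 5))) ^ 2 :=
    pow_le_pow_left₀ (by positivity) h1 2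
  have h5 : (0 : ℝ) < (1 / 2 : ℝ) ^ (n + 3) := by positivity
  have h6 : 18 * (1 / 2 : ℝ) ^ (n + 3) / (((n : ℝ) + 3) ^ 2 * ((n : ℝ) + 5) ^ 2) =
      8 * 1 * (1 - 1 / 2) ^ (n + 3) * ((3 / 2 : ℝ) / (((n : ℝ) + 3) * ((n : ℝ) + 5))) ^ 2 := by
    have : (1 - 1 / 2 : ℝ) = 1 / 2 := by norm_num
    rw [this]
    field_simp
    ring
  rw [h6]
  apply mul_le_mul_of_nonneg_left h4
  have : (1 - 1 / 2 : ℝ) = 1 / 2 := by norm_num
  rw [this]
  positivity

theorem gam_one_pos (n : ℕ) : 0 < gam (n + 2) 1 := by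
  have h1 := gam_one_sq_ge n
  have h2 : 0 ≤ gam (n + 2) 1 := gam_nonneg (by norm_num)
  have h3 : 0 < 18 * (1 / 2 : ℝ) ^ (n + 3) / (((n : ℝ) + 3) ^ 2 * ((n : ℝ) + 5) ^ 2) := by
    positivity
  rcases h2.lt_or_eq with h | h
  · exact h
  · rw [← h] at h1
    norm_num at h1
    linarith

theorem P_sq (n : ℕ) : ((7 / 4 : ℝ) ^ (((n : ℝ) + 2) / 2)) ^ 2 = (7 / 4 : ℝ) ^ (n + 2) :=
  rpow_half_sq (by norm_num) _ _ (by push_cast; ring)

theorem sg_one_sq (n : ℕ) {R : ℝ} (h : 1 < R) :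
    sg (n + 2) R 1 ^ 2 = (R - 1) ^ (n + 3) / ((n : ℝ) + 3) ^ 2 := by
  rw [sg_sq (by norm_num) h, mul_one]

theorem claimA {n : ℕ} (hn : 50 ≤ n) :
    sg (n + 2) (7 / 4) 1 ≤ 1 / 2 * ((7 / 4 : ℝ) ^ (((n : ℝ) + 2) / 2) * gam (n + 2) 1) := by
  have hg := gam_one_pos n
  apply (sq_le_sq₀ (sg_nonneg _ _ _) (by positivity)).1
  rw [sg_one_sq n (by norm_num), mul_pow, mul_pow, P_sq]
  have h1 := gam_one_sq_ge n
  have hP : (0 : ℝ) < (7 / 4 : ℝ) ^ (n + 2) := by positivity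
  have h2 : (7 / 4 : ℝ) ^ (n + 2) * (18 * (1 / 2 : ℝ) ^ (n + 3) /
      (((n : ℝ) + 3) ^ 2 * ((n : ℝ) + 5) ^ 2)) ≤ (7 / 4 : ℝ) ^ (n + 2) * gam (n + 2) 1 ^ 2 :=
    mul_le_mul_of_nonneg_left h1 hP.le
  refine le_trans ?_ (mul_le_mul_of_nonneg_left h2 (by norm_num))
  obtain ⟨k, rfl⟩ := Nat.exists_eq_add_of_le hn
  have h3 := pow_one k
  have e1 : (7 / 4 - 1 : ℝ) ^ (50 + k + 3) = (3 / 4) * (3 / 4) ^ (k + 52) := by
    rw [← pow_succ']
    congr 1
    · norm_num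
    · omega
  have e2 : (1 / 2 : ℝ) ^ (50 + k + 3) = (1 / 2) * (1 / 2) ^ (k + 52) := by
    rw [← pow_succ']
    congr 1
    omega
  have e3 : (7 / 4 : ℝ) ^ (50 + k + 2) = (7 / 6) ^ (k + 52) * (3 / 2) ^ (k + 52) := by
    rw [← mul_pow]
    congr 1
    · norm_num
    · omega
  have e4 : (3 / 4 : ℝ) ^ (k + 52) = (3 / 2) ^ (k + 52) * (1 / 2) ^ (k + 52) := by
    rw [← mul_pow]
    congr 1
    norm_num
  rw [e1, e2, e3, e4]
  have hb : (0 : ℝ) < (3 / 2) ^ (k + 52) * (1 / 2) ^ (k + 52) := by positivity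
  have h4 := mul_le_mul_of_nonneg_right h3 hb.le
  generalize (7 / 6 : ℝ) ^ (k + 52) = a at *
  generalize (3 / 2 : ℝ) ^ (k + 52) = b at *
  generalize (1 / 2 : ℝ) ^ (k + 52) = c at *
  push_cast
  have hk : (0 : ℝ) ≤ k := by positivity
  rw [div_le_iff₀ (by positivity)]
  have h5 : (1 / 2 : ℝ) ^ 2 * (a * b * (18 * (1 / 2 * c) /
      ((50 + (k : ℝ) + 3) ^ 2 * (50 + (k : ℝ) + 5) ^ 2))) * (50 + (k : ℝ) + 3) ^ 2 =
      9 / 4 * (a * b * c) / ((k : ℝ) + 55) ^ 2 := by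
    have e : (50 + (k : ℝ) + 5) = (k : ℝ) + 55 := by ring
    rw [e]
    field_simp
    ring
  rw [h5, le_div_iff₀ (by positivity)]
  nlinarith

theorem claimB {n : ℕ} (hn : 50 ≤ n) :
    200 * sg (n + 2) (8 / 5) 1 ≤ (7 / 4 : ℝ) ^ (((n : ℝ) + 2) / 2) * gam (n + 2) 1 := by
  have hg := gam_one_pos n
  have hs := sg_nonneg (n + 2) (8 / 5) 1
  apply (sq_le_sq₀ (by positivity) (by positivity)).1
  rw [mul_pow, sg_one_sq n (by norm_num), mul_pow, P_sq]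
  have h1 := gam_one_sq_ge n
  have hP : (0 : ℝ) < (7 / 4 : ℝ) ^ (n + 2) := by positivity
  refine le_trans ?_ (mul_le_mul_of_nonneg_left h1 hP.le)
  obtain ⟨k, rfl⟩ := Nat.exists_eq_add_of_le hn
  have h3 := pow_two' k
  have e1 : (8 / 5 - 1 : ℝ) ^ (50 + k + 3) = (3 / 5) * (3 / 5) ^ (k + 52) := by
    rw [← pow_succ']
    congr 1
    · norm_num
    · omega
  have e2 : (1 / 2 : ℝ) ^ (50 + k + 3) = (1 / 2) * (1 / 2) ^ (k + 52) := by
    rw [← pow_succ']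
    congr 1
    omega
  have e3 : (7 / 4 : ℝ) ^ (50 + k + 2) = (35 / 24) ^ (k + 52) * (6 / 5) ^ (k + 52) := by
    rw [← mul_pow]
    congr 1
    · norm_num
    · omega
  have e4 : (3 / 5 : ℝ) ^ (k + 52) = (6 / 5) ^ (k + 52) * (1 / 2) ^ (k + 52) := by
    rw [← mul_pow]
    congr 1
    norm_num
  rw [e1, e2, e3, e4]
  have hb : (0 : ℝ) < (6 / 5) ^ (k + 52) * (1 / 2) ^ (k + 52) := by positivity
  have h4 := mul_le_mul_of_nonneg_right h3 hb.le
  generalize (35 / 24 : ℝ) ^ (k + 52) = a at *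
  generalize (6 / 5 : ℝ) ^ (k + 52) = b at *
  generalize (1 / 2 : ℝ) ^ (k + 52) = c at *
  push_cast
  have hk : (0 : ℝ) ≤ k := by positivity
  rw [← mul_div_assoc, div_le_iff₀ (by positivity)]
  have h5 : a * b * (18 * (1 / 2 * c) /
      ((50 + (k : ℝ) + 3) ^ 2 * (50 + (k : ℝ) + 5) ^ 2)) * (50 + (k : ℝ) + 3) ^ 2 =
      9 * (a * b * c) / ((k : ℝ) + 55) ^ 2 := by
    have e : (50 + (k : ℝ) + 5) = (k : ℝ) + 55 := by ring
    rw [e]
    field_simp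
    ring
  rw [h5, le_div_iff₀ (by positivity)]
  nlinarith

/-- The increments of the square root decrease. -/
theorem sqrt_inc {a b θ θ₀ : ℝ} (ha : 0 ≤ a) (hab : a ≤ b) (h0 : 0 < θ) (h : θ ≤ θ₀) :
    √(b + θ₀) - √(a + θ₀) ≤ √(b + θ) - √(a + θ) := by
  have h1 : √(a + θ) ≤ √(a + θ₀) := Real.sqrt_le_sqrt (by linarith)
  have h2 : √(b + θ) ≤ √(b + θ₀) := Real.sqrt_le_sqrt (by linarith)
  have h3 : √(a + θ) ≤ √(b + θ) := Real.sqrt_le_sqrt (by linarith)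
  have h4 : 0 < √(a + θ) := Real.sqrt_pos.2 (by linarith)
  have e1 : √(a + θ) ^ 2 = a + θ := Real.sq_sqrt (by linarith)
  have e2 : √(a + θ₀) ^ 2 = a + θ₀ := Real.sq_sqrt (by linarith)
  have e3 : √(b + θ) ^ 2 = b + θ := Real.sq_sqrt (by linarith)
  have e4 : √(b + θ₀) ^ 2 = b + θ₀ := Real.sq_sqrt (by linarith)
  by_contra hc
  push Not at hc
  nlinarith [mul_nonneg (sub_nonneg.2 h3) (sub_nonneg.2 h1),
    mul_nonneg (sub_nonneg.2 h3) (sub_nonneg.2 h2)]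

/-- levels -/
noncomputable def yy : ℕ → ℝ
  | 0 => 0
  | 1 => 6 / 100
  | 2 => 18 / 100
  | 3 => 30 / 100
  | 4 => 44 / 100
  | _ => 60 / 100

/-- overlap bounds -/
noncomputable def qq : ℕ → ℝ
  | 0 => 1
  | 1 => 4260 / 10 ^ 4
  | 2 => 2167 / 10 ^ 4
  | 3 => 1200 / 10 ^ 4
  | _ => 624 / 10 ^ 4

theorem qb {n : ℕ} (hn : 50 ≤ n) (j : ℕ) (hj : j < 5) :
    QB n (yy j) (((118 * 32 : ℕ) : ℝ) / 10 ^ 4) (qq j) := by
  have hτ : (0 : ℝ) ≤ ((118 * 32 : ℕ) : ℝ) / 10 ^ 4 := by positivity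
  have gen : ∀ (Y Q : ℕ), Q ≤ 10 ^ 4 → qCheck 25 Y 118 32 32 400 Q = true →
      QB n ((Y : ℝ) / 100) (((118 * 32 : ℕ) : ℝ) / 10 ^ 4) ((Q : ℝ) / 10 ^ 4) := by
    intro Y Q hQ h
    have := QB_of_check (m := 25) (by norm_num) hQ h
    exact QB.mono_n this hτ (by positivity) (by omega)
  interval_cases j
  · exact QB.one hτ le_rfl
  · exact gen 6 4260 (by norm_num) (by decide +kernel)
  · exact gen 18 2167 (by norm_num) (by decide +kernel)
  · exact gen 30 1200 (by norm_num) (by decide +kernel)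
  · exact gen 44 624 (by norm_num) (by decide +kernel)

theorem tsm_ge {n : ℕ} (hn : 50 ≤ n) : 21 / 10 ≤ tsmSum n 12 5 yy qq := by
  have hn' : (50 : ℝ) ≤ n := by exact_mod_cast hn
  have hθ0 : (0 : ℝ) < 2 / ((n : ℝ) + 3) := by positivity
  have hθ : 2 / ((n : ℝ) + 3) ≤ 2 / 53 := by
    apply div_le_div_of_nonneg_left (by norm_num) (by norm_num)
    linarith
  have inc : ∀ a b : ℝ, 0 ≤ a → a ≤ b → √(b + 2 / 53) - √(a + 2 / 53) ≤
      √(b + 2 / ((n : ℝ) + 3)) - √(a + 2 / ((n : ℝ) + 3)) :=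
    fun a b ha hab => sqrt_inc ha hab hθ0 hθ
  have up : ∀ x r : ℝ, 0 ≤ r → x + 2 / 53 ≤ r ^ 2 → √(x + 2 / 53) ≤ r := by
    intro x r hr h
    exact Real.sqrt_le_iff.2 ⟨hr, h⟩
  have lo : ∀ x r : ℝ, 0 ≤ r → r ^ 2 ≤ x + 2 / 53 → r ≤ √(x + 2 / 53) := by
    intro x r hr h
    exact Real.le_sqrt_of_sq_le h
  have a0 := up 0 (1943 / 10000) (by norm_num) (by norm_num)
  have a1 := up (6 / 100) (3127 / 10000) (by norm_num) (by norm_num)
  have b1 := lo (6 / 100) (3126 / 10000) (by norm_num) (by norm_num)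
  have a2 := up (18 / 100) (4667 / 10000) (by norm_num) (by norm_num)
  have b2 := lo (18 / 100) (4666 / 10000) (by norm_num) (by norm_num)
  have a3 := up (30 / 100) (5812 / 10000) (by norm_num) (by norm_num)
  have b3 := lo (30 / 100) (5811 / 10000) (by norm_num) (by norm_num)
  have a4 := up (44 / 100) (6912 / 10000) (by norm_num) (by norm_num)
  have b4 := lo (44 / 100) (6911 / 10000) (by norm_num) (by norm_num)
  have b5 := lo (60 / 100) (7985 / 10000) (by norm_num) (by norm_num)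
  have i0 := inc 0 (6 / 100) (by norm_num) (by norm_num)
  have i1 := inc (6 / 100) (18 / 100) (by norm_num) (by norm_num)
  have i2 := inc (18 / 100) (30 / 100) (by norm_num) (by norm_num)
  have i3 := inc (30 / 100) (44 / 100) (by norm_num) (by norm_num)
  have i4 := inc (44 / 100) (60 / 100) (by norm_num) (by norm_num)
  unfold tsmSum
  simp only [Finset.sum_range_succ, Finset.sum_range_zero, yy, qq, Nat.reduceAdd, zero_add]
  push_cast
  have c0 : (12 : ℝ) / (1 + (12 - 1) * 1) = 1 := by norm_num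
  have c1 : (211 / 100 : ℝ) ≤ (12 : ℝ) / (1 + (12 - 1) * (4260 / 10 ^ 4)) := by norm_num
  have c2 : (354 / 100 : ℝ) ≤ (12 : ℝ) / (1 + (12 - 1) * (2167 / 10 ^ 4)) := by norm_num
  have c3 : (517 / 100 : ℝ) ≤ (12 : ℝ) / (1 + (12 - 1) * (1200 / 10 ^ 4)) := by norm_num
  have c4 : (711 / 100 : ℝ) ≤ (12 : ℝ) / (1 + (12 - 1) * (624 / 10 ^ 4)) := by norm_num
  have m1 : (1539 / 10000 : ℝ) * (211 / 100) ≤
      (√(18 / 100 + 2 / ((n : ℝ) + 3)) - √(6 / 100 + 2 / ((n : ℝ) + 3))) *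
        ((12 : ℝ) / (1 + (12 - 1) * (4260 / 10 ^ 4))) :=
    mul_le_mul (by linarith) c1 (by norm_num) (by linarith)
  have m2 : (1144 / 10000 : ℝ) * (354 / 100) ≤
      (√(30 / 100 + 2 / ((n : ℝ) + 3)) - √(18 / 100 + 2 / ((n : ℝ) + 3))) *
        ((12 : ℝ) / (1 + (12 - 1) * (2167 / 10 ^ 4))) :=
    mul_le_mul (by linarith) c2 (by norm_num) (by linarith)
  have m3 : (1099 / 10000 : ℝ) * (517 / 100) ≤
      (√(44 / 100 + 2 / ((n : ℝ) + 3)) - √(30 / 100 + 2 / ((n : ℝ) + 3))) *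
        ((12 : ℝ) / (1 + (12 - 1) * (1200 / 10 ^ 4))) :=
    mul_le_mul (by linarith) c3 (by norm_num) (by linarith)
  have m4 : (1073 / 10000 : ℝ) * (711 / 100) ≤
      (√(60 / 100 + 2 / ((n : ℝ) + 3)) - √(44 / 100 + 2 / ((n : ℝ) + 3))) *
        ((12 : ℝ) / (1 + (12 - 1) * (624 / 10 ^ 4))) :=
    mul_le_mul (by linarith) c4 (by norm_num) (by linarith)
  rw [zero_add (2 / ((n : ℝ) + 3)), zero_add] at i0
  rw [zero_add] at a0
  rw [c0]
  linarith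

variable {ι : Type}

/-- The cut sum against the Blichfeldt sum. -/
theorem S_le {n : ℕ} (hn : 50 ≤ n) (I : Finset ι) (x : ι → ℝ) (h1 : ∀ i ∈ I, 1 ≤ x i) {R : ℝ}
    (hR : R ≤ 2) : (∑ i ∈ I, sg (n + 2) R (x i)) * gam (n + 2) 1 ≤
      sg (n + 2) R 1 * ∑ i ∈ I.filter (fun i => x i < 2), gam (n + 2) (x i) := by
  have h2 : ∑ i ∈ I, sg (n + 2) R (x i) =
      ∑ i ∈ I.filter (fun i => x i < 2), sg (n + 2) R (x i) := by
    symm
    apply Finset.sum_subset (Finset.filter_subset _ _)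
    intro i hi hni
    have h3 : ¬ x i < 2 := fun h => hni (Finset.mem_filter.2 ⟨hi, h⟩)
    unfold sg
    rw [if_neg]
    intro h
    exact h3 (by linarith)
  rw [h2, Finset.sum_mul, Finset.mul_sum]
  apply Finset.sum_le_sum
  intro i hi
  rw [Finset.mem_filter] at hi
  exact sg_gam_ratio (n + 2) (by omega) hR le_rfl (h1 i hi.1) hi.2

theorem chain {n : ℕ} (hn : 50 ≤ n) (I : Finset ι) (x : ι → ℝ) (hF : Facts n I x) :
    ∑ i ∈ I, sg (n + 2) 2 (x i) ≤ 1 / 4 := by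
  have hn' : (50 : ℝ) ≤ n := by exact_mod_cast hn
  set G := ∑ i ∈ I.filter (fun i => x i < 2), gam (n + 2) (x i) with hG
  set P := (7 / 4 : ℝ) ^ (((n : ℝ) + 2) / 2) with hP
  have hP0 : 0 < P := by positivity
  have hg := gam_one_pos n
  have hG0 : 0 ≤ G := by
    apply Finset.sum_nonneg
    intro i hi
    rw [Finset.mem_filter] at hi
    exact gam_nonneg hi.2.le
  have hbli := hF.bli (7 / 4) (by norm_num) (by norm_num)
  rw [← hG, ← hP] at hbli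
  have hA := claimA hn
  have hB := claimB hn
  rw [← hP] at hA hB
  have hSA := S_le hn I x hF.one_le (R := 7 / 4) (by norm_num)
  have hSB := S_le hn I x hF.one_le (R := 8 / 5) (by norm_num)
  rw [← hG] at hSA hSB
  have hS1 : ∑ i ∈ I, sg (n + 2) (7 / 4) (x i) ≤ 1 / 2 * (P * G) := by
    have h1 : (∑ i ∈ I, sg (n + 2) (7 / 4) (x i)) * gam (n + 2) 1 ≤
        (1 / 2 * (P * G)) * gam (n + 2) 1 := by
      refine hSA.trans ?_
      have := mul_le_mul_of_nonneg_right hA hG0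
      refine this.trans (le_of_eq ?_)
      ring
    exact le_of_mul_le_mul_right h1 hg
  have hPG : P * G < 4 := by linarith
  have hS2 : ∑ i ∈ I, sg (n + 2) (8 / 5) (x i) ≤ 1 / 50 := by
    have h1 : (∑ i ∈ I, sg (n + 2) (8 / 5) (x i)) * gam (n + 2) 1 ≤
        (1 / 200 * (P * G)) * gam (n + 2) 1 := by
      refine hSB.trans ?_
      have := mul_le_mul_of_nonneg_right hB hG0
      nlinarith
    have h2 := le_of_mul_le_mul_right h1 hg
    linarith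
  have hN : (I.filter (fun i => x i < 2)).card ≤ 11 := by
    by_contra hc
    push Not at hc
    have h := hF.tsm 12 2 (((118 * 32 : ℕ) : ℝ) / 10 ^ 4) 5 yy qq (by norm_num) le_rfl
      (by positivity) (by norm_num) rfl (by
        intro j hj
        interval_cases j <;> · simp only [yy]; norm_num) (by simp only [yy]; norm_num)
      (fun j hj => qb hn j hj) (by omega)
    have h1 := tsm_ge hn
    have h2 : 0 ≤ kap (n + 2) / kap (n + 1) := (div_pos (kap_pos _) (kap_pos _)).le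
    have h3 : (1 : ℝ) + yy 5 = 8 / 5 := by
      simp only [yy]
      norm_num
    rw [h3] at h
    linarith
  have h2 : ∑ i ∈ I, sg (n + 2) 2 (x i) =
      ∑ i ∈ I.filter (fun i => x i < 2), sg (n + 2) 2 (x i) := by
    symm
    apply Finset.sum_subset (Finset.filter_subset _ _)
    intro i hi hni
    have h3 : ¬ x i < 2 := fun h => hni (Finset.mem_filter.2 ⟨hi, h⟩)
    unfold sg
    rw [if_neg h3]
  have h3 : ∀ i ∈ I.filter (fun i => x i < 2), sg (n + 2) 2 (x i) ≤ 1 / 53 := by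
    intro i hi
    rw [Finset.mem_filter] at hi
    refine (sg_anti (n + 2) (by norm_num) (hF.one_le i hi.1)).trans ?_
    unfold sg
    rw [if_pos (by norm_num)]
    have e1 : (2 - 1 : ℝ) = 1 := by norm_num
    rw [e1, Real.one_rpow, Real.sqrt_one, mul_one]
    push_cast
    apply one_div_le_one_div_of_le (by norm_num)
    linarith
  rw [h2]
  refine (Finset.sum_le_card_nsmul _ _ _ h3).trans ?_
  rw [nsmul_eq_mul]
  have h4 : ((I.filter (fun i => x i < 2)).card : ℝ) ≤ 11 := by exact_mod_cast hN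
  linarith

end UN

/-- The chain for all dimensions at least `52`. -/
theorem chain_unif {n : ℕ} (hn : 50 ≤ n) : ChainOut n 2 (1 / 4) (1 / 4) :=
  fun I x hF => ⟨UN.chain hn I x hF, UN.chain hn I x hF⟩

end Pool.Agent.Saus
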