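import Pool.Agent.Lib.MP_5a9905_co.Cert.N12
import Pool.Agent.Lib.MP_5a9905_co.Cert.N13
import Pool.Agent.Lib.MP_5a9905_co.Cert.N14
import Pool.Agent.Lib.MP_5a9905_co.Cert.N15
import Pool.Agent.Lib.MP_5a9905_co.Cert.N16
import Pool.Agent.Lib.MP_5a9905_co.Cert.N17
import Pool.Agent.Lib.MP_5a9905_co.Cert.N18
import Pool.Agent.Lib.MP_5a9905_co.Cert.N19
import Pool.Agent.Lib.MP_5a9905_co.Cert.N20
import Pool.Agent.Lib.MP_5a9905_co.Cert.N21
import Pool.Agent.Lib.MP_5a9905_co.Cert.N22
import Pool.Agent.Lib.MP_5a9905_co.Cert.N23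
import Pool.Agent.Lib.MP_5a9905_co.Cert.N24
import Pool.Agent.Lib.MP_5a9905_co.Cert.N25
import Pool.Agent.Lib.MP_5a9905_co.Cert.N26
import Pool.Agent.Lib.MP_5a9905_co.Cert.N27
import Pool.Agent.Lib.MP_5a9905_co.Cert.N28
import Pool.Agent.Lib.MP_5a9905_co.Cert.N29
import Pool.Agent.Lib.MP_5a9905_co.Cert.N30
import Pool.Agent.Lib.MP_5a9905_co.Cert.N31
import Pool.Agent.Lib.MP_5a9905_co.Cert.N32
import Pool.Agent.Lib.MP_5a9905_co.Cert.N33
import Pool.Agent.Lib.MP_5a9905_co.Cert.N34
import Pool.Agent.Lib.MP_5a9905_co.Cert.N35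
import Pool.Agent.Lib.MP_5a9905_co.Cert.N36
import Pool.Agent.Lib.MP_5a9905_co.Cert.N37
import Pool.Agent.Lib.MP_5a9905_co.Cert.N38
import Pool.Agent.Lib.MP_5a9905_co.Cert.N39
import Pool.Agent.Lib.MP_5a9905_co.Cert.N40
import Pool.Agent.Lib.MP_5a9905_co.Cert.N41
import Pool.Agent.Lib.MP_5a9905_co.Cert.N42
import Pool.Agent.Lib.MP_5a9905_co.Cert.N43
import Pool.Agent.Lib.MP_5a9905_co.Cert.N44
import Pool.Agent.Lib.MP_5a9905_co.Cert.N45
import Pool.Agent.Lib.MP_5a9905_co.Cert.N46
import Pool.Agent.Lib.MP_5a9905_co.Cert.N47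
import Pool.Agent.Lib.MP_5a9905_co.Cert.N48
import Pool.Agent.Lib.MP_5a9905_co.Cert.N49
import Pool.Agent.Lib.MP_5a9905_co.Unif
import Pool.Agent.Lib.MP_5a9905_co.LocalE
import Pool.Agent.Lib.MP_5a9905_co.Global

/-! The sausage theorem in all dimensions `d ≥ 14`: assembly. -/

set_option autoImplicit false

open MeasureTheory

namespace Pool.Agent.Saus

theorem exists_cert (n : ℕ) (hn : 12 ≤ n) :
    ∃ R s s₂ : ℝ, ChainOut n R s s₂ ∧ NumOut n R s s₂ := by
  rcases Nat.lt_or_ge n 50 with h | h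
  · interval_cases n
    · exact N12.out
    · exact N13.out
    · exact N14.out
    · exact N15.out
    · exact N16.out
    · exact N17.out
    · exact N18.out
    · exact N19.out
    · exact N20.out
    · exact N21.out
    · exact N22.out
    · exact N23.out
    · exact N24.out
    · exact N25.out
    · exact N26.out
    · exact N27.out
    · exact N28.out
    · exact N29.out
    · exact N30.out
    · exact N31.out
    · exact N32.out
    · exact N33.out
    · exact N34.out
    · exact N35.out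
    · exact N36.out
    · exact N37.out
    · exact N38.out
    · exact N39.out
    · exact N40.out
    · exact N41.out
    · exact N42.out
    · exact N43.out
    · exact N44.out
    · exact N45.out
    · exact N46.out
    · exact N47.out
    · exact N48.out
    · exact N49.out
  · exact ⟨_, _, _, chain_unif h, numOut_unif h⟩

theorem sausage_all (n : ℕ) (hn : 12 ≤ n) (k : ℕ) (x : Fin k → E (n + 2))
    (hx : ∀ i j : Fin k, i ≠ j → 2 ≤ dist (x i) (x j)) (e : E (n + 2)) (he : ‖e‖ = 1) :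
    volume (convexHull ℝ (⋃ i : Fin k, Metric.closedBall ((2 * ((i : ℕ) : ℝ)) • e) (1 : ℝ)))
      ≤ volume (convexHull ℝ (⋃ i : Fin k, Metric.closedBall (x i) (1 : ℝ))) := by
  obtain ⟨R, s, s₂, hch, hnum⟩ := exists_cert n hn
  exact sausage_of_local (by omega) (fun Y K hL h => local_N (by omega) hch hnum hL h)
    (fun Y K hL hY => local_E (by omega) hch hnum hL hY) k x hx e he

end Pool.Agent.Saus
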