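import Pool.Agent.Lib.MP_5a9905_co.Main

/-!
# The sausage conjecture of L. Fejes Tóth in every dimension `d ≥ 14`

For every `d ≥ 14` and every `k`, any `k` unit balls of `ℝ^d` with centres pairwise at distance
at least `2` have a convex hull whose volume is at least that of the sausage of `k` balls.
-/

set_option autoImplicit false

open MeasureTheory

namespace Pool.Agent.Saus.Fourteen

theorem result :
    ∀ d : ℕ, 14 ≤ d → ∀ k : ℕ, ∀ x : Fin k → EuclideanSpace ℝ (Fin d),
      (∀ i j : Fin k, i ≠ j → 2 ≤ dist (x i) (x j)) →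
      ∀ e : EuclideanSpace ℝ (Fin d), ‖e‖ = 1 →
        volume (convexHull ℝ (⋃ i : Fin k, Metric.closedBall ((2 * ((i : ℕ) : ℝ)) • e) (1 : ℝ)))
          ≤ volume (convexHull ℝ (⋃ i : Fin k, Metric.closedBall (x i) (1 : ℝ))) := by
  intro d hd k x hx e he
  obtain ⟨n, rfl⟩ : ∃ n, d = n + 2 := ⟨d - 2, by omega⟩
  exact Pool.Agent.Saus.sausage_all n (by omega) k x hx e he

end Pool.Agent.Saus.Fourteen
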