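import Pool.Agent.Lib.MP_5a9905_co.Defs
import Pool.Agent.Lib.MP_5a9905_co.Cyl
import Pool.Agent.Lib.MP_5a9905_co.Kap

/-!
# Sausage project: segments of balls (module SEG)
-/

set_option autoImplicit false

open MeasureTheory Set

namespace Pool.Agent.Saus

noncomputable section

variable {n : ℕ}

namespace Seg

/-- The antiderivative. -/
theorem hasDerivAt_aux (n : ℕ) {R h : ℝ} (hh : 0 < h) (t : ℝ) :
    HasDerivAt (fun t : ℝ => -((R - t ^ 2) ^ (((n : ℝ) + 3) / 2) / (((n : ℝ) + 3) * h)))
      (t / h * (R - t ^ 2) ^ (((n : ℝ) + 1) / 2)) t := by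
  have hn : (0 : ℝ) ≤ n := Nat.cast_nonneg n
  have h1 : HasDerivAt (fun t : ℝ => R - t ^ 2) (-(2 * t)) t := by
    simpa using ((hasDerivAt_pow 2 t).const_sub R)
  have h2 := h1.rpow_const (p := ((n : ℝ) + 3) / 2) (Or.inr (by linarith))
  have h3 := (h2.div_const (((n : ℝ) + 3) * h)).neg
  refine h3.congr_deriv ?_
  have he : ((n : ℝ) + 3) / 2 - 1 = ((n : ℝ) + 1) / 2 := by ring
  rw [he]
  have hn3 : (n : ℝ) + 3 ≠ 0 := by linarith
  field_simp

theorem continuous_aux (n : ℕ) (R h : ℝ) :
    Continuous (fun t : ℝ => t / h * (R - t ^ 2) ^ (((n : ℝ) + 1) / 2)) := by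
  have hn : (0 : ℝ) ≤ n := Nat.cast_nonneg n
  exact (continuous_id.div_const h).mul
    ((continuous_const.sub (continuous_id.pow 2)).rpow_const fun _ => Or.inr (by linarith))

theorem integral_aux (n : ℕ) {R h : ℝ} (hh : 0 < h) (hR : h ^ 2 < R) :
    ∫ t in Ioc h (√R), t / h * (R - t ^ 2) ^ (((n : ℝ) + 1) / 2)
      = (R - h ^ 2) ^ (((n : ℝ) + 3) / 2) / (((n : ℝ) + 3) * h) := by
  have hn : (0 : ℝ) ≤ n := Nat.cast_nonneg n
  have hle : h ≤ √R := (Real.le_sqrt hh.le (by nlinarith)).2 hR.le
  rw [← intervalIntegral.integral_of_le hle,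
    intervalIntegral.integral_eq_sub_of_hasDerivAt (fun t _ => hasDerivAt_aux n (R := R) hh t)
      ((continuous_aux n R h).intervalIntegrable _ _),
    Real.sq_sqrt (by nlinarith), sub_self, Real.zero_rpow (by positivity)]
  ring

end Seg

/-- B4 SEG. -/
theorem seg_upper (u : E (n + 2)) (hu : ‖u‖ = 1) {R h : ℝ} (hh : 0 < h) :
    volume.real ({z | h < inner ℝ u z} ∩ Bl (n + 2) R) ≤ kap (n + 1) * sg (n + 2) R (h ^ 2) := by
  have hn : (0 : ℝ) ≤ n := Nat.cast_nonneg n
  by_cases hR : h ^ 2 < R
  · have hsg : sg (n + 2) R (h ^ 2)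
        = (R - h ^ 2) ^ (((n : ℝ) + 3) / 2) / (((n : ℝ) + 3) * h) := by
      unfold sg
      rw [if_pos hR, Real.sqrt_sq hh.le]
      have h1 : (((n + 2 : ℕ) : ℝ) + 1) = (n : ℝ) + 3 := by push_cast; ring
      rw [h1]
    have hk := (kap_pos (n + 1)).le
    have hval : 0 ≤ (R - h ^ 2) ^ (((n : ℝ) + 3) / 2) / (((n : ℝ) + 3) * h) := by
      have : 0 ≤ R - h ^ 2 := by linarith
      positivity
    set A : Set (ℝ × ℝ) := {q | h < q.1 ∧ q.2 ≤ R} with hA
    have hAm : MeasurableSet A :=
      (measurableSet_lt measurable_const measurable_fst).inter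
        (measurableSet_le measurable_snd measurable_const)
    have hset : ({z : E (n + 2) | h < inner ℝ u z} ∩ Bl (n + 2) R)
        = {z : E (n + 1 + 1) | (inner ℝ u z, ‖z‖ ^ 2) ∈ A} := by
      ext z
      simp [hA, Bl]
    have hmain : volume ({z : E (n + 2) | h < inner ℝ u z} ∩ Bl (n + 2) R)
        ≤ ENNReal.ofReal (kap (n + 1) * sg (n + 2) R (h ^ 2)) := by
      rw [hset, cyl_measure u hu A hAm, Measure.volume_eq_prod]
      have hSm : MeasurableSet {q : ℝ × E (n + 1) | (q.1, q.1 ^ 2 + ‖q.2‖ ^ 2) ∈ A} := by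
        have hf : Measurable (fun q : ℝ × E (n + 1) => (q.1, q.1 ^ 2 + ‖q.2‖ ^ 2)) := by
          fun_prop
        exact hf hAm
      rw [Measure.prod_apply hSm]
      calc ∫⁻ t, volume (Prod.mk t ⁻¹' {q : ℝ × E (n + 1) | (q.1, q.1 ^ 2 + ‖q.2‖ ^ 2) ∈ A})
          ≤ ∫⁻ t, (Ioc h (√R)).indicator (fun t => ENNReal.ofReal (kap (n + 1) *
              (t / h * (R - t ^ 2) ^ (((n : ℝ) + 1) / 2)))) t := by
            refine lintegral_mono fun t => ?_
            by_cases ht : t ∈ Ioc h (√R)
            · rw [indicator_of_mem ht]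
              have ht0 : 0 < t := hh.trans ht.1
              have hR0 : 0 ≤ R := by nlinarith
              have hRt : 0 ≤ R - t ^ 2 := by
                have := Real.sq_sqrt hR0
                have h2 : t ^ 2 ≤ (√R) ^ 2 := pow_le_pow_left₀ ht0.le ht.2 2
                linarith
              have hsub : (Prod.mk t ⁻¹' {q : ℝ × E (n + 1) | (q.1, q.1 ^ 2 + ‖q.2‖ ^ 2) ∈ A})
                  ⊆ Bl (n + 1) (R - t ^ 2) := by
                intro v hv
                have h3 : h < t ∧ t ^ 2 + ‖v‖ ^ 2 ≤ R := hv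
                show ‖v‖ ^ 2 ≤ R - t ^ 2
                linarith [h3.2]
              refine (measure_mono hsub).trans ?_
              rw [volume_Bl (n + 1) hRt]
              apply ENNReal.ofReal_le_ofReal
              have hc : (((n + 1 : ℕ) : ℝ)) / 2 = ((n : ℝ) + 1) / 2 := by push_cast; ring
              rw [hc]
              have h4 : 1 ≤ t / h := by rw [one_le_div hh]; exact ht.1.le
              have h5 : 0 ≤ (R - t ^ 2) ^ (((n : ℝ) + 1) / 2) := Real.rpow_nonneg hRt _
              calc (R - t ^ 2) ^ (((n : ℝ) + 1) / 2) * kap (n + 1)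
                  = kap (n + 1) * (1 * (R - t ^ 2) ^ (((n : ℝ) + 1) / 2)) := by ring
                _ ≤ _ := by gcongr
            · rw [indicator_of_notMem ht]
              have hemp : (Prod.mk t ⁻¹' {q : ℝ × E (n + 1) | (q.1, q.1 ^ 2 + ‖q.2‖ ^ 2) ∈ A})
                  = ∅ := by
                ext v
                simp only [mem_empty_iff_false, iff_false]
                intro hv
                have h3 : h < t ∧ t ^ 2 + ‖v‖ ^ 2 ≤ R := hv
                apply ht
                refine ⟨h3.1, ?_⟩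
                apply Real.le_sqrt_of_sq_le
                nlinarith [h3.2, sq_nonneg ‖v‖]
              rw [hemp, measure_empty]
        _ = ∫⁻ t in Ioc h (√R), ENNReal.ofReal (kap (n + 1) *
              (t / h * (R - t ^ 2) ^ (((n : ℝ) + 1) / 2))) := by
            rw [lintegral_indicator measurableSet_Ioc]
        _ = ENNReal.ofReal (∫ t in Ioc h (√R), kap (n + 1) *
              (t / h * (R - t ^ 2) ^ (((n : ℝ) + 1) / 2))) := by
            rw [ofReal_integral_eq_lintegral_ofReal]
            · exact (((Seg.continuous_aux n R h).const_mul (kap (n + 1))).integrableOn_Icc).mono_set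
                Ioc_subset_Icc_self
            · refine (ae_restrict_iff' measurableSet_Ioc).2 (Filter.Eventually.of_forall ?_)
              intro t ht
              have ht0 : 0 < t := hh.trans ht.1
              have hR0 : 0 ≤ R := by nlinarith
              have hRt : 0 ≤ R - t ^ 2 := by
                have := Real.sq_sqrt hR0
                have h2 : t ^ 2 ≤ (√R) ^ 2 := pow_le_pow_left₀ ht0.le ht.2 2
                linarith
              show 0 ≤ _
              have := Real.rpow_nonneg hRt (((n : ℝ) + 1) / 2)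
              positivity
        _ = ENNReal.ofReal (kap (n + 1) * sg (n + 2) R (h ^ 2)) := by
            rw [integral_const_mul, Seg.integral_aux n hh hR, hsg]
    rw [measureReal_def]
    refine ENNReal.toReal_le_of_le_ofReal ?_ hmain
    rw [hsg]
    positivity
  · have hemp : ({z : E (n + 2) | h < inner ℝ u z} ∩ Bl (n + 2) R) = ∅ := by
      ext z
      simp only [mem_empty_iff_false, iff_false]
      rintro ⟨h1, h2⟩
      have h1' : h < inner ℝ u z := h1
      have h2' : ‖z‖ ^ 2 ≤ R := h2
      have h3 : inner ℝ u z ≤ ‖u‖ * ‖z‖ := real_inner_le_norm u z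
      rw [hu, one_mul] at h3
      have h4 : h ^ 2 < ‖z‖ ^ 2 := by
        apply pow_lt_pow_left₀ (h1'.trans_le h3) hh.le
        norm_num
      exact hR (h4.trans_le h2')
    rw [hemp]
    simp [sg, hR]

end

end Pool.Agent.Saus
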